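import Pool.Agent.T6J.StP

/-!
# The certificate for all degrees, vertices with giant neighbours included (MP_c6effb_co)

The same as `StP.lean`, but the row of a cluster `b` with `n_b < dh` has the extra factor `1 - n_c` at the
cluster `c`: for a cluster `i₀` of the giants the set `J(b)` minus `N(i₀)` is used, averaged over `i₀`; for
`n_b ≥ dh` the cluster `i₀` is chosen in `N(b)` and nothing changes.

Vertices without giant neighbours: as in `StP.lean`. A vertex with `d` neighbours and `j ≥ 1` giant neighbours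
behaves like a vertex of degree `D = d + 1` (`AsmH.lean`: exponent `d + 1`, at most `d + 1` killers, full list);
its line is the one of `d + 2 j`, which is at least `dL dmin D` if `d + j ≥ dmin`; its load has to be at most
`(1 - ε) (1 - x)`.
-/

set_option autoImplicit false

open Finset

namespace Pool.Agent.T6J.H

open Pool.Agent.T6A

noncomputable section

/-- The factor in the row of a cluster with `n_b = x`, other cluster `n_c = y`. -/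
def mbH (dh s0 s1 ε : ℝ) (k : ℕ) (D x y : ℝ) : ℝ :=
  if x < dh then (1 - y) * P.mb s0 s1 ε k D x y else P.mb s0 s1 ε k D x y

/-- The common data of a box. -/
structure BoxOKH (dh s0 s1 ε : ℝ) (k : ℕ) (D : ℝ) (f p r : ℝ → ℝ) (f0 : ℝ) : Prop where
  s01 : 1 / 2 ≤ s0 ∧ s0 < s1 ∧ s1 ≤ 2
  hiS : s1 < 1 ∨ ∀ x, r x = 0
  kD : (k : ℝ) ≤ D ∧ D ≤ k + 1
  f0' : f0 ≤ 10
  f0 : ∀ x, 0 ≤ f x ∧ f x ≤ f0
  p0 : ∀ x, 0 ≤ p x ∧ p x ≤ 10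
  r0 : ∀ x, 0 ≤ r x ∧ r x ≤ 10
  supp : ∀ x, 24 / 25 < x → f x = 0
  pair : ∀ x y, 0 ≤ x → 0 ≤ y → x + y ≤ 1 → 0 < f x → 0 < f y →
    f x * f y * ((1 - x)⁻¹ + (1 - y)⁻¹) ≤
      p x + p y + r x * mbH dh s0 s1 ε k D x y + r y * mbH dh s0 s1 ε k D y x

/-- The least possible price `d + 2 j` of a vertex with `j ≥ 1`, `d + 1 = D`, `d + j ≥ dmin`. -/
def dL (dmin D : ℕ) : ℕ := max (D + 1) (2 * dmin + 1 - D)

theorem dL_le {dmin d j : ℕ} (hj : 1 ≤ j) (h : dmin ≤ d + j) : dL dmin (d + 1) ≤ d + 2 * j := by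
  unfold dL
  omega

/-- The line of the degree `dl` as a line of the degree `d` with another `η`. -/
theorem Ld_shift (η sl : ℝ) (dl d : ℕ) (q s : ℝ) :
    Ld (η - sl * ((dl : ℝ) - d)) sl d q s = Ld η sl dl q s := by
  unfold Ld
  ring

/-- `FinOK` with the line of the degree `dl` (exponent `d`). -/
theorem finOK_shift {q0 q1 s0 s1 η sl ε lc f0 : ℝ} {dl d : ℕ} {c1 be um a0 b0 a1 b1 aA bA : ℝ}
    (lc0 : 0 < lc ∧ lc ≤ 10) (load : 2 * lc * f0 ≤ 1 - ε)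
    (A0 : ∀ q s : ℝ, q0 ≤ q → q ≤ q1 → s0 ≤ s → s ≤ s1 → 0 ≤ Ad aA bA ε q s)
    (L1 : ∀ q s : ℝ, q0 ≤ q → q ≤ q1 → s0 ≤ s → s ≤ s1 → Ld η sl dl q s < 1)
    (F1 : ∀ q s : ℝ, q0 ≤ q → q ≤ q1 → s0 ≤ s → s ≤ s1 →
      c1 ^ 2 * Ld η sl dl q s ≤ 4 * Ed s0 s1 a0 b0 a1 b1 be um ε d q s * (1 - Ld η sl dl q s))
    (E0 : ∀ q s : ℝ, q0 ≤ q → q ≤ q1 → s0 ≤ s → s ≤ s1 → 0 ≤ Ed s0 s1 a0 b0 a1 b1 be um ε d q s)
    (F2 : ∀ q s : ℝ, q0 ≤ q → q ≤ q1 → s0 ≤ s → s ≤ s1 →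
      Ld η sl dl q s ≤ 2 * lc * Ad aA bA ε q s - lc ^ 2 * (Ad aA bA ε q s ^ 2
        + c1 * Ad aA bA ε q s - Ed s0 s1 a0 b0 a1 b1 be um ε d q s)) :
    FinOK q0 q1 s0 s1 (η - sl * ((dl : ℝ) - d)) sl ε lc f0 d c1 be um a0 b0 a1 b1 aA bA := by
  refine ⟨lc0, load, A0, ?_, ?_, E0, ?_⟩
  · intro q s h1 h2 h3 h4
    rw [Ld_shift]
    exact L1 q s h1 h2 h3 h4
  · intro q s h1 h2 h3 h4
    rw [Ld_shift]
    exact F1 q s h1 h2 h3 h4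
  · intro q s h1 h2 h3 h4
    rw [Ld_shift]
    exact F2 q s h1 h2 h3 h4

/-- A complete certificate for one box. The last clause: the vertices with giant neighbours, `D = d + 1`. -/
def BoxCertH (dh η ε q0 q1 s0 s1 : ℝ) (dmin dmax : ℕ) : Prop :=
  ∃ (k : ℕ) (D : ℝ) (f p r : ℝ → ℝ) (f0 sl : ℝ), 2 * q1 + ε ≤ D ∧ 0 ≤ sl ∧ sl ≤ 1 ∧
    BoxOKH dh s0 s1 ε k D f p r f0 ∧
    (∀ q s : ℝ, q0 ≤ q → q ≤ q1 → s0 ≤ s → s ≤ s1 → Ld η sl dmax q s ≤ 0) ∧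
    (∀ q s : ℝ, q0 ≤ q → q ≤ q1 → s0 ≤ s → s ≤ s1 → (dmin : ℝ) * s + ε ≤ 1 + q) ∧ dmax ≤ 20 ∧
    (∀ d : ℕ, dmin ≤ d → d < dmax → ∃ (cut c1 be um a0 b0 a1 b1 aA bA lc : ℝ),
      P.VtxOKJ s0 s1 f p r d cut c1 be um a0 b0 a1 b1 aA bA ∧
      FinOK q0 q1 s0 s1 η sl ε lc f0 d c1 be um a0 b0 a1 b1 aA bA) ∧
    ∀ d : ℕ, 1 ≤ d → dL dmin d < dmax → ∃ (cut c1 be um a0 b0 a1 b1 aA bA lc : ℝ),
      P.VtxOKJ s0 s1 f p r d cut c1 be um a0 b0 a1 b1 aA bA ∧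
      FinOK q0 q1 s0 s1 (η - sl * ((dL dmin d : ℝ) - d)) sl ε lc f0 d c1 be um a0 b0 a1 b1 aA bA ∧
      ∀ x : ℝ, 0 ≤ x → x ≤ 1 → 2 * (lc * P.fc f cut x) ≤ (1 - ε) * (1 - x)

/-- The finite list of boxes covers the region (`dh`, `η`, `ε` are common to all boxes). -/
def CoverH (Q : ℝ) : Prop := ∃ dh η ε : ℝ, 0 < dh ∧ 0 < η ∧ 0 < ε ∧ ∀ q s : ℝ, 7 / 5 - ε ≤ q →
  q ≤ Q + ε → s ≤ 1 + ε → (∃ δ : ℕ, (δ : ℝ) ≤ 2 * q + ε ∧ 1 + q ≤ (1 + δ) * (s + ε)) →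
    ∃ (q0 q1 s0 s1 : ℝ) (dmin dmax : ℕ), q0 ≤ q ∧ q ≤ q1 ∧ s0 ≤ s ∧ s ≤ s1 ∧
      BoxCertH dh η ε q0 q1 s0 s1 dmin dmax

theorem mb_nonneg {s0 s1 ε : ℝ} {k : ℕ} {D x y : ℝ} : 0 ≤ P.mb s0 s1 ε k D x y := by
  unfold P.mb
  split_ifs with h
  · exact zero_le_one
  · push Not at h
    have h0 : (0 : ℝ) ≤ max 0 (pl k D y - ε) := le_max_left _ _
    exact div_nonneg h0 (by linarith [h.2])

theorem mbH_le_mb {dh s0 s1 ε : ℝ} {k : ℕ} {D x y : ℝ} (hy : 0 ≤ y) :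
    mbH dh s0 s1 ε k D x y ≤ P.mb s0 s1 ε k D x y := by
  unfold mbH
  split_ifs with h
  · have := mb_nonneg (s0 := s0) (s1 := s1) (ε := ε) (k := k) (D := D) (x := x) (y := y)
    nlinarith
  · exact le_rfl

theorem mbH_nonneg {dh s0 s1 ε : ℝ} {k : ℕ} {D x y : ℝ} (hy : y ≤ 1) :
    0 ≤ mbH dh s0 s1 ε k D x y := by
  unfold mbH
  split_ifs with h
  · exact mul_nonneg (by linarith) mb_nonneg
  · exact mb_nonneg

/-- A smaller `dh` is allowed. -/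
theorem mbH_anti {dh dh' s0 s1 ε : ℝ} {k : ℕ} {D x y : ℝ} (hy : 0 ≤ y) (h : dh' ≤ dh) :
    mbH dh s0 s1 ε k D x y ≤ mbH dh' s0 s1 ε k D x y := by
  unfold mbH
  have := mb_nonneg (s0 := s0) (s1 := s1) (ε := ε) (k := k) (D := D) (x := x) (y := y)
  split_ifs with h1 h2 h2
  · exact le_rfl
  · nlinarith
  · exact absurd (h2.trans_le h) h1
  · exact le_rfl

theorem BoxOKH.anti {dh dh' s0 s1 ε : ℝ} {k : ℕ} {D f0 : ℝ} {f p r : ℝ → ℝ} (h : dh' ≤ dh)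
    (hB : BoxOKH dh s0 s1 ε k D f p r f0) : BoxOKH dh' s0 s1 ε k D f p r f0 :=
  ⟨hB.s01, hB.hiS, hB.kD, hB.f0', hB.f0, hB.p0, hB.r0, hB.supp, fun x y hx hy hxy hfx hfy =>
    (hB.pair x y hx hy hxy hfx hfy).trans (by
      have h1 := mul_le_mul_of_nonneg_left
        (mbH_anti (s0 := s0) (s1 := s1) (ε := ε) (k := k) (D := D) (x := x) hy h) (hB.r0 x).1
      have h2 := mul_le_mul_of_nonneg_left
        (mbH_anti (s0 := s0) (s1 := s1) (ε := ε) (k := k) (D := D) (x := y) hx h) (hB.r0 y).1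
      linarith)⟩

/-- The certificate for all degrees gives the certificate of Theorem B. -/
theorem BoxOKH.boxOK {dh s0 s1 ε : ℝ} {k : ℕ} {D f0 : ℝ} {f p r : ℝ → ℝ}
    (hB : BoxOKH dh s0 s1 ε k D f p r f0) : P.BoxOK s0 s1 ε k D f p r f0 :=
  ⟨hB.s01, hB.hiS, hB.kD, hB.f0', hB.f0, hB.p0, hB.r0, hB.supp, fun x y hx hy hxy hfx hfy =>
    (hB.pair x y hx hy hxy hfx hfy).trans (by
      have h1 := mul_le_mul_of_nonneg_left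
        (mbH_le_mb (dh := dh) (s0 := s0) (s1 := s1) (ε := ε) (k := k) (D := D) (x := x) hy)
          (hB.r0 x).1
      have h2 := mul_le_mul_of_nonneg_left
        (mbH_le_mb (dh := dh) (s0 := s0) (s1 := s1) (ε := ε) (k := k) (D := D) (x := y) hx)
          (hB.r0 y).1
      linarith)⟩

theorem BoxCertH.anti {dh dh' η ε q0 q1 s0 s1 : ℝ} {dmin dmax : ℕ} (h : dh' ≤ dh)
    (hB : BoxCertH dh η ε q0 q1 s0 s1 dmin dmax) : BoxCertH dh' η ε q0 q1 s0 s1 dmin dmax := by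
  obtain ⟨k, D, f, p, r, f0, sl, h1, h2, h3, h4, h5⟩ := hB
  exact ⟨k, D, f, p, r, f0, sl, h1, h2, h3, h4.anti h, h5⟩

theorem BoxCertH.boxCert {dh η ε q0 q1 s0 s1 : ℝ} {dmin dmax : ℕ}
    (hB : BoxCertH dh η ε q0 q1 s0 s1 dmin dmax) : P.BoxCert η ε q0 q1 s0 s1 dmin dmax := by
  obtain ⟨k, D, f, p, r, f0, sl, h1, h2, h3, h4, h5, h6, h7, h8, h9⟩ := hB
  exact ⟨k, D, f, p, r, f0, sl, h1, h2, h3, h4.boxOK, h5, h6, h7, h8⟩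

/-- One table for Theorem B and for all degrees. -/
theorem CoverH.coverJ {Q : ℝ} (h : CoverH Q) : P.CoverJ Q := by
  obtain ⟨dh, η, ε, h1, h2, h3, h4⟩ := h
  refine ⟨η, ε, h2, h3, fun q s hq hq' hs hd => ?_⟩
  obtain ⟨q0, q1, s0, s1, dmin, dmax, h5, h6, h7, h8, h9⟩ := h4 q s hq hq' hs hd
  exact ⟨q0, q1, s0, s1, dmin, dmax, h5, h6, h7, h8, h9.boxCert⟩

end

end Pool.Agent.T6J.H
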