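import Pool.Agent.T6J.Cover
import Pool.Agent.T6J.StH

/-!
# `CoverH` from finitely many certified boxes (MP_c6effb_co, helper78)

As `CoverP.lean`, for the certificate for all degrees of `StH.lean`.
-/

set_option autoImplicit false

namespace Pool.Agent.T6J.H

/-- **`CoverH` from the boxes.** -/
theorem coverH_of {dh η Q : ℝ} {M e Qn top fuel a : ℕ} {L : List Bx} {cols : List (ℕ × ℕ)}
    (hdh : 0 < dh) (hη : 0 < η) (hM : 0 < M) (he : 0 < e) (h0 : 5 * (a + e) < 7 * M)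
    (hQ : (Q + e / M) * M ≤ Qn) (htop : M + e ≤ top)
    (hc : colsOK M e Qn top fuel L a cols = true)
    (hP : ∀ x ∈ L, ∃ dmin dmax : ℕ,
      BoxCertH dh η ((e : ℝ) / M) ((x.A : ℝ) / M) ((x.B : ℝ) / M) ((x.U : ℝ) / M) ((x.V : ℝ) / M)
        dmin dmax) : CoverH Q := by
  have hM' : (0 : ℝ) < M := by exact_mod_cast hM
  have he' : (0 : ℝ) < e := by exact_mod_cast he
  refine ⟨dh, η, (e : ℝ) / M, hdh, hη, by positivity, fun q s hq0 hq1 hs hδ => ?_⟩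
  obtain ⟨q0, q1, s0, s1, h1, h2, h3, h4, dmin, dmax, h5⟩ :=
    cover (P := fun q0 q1 s0 s1 => ∃ dmin dmax : ℕ,
      BoxCertH dh η ((e : ℝ) / M) q0 q1 s0 s1 dmin dmax) hM h0 hQ htop hc hP q s hq0 hq1 hs hδ
  exact ⟨q0, q1, s0, s1, dmin, dmax, h1, h2, h3, h4, h5⟩

/-- The same for boxes `⟨q0, q1, s0, s1⟩` given over other denominators `Mq` (for `q`) and `Ms` (for `s`),
`M = cq * Mq = cs * Ms`. -/
theorem coverH_of' {dh η ε Q : ℝ} {M Mq Ms cq cs e Qn top fuel a : ℕ} {L : List Bx}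
    {cols : List (ℕ × ℕ)} (hdh : 0 < dh) (hη : 0 < η) (hM : 0 < M) (he : 0 < e)
    (hε : ε = (e : ℝ) / M) (hq : cq * Mq = M) (hs : cs * Ms = M) (h0 : 5 * (a + e) < 7 * M)
    (hQ : (Q + e / M) * M ≤ Qn) (htop : M + e ≤ top)
    (hc : colsOK M e Qn top fuel
      (L.map fun x => ⟨cq * x.A, cq * x.B, cs * x.U, cs * x.V⟩) a cols = true)
    (hP : ∀ x ∈ L, ∃ dmin dmax : ℕ,
      BoxCertH dh η ε ((x.A : ℝ) / Mq) ((x.B : ℝ) / Mq) ((x.U : ℝ) / Ms) ((x.V : ℝ) / Ms)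
        dmin dmax) : CoverH Q := by
  have hM' : (0 : ℝ) < M := by exact_mod_cast hM
  have hcq : (cq : ℝ) ≠ 0 := by
    rintro h
    rw [Nat.cast_eq_zero] at h
    rw [h, zero_mul] at hq
    omega
  have hcs : (cs : ℝ) ≠ 0 := by
    rintro h
    rw [Nat.cast_eq_zero] at h
    rw [h, zero_mul] at hs
    omega
  refine coverH_of hdh hη hM he h0 hQ htop hc ?_
  intro x hx
  obtain ⟨y, hy, rfl⟩ := List.mem_map.1 hx
  obtain ⟨dmin, dmax, h⟩ := hP y hy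
  refine ⟨dmin, dmax, ?_⟩
  have e1 : ∀ n : ℕ, (((cq * n : ℕ) : ℝ)) / M = (n : ℝ) / Mq := by
    intro n
    rw [← hq]
    push_cast
    rw [mul_div_mul_left _ _ hcq]
  have e2 : ∀ n : ℕ, (((cs * n : ℕ) : ℝ)) / M = (n : ℝ) / Ms := by
    intro n
    rw [← hs]
    push_cast
    rw [mul_div_mul_left _ _ hcs]
  show BoxCertH dh η ((e : ℝ) / M) (((cq * y.A : ℕ) : ℝ) / M) (((cq * y.B : ℕ) : ℝ) / M)
    (((cs * y.U : ℕ) : ℝ) / M) (((cs * y.V : ℕ) : ℝ) / M) dmin dmax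
  rw [e1, e1, e2, e2, ← hε]
  exact h

end Pool.Agent.T6J.H
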