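import Pool.Agent.T6J.MachineSound2

/-!
# The kernel-checked tables of Theorem B (MP_c6effb_co): soundness of the checker, third part

`boxCert_of_chk`: a box which passes the check is a certificate.
-/

set_option autoImplicit false
set_option linter.unusedVariables false

open Finset

namespace Pool.Agent.T6J.Mach

open Pool.Agent.T6A Pool.Agent.T6A.PolyBox

noncomputable section

theorem chkHead_spec {B : Box} (h : chkHead B = true) :
    0 < B.M ∧ 0 < B.sd ∧ 0 < B.qd ∧ 0 < B.tf ∧ 0 < B.eta ∧ 0 < B.eps ∧ B.sd ≤ 2 * B.s0 ∧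
      B.s0 < B.s1 ∧ B.s0 < B.sd ∧ B.s1 ≤ 2 * B.sd ∧
      (B.s1 < B.sd ∨ B.cells.all (fun c => Nat.beq c.r 0) = true) ∧
      B.k * 1000000 ≤ B.D ∧ B.D ≤ B.k * 1000000 + 1000000 ∧
      2 * B.q1 * 1000000 + B.eps * B.qd ≤ B.D * B.qd ∧ B.sl ≤ 1000000 ∧ B.dmax ≤ 20 ∧
      B.dmin ≤ B.dmax ∧ okB B (mul2 (cst (-1)) (LP B B.dmax)) = true ∧
      okB B [[1000000 - (B.eps : ℤ), -(1000000 * (B.dmin : ℤ))], [1000000]] = true := by
  simpa only [chkHead, Bool.and_eq_true, Bool.or_eq_true, blt_iff, Nat.ble_eq] using h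

/-- The values. -/
def fX (B : Box) (x : ℝ) : ℝ := ((cx B x).f : ℝ) / B.tf
/-- The values. -/
def pX (B : Box) (x : ℝ) : ℝ := ((cx B x).p : ℝ) / B.tf
/-- The values. -/
def rX (B : Box) (x : ℝ) : ℝ := ((cx B x).r : ℝ) / B.tf

/-- The conditions for the cells. -/
structure COK (B : Box) : Prop where
  hd : chkHead B = true
  len : 1 < B.cells.length
  chain : chkChain B.M B.cells 0 = true
  last : chkLast B.M B.cells = true
  f10 : fst0 B ≤ 10 * B.tf
  cells : B.cells.all (chkCell B (fst0 B)) = true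
  pairs : chkPairs B.M ((B.sd - B.s0) * B.M) (1000000 * B.tf) B.cells = true

theorem pair_half {B : Box} (h : COK B) {x y : ℝ} (hx : 0 ≤ x) (hy : 0 ≤ y) (hxy : x + y ≤ 1)
    (hfx : 0 < fX B x) (hfy : 0 < fX B y) (hij : ix B x ≤ ix B y) :
    fX B x * fX B y * ((1 - x)⁻¹ + (1 - y)⁻¹) ≤ pX B x + pX B y +
      rX B x * P.mb ((B.s0 : ℝ) / B.sd) ((B.s1 : ℝ) / B.sd) ((B.eps : ℝ) / 1000000) B.k
        ((B.D : ℝ) / 1000000) x y +
      rX B y * P.mb ((B.s0 : ℝ) / B.sd) ((B.s1 : ℝ) / B.sd) ((B.eps : ℝ) / 1000000) B.k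
        ((B.D : ℝ) / 1000000) y x := by
  obtain ⟨hM, hsd, hqd, htf, heta, heps, h1, h2, h3, h4, h5, h6, h7, h8, h9, h10, h11, -, -⟩ :=
    chkHead_spec h.hd
  have hM' : (0 : ℝ) < B.M := by exact_mod_cast hM
  have hsd' : (0 : ℝ) < B.sd := by exact_mod_cast hsd
  have htf' : (0 : ℝ) < B.tf := by exact_mod_cast htf
  have hgr := grid_of hM h.len h.chain
  have hi : ix B x < B.cells.length := hgr.cell_lt x
  have hj : ix B y < B.cells.length := hgr.cell_lt y
  have hp := pairs_spec h.pairs _ _ hi hj hij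
  rw [← cx_eq hi, ← cx_eq hj] at hp
  have hx1 : x ≤ 1 := by linarith
  have hy1 : y ≤ 1 := by linarith
  obtain ⟨x1, x2⟩ := cx_le hM h.len h.chain hx hx1
  obtain ⟨y1, y2⟩ := cx_le hM h.len h.chain hy hy1
  obtain ⟨gx1, gx2⟩ := cx_gg hM h.len h.chain x
  obtain ⟨gy1, gy2⟩ := cx_gg hM h.len h.chain y
  obtain ⟨-, -, -, ux, pix, bex⟩ := chkCell_spec (cx_cell hM h.len h.chain h.cells x)
  obtain ⟨-, -, -, uy, piy, bey⟩ := chkCell_spec (cx_cell hM h.len h.chain h.cells y)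
  have nfx : (cx B x).f ≠ 0 := by
    intro h0
    unfold fX at hfx
    rw [h0] at hfx
    simp at hfx
  have nfy : (cx B y).f ≠ 0 := by
    intro h0
    unfold fX at hfy
    rw [h0] at hfy
    simp at hfy
  unfold chkPair at hp
  rw [Bool.or_eq_true, Bool.or_eq_true, Bool.or_eq_true, beq_iff, beq_iff, blt_iff,
    Nat.ble_eq] at hp
  have hp2 : (cx B x).f * (cx B y).f * ((cx B x).u + (cx B y).u) ≤
      1000000 * B.tf * ((cx B x).p + (cx B y).p) +
        (mt ((B.sd - B.s0) * B.M) (1000000 * B.tf) (cx B x) (cx B y) +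
          mt ((B.sd - B.s0) * B.M) (1000000 * B.tf) (cx B y) (cx B x)) := by
    rcases hp with hp | hp | hp | hp
    · exact absurd hp nfx
    · exact absurd hp nfy
    · exfalso
      have g1 : (B.M : ℝ) < (cx B x).g + (cx B y).g := by exact_mod_cast hp
      rw [div_le_iff₀ hM'] at x1 y1
      have g2 := mul_le_mul_of_nonneg_right hxy hM'.le
      linarith
    · exact hp
  have hS : (0 : ℝ) < (B.sd : ℝ) * B.M := by positivity
  have ht : (((B.sd - B.s0) * B.M : ℕ) : ℝ) = (B.sd : ℝ) * B.M * (1 - (B.s0 : ℝ) / B.sd) := by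
    push_cast
    rw [Nat.cast_sub h3.le]
    field_simp
  have ht0 : 0 < (B.sd - B.s0) * B.M := Nat.mul_pos (by omega) hM
  refine pair_real hM htf (ux.resolve_left nfx) (uy.resolve_left nfy) x2 y2 ?_ ?_ hp2
  · exact ml_le_mb hS ht ht0 (pi_real hM gy2 h6 h7 piy hy y2)
      (be_real hM hsd (gx1.le.trans gx2) bex x1)
  · exact ml_le_mb hS ht ht0 (pi_real hM gx2 h6 h7 pix hx x2)
      (be_real hM hsd (gy1.le.trans gy2) bey y1)

theorem boxOK_of {B : Box} (h : COK B) :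
    P.BoxOK ((B.s0 : ℝ) / B.sd) ((B.s1 : ℝ) / B.sd) ((B.eps : ℝ) / 1000000) B.k
      ((B.D : ℝ) / 1000000) (fX B) (pX B) (rX B) ((fst0 B : ℝ) / B.tf) := by
  obtain ⟨hM, hsd, hqd, htf, heta, heps, h1, h2, h3, h4, h5, h6, h7, h8, h9, h10, h11, -, -⟩ :=
    chkHead_spec h.hd
  have hM' : (0 : ℝ) < B.M := by exact_mod_cast hM
  have hsd' : (0 : ℝ) < B.sd := by exact_mod_cast hsd
  have htf' : (0 : ℝ) < B.tf := by exact_mod_cast htf
  have hgr := grid_of hM h.len h.chain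
  have hcell := cx_cell hM h.len h.chain h.cells
  refine ⟨⟨?_, ?_, ?_⟩, ?_, ⟨?_, ?_⟩, ?_, ?_, ?_, ?_, ?_, ?_⟩
  · rw [div_le_div_iff₀ (by norm_num) hsd']
    have : (B.sd : ℝ) ≤ 2 * B.s0 := by exact_mod_cast h1
    linarith
  · exact div_lt_div_of_pos_right (by exact_mod_cast h2) hsd'
  · rw [div_le_iff₀ hsd']
    exact_mod_cast h4
  · rcases h5 with h5 | h5
    · left
      rw [div_lt_one hsd']
      exact_mod_cast h5
    · right
      intro x
      have hi : ix B x < B.cells.length := hgr.cell_lt x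
      rw [List.all_eq_true] at h5
      have h12 := h5 _ (List.getElem_mem hi)
      rw [← cx_eq hi, beq_iff] at h12
      unfold rX
      rw [h12]
      simp
  · rw [le_div_iff₀ (by norm_num)]
    exact_mod_cast h6
  · rw [div_le_iff₀ (by norm_num), add_mul, one_mul]
    exact_mod_cast h7
  · rw [div_le_iff₀ htf']
    exact_mod_cast h.f10
  · intro x
    have h12 := (chkCell_spec (hcell x)).1
    unfold fX
    exact ⟨by positivity, div_le_div_of_nonneg_right (by exact_mod_cast h12) htf'.le⟩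
  · intro x
    have h12 := (chkCell_spec (hcell x)).2.1
    unfold pX
    refine ⟨by positivity, ?_⟩
    rw [div_le_iff₀ htf']
    exact_mod_cast h12
  · intro x
    have h12 := (chkCell_spec (hcell x)).2.2.1
    unfold rX
    refine ⟨by positivity, ?_⟩
    rw [div_le_iff₀ htf']
    exact_mod_cast h12
  · intro x hx
    obtain ⟨hl, h12, h13⟩ := last_spec h.last
    have h14 : gF B (B.cells.length - 1) ≤ x := by
      rw [gF_eq hl, div_le_iff₀ hM']
      have h15 : 25 * ((B.cells[B.cells.length - 1]'hl).g : ℝ) ≤ 24 * B.M := by exact_mod_cast h13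
      have h16 := mul_lt_mul_of_pos_right hx hM'
      linarith
    have hx0 : (0 : ℝ) ≤ gF B (B.cells.length - 1) := hgr.nonneg (by omega)
    have h17 : B.cells.length - 1 ≤ ix B x := by
      unfold ix cell
      exact Nat.le_findGreatest (P := fun i => gF B i ≤ x) le_rfl h14
    have hi : ix B x < B.cells.length := hgr.cell_lt x
    have h18 : ix B x = B.cells.length - 1 := by omega
    unfold fX
    rw [cx_eq hi]
    have h19 : B.cells[ix B x]'hi = B.cells[B.cells.length - 1]'hl := by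
      congr 1
    rw [h19, h12]
    simp
  · intro x y hx hy hxy hfx hfy
    rcases le_total (ix B x) (ix B y) with hij | hij
    · exact pair_half h hx hy hxy hfx hfy hij
    · have h12 := pair_half h hy hx (by linarith) hfy hfx hij
      have e : fX B x * fX B y * ((1 - x)⁻¹ + (1 - y)⁻¹) =
          fX B y * fX B x * ((1 - y)⁻¹ + (1 - x)⁻¹) := by ring
      rw [e]
      linarith

/-! ### the rows -/

theorem row_of {B : Box} (hM : 0 < B.M) (hsd : 0 < B.sd) (htf : 0 < B.tf) {x : Dg} {c : Cl}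
    {sn a b F : ℕ} (hgg : c.g < c.g') (hg : c.g' ≤ B.M) (hF : F = 0 ∨ c.g' < B.M)
    (hum : 0 < x.um) (hum1 : x.um ≤ 1000) (hss : chkSS x = true)
    (h : chkRow2 B x sn a b F c (uts B.M x.um c.g c.g') = true) {y : ℝ}
    (hy : (c.g : ℝ) / B.M ≤ y) (hy1 : y ≤ (c.g' : ℝ) / B.M) :
    (a : ℝ) / 1000000 - (b : ℝ) / 1000000 * y ≤ rowX ((F : ℝ) / B.tf) ((c.p : ℝ) / B.tf)
      ((c.r : ℝ) / B.tf) x.d ((sn : ℝ) / B.sd) ((x.c1 : ℝ) / 1000000) ((x.be : ℝ) / 1000000)
      ((x.um : ℝ) / 1000) y := by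
  have hM' : (0 : ℝ) < B.M := by exact_mod_cast hM
  have hsd' : (0 : ℝ) < B.sd := by exact_mod_cast hsd
  have htf' : (0 : ℝ) < B.tf := by exact_mod_cast htf
  rw [chkRow2, Bool.and_eq_true] at h
  have r1 := row_real hM hsd htf (Or.inr (lt_of_lt_of_le hgg hg)) (hgg.le.trans hg) h.1
  have r2 := row_real hM hsd htf hF hg h.2
  obtain ⟨s1, s2⟩ := ss_real hss hum hum1
  have hum' : (0 : ℝ) < (x.um : ℝ) / 1000 := by
    have : (0 : ℝ) < x.um := by exact_mod_cast hum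
    positivity
  have hum1' : (x.um : ℝ) / 1000 ≤ 1 := by
    rw [div_le_one (by norm_num)]
    exact_mod_cast hum1
  have ss0 := KZero.ss_nonneg x.d hum' hum1'
  obtain ⟨ss, hssd⟩ : ∃ ss : ℝ, KZero.ss x.d ((x.um : ℝ) / 1000) = ss := ⟨_, rfl⟩
  rw [hssd] at s1 s2 ss0
  have hmono : ∀ (U L : ℝ), 0 ≤ L →
      (sn : ℝ) / B.sd * ((F : ℝ) / B.tf) ^ 2 * ss * U ^ 2 ≤
        (sn : ℝ) / B.sd * ((F : ℝ) / B.tf) ^ 2 * ((x.ssh : ℝ) / 100000000) * U ^ 2 ∧
      2 * ((x.be : ℝ) / 1000000) * ((x.ssl : ℝ) / 100000000) * ((F : ℝ) / B.tf) * L ≤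
        2 * ((x.be : ℝ) / 1000000) * ss * ((F : ℝ) / B.tf) * L := by
    intro U L hL
    constructor
    · exact mul_le_mul_of_nonneg_right (mul_le_mul_of_nonneg_left s2 (by positivity))
        (by positivity)
    · exact mul_le_mul_of_nonneg_right (mul_le_mul_of_nonneg_right
        (mul_le_mul_of_nonneg_left s1 (by positivity)) (by positivity)) hL
  obtain ⟨l, hl⟩ : ∃ l : ℝ, l = ((uts B.M x.um c.g c.g').1.1 : ℝ) / 1000000 := ⟨_, rfl⟩
  obtain ⟨l', hl'⟩ : ∃ l : ℝ, l = ((uts B.M x.um c.g c.g').1.2 : ℝ) / 1000000 := ⟨_, rfl⟩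
  obtain ⟨u, hu⟩ : ∃ l : ℝ, l = ((uts B.M x.um c.g c.g').2.1 : ℝ) / 1000000 := ⟨_, rfl⟩
  obtain ⟨u', hu'⟩ : ∃ l : ℝ, l = ((uts B.M x.um c.g c.g').2.2 : ℝ) / 1000000 := ⟨_, rfl⟩
  have hl0 : 0 ≤ l := by rw [hl]; positivity
  have hl0' : 0 ≤ l' := by rw [hl']; positivity
  have hu0 : 0 ≤ u := by rw [hu]; positivity
  have hu0' : 0 ≤ u' := by rw [hu']; positivity
  rw [← hl, ← hu] at r1
  rw [← hl', ← hu'] at r2
  obtain ⟨m1, m2⟩ := hmono u l hl0
  obtain ⟨m3, m4⟩ := hmono u' l' hl0'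
  refine row_conv (g := (c.g : ℝ) / B.M) (g' := (c.g' : ℝ) / B.M) (l := l) (l' := l') (h := u)
    (h' := u') hssd ss0 (by positivity) (by positivity) (by positivity)
    (div_lt_div_of_pos_right (by exact_mod_cast hgg) hM') hy hy1 hum'.le ?_ hu0 hu0'
    (by positivity) (by linarith) (by linarith)
  rcases hF with h0 | h0
  · left
    rw [h0]
    simp
  · right
    refine ⟨by rw [div_lt_one hM']; exact_mod_cast h0, fun t ht0 ht1 => ?_⟩
    rw [hl, hl', hu, hu']
    exact uts_spec hM hgg h0 ht0 ht1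

theorem vtx_of {B : Box} (h : COK B) {x : Dg}
    (hx : chkDeg B (fst0 B) B.cells.length x = true) :
    P.VtxOKJ ((B.s0 : ℝ) / B.sd) ((B.s1 : ℝ) / B.sd) (fX B) (pX B) (rX B) x.d (gF B x.cut)
      ((x.c1 : ℝ) / 1000000) ((x.be : ℝ) / 1000000)
      ((x.um : ℝ) / 1000) ((x.a0 : ℝ) / 1000000) ((x.b0 : ℝ) / 1000000) ((x.a1 : ℝ) / 1000000)
      ((x.b1 : ℝ) / 1000000) ((x.aA : ℝ) / 1000000) ((x.bA : ℝ) / 1000000) := by
  obtain ⟨hM, hsd, hqd, htf, heta, heps, -⟩ := chkHead_spec h.hd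
  have hM' : (0 : ℝ) < B.M := by exact_mod_cast hM
  have hsd' : (0 : ℝ) < B.sd := by exact_mod_cast hsd
  have htf' : (0 : ℝ) < B.tf := by exact_mod_cast htf
  have hgr := grid_of hM h.len h.chain
  rw [chkDeg, Bool.and_eq_true, Bool.and_eq_true, Bool.and_eq_true, List.all_eq_true,
    List.all_eq_true] at hx
  obtain ⟨hn, ht, hd, -⟩ := hx
  obtain ⟨n1, n2, n3, n4, n5, n6, n7, n8, n9, n10, n11, -, -, -, n12⟩ := chkNum_spec hn
  have key : ∀ y : ℝ, 0 ≤ y → y ≤ 1 → ∃ F : ℕ,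
      P.fc (fX B) (gF B x.cut) y = (F : ℝ) / B.tf ∧ (F = 0 ∨ F = (cx B y).f) ∧
      chkRows B x F (cx B y) = true := by
    intro y hy hy1
    have hi : ix B y < B.cells.length := hgr.cell_lt y
    rcases Nat.lt_or_ge (ix B y) x.cut with h1 | h1
    · refine ⟨(cx B y).f, ?_, Or.inr rfl, ?_⟩
      · unfold P.fc
        rw [if_pos]
        · rfl
        · have h2 : y < gF B (ix B y + 1) := hgr.lt_cell (by
            have : ix B y + 1 ≤ x.cut := h1
            exact lt_of_le_of_lt this n1)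
          exact h2.trans_le (hgr.le h1 n1.le)
      · have h3 : B.cells[ix B y]'hi ∈ B.cells.take x.cut := by
          rw [List.mem_take_iff_getElem]
          exact ⟨ix B y, by omega, rfl⟩
        rw [cx_eq hi]
        exact ht _ h3
    · refine ⟨0, ?_, Or.inl rfl, ?_⟩
      · unfold P.fc
        rw [if_neg]
        · simp
        · rw [not_lt]
          exact (hgr.le h1 hi.le).trans (hgr.cell_le hy)
      · have h3 : B.cells[ix B y]'hi ∈ B.cells.drop x.cut := by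
          rw [List.mem_drop_iff_getElem]
          refine ⟨ix B y - x.cut, by omega, ?_⟩
          congr 1
          omega
        rw [cx_eq hi]
        exact hd _ h3
  have cst6 : ∀ {a : ℕ} {C : ℝ}, (a : ℝ) ≤ 1000000 * C → 0 ≤ (a : ℝ) / 1000000 ∧
      (a : ℝ) / 1000000 ≤ C := by
    intro a C ha
    refine ⟨by positivity, ?_⟩
    rw [div_le_iff₀ (by norm_num)]
    linarith
  have cc : ∀ {a b : ℕ}, a ≤ b → (a : ℝ) ≤ b := fun h => by exact_mod_cast h
  have hF' : ∀ (y : ℝ) (F : ℕ), (F = 0 ∨ F = (cx B y).f) → F = 0 ∨ (cx B y).g' < B.M := by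
    intro y F hF
    rcases hF with h0 | h0
    · exact Or.inl h0
    · obtain ⟨-, -, -, ux, -, -⟩ := chkCell_spec (cx_cell hM h.len h.chain h.cells y)
      rcases ux with h1 | h1
      · left
        rw [h0, h1]
      · right
        by_contra hcon
        have h2 : B.M - (cx B y).g' = 0 := by omega
        rw [h2] at h1
        omega
  constructor
  · exact cst6 ((cc n2).trans (by norm_num))
  · exact cst6 ((cc n3).trans (by norm_num))
  · constructor
    · have : (0 : ℝ) < x.um := by exact_mod_cast n4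
      positivity
    · rw [div_le_one (by norm_num)]
      exact_mod_cast n5
  · exact ⟨cst6 ((cc n6).trans (by norm_num)), cst6 ((cc n7).trans (by norm_num)),
      cst6 ((cc n10).trans (by norm_num))⟩
  · exact ⟨cst6 ((cc n8).trans (by norm_num)), cst6 ((cc n9).trans (by norm_num)),
      cst6 ((cc n11).trans (by norm_num))⟩
  · intro y hy hy1
    obtain ⟨F, h1, h2, h3⟩ := key y hy hy1
    obtain ⟨x1, x2⟩ := cx_le hM h.len h.chain hy hy1
    obtain ⟨g1, g2⟩ := cx_gg hM h.len h.chain y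
    rw [chkRows, Bool.and_eq_true, Bool.and_eq_true] at h3
    rw [h1]
    exact row_of hM hsd htf g1 g2 (hF' y F h2) n4 n5 n12 h3.1 x1 x2
  · intro y hy hy1
    obtain ⟨F, h1, h2, h3⟩ := key y hy hy1
    obtain ⟨x1, x2⟩ := cx_le hM h.len h.chain hy hy1
    obtain ⟨g1, g2⟩ := cx_gg hM h.len h.chain y
    rw [chkRows, Bool.and_eq_true, Bool.and_eq_true] at h3
    rw [h1]
    exact row_of hM hsd htf g1 g2 (hF' y F h2) n4 n5 n12 h3.2.1 x1 x2
  · intro y hy hy1
    obtain ⟨F, h1, h2, h3⟩ := key y hy hy1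
    obtain ⟨x1, x2⟩ := cx_le hM h.len h.chain hy hy1
    rw [chkRows, Bool.and_eq_true, Bool.and_eq_true, chkMass, Nat.ble_eq] at h3
    rw [h1]
    have h4 : (x.aA : ℝ) * (B.M * B.tf) ≤ x.bA * (cx B y).g * B.tf + F * (1000000 * B.M) := by
      exact_mod_cast h3.2.2
    have h5 := mul_le_mul_of_nonneg_left x1 (show (0 : ℝ) ≤ (x.bA : ℝ) / 1000000 by positivity)
    have h6 : (x.aA : ℝ) / 1000000 - (x.bA : ℝ) / 1000000 * (((cx B y).g : ℝ) / B.M) ≤
        (F : ℝ) / B.tf := by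
      have e : (x.aA : ℝ) / 1000000 - (x.bA : ℝ) / 1000000 * (((cx B y).g : ℝ) / B.M) =
          ((x.aA : ℝ) * (B.M * B.tf) - x.bA * (cx B y).g * B.tf) / (1000000 * B.M * B.tf) := by
        field_simp
      rw [e, div_le_div_iff₀ (by positivity) htf']
      have h7 := mul_le_mul_of_nonneg_right h4 htf'.le
      linarith
    linarith

/-- **The theorem of the machine**: a box which passes the check is a certificate. -/
theorem boxCert_of_chk {B : Box} (h : chkBox B = true) :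
    P.BoxCert ((B.eta : ℝ) / 1000000) ((B.eps : ℝ) / 1000000) ((B.q0 : ℝ) / B.qd)
      ((B.q1 : ℝ) / B.qd) ((B.s0 : ℝ) / B.sd) ((B.s1 : ℝ) / B.sd) B.dmin B.dmax := by
  rw [chkBox, Bool.and_eq_true, Bool.and_eq_true, Bool.and_eq_true, Bool.and_eq_true,
    Bool.and_eq_true, Bool.and_eq_true, Bool.and_eq_true, blt_iff, Nat.ble_eq] at h
  obtain ⟨c1, c2, c3, c4, c5, c6, c7, hdeg⟩ := h
  have hC : COK B := ⟨c1, c2, c3, c4, c5, c6, c7⟩
  obtain ⟨hM, hsd, hqd, htf, heta, heps, h1, h2, h3, h4, h5, h6, h7, h8, h9, h10, h11, h12, h13⟩ :=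
    chkHead_spec c1
  have hqd' : (0 : ℝ) < B.qd := by exact_mod_cast hqd
  refine ⟨B.k, (B.D : ℝ) / 1000000, fX B, pX B, rX B, (fst0 B : ℝ) / B.tf,
    (B.sl : ℝ) / 1000000, ?_, by positivity, ?_, boxOK_of hC, ?_, ?_, h10, ?_⟩
  · have g1 : 2 * (B.q1 : ℝ) * 1000000 + B.eps * B.qd ≤ B.D * B.qd := by exact_mod_cast h8
    have e : 2 * ((B.q1 : ℝ) / B.qd) + (B.eps : ℝ) / 1000000 =
        (2 * (B.q1 : ℝ) * 1000000 + B.eps * B.qd) / (1000000 * B.qd) := by field_simp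
    rw [e, div_le_div_iff₀ (by positivity) (by norm_num)]
    linarith
  · rw [div_le_one (by norm_num)]
    exact_mod_cast h9
  · intro q s g1 g2 g3 g4
    have g5 := okB_spec h12 hqd hsd g1 g2 g3 g4
    rw [ev2_mul, ev2_cst, ev2_LP] at g5
    push_cast at g5
    linarith
  · intro q s g1 g2 g3 g4
    have g5 := okB_spec h13 hqd hsd g1 g2 g3 g4
    simp only [ev2, ev1] at g5
    push_cast at g5
    linarith
  · intro d g1 g2
    obtain ⟨x, hx, hxd⟩ := degs_spec hdeg d g1 g2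
    refine ⟨gF B x.cut, (x.c1 : ℝ) / 1000000, (x.be : ℝ) / 1000000, (x.um : ℝ) / 1000,
      (x.a0 : ℝ) / 1000000, (x.b0 : ℝ) / 1000000, (x.a1 : ℝ) / 1000000, (x.b1 : ℝ) / 1000000,
      (x.aA : ℝ) / 1000000, (x.bA : ℝ) / 1000000, (x.lc : ℝ) / 1000000, ?_, ?_⟩
    · rw [← hx]
      exact vtx_of hC hxd
    · rw [← hx]
      rw [chkDeg, Bool.and_eq_true, Bool.and_eq_true, Bool.and_eq_true] at hxd
      exact fin_of hxd.1 hxd.2.2.2 hqd hsd htf h2

end

end Pool.Agent.T6J.Mach
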