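import Pool.Agent.T6J.MachineH
import Pool.Agent.T6J.MachineSound3

/-!
# The kernel-checked tables for all degrees (MP_c6effb_co): soundness of the checker

`boxCertH_of_chk`: a box which passes the check is a certificate `H.BoxCertH`.
-/

set_option autoImplicit false
set_option linter.unusedVariables false

open Finset

namespace Pool.Agent.T6J.Mach

open Pool.Agent.T6A Pool.Agent.T6A.PolyBox

noncomputable section

theorem pairsH_spec {M t K : ℕ} : ∀ {l : List Cl}, chkPairsH M t K l = true →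
    ∀ i j (hi : i < l.length) (hj : j < l.length), i ≤ j →
      chkPairH M t K (l[i]'hi) (l[j]'hj) = true := by
  intro l
  induction l with
  | nil => intro _ i j hi; exact absurd hi (by simp)
  | cons c l ih =>
    intro h i j hi hj hij
    rw [chkPairsH, Bool.and_eq_true, List.all_eq_true] at h
    cases i with
    | zero => exact h.1 _ (List.getElem_mem hj)
    | succ i =>
      cases j with
      | zero => omega
      | succ j =>
        have h4 := ih h.2 i j (by simpa using hi) (by simpa using hj) (by omega)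
        simpa using h4

theorem mt_nonneg_real (t K : ℕ) (c c' : Cl) : (0 : ℝ) ≤ mt t K c c' := Nat.cast_nonneg _

theorem dLn_eq (dmin D : ℕ) : dLn dmin D = H.dL dmin D := by
  unfold dLn H.dL
  by_cases h : Nat.ble (2 * dmin + 1 - D) (D + 1) = true
  · rw [if_pos h]
    rw [Nat.ble_eq] at h
    omega
  · rw [if_neg h]
    rw [Nat.ble_eq] at h
    omega

/-- The multiplier. -/
theorem mtH_le {M t K : ℕ} (hM : 0 < M) {c c' : Cl} {dh s0 s1 ε D x y : ℝ} {k : ℕ}
    (hg : c'.g' ≤ M) (hy : y ≤ (c'.g' : ℝ) / M) (hy0 : 0 ≤ y)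
    (hdh : c.g ≠ 0 → dh ≤ x) (hml : ml t c c' ≤ P.mb s0 s1 ε k D x y) :
    (mtH M t K c c' : ℝ) ≤ K * c.r * H.mbH dh s0 s1 ε k D x y := by
  have hM' : (0 : ℝ) < M := by exact_mod_cast hM
  have h1 : (mt t K c c' : ℝ) ≤ K * c.r * P.mb s0 s1 ε k D x y :=
    (mt_le _ _ _ _).trans (mul_le_mul_of_nonneg_left hml (by positivity))
  have hmb : 0 ≤ P.mb s0 s1 ε k D x y := H.mb_nonneg
  have c1 : ((M - c'.g' : ℕ) : ℝ) = M - c'.g' := Nat.cast_sub hg
  have hy1 : y ≤ 1 := hy.trans (by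
    rw [div_le_one hM']
    exact_mod_cast hg)
  unfold mtH
  by_cases h0 : Nat.beq c.g 0 = true
  · rw [if_pos h0]
    have h2 : ((mt t K c c' * (M - c'.g') / M : ℕ) : ℝ) ≤
        (mt t K c c' : ℝ) * (1 - (c'.g' : ℝ) / M) := by
      refine (fl_le _ _).trans (le_of_eq ?_)
      push_cast
      rw [c1]
      field_simp
    have h3 : (mt t K c c' : ℝ) * (1 - (c'.g' : ℝ) / M) ≤
        K * c.r * P.mb s0 s1 ε k D x y * (1 - y) :=
      mul_le_mul h1 (by linarith) (by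
        have : (c'.g' : ℝ) / M ≤ 1 := by
          rw [div_le_one hM']
          exact_mod_cast hg
        linarith) (by positivity)
    refine (h2.trans h3).trans ?_
    unfold H.mbH
    split_ifs
    · exact le_of_eq (by ring)
    · have h4 : 0 ≤ (K : ℝ) * c.r * P.mb s0 s1 ε k D x y := by positivity
      nlinarith
  · rw [if_neg h0]
    rw [beq_iff] at h0
    unfold H.mbH
    rw [if_neg (by
      rw [not_lt]
      exact hdh h0)]
    exact h1

theorem pair_realH {M tf t : ℕ} (hM : 0 < M) (htf : 0 < tf) {c c' : Cl} {m1 m2 x y : ℝ}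
    (hu : 1000000 * M ≤ c.u * (M - c.g')) (hu' : 1000000 * M ≤ c'.u * (M - c'.g'))
    (hx : x ≤ (c.g' : ℝ) / M) (hy : y ≤ (c'.g' : ℝ) / M)
    (hm1 : (mtH M t (1000000 * tf) c c' : ℝ) ≤ ((1000000 * tf : ℕ) : ℝ) * c.r * m1)
    (hm2 : (mtH M t (1000000 * tf) c' c : ℝ) ≤ ((1000000 * tf : ℕ) : ℝ) * c'.r * m2)
    (h : c.f * c'.f * (c.u + c'.u) ≤
      1000000 * tf * (c.p + c'.p) +
        (mtH M t (1000000 * tf) c c' + mtH M t (1000000 * tf) c' c)) :
    (c.f : ℝ) / tf * (c'.f / tf) * ((1 - x)⁻¹ + (1 - y)⁻¹) ≤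
      (c.p : ℝ) / tf + c'.p / tf + c.r / tf * m1 + c'.r / tf * m2 := by
  have hM' : (0 : ℝ) < M := by exact_mod_cast hM
  have htf' : (0 : ℝ) < tf := by exact_mod_cast htf
  have h1 := u_real hM hu hx
  have h2 := u_real hM hu' hy
  have h3 : ((c.f : ℝ) * c'.f * (c.u + c'.u)) ≤ 1000000 * tf * (c.p + c'.p) +
      (mtH M t (1000000 * tf) c c' + mtH M t (1000000 * tf) c' c) := by exact_mod_cast h
  push_cast at hm1 hm2
  have h6 : (c.f : ℝ) / tf * (c'.f / tf) * ((1 - x)⁻¹ + (1 - y)⁻¹) ≤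
      (c.f : ℝ) / tf * (c'.f / tf) * ((c.u : ℝ) / 1000000 + c'.u / 1000000) :=
    mul_le_mul_of_nonneg_left (by linarith) (by positivity)
  refine h6.trans ?_
  have e1 : (c.f : ℝ) / tf * (c'.f / tf) * ((c.u : ℝ) / 1000000 + c'.u / 1000000) =
      ((c.f : ℝ) * c'.f * (c.u + c'.u)) / (1000000 * tf ^ 2) := by field_simp
  have e2 : (c.p : ℝ) / tf + c'.p / tf + c.r / tf * m1 + c'.r / tf * m2 =
      (1000000 * tf * (c.p + c'.p) + (1000000 * tf * c.r * m1 + 1000000 * tf * c'.r * m2)) /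
        (1000000 * tf ^ 2) := by
    field_simp
    ring
  rw [e1, e2]
  exact div_le_div_of_nonneg_right (by linarith) (by positivity)

/-- The conditions for the cells. -/
structure COKH (B : Box) : Prop where
  hd : chkHead B = true
  len : 1 < B.cells.length
  chain : chkChain B.M B.cells 0 = true
  last : chkLast B.M B.cells = true
  f10 : fst0 B ≤ 10 * B.tf
  cells : B.cells.all (chkCell B (fst0 B)) = true
  pairs : chkPairsH B.M ((B.sd - B.s0) * B.M) (1000000 * B.tf) B.cells = true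

/-- Only the first cell has `g = 0`. -/
theorem ix_of_g {B : Box} (hM : 0 < B.M) (h1 : 1 < B.cells.length)
    (h : chkChain B.M B.cells 0 = true) {x : ℝ} (hx : 0 ≤ x) (hg : (cx B x).g ≠ 0) :
    gF B 1 ≤ x := by
  have hgr := grid_of hM h1 h
  have hi : ix B x < B.cells.length := hgr.cell_lt x
  have h2 : ix B x ≠ 0 := by
    intro h3
    apply hg
    have h4 := gF_eq hi
    rw [← cx_eq hi, h3, hgr.zero] at h4
    have hM' : (0 : ℝ) < B.M := by exact_mod_cast hM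
    have h5 : ((cx B x).g : ℝ) = 0 := by
      have := h4.symm
      rw [div_eq_zero_iff] at this
      rcases this with h6 | h6
      · exact h6
      · exact absurd h6 hM'.ne'
    exact_mod_cast h5
  exact (hgr.le (by omega) hi.le).trans (hgr.cell_le hx)

theorem pair_halfH {B : Box} (h : COKH B) {x y : ℝ} (hx : 0 ≤ x) (hy : 0 ≤ y) (hxy : x + y ≤ 1)
    (hfx : 0 < fX B x) (hfy : 0 < fX B y) (hij : ix B x ≤ ix B y) :
    fX B x * fX B y * ((1 - x)⁻¹ + (1 - y)⁻¹) ≤ pX B x + pX B y +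
      rX B x * H.mbH (gF B 1) ((B.s0 : ℝ) / B.sd) ((B.s1 : ℝ) / B.sd) ((B.eps : ℝ) / 1000000) B.k
        ((B.D : ℝ) / 1000000) x y +
      rX B y * H.mbH (gF B 1) ((B.s0 : ℝ) / B.sd) ((B.s1 : ℝ) / B.sd) ((B.eps : ℝ) / 1000000) B.k
        ((B.D : ℝ) / 1000000) y x := by
  obtain ⟨hM, hsd, hqd, htf, heta, heps, h1, h2, h3, h4, h5, h6, h7, h8, h9, h10, h11, -, -⟩ :=
    chkHead_spec h.hd
  have hM' : (0 : ℝ) < B.M := by exact_mod_cast hM
  have hsd' : (0 : ℝ) < B.sd := by exact_mod_cast hsd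
  have htf' : (0 : ℝ) < B.tf := by exact_mod_cast htf
  have hgr := grid_of hM h.len h.chain
  have hi : ix B x < B.cells.length := hgr.cell_lt x
  have hj : ix B y < B.cells.length := hgr.cell_lt y
  have hp := pairsH_spec h.pairs _ _ hi hj hij
  rw [← cx_eq hi, ← cx_eq hj] at hp
  have hx1 : x ≤ 1 := by linarith
  have hy1 : y ≤ 1 := by linarith
  obtain ⟨x1, x2⟩ := cx_le hM h.len h.chain hx hx1
  obtain ⟨y1, y2⟩ := cx_le hM h.len h.chain hy hy1
  obtain ⟨gx1, gx2⟩ := cx_gg hM h.len h.chain x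
  obtain ⟨gy1, gy2⟩ := cx_gg hM h.len h.chain y
  obtain ⟨-, -, -, ux, pix, bex⟩ := chkCell_spec (cx_cell hM h.len h.chain h.cells x)
  obtain ⟨-, -, -, uy, piy, bey⟩ := chkCell_spec (cx_cell hM h.len h.chain h.cells y)
  have nfx : (cx B x).f ≠ 0 := by
    intro h0
    unfold fX at hfx
    rw [h0] at hfx
    simp at hfx
  have nfy : (cx B y).f ≠ 0 := by
    intro h0
    unfold fX at hfy
    rw [h0] at hfy
    simp at hfy
  unfold chkPairH at hp
  rw [Bool.or_eq_true, Bool.or_eq_true, Bool.or_eq_true, beq_iff, beq_iff, blt_iff,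
    Nat.ble_eq] at hp
  have hp2 : (cx B x).f * (cx B y).f * ((cx B x).u + (cx B y).u) ≤
      1000000 * B.tf * ((cx B x).p + (cx B y).p) +
        (mtH B.M ((B.sd - B.s0) * B.M) (1000000 * B.tf) (cx B x) (cx B y) +
          mtH B.M ((B.sd - B.s0) * B.M) (1000000 * B.tf) (cx B y) (cx B x)) := by
    rcases hp with hp | hp | hp | hp
    · exact absurd hp nfx
    · exact absurd hp nfy
    · exfalso
      have g1 : (B.M : ℝ) < (cx B x).g + (cx B y).g := by exact_mod_cast hp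
      rw [div_le_iff₀ hM'] at x1 y1
      have g2 := mul_le_mul_of_nonneg_right hxy hM'.le
      linarith
    · exact hp
  have hS : (0 : ℝ) < (B.sd : ℝ) * B.M := by positivity
  have ht : (((B.sd - B.s0) * B.M : ℕ) : ℝ) = (B.sd : ℝ) * B.M * (1 - (B.s0 : ℝ) / B.sd) := by
    push_cast
    rw [Nat.cast_sub h3.le]
    field_simp
  have ht0 : 0 < (B.sd - B.s0) * B.M := Nat.mul_pos (by omega) hM
  refine pair_realH hM htf (ux.resolve_left nfx) (uy.resolve_left nfy) x2 y2 ?_ ?_ hp2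
  · exact mtH_le hM gy2 y2 hy (ix_of_g hM h.len h.chain hx)
      (ml_le_mb hS ht ht0 (pi_real hM gy2 h6 h7 piy hy y2)
        (be_real hM hsd (gx1.le.trans gx2) bex x1))
  · exact mtH_le hM gx2 x2 hx (ix_of_g hM h.len h.chain hy)
      (ml_le_mb hS ht ht0 (pi_real hM gx2 h6 h7 pix hx x2)
        (be_real hM hsd (gy1.le.trans gy2) bey y1))

theorem boxOKH_of {B : Box} (h : COKH B) :
    H.BoxOKH (gF B 1) ((B.s0 : ℝ) / B.sd) ((B.s1 : ℝ) / B.sd) ((B.eps : ℝ) / 1000000) B.k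
      ((B.D : ℝ) / 1000000) (fX B) (pX B) (rX B) ((fst0 B : ℝ) / B.tf) := by
  obtain ⟨hM, hsd, hqd, htf, heta, heps, h1, h2, h3, h4, h5, h6, h7, h8, h9, h10, h11, -, -⟩ :=
    chkHead_spec h.hd
  have hM' : (0 : ℝ) < B.M := by exact_mod_cast hM
  have hsd' : (0 : ℝ) < B.sd := by exact_mod_cast hsd
  have htf' : (0 : ℝ) < B.tf := by exact_mod_cast htf
  have hgr := grid_of hM h.len h.chain
  have hcell := cx_cell hM h.len h.chain h.cells
  refine ⟨⟨?_, ?_, ?_⟩, ?_, ⟨?_, ?_⟩, ?_, ?_, ?_, ?_, ?_, ?_⟩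
  · rw [div_le_div_iff₀ (by norm_num) hsd']
    have : (B.sd : ℝ) ≤ 2 * B.s0 := by exact_mod_cast h1
    linarith
  · exact div_lt_div_of_pos_right (by exact_mod_cast h2) hsd'
  · rw [div_le_iff₀ hsd']
    exact_mod_cast h4
  · rcases h5 with h5 | h5
    · left
      rw [div_lt_one hsd']
      exact_mod_cast h5
    · right
      intro x
      have hi : ix B x < B.cells.length := hgr.cell_lt x
      rw [List.all_eq_true] at h5
      have h12 := h5 _ (List.getElem_mem hi)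
      rw [← cx_eq hi, beq_iff] at h12
      unfold rX
      rw [h12]
      simp
  · rw [le_div_iff₀ (by norm_num)]
    exact_mod_cast h6
  · rw [div_le_iff₀ (by norm_num), add_mul, one_mul]
    exact_mod_cast h7
  · rw [div_le_iff₀ htf']
    exact_mod_cast h.f10
  · intro x
    have h12 := (chkCell_spec (hcell x)).1
    unfold fX
    exact ⟨by positivity, div_le_div_of_nonneg_right (by exact_mod_cast h12) htf'.le⟩
  · intro x
    have h12 := (chkCell_spec (hcell x)).2.1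
    unfold pX
    refine ⟨by positivity, ?_⟩
    rw [div_le_iff₀ htf']
    exact_mod_cast h12
  · intro x
    have h12 := (chkCell_spec (hcell x)).2.2.1
    unfold rX
    refine ⟨by positivity, ?_⟩
    rw [div_le_iff₀ htf']
    exact_mod_cast h12
  · intro x hx
    obtain ⟨hl, h12, h13⟩ := last_spec h.last
    have h14 : gF B (B.cells.length - 1) ≤ x := by
      rw [gF_eq hl, div_le_iff₀ hM']
      have h15 : 25 * ((B.cells[B.cells.length - 1]'hl).g : ℝ) ≤ 24 * B.M := by exact_mod_cast h13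
      have h16 := mul_lt_mul_of_pos_right hx hM'
      linarith
    have hx0 : (0 : ℝ) ≤ gF B (B.cells.length - 1) := hgr.nonneg (by omega)
    have h17 : B.cells.length - 1 ≤ ix B x := by
      unfold ix cell
      exact Nat.le_findGreatest (P := fun i => gF B i ≤ x) le_rfl h14
    have hi : ix B x < B.cells.length := hgr.cell_lt x
    have h18 : ix B x = B.cells.length - 1 := by omega
    unfold fX
    rw [cx_eq hi]
    have h19 : B.cells[ix B x]'hi = B.cells[B.cells.length - 1]'hl := by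
      congr 1
    rw [h19, h12]
    simp
  · intro x y hx hy hxy hfx hfy
    rcases le_total (ix B x) (ix B y) with hij | hij
    · exact pair_halfH h hx hy hxy hfx hfy hij
    · have h12 := pair_halfH h hy hx (by linarith) hfy hfx hij
      have e : fX B x * fX B y * ((1 - x)⁻¹ + (1 - y)⁻¹) =
          fX B y * fX B x * ((1 - y)⁻¹ + (1 - x)⁻¹) := by ring
      rw [e]
      linarith

/-- The value of the profile at `y`. -/
theorem fc_cell {B : Box} (h : COKH B) {cut : ℕ} (hcut : cut < B.cells.length) {y : ℝ}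
    (hy : 0 ≤ y) :
    (P.fc (fX B) (gF B cut) y = ((cx B y).f : ℝ) / B.tf ∧ cx B y ∈ B.cells.take cut) ∨
      (P.fc (fX B) (gF B cut) y = 0 ∧ cx B y ∈ B.cells.drop cut) := by
  obtain ⟨hM, hsd, hqd, htf, heta, heps, -⟩ := chkHead_spec h.hd
  have hgr := grid_of hM h.len h.chain
  have hi : ix B y < B.cells.length := hgr.cell_lt y
  rcases Nat.lt_or_ge (ix B y) cut with h1 | h1
  · left
    constructor
    · unfold P.fc
      rw [if_pos]
      · rfl
      · have h2 : y < gF B (ix B y + 1) := hgr.lt_cell (by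
          have : ix B y + 1 ≤ cut := h1
          exact lt_of_le_of_lt this hcut)
        exact h2.trans_le (hgr.le h1 hcut.le)
    · rw [cx_eq hi, List.mem_take_iff_getElem]
      exact ⟨ix B y, by omega, rfl⟩
  · right
    constructor
    · unfold P.fc
      rw [if_neg]
      rw [not_lt]
      exact (hgr.le h1 hi.le).trans (hgr.cell_le hy)
    · rw [cx_eq hi, List.mem_drop_iff_getElem]
      refine ⟨ix B y - cut, by omega, ?_⟩
      congr 1
      omega

theorem vtx_ofH {B : Box} (h : COKH B) {x : Dg}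
    (hx : chkHub B (fst0 B) B.cells.length x = true) :
    P.VtxOKJ ((B.s0 : ℝ) / B.sd) ((B.s1 : ℝ) / B.sd) (fX B) (pX B) (rX B) x.d (gF B x.cut)
      ((x.c1 : ℝ) / 1000000) ((x.be : ℝ) / 1000000)
      ((x.um : ℝ) / 1000) ((x.a0 : ℝ) / 1000000) ((x.b0 : ℝ) / 1000000) ((x.a1 : ℝ) / 1000000)
      ((x.b1 : ℝ) / 1000000) ((x.aA : ℝ) / 1000000) ((x.bA : ℝ) / 1000000) := by
  obtain ⟨hM, hsd, hqd, htf, heta, heps, -⟩ := chkHead_spec h.hd
  have hM' : (0 : ℝ) < B.M := by exact_mod_cast hM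
  have hsd' : (0 : ℝ) < B.sd := by exact_mod_cast hsd
  have htf' : (0 : ℝ) < B.tf := by exact_mod_cast htf
  have hgr := grid_of hM h.len h.chain
  rw [chkHub, Bool.and_eq_true, Bool.and_eq_true, Bool.and_eq_true, List.all_eq_true,
    List.all_eq_true] at hx
  obtain ⟨hn, ht, hd, -⟩ := hx
  obtain ⟨n1, n2, n3, n4, n5, n6, n7, n8, n9, n10, n11, -, -, -, n12⟩ := chkNum_spec hn
  have key : ∀ y : ℝ, 0 ≤ y → y ≤ 1 → ∃ F : ℕ,
      P.fc (fX B) (gF B x.cut) y = (F : ℝ) / B.tf ∧ (F = 0 ∨ F = (cx B y).f) ∧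
      chkRows B x F (cx B y) = true := by
    intro y hy hy1
    rcases fc_cell h n1 hy with ⟨h1, h2⟩ | ⟨h1, h2⟩
    · refine ⟨(cx B y).f, h1, Or.inr rfl, ?_⟩
      have h3 := ht _ h2
      rw [Bool.and_eq_true] at h3
      exact h3.2
    · exact ⟨0, by rw [h1]; simp, Or.inl rfl, hd _ h2⟩
  have cst6 : ∀ {a : ℕ} {C : ℝ}, (a : ℝ) ≤ 1000000 * C → 0 ≤ (a : ℝ) / 1000000 ∧
      (a : ℝ) / 1000000 ≤ C := by
    intro a C ha
    refine ⟨by positivity, ?_⟩
    rw [div_le_iff₀ (by norm_num)]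
    linarith
  have cc : ∀ {a b : ℕ}, a ≤ b → (a : ℝ) ≤ b := fun h => by exact_mod_cast h
  have hF' : ∀ (y : ℝ) (F : ℕ), (F = 0 ∨ F = (cx B y).f) → F = 0 ∨ (cx B y).g' < B.M := by
    intro y F hF
    rcases hF with h0 | h0
    · exact Or.inl h0
    · obtain ⟨-, -, -, ux, -, -⟩ := chkCell_spec (cx_cell hM h.len h.chain h.cells y)
      rcases ux with h1 | h1
      · left
        rw [h0, h1]
      · right
        by_contra hcon
        have h2 : B.M - (cx B y).g' = 0 := by omega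
        rw [h2] at h1
        omega
  constructor
  · exact cst6 ((cc n2).trans (by norm_num))
  · exact cst6 ((cc n3).trans (by norm_num))
  · constructor
    · have : (0 : ℝ) < x.um := by exact_mod_cast n4
      positivity
    · rw [div_le_one (by norm_num)]
      exact_mod_cast n5
  · exact ⟨cst6 ((cc n6).trans (by norm_num)), cst6 ((cc n7).trans (by norm_num)),
      cst6 ((cc n10).trans (by norm_num))⟩
  · exact ⟨cst6 ((cc n8).trans (by norm_num)), cst6 ((cc n9).trans (by norm_num)),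
      cst6 ((cc n11).trans (by norm_num))⟩
  · intro y hy hy1
    obtain ⟨F, h1, h2, h3⟩ := key y hy hy1
    obtain ⟨x1, x2⟩ := cx_le hM h.len h.chain hy hy1
    obtain ⟨g1, g2⟩ := cx_gg hM h.len h.chain y
    rw [chkRows, Bool.and_eq_true, Bool.and_eq_true] at h3
    rw [h1]
    exact row_of hM hsd htf g1 g2 (hF' y F h2) n4 n5 n12 h3.1 x1 x2
  · intro y hy hy1
    obtain ⟨F, h1, h2, h3⟩ := key y hy hy1
    obtain ⟨x1, x2⟩ := cx_le hM h.len h.chain hy hy1
    obtain ⟨g1, g2⟩ := cx_gg hM h.len h.chain y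
    rw [chkRows, Bool.and_eq_true, Bool.and_eq_true] at h3
    rw [h1]
    exact row_of hM hsd htf g1 g2 (hF' y F h2) n4 n5 n12 h3.2.1 x1 x2
  · intro y hy hy1
    obtain ⟨F, h1, h2, h3⟩ := key y hy hy1
    obtain ⟨x1, x2⟩ := cx_le hM h.len h.chain hy hy1
    rw [chkRows, Bool.and_eq_true, Bool.and_eq_true, chkMass, Nat.ble_eq] at h3
    rw [h1]
    have h4 : (x.aA : ℝ) * (B.M * B.tf) ≤ x.bA * (cx B y).g * B.tf + F * (1000000 * B.M) := by
      exact_mod_cast h3.2.2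
    have h5 := mul_le_mul_of_nonneg_left x1 (show (0 : ℝ) ≤ (x.bA : ℝ) / 1000000 by positivity)
    have h6 : (x.aA : ℝ) / 1000000 - (x.bA : ℝ) / 1000000 * (((cx B y).g : ℝ) / B.M) ≤
        (F : ℝ) / B.tf := by
      have e : (x.aA : ℝ) / 1000000 - (x.bA : ℝ) / 1000000 * (((cx B y).g : ℝ) / B.M) =
          ((x.aA : ℝ) * (B.M * B.tf) - x.bA * (cx B y).g * B.tf) / (1000000 * B.M * B.tf) := by
        field_simp
      rw [e, div_le_div_iff₀ (by positivity) htf']
      have h7 := mul_le_mul_of_nonneg_right h4 htf'.le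
      linarith
    linarith

theorem fin_ofH {B : Box} (h : COKH B) (heps1 : B.eps ≤ 1000000) {x : Dg}
    (hx : chkHub B (fst0 B) B.cells.length x = true) :
    FinOK ((B.q0 : ℝ) / B.qd) ((B.q1 : ℝ) / B.qd) ((B.s0 : ℝ) / B.sd) ((B.s1 : ℝ) / B.sd)
      ((B.eta : ℝ) / 1000000 - (B.sl : ℝ) / 1000000 * ((H.dL B.dmin x.d : ℝ) - x.d))
      ((B.sl : ℝ) / 1000000) ((B.eps : ℝ) / 1000000)
      ((x.lc : ℝ) / 1000000) ((fst0 B : ℝ) / B.tf) x.d ((x.c1 : ℝ) / 1000000)
      ((x.be : ℝ) / 1000000)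
      ((x.um : ℝ) / 1000) ((x.a0 : ℝ) / 1000000) ((x.b0 : ℝ) / 1000000) ((x.a1 : ℝ) / 1000000)
      ((x.b1 : ℝ) / 1000000) ((x.aA : ℝ) / 1000000) ((x.bA : ℝ) / 1000000) ∧
    ∀ y : ℝ, 0 ≤ y → y ≤ 1 → 2 * ((x.lc : ℝ) / 1000000 * P.fc (fX B) (gF B x.cut) y) ≤
      (1 - (B.eps : ℝ) / 1000000) * (1 - y) := by
  obtain ⟨hM, hs, hq, htf, heta, heps, -, h01, -⟩ := chkHead_spec h.hd
  have hM' : (0 : ℝ) < B.M := by exact_mod_cast hM
  have ht' : (0 : ℝ) < B.tf := by exact_mod_cast htf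
  rw [chkHub, Bool.and_eq_true, Bool.and_eq_true, Bool.and_eq_true, List.all_eq_true,
    List.all_eq_true] at hx
  obtain ⟨hn, hta, hd, hf⟩ := hx
  rw [dLn_eq] at hf
  obtain ⟨n1, h1, h2, h3, h4, -, -, -, -, -, -, h5, h6, h7, h8⟩ := chkNum_spec hn
  rw [chkFinL, Bool.and_eq_true, Bool.and_eq_true, Bool.and_eq_true, Bool.and_eq_true] at hf
  obtain ⟨hA, hL, hE, hF1, hF2⟩ := hf
  generalize H.dL B.dmin x.d = dl at *
  have hss := (ss_real h8 h3 h4).2
  have hds : (0 : ℝ) < (B.s1 : ℝ) - B.s0 := by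
    have : (B.s0 : ℝ) < B.s1 := by exact_mod_cast h01
    linarith
  have hEP := ev2_EP hs h01 hss
  have hL1 : ∀ q s : ℝ, (B.q0 : ℝ) / B.qd ≤ q → q ≤ (B.q1 : ℝ) / B.qd → (B.s0 : ℝ) / B.sd ≤ s →
      s ≤ (B.s1 : ℝ) / B.sd →
      Ld ((B.eta : ℝ) / 1000000) ((B.sl : ℝ) / 1000000) dl q s < 1 := by
    intro q s g1 g2 g3 g4
    have h := okB_spec hL hq hs g1 g2 g3 g4
    rw [ev2_add, ev2_cst, ev2_mul, ev2_cst, ev2_LP] at h
    push_cast at h
    linarith
  have he1 : (B.eps : ℝ) / 1000000 ≤ 1 := by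
    rw [div_le_one (by norm_num)]
    exact_mod_cast heps1
  refine ⟨?_, ?_⟩
  rotate_left
  · intro y hy hy1
    rcases fc_cell h n1 hy with ⟨g1, g2⟩ | ⟨g1, g2⟩
    · rw [g1]
      have g3 := hta _ g2
      rw [Bool.and_eq_true, Nat.ble_eq] at g3
      obtain ⟨gg1, gg2⟩ := cx_gg hM h.len h.chain y
      obtain ⟨x1, x2⟩ := cx_le hM h.len h.chain hy hy1
      have c1 : ((B.M - (cx B y).g' : ℕ) : ℝ) = B.M - (cx B y).g' := Nat.cast_sub gg2
      have c2 : ((1000000 - B.eps : ℕ) : ℝ) = 1000000 - B.eps := by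
        rw [Nat.cast_sub heps1]
        push_cast
        ring
      have g4 : 2 * (x.lc : ℝ) * (cx B y).f * B.M ≤
          (1000000 - (B.eps : ℝ)) * B.tf * (B.M - (cx B y).g') := by
        rw [← c1, ← c2]
        exact_mod_cast g3.1
      have e1 : 2 * ((x.lc : ℝ) / 1000000 * (((cx B y).f : ℝ) / B.tf)) =
          (2 * (x.lc : ℝ) * (cx B y).f * B.M) / (1000000 * B.tf * B.M) := by
        field_simp
      have e2 : (1 - (B.eps : ℝ) / 1000000) * (1 - ((cx B y).g' : ℝ) / B.M) =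
          ((1000000 - (B.eps : ℝ)) * B.tf * (B.M - (cx B y).g')) / (1000000 * B.tf * B.M) := by
        field_simp
      have g5 : (1 - (B.eps : ℝ) / 1000000) * (1 - ((cx B y).g' : ℝ) / B.M) ≤
          (1 - (B.eps : ℝ) / 1000000) * (1 - y) :=
        mul_le_mul_of_nonneg_left (by linarith) (by linarith)
      refine le_trans ?_ g5
      rw [e1, e2]
      exact div_le_div_of_nonneg_right g4 (by positivity)
    · rw [g1]
      have : 0 ≤ (1 - (B.eps : ℝ) / 1000000) * (1 - y) :=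
        mul_nonneg (by linarith) (by linarith)
      linarith
  refine H.finOK_shift ⟨?_, ?_⟩ ?_ ?_ hL1 ?_ ?_ ?_
  · have : (0 : ℝ) < x.lc := by exact_mod_cast h5
    positivity
  · have : (x.lc : ℝ) ≤ 10000000 := by exact_mod_cast h6
    linarith
  · have h9 : 2 * (x.lc : ℝ) * fst0 B + B.eps * B.tf ≤ 1000000 * B.tf := by exact_mod_cast h7
    have e : 2 * ((x.lc : ℝ) / 1000000) * ((fst0 B : ℝ) / B.tf) =
        (2 * (x.lc : ℝ) * fst0 B) / (1000000 * B.tf) := by field_simp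
    rw [e, div_le_iff₀ (by positivity)]
    have e2 : (1 - (B.eps : ℝ) / 1000000) * (1000000 * B.tf) = 1000000 * B.tf - B.eps * B.tf := by
      ring
    rw [e2]
    linarith
  · intro q s g1 g2 g3 g4
    have h := okB_spec hA hq hs g1 g2 g3 g4
    rw [ev2_AP] at h
    linarith
  · intro q s g1 g2 g3 g4
    have h := okB_spec hF1 hq hs g1 g2 g3 g4
    have h9 := hL1 q s g1 g2 g3 g4
    have h10 := hEP q s
    simp only [F1L, ev2_add, ev2_mul, ev2_cst, ev2_LP] at h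
    push_cast at h
    generalize Ld ((B.eta : ℝ) / 1000000) ((B.sl : ℝ) / 1000000) dl q s = L at *
    generalize Ed _ _ _ _ _ _ _ _ _ _ _ _ = E at *
    generalize ev2 (EP B x) q s = W at *
    have h11 : W * (1 - L) ≤ 1000000 * ((B.s1 : ℝ) - B.s0) * E * (1 - L) :=
      mul_le_mul_of_nonneg_right h10 (by linarith)
    have h12 : 0 ≤ ((B.s1 : ℝ) - B.s0) * (4 * E * (1 - L) - ((x.c1 : ℝ) / 1000000) ^ 2 * L) := by
      have e3 : 1000000000000000000 * (((B.s1 : ℝ) - B.s0) *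
          (4 * E * (1 - L) - ((x.c1 : ℝ) / 1000000) ^ 2 * L)) =
          4000000000000 * (1000000 * ((B.s1 : ℝ) - B.s0) * E * (1 - L))
          - (x.c1 : ℝ) * x.c1 * ((B.s1 : ℝ) - B.s0) * (1000000 * L) := by ring
      linarith
    have h13 := nonneg_of_mul_nonneg_right h12 hds
    linarith
  · intro q s g1 g2 g3 g4
    have h := okB_spec hE hq hs g1 g2 g3 g4
    have h10 := hEP q s
    have h14 := h.trans h10
    exact nonneg_of_mul_nonneg_right h14 (by linarith)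
  · intro q s g1 g2 g3 g4
    have h := okB_spec hF2 hq hs g1 g2 g3 g4
    have h10 := hEP q s
    simp only [F2L, ev2_add, ev2_mul, ev2_cst, ev2_LP, ev2_AP] at h
    push_cast at h
    generalize Ld ((B.eta : ℝ) / 1000000) ((B.sl : ℝ) / 1000000) dl q s = L at *
    generalize Ad ((x.aA : ℝ) / 1000000) ((x.bA : ℝ) / 1000000) ((B.eps : ℝ) / 1000000) q s = A at *
    generalize Ed _ _ _ _ _ _ _ _ _ _ _ _ = E at *
    generalize ev2 (EP B x) q s = W at *
    have h11 : (x.lc : ℝ) * x.lc * 1000000 * W ≤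
        (x.lc : ℝ) * x.lc * 1000000 * (1000000 * ((B.s1 : ℝ) - B.s0) * E) :=
      mul_le_mul_of_nonneg_left h10 (by positivity)
    have h12 : 0 ≤ ((B.s1 : ℝ) - B.s0) * (2 * ((x.lc : ℝ) / 1000000) * A -
        ((x.lc : ℝ) / 1000000) ^ 2 * (A ^ 2 + (x.c1 : ℝ) / 1000000 * A - E) - L) := by
      have e3 : 1000000000000000000000000 * (((B.s1 : ℝ) - B.s0) *
          (2 * ((x.lc : ℝ) / 1000000) * A -
        ((x.lc : ℝ) / 1000000) ^ 2 * (A ^ 2 + (x.c1 : ℝ) / 1000000 * A - E) - L)) =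
          2 * (x.lc : ℝ) * 1000000000000 * ((B.s1 : ℝ) - B.s0) * (1000000 * A)
          - (x.lc : ℝ) * x.lc * ((B.s1 : ℝ) - B.s0) * (1000000 * A * (1000000 * A))
          - (x.lc : ℝ) * x.lc * ((B.s1 : ℝ) - B.s0) * x.c1 * (1000000 * A)
          + (x.lc : ℝ) * x.lc * 1000000 * (1000000 * ((B.s1 : ℝ) - B.s0) * E)
          - 1000000000000000000 * ((B.s1 : ℝ) - B.s0) * (1000000 * L) := by ring
      linarith
    have h13 := nonneg_of_mul_nonneg_right h12 hds
    linarith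

theorem hubs_spec {B : Box} {f0 N : ℕ} {l : List Dg} (h : l.all (chkHub B f0 N) = true)
    (h2 : chkHubs B l = true) {d : ℕ} (h0 : 1 ≤ d) (hd : H.dL B.dmin d < B.dmax) :
    ∃ x : Dg, x.d = d ∧ chkHub B f0 N x = true := by
  rw [chkHubs, List.all_eq_true] at h2
  rw [List.all_eq_true] at h
  have h3 : d < B.dmax := by
    have : d + 1 ≤ H.dL B.dmin d := le_max_left _ _
    omega
  have h4 := h2 d (List.mem_range.2 h3)
  rw [Bool.or_eq_true, Bool.or_eq_true, beq_iff, Nat.ble_eq, List.any_eq_true, dLn_eq] at h4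
  rcases h4 with h4 | h4 | ⟨x, hx, hxd⟩
  · omega
  · omega
  · rw [beq_iff] at hxd
    exact ⟨x, hxd, h x hx⟩

/-- The ordinary degrees. -/
theorem vtx_ofJ {B : Box} (h : COKH B) {x : Dg}
    (hx : chkDeg B (fst0 B) B.cells.length x = true) :
    P.VtxOKJ ((B.s0 : ℝ) / B.sd) ((B.s1 : ℝ) / B.sd) (fX B) (pX B) (rX B) x.d (gF B x.cut)
      ((x.c1 : ℝ) / 1000000) ((x.be : ℝ) / 1000000)
      ((x.um : ℝ) / 1000) ((x.a0 : ℝ) / 1000000) ((x.b0 : ℝ) / 1000000) ((x.a1 : ℝ) / 1000000)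
      ((x.b1 : ℝ) / 1000000) ((x.aA : ℝ) / 1000000) ((x.bA : ℝ) / 1000000) := by
  obtain ⟨hM, hsd, hqd, htf, heta, heps, -⟩ := chkHead_spec h.hd
  have hM' : (0 : ℝ) < B.M := by exact_mod_cast hM
  have hsd' : (0 : ℝ) < B.sd := by exact_mod_cast hsd
  have htf' : (0 : ℝ) < B.tf := by exact_mod_cast htf
  have hgr := grid_of hM h.len h.chain
  rw [chkDeg, Bool.and_eq_true, Bool.and_eq_true, Bool.and_eq_true, List.all_eq_true,
    List.all_eq_true] at hx
  obtain ⟨hn, ht, hd, -⟩ := hx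
  obtain ⟨n1, n2, n3, n4, n5, n6, n7, n8, n9, n10, n11, -, -, -, n12⟩ := chkNum_spec hn
  have key : ∀ y : ℝ, 0 ≤ y → y ≤ 1 → ∃ F : ℕ,
      P.fc (fX B) (gF B x.cut) y = (F : ℝ) / B.tf ∧ (F = 0 ∨ F = (cx B y).f) ∧
      chkRows B x F (cx B y) = true := by
    intro y hy hy1
    rcases fc_cell h n1 hy with ⟨h1, h2⟩ | ⟨h1, h2⟩
    · exact ⟨(cx B y).f, h1, Or.inr rfl, ht _ h2⟩
    · exact ⟨0, by rw [h1]; simp, Or.inl rfl, hd _ h2⟩
  have cst6 : ∀ {a : ℕ} {C : ℝ}, (a : ℝ) ≤ 1000000 * C → 0 ≤ (a : ℝ) / 1000000 ∧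
      (a : ℝ) / 1000000 ≤ C := by
    intro a C ha
    refine ⟨by positivity, ?_⟩
    rw [div_le_iff₀ (by norm_num)]
    linarith
  have cc : ∀ {a b : ℕ}, a ≤ b → (a : ℝ) ≤ b := fun h => by exact_mod_cast h
  have hF' : ∀ (y : ℝ) (F : ℕ), (F = 0 ∨ F = (cx B y).f) → F = 0 ∨ (cx B y).g' < B.M := by
    intro y F hF
    rcases hF with h0 | h0
    · exact Or.inl h0
    · obtain ⟨-, -, -, ux, -, -⟩ := chkCell_spec (cx_cell hM h.len h.chain h.cells y)
      rcases ux with h1 | h1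
      · left
        rw [h0, h1]
      · right
        by_contra hcon
        have h2 : B.M - (cx B y).g' = 0 := by omega
        rw [h2] at h1
        omega
  constructor
  · exact cst6 ((cc n2).trans (by norm_num))
  · exact cst6 ((cc n3).trans (by norm_num))
  · constructor
    · have : (0 : ℝ) < x.um := by exact_mod_cast n4
      positivity
    · rw [div_le_one (by norm_num)]
      exact_mod_cast n5
  · exact ⟨cst6 ((cc n6).trans (by norm_num)), cst6 ((cc n7).trans (by norm_num)),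
      cst6 ((cc n10).trans (by norm_num))⟩
  · exact ⟨cst6 ((cc n8).trans (by norm_num)), cst6 ((cc n9).trans (by norm_num)),
      cst6 ((cc n11).trans (by norm_num))⟩
  · intro y hy hy1
    obtain ⟨F, h1, h2, h3⟩ := key y hy hy1
    obtain ⟨x1, x2⟩ := cx_le hM h.len h.chain hy hy1
    obtain ⟨g1, g2⟩ := cx_gg hM h.len h.chain y
    rw [chkRows, Bool.and_eq_true, Bool.and_eq_true] at h3
    rw [h1]
    exact row_of hM hsd htf g1 g2 (hF' y F h2) n4 n5 n12 h3.1 x1 x2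
  · intro y hy hy1
    obtain ⟨F, h1, h2, h3⟩ := key y hy hy1
    obtain ⟨x1, x2⟩ := cx_le hM h.len h.chain hy hy1
    obtain ⟨g1, g2⟩ := cx_gg hM h.len h.chain y
    rw [chkRows, Bool.and_eq_true, Bool.and_eq_true] at h3
    rw [h1]
    exact row_of hM hsd htf g1 g2 (hF' y F h2) n4 n5 n12 h3.2.1 x1 x2
  · intro y hy hy1
    obtain ⟨F, h1, h2, h3⟩ := key y hy hy1
    obtain ⟨x1, x2⟩ := cx_le hM h.len h.chain hy hy1
    rw [chkRows, Bool.and_eq_true, Bool.and_eq_true, chkMass, Nat.ble_eq] at h3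
    rw [h1]
    have h4 : (x.aA : ℝ) * (B.M * B.tf) ≤ x.bA * (cx B y).g * B.tf + F * (1000000 * B.M) := by
      exact_mod_cast h3.2.2
    have h5 := mul_le_mul_of_nonneg_left x1 (show (0 : ℝ) ≤ (x.bA : ℝ) / 1000000 by positivity)
    have h6 : (x.aA : ℝ) / 1000000 - (x.bA : ℝ) / 1000000 * (((cx B y).g : ℝ) / B.M) ≤
        (F : ℝ) / B.tf := by
      have e : (x.aA : ℝ) / 1000000 - (x.bA : ℝ) / 1000000 * (((cx B y).g : ℝ) / B.M) =
          ((x.aA : ℝ) * (B.M * B.tf) - x.bA * (cx B y).g * B.tf) / (1000000 * B.M * B.tf) := by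
        field_simp
      rw [e, div_le_div_iff₀ (by positivity) htf']
      have h7 := mul_le_mul_of_nonneg_right h4 htf'.le
      linarith
    linarith

theorem end0_eq {B : Box} (h1 : 1 < B.cells.length) (h : chkChain B.M B.cells 0 = true) :
    gF B 1 = (end0 B : ℝ) / B.M := by
  have h2 := gF_succ h (i := 0) (by omega)
  rw [zero_add] at h2
  rw [h2]
  unfold end0
  have h3 : ∀ (l : List Cl) (hl : 0 < l.length), l.headD ⟨0, 0, 0, 0, 0, 0, 0, 0⟩ = l[0]'hl := by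
    intro l hl
    cases l with
    | nil => simp at hl
    | cons c l => simp
  rw [h3 _ (by omega)]

/-- **The theorem of the machine for all degrees**. -/
theorem boxCertH_of_chk {B : BoxH} (h : chkBoxH B = true) :
    H.BoxCertH (1 / 1000) ((B.b.eta : ℝ) / 1000000) ((B.b.eps : ℝ) / 1000000)
      ((B.b.q0 : ℝ) / B.b.qd) ((B.b.q1 : ℝ) / B.b.qd) ((B.b.s0 : ℝ) / B.b.sd)
      ((B.b.s1 : ℝ) / B.b.sd) B.b.dmin B.b.dmax := by
  rw [chkBoxH, Bool.and_eq_true, Bool.and_eq_true, Bool.and_eq_true, Bool.and_eq_true,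
    Bool.and_eq_true, Bool.and_eq_true, Bool.and_eq_true, Bool.and_eq_true, Bool.and_eq_true,
    Bool.and_eq_true, Bool.and_eq_true, blt_iff, Nat.ble_eq, Nat.ble_eq, Nat.ble_eq] at h
  obtain ⟨c1, c2, c3, c4, c5, c6, c7, hdeg, hhub, hhub2, hend, heps1⟩ := h
  generalize hBB : B.b = B' at *
  have hC : COKH B' := ⟨c1, c2, c3, c4, c5, c6, c7⟩
  obtain ⟨hM, hsd, hqd, htf, heta, heps, h1, h2, h3, h4, h5, h6, h7, h8, h9, h10, h11, h12, h13⟩ :=
    chkHead_spec c1
  have hqd' : (0 : ℝ) < B'.qd := by exact_mod_cast hqd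
  have hM' : (0 : ℝ) < B'.M := by exact_mod_cast hM
  have hdh : (1 : ℝ) / 1000 ≤ gF B' 1 := by
    rw [end0_eq c2 c3, div_le_div_iff₀ (by norm_num) hM']
    have : (B'.M : ℝ) ≤ 1000 * end0 B' := by exact_mod_cast hend
    linarith
  refine H.BoxCertH.anti hdh ?_
  refine ⟨B'.k, (B'.D : ℝ) / 1000000, fX B', pX B', rX B', (fst0 B' : ℝ) / B'.tf,
    (B'.sl : ℝ) / 1000000, ?_, by positivity, ?_, boxOKH_of hC, ?_, ?_, h10, ?_, ?_⟩
  · have g1 : 2 * (B'.q1 : ℝ) * 1000000 + B'.eps * B'.qd ≤ B'.D * B'.qd := by exact_mod_cast h8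
    have e : 2 * ((B'.q1 : ℝ) / B'.qd) + (B'.eps : ℝ) / 1000000 =
        (2 * (B'.q1 : ℝ) * 1000000 + B'.eps * B'.qd) / (1000000 * B'.qd) := by field_simp
    rw [e, div_le_div_iff₀ (by positivity) (by norm_num)]
    linarith
  · rw [div_le_one (by norm_num)]
    exact_mod_cast h9
  · intro q s g1 g2 g3 g4
    have g5 := okB_spec h12 hqd hsd g1 g2 g3 g4
    rw [ev2_mul, ev2_cst, ev2_LP] at g5
    push_cast at g5
    linarith
  · intro q s g1 g2 g3 g4
    have g5 := okB_spec h13 hqd hsd g1 g2 g3 g4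
    simp only [ev2, ev1] at g5
    push_cast at g5
    linarith
  · intro d g1 g2
    obtain ⟨x, hx, hxd⟩ := degs_spec hdeg d g1 g2
    refine ⟨gF B' x.cut, (x.c1 : ℝ) / 1000000, (x.be : ℝ) / 1000000, (x.um : ℝ) / 1000,
      (x.a0 : ℝ) / 1000000, (x.b0 : ℝ) / 1000000, (x.a1 : ℝ) / 1000000, (x.b1 : ℝ) / 1000000,
      (x.aA : ℝ) / 1000000, (x.bA : ℝ) / 1000000, (x.lc : ℝ) / 1000000, ?_, ?_⟩
    · rw [← hx]
      exact vtx_ofJ hC hxd
    · rw [← hx]
      rw [chkDeg, Bool.and_eq_true, Bool.and_eq_true, Bool.and_eq_true] at hxd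
      exact fin_of hxd.1 hxd.2.2.2 hqd hsd htf h2
  · intro d g1 g2
    obtain ⟨x, hx, hxd⟩ := hubs_spec hhub hhub2 g1 g2
    refine ⟨gF B' x.cut, (x.c1 : ℝ) / 1000000, (x.be : ℝ) / 1000000, (x.um : ℝ) / 1000,
      (x.a0 : ℝ) / 1000000, (x.b0 : ℝ) / 1000000, (x.a1 : ℝ) / 1000000, (x.b1 : ℝ) / 1000000,
      (x.aA : ℝ) / 1000000, (x.bA : ℝ) / 1000000, (x.lc : ℝ) / 1000000, ?_, ?_⟩
    · rw [← hx]
      exact vtx_ofH hC hxd
    · rw [← hx]
      exact fin_ofH hC heps1 hxd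

end

end Pool.Agent.T6J.Mach
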