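import Pool.Agent.T6J.TabH00
import Pool.Agent.T6J.TabH01
import Pool.Agent.T6J.TabH02
import Pool.Agent.T6J.TabH03
import Pool.Agent.T6J.TabH04
import Pool.Agent.T6J.TabH05
import Pool.Agent.T6J.TabH06
import Pool.Agent.T6J.TabH07
import Pool.Agent.T6J.TabH08
import Pool.Agent.T6J.TabH09
import Pool.Agent.T6J.TabH10
import Pool.Agent.T6J.TabH11
import Pool.Agent.T6J.TabH12
import Pool.Agent.T6J.CoverPH
import Pool.Agent.T6J.MachineHSound

/-!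
# The certificate for all degrees: the certified boxes cover the region (MP_c6effb_co, helper78)

`coverH52 : H.CoverH (5 / 2)`: every `q` in `[7/5, 5/2]` and every `s` above the threshold lies in one of
the 103 boxes of the files `TabH00` to `TabH12` (table of helper43, machine and data files of helper66), each
certified by the kernel (`chkBoxH`).
-/

set_option autoImplicit false
set_option maxRecDepth 100000

namespace Pool.Agent.T6J.Mach.CH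

/-- A box which passes the check, with the common denominators. -/
def Good (B : BoxH) : Prop :=
  chkBoxH B = true ∧ B.b.eta = 100 ∧ B.b.eps = 1 ∧ B.b.qd = 10000 ∧ B.b.sd = 10000

/-- The boxes of the file `TabH00`. -/
def L00 : List BoxH := [bh000, bh001, bh002, bh003, bh004, bh005, bh006, bh007]

theorem good00 : ∀ B ∈ L00, Good B := by
  intro B hB
  simp only [L00, List.mem_cons, List.not_mem_nil, or_false] at hB
  rcases hB with rfl | rfl | rfl | rfl | rfl | rfl | rfl | rfl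
  exacts [⟨bh000_ok, rfl, rfl, rfl, rfl⟩,
    ⟨bh001_ok, rfl, rfl, rfl, rfl⟩,
    ⟨bh002_ok, rfl, rfl, rfl, rfl⟩,
    ⟨bh003_ok, rfl, rfl, rfl, rfl⟩,
    ⟨bh004_ok, rfl, rfl, rfl, rfl⟩,
    ⟨bh005_ok, rfl, rfl, rfl, rfl⟩,
    ⟨bh006_ok, rfl, rfl, rfl, rfl⟩,
    ⟨bh007_ok, rfl, rfl, rfl, rfl⟩]

/-- The boxes of the file `TabH01`. -/
def L01 : List BoxH := [bh008, bh009, bh010, bh011, bh012, bh013, bh014, bh015]

theorem good01 : ∀ B ∈ L01, Good B := by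
  intro B hB
  simp only [L01, List.mem_cons, List.not_mem_nil, or_false] at hB
  rcases hB with rfl | rfl | rfl | rfl | rfl | rfl | rfl | rfl
  exacts [⟨bh008_ok, rfl, rfl, rfl, rfl⟩,
    ⟨bh009_ok, rfl, rfl, rfl, rfl⟩,
    ⟨bh010_ok, rfl, rfl, rfl, rfl⟩,
    ⟨bh011_ok, rfl, rfl, rfl, rfl⟩,
    ⟨bh012_ok, rfl, rfl, rfl, rfl⟩,
    ⟨bh013_ok, rfl, rfl, rfl, rfl⟩,
    ⟨bh014_ok, rfl, rfl, rfl, rfl⟩,
    ⟨bh015_ok, rfl, rfl, rfl, rfl⟩]

/-- The boxes of the file `TabH02`. -/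
def L02 : List BoxH := [bh016, bh017, bh018, bh019, bh020, bh021, bh022, bh023]

theorem good02 : ∀ B ∈ L02, Good B := by
  intro B hB
  simp only [L02, List.mem_cons, List.not_mem_nil, or_false] at hB
  rcases hB with rfl | rfl | rfl | rfl | rfl | rfl | rfl | rfl
  exacts [⟨bh016_ok, rfl, rfl, rfl, rfl⟩,
    ⟨bh017_ok, rfl, rfl, rfl, rfl⟩,
    ⟨bh018_ok, rfl, rfl, rfl, rfl⟩,
    ⟨bh019_ok, rfl, rfl, rfl, rfl⟩,
    ⟨bh020_ok, rfl, rfl, rfl, rfl⟩,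
    ⟨bh021_ok, rfl, rfl, rfl, rfl⟩,
    ⟨bh022_ok, rfl, rfl, rfl, rfl⟩,
    ⟨bh023_ok, rfl, rfl, rfl, rfl⟩]

/-- The boxes of the file `TabH03`. -/
def L03 : List BoxH := [bh024, bh025, bh026, bh027, bh028, bh029, bh030, bh031]

theorem good03 : ∀ B ∈ L03, Good B := by
  intro B hB
  simp only [L03, List.mem_cons, List.not_mem_nil, or_false] at hB
  rcases hB with rfl | rfl | rfl | rfl | rfl | rfl | rfl | rfl
  exacts [⟨bh024_ok, rfl, rfl, rfl, rfl⟩,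
    ⟨bh025_ok, rfl, rfl, rfl, rfl⟩,
    ⟨bh026_ok, rfl, rfl, rfl, rfl⟩,
    ⟨bh027_ok, rfl, rfl, rfl, rfl⟩,
    ⟨bh028_ok, rfl, rfl, rfl, rfl⟩,
    ⟨bh029_ok, rfl, rfl, rfl, rfl⟩,
    ⟨bh030_ok, rfl, rfl, rfl, rfl⟩,
    ⟨bh031_ok, rfl, rfl, rfl, rfl⟩]

/-- The boxes of the file `TabH04`. -/
def L04 : List BoxH := [bh032, bh033, bh034, bh035, bh036, bh037, bh038, bh039]

theorem good04 : ∀ B ∈ L04, Good B := by
  intro B hB
  simp only [L04, List.mem_cons, List.not_mem_nil, or_false] at hB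
  rcases hB with rfl | rfl | rfl | rfl | rfl | rfl | rfl | rfl
  exacts [⟨bh032_ok, rfl, rfl, rfl, rfl⟩,
    ⟨bh033_ok, rfl, rfl, rfl, rfl⟩,
    ⟨bh034_ok, rfl, rfl, rfl, rfl⟩,
    ⟨bh035_ok, rfl, rfl, rfl, rfl⟩,
    ⟨bh036_ok, rfl, rfl, rfl, rfl⟩,
    ⟨bh037_ok, rfl, rfl, rfl, rfl⟩,
    ⟨bh038_ok, rfl, rfl, rfl, rfl⟩,
    ⟨bh039_ok, rfl, rfl, rfl, rfl⟩]

/-- The boxes of the file `TabH05`. -/
def L05 : List BoxH := [bh040, bh041, bh042, bh043, bh044, bh045, bh046, bh047]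

theorem good05 : ∀ B ∈ L05, Good B := by
  intro B hB
  simp only [L05, List.mem_cons, List.not_mem_nil, or_false] at hB
  rcases hB with rfl | rfl | rfl | rfl | rfl | rfl | rfl | rfl
  exacts [⟨bh040_ok, rfl, rfl, rfl, rfl⟩,
    ⟨bh041_ok, rfl, rfl, rfl, rfl⟩,
    ⟨bh042_ok, rfl, rfl, rfl, rfl⟩,
    ⟨bh043_ok, rfl, rfl, rfl, rfl⟩,
    ⟨bh044_ok, rfl, rfl, rfl, rfl⟩,
    ⟨bh045_ok, rfl, rfl, rfl, rfl⟩,
    ⟨bh046_ok, rfl, rfl, rfl, rfl⟩,
    ⟨bh047_ok, rfl, rfl, rfl, rfl⟩]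

/-- The boxes of the file `TabH06`. -/
def L06 : List BoxH := [bh048, bh049, bh050, bh051, bh052, bh053, bh054, bh055]

theorem good06 : ∀ B ∈ L06, Good B := by
  intro B hB
  simp only [L06, List.mem_cons, List.not_mem_nil, or_false] at hB
  rcases hB with rfl | rfl | rfl | rfl | rfl | rfl | rfl | rfl
  exacts [⟨bh048_ok, rfl, rfl, rfl, rfl⟩,
    ⟨bh049_ok, rfl, rfl, rfl, rfl⟩,
    ⟨bh050_ok, rfl, rfl, rfl, rfl⟩,
    ⟨bh051_ok, rfl, rfl, rfl, rfl⟩,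
    ⟨bh052_ok, rfl, rfl, rfl, rfl⟩,
    ⟨bh053_ok, rfl, rfl, rfl, rfl⟩,
    ⟨bh054_ok, rfl, rfl, rfl, rfl⟩,
    ⟨bh055_ok, rfl, rfl, rfl, rfl⟩]

/-- The boxes of the file `TabH07`. -/
def L07 : List BoxH := [bh056, bh057, bh058, bh059, bh060, bh061, bh062, bh063]

theorem good07 : ∀ B ∈ L07, Good B := by
  intro B hB
  simp only [L07, List.mem_cons, List.not_mem_nil, or_false] at hB
  rcases hB with rfl | rfl | rfl | rfl | rfl | rfl | rfl | rfl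
  exacts [⟨bh056_ok, rfl, rfl, rfl, rfl⟩,
    ⟨bh057_ok, rfl, rfl, rfl, rfl⟩,
    ⟨bh058_ok, rfl, rfl, rfl, rfl⟩,
    ⟨bh059_ok, rfl, rfl, rfl, rfl⟩,
    ⟨bh060_ok, rfl, rfl, rfl, rfl⟩,
    ⟨bh061_ok, rfl, rfl, rfl, rfl⟩,
    ⟨bh062_ok, rfl, rfl, rfl, rfl⟩,
    ⟨bh063_ok, rfl, rfl, rfl, rfl⟩]

/-- The boxes of the file `TabH08`. -/
def L08 : List BoxH := [bh064, bh065, bh066, bh067, bh068, bh069, bh070, bh071]

theorem good08 : ∀ B ∈ L08, Good B := by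
  intro B hB
  simp only [L08, List.mem_cons, List.not_mem_nil, or_false] at hB
  rcases hB with rfl | rfl | rfl | rfl | rfl | rfl | rfl | rfl
  exacts [⟨bh064_ok, rfl, rfl, rfl, rfl⟩,
    ⟨bh065_ok, rfl, rfl, rfl, rfl⟩,
    ⟨bh066_ok, rfl, rfl, rfl, rfl⟩,
    ⟨bh067_ok, rfl, rfl, rfl, rfl⟩,
    ⟨bh068_ok, rfl, rfl, rfl, rfl⟩,
    ⟨bh069_ok, rfl, rfl, rfl, rfl⟩,
    ⟨bh070_ok, rfl, rfl, rfl, rfl⟩,
    ⟨bh071_ok, rfl, rfl, rfl, rfl⟩]

/-- The boxes of the file `TabH09`. -/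
def L09 : List BoxH := [bh072, bh073, bh074, bh075, bh076, bh077, bh078, bh079]

theorem good09 : ∀ B ∈ L09, Good B := by
  intro B hB
  simp only [L09, List.mem_cons, List.not_mem_nil, or_false] at hB
  rcases hB with rfl | rfl | rfl | rfl | rfl | rfl | rfl | rfl
  exacts [⟨bh072_ok, rfl, rfl, rfl, rfl⟩,
    ⟨bh073_ok, rfl, rfl, rfl, rfl⟩,
    ⟨bh074_ok, rfl, rfl, rfl, rfl⟩,
    ⟨bh075_ok, rfl, rfl, rfl, rfl⟩,
    ⟨bh076_ok, rfl, rfl, rfl, rfl⟩,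
    ⟨bh077_ok, rfl, rfl, rfl, rfl⟩,
    ⟨bh078_ok, rfl, rfl, rfl, rfl⟩,
    ⟨bh079_ok, rfl, rfl, rfl, rfl⟩]

/-- The boxes of the file `TabH10`. -/
def L10 : List BoxH := [bh080, bh081, bh082, bh083, bh084, bh085, bh086, bh087]

theorem good10 : ∀ B ∈ L10, Good B := by
  intro B hB
  simp only [L10, List.mem_cons, List.not_mem_nil, or_false] at hB
  rcases hB with rfl | rfl | rfl | rfl | rfl | rfl | rfl | rfl
  exacts [⟨bh080_ok, rfl, rfl, rfl, rfl⟩,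
    ⟨bh081_ok, rfl, rfl, rfl, rfl⟩,
    ⟨bh082_ok, rfl, rfl, rfl, rfl⟩,
    ⟨bh083_ok, rfl, rfl, rfl, rfl⟩,
    ⟨bh084_ok, rfl, rfl, rfl, rfl⟩,
    ⟨bh085_ok, rfl, rfl, rfl, rfl⟩,
    ⟨bh086_ok, rfl, rfl, rfl, rfl⟩,
    ⟨bh087_ok, rfl, rfl, rfl, rfl⟩]

/-- The boxes of the file `TabH11`. -/
def L11 : List BoxH := [bh088, bh089, bh090, bh091, bh092, bh093, bh094, bh095]

theorem good11 : ∀ B ∈ L11, Good B := by
  intro B hB
  simp only [L11, List.mem_cons, List.not_mem_nil, or_false] at hB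
  rcases hB with rfl | rfl | rfl | rfl | rfl | rfl | rfl | rfl
  exacts [⟨bh088_ok, rfl, rfl, rfl, rfl⟩,
    ⟨bh089_ok, rfl, rfl, rfl, rfl⟩,
    ⟨bh090_ok, rfl, rfl, rfl, rfl⟩,
    ⟨bh091_ok, rfl, rfl, rfl, rfl⟩,
    ⟨bh092_ok, rfl, rfl, rfl, rfl⟩,
    ⟨bh093_ok, rfl, rfl, rfl, rfl⟩,
    ⟨bh094_ok, rfl, rfl, rfl, rfl⟩,
    ⟨bh095_ok, rfl, rfl, rfl, rfl⟩]

/-- The boxes of the file `TabH12`. -/
def L12 : List BoxH := [bh096, bh097, bh098, bh099, bh100, bh101, bh102]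

theorem good12 : ∀ B ∈ L12, Good B := by
  intro B hB
  simp only [L12, List.mem_cons, List.not_mem_nil, or_false] at hB
  rcases hB with rfl | rfl | rfl | rfl | rfl | rfl | rfl
  exacts [⟨bh096_ok, rfl, rfl, rfl, rfl⟩,
    ⟨bh097_ok, rfl, rfl, rfl, rfl⟩,
    ⟨bh098_ok, rfl, rfl, rfl, rfl⟩,
    ⟨bh099_ok, rfl, rfl, rfl, rfl⟩,
    ⟨bh100_ok, rfl, rfl, rfl, rfl⟩,
    ⟨bh101_ok, rfl, rfl, rfl, rfl⟩,
    ⟨bh102_ok, rfl, rfl, rfl, rfl⟩]

/-- All boxes. -/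
def boxes : List BoxH :=
  L00 ++ (L01 ++ (L02 ++ (L03 ++ (L04 ++ (L05 ++ (L06 ++ (L07 ++ (L08 ++ (L09 ++ (L10 ++ (L11 ++ (L12))))))))))))

theorem good : ∀ B ∈ boxes, Good B := by
  intro B hB
  simp only [boxes, List.mem_append] at hB
  rcases hB with h | h | h | h | h | h | h | h | h | h | h | h | h
  exacts [good00 B h, good01 B h, good02 B h, good03 B h, good04 B h, good05 B h,
    good06 B h, good07 B h, good08 B h, good09 B h, good10 B h, good11 B h, good12 B h]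

/-- The rectangle of a box. -/
def toBx (B : BoxH) : Bx := ⟨B.b.q0, B.b.q1, B.b.s0, B.b.s1⟩

/-- The columns: right ends and the largest degree below `2 q`. -/
def cols : List (ℕ × ℕ) :=
  [(1420000, 2), (1450000, 2), (1499900, 2), (1520000, 3), (1560000, 3), (1620000, 3), (1720000, 3),
    (1840000, 3), (1999900, 3), (2030000, 4), (2080000, 4), (2180000, 4), (2320000, 4), (2499900, 4),
    (2500100, 5)]

theorem cover_ok : colsOK 1000000 1 2500001 1000001 30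
    ((boxes.map toBx).map fun x => ⟨100 * x.A, 100 * x.B, 100 * x.U, 100 * x.V⟩) 1399900 cols =
      true := by
  decide +kernel

/-- **The certified boxes cover the region up to `q = 5 / 2`.** -/
theorem coverH52 : H.CoverH (5 / 2) := by
  refine H.coverH_of' (dh := 1 / 1000) (η := ((100 : ℕ) : ℝ) / 1000000)
    (ε := ((1 : ℕ) : ℝ) / 1000000) (M := 1000000) (Mq := 10000) (Ms := 10000) (cq := 100)
    (cs := 100) (e := 1) (Qn := 2500001) (top := 1000001) (fuel := 30) (a := 1399900)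
    (L := boxes.map toBx) (cols := cols) (by norm_num) (by norm_num) (by norm_num) (by norm_num)
    (by norm_num) (by norm_num) (by norm_num) (by norm_num) (by norm_num) (by norm_num) cover_ok ?_
  intro x hx
  obtain ⟨B, hB, rfl⟩ := List.mem_map.1 hx
  obtain ⟨h, h1, h2, h3, h4⟩ := good B hB
  have h5 := boxCertH_of_chk h
  rw [h1, h2, h3, h4] at h5
  exact ⟨_, _, h5⟩

end Pool.Agent.T6J.Mach.CH
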