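import Pool.Agent.T6J.AllOf
import Pool.Agent.T6J.TabCoverH
import Pool.Agent.T6A.CertNine

/-!
# Sidorenko's inequality for all large graphs (MP_c6effb_co)
-/

set_option autoImplicit false

namespace Pool.Agent.T6J

open Pool.Agent.T6A

/-- `R(3, G) ≤ k + m` for all graphs `G` with `k ≥ k₀` vertices and `m` edges. -/
theorem all_large :
    ∃ k₀ : ℕ, ∀ (V : Type) [Fintype V] (G : SimpleGraph V), k₀ ≤ Fintype.card V →
      ∀ H : SimpleGraph (Fin (Fintype.card V + G.edgeSet.ncard)),
        ¬ H.CliqueFree 3 ∨ ∃ f : G →g Hᶜ, Function.Injective f :=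
  all_of_cover (Q := 5 / 2) (Q' := 9 / 4) (by norm_num) (by norm_num) Mach.CH.coverH52
    Chk.TabB.certStmt

end Pool.Agent.T6J
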