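import Pool.Agent.T6A.Chain
import Pool.Agent.T6A.LimSplit
import Pool.Agent.T6A.Lim4

/-!
# `Lim4` from the certificate with bad rows and the dichotomy (MP_c6effb_co, all `m`, hubs)

`BR` = the condition on the rows (`BadRow4`), list-free. `CertStmtJ4 BR Q'`: the certificate, if all rows
are bad. `DichoStmt4 BR`: either all rows are bad or there is a scheme for all `i0` in a set `As`.
`Lim4 True (· < 1 + Q') (7 / 5)` follows. In both statements the tolerances `e` come before `K`.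
-/

set_option autoImplicit false

open Finset

namespace Pool.Agent.T6J

open Pool.Agent.T6A

noncomputable section

open Classical

/-- A condition on the rows; the real number is its tolerance. -/
abbrev RowCond := ∀ (V ι : Type) [Fintype V] [Fintype ι], World ι → Low V ι → ℝ → Prop

/-- CERT, interface v4, with the threshold, for `tot ≤ 1 + Q'`, if all rows are bad; `e₀` = tolerance of
the rows, `e₁` = bound for `e`. -/
def CertStmtJ4 (BR : RowCond) (Q' : ℝ) : Prop := ∀ C : ℕ, ∃ e₀ e₁ : ℝ, 0 < e₀ ∧ 0 < e₁ ∧ e₁ ≤ 1 / 8 ∧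
  ∀ e : ℝ, 0 < e → e ≤ e₁ → ∀ K : ℕ, ∃ R η ε : ℝ, 0 < η ∧ 0 < ε ∧
    ∀ (V ι : Type) [Fintype V] [Fintype ι] (X : World ι) (L : Low V ι) (Bd : ι → ι → Prop) (k : ℝ),
    PreOK X L Bd k (7 / 5) C K e ε → ThrW X L k e → X.tot ≤ 1 + Q' → X.s < 1 + 3 * e →
    (X.s < 1 → BR V ι X L e₀) → ∃ As : Finset ι, As ⊆ X.A ∧ e ≤ ∑ i ∈ As, X.w i ∧
      ∀ i0 ∈ As, ∀ Av Bv : V → Finset ι, ListOK X (L.lists Av Bv) i0 e ε →
        ∃ r : V → ι → ℝ, RateOK X (L.lists Av Bv) k e R η r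

/-- **Dichotomy**, interface v4: all rows are bad, or there is a scheme for all `i0` in a set `As`. -/
def DichoStmt4 (BR : RowCond) : Prop := ∀ (C : ℕ) (e₀ : ℝ), 0 < e₀ → ∃ e₁ : ℝ, 0 < e₁ ∧
  ∀ e : ℝ, 0 < e → e ≤ e₁ → ∀ (K : ℕ) (ζ : ℝ), 0 < ζ → ∃ (B : ℕ) (ε : ℝ), 0 < ε ∧
    ∀ (V ι : Type) [Fintype V] [Fintype ι] (X : World ι) (L : Low V ι) (Bd : ι → ι → Prop) (k : ℝ),
    PreOK X L Bd k (7 / 5) C K e ε → X.s < 1 → BR V ι X L e₀ ∨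
      ∃ As : Finset ι, As ⊆ X.A ∧ e ≤ ∑ i ∈ As, X.w i ∧
        ∀ i0 ∈ As, ∀ Av Bv : V → Finset ι, ListOK X (L.lists Av Bv) i0 e ε →
          ∃ (Om : Type) (_ : Fintype Om) (p : V → Om → ℝ) (g : (V → Om) → V → ι)
            (b : (V → Om) → V → Option ι) (Bn : V → Finset V) (ψ : ι → ι → ℝ),
            Scheme X (L.lists Av Bv) Bd k e ζ B p g b Bn ψ

/-- **`Lim4` from the certificate and the dichotomy.** -/
theorem lim4_of_J4 {BR : RowCond} {Q' : ℝ} (hJ : CertStmtJ4 BR Q') (hD : DichoStmt4 BR) :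
    Lim4 True (fun x => x < 1 + Q') (7 / 5) := by
  intro C
  obtain ⟨e₀, e₁, he₀, he₁, he₁8, hJ⟩ := hJ C
  obtain ⟨e₂, he₂, hD⟩ := hD C e₀ he₀
  obtain ⟨e, hedef⟩ : ∃ e : ℝ, e = min e₁ e₂ := ⟨_, rfl⟩
  have he : 0 < e := by rw [hedef]; exact lt_min he₁ he₂
  have hee₁ : e ≤ e₁ := by rw [hedef]; exact min_le_left _ _
  have hee₂ : e ≤ e₂ := by rw [hedef]; exact min_le_right _ _
  have he8 : e ≤ 1 / 8 := hee₁.trans he₁8
  refine ⟨e, he, he8, fun K ζ hζ => ?_⟩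
  obtain ⟨R, η, ε₁, hη, hε₁, hJ⟩ := hJ e he hee₁ K
  obtain ⟨B₁, ε₂, hε₂, hε₂₁, hS⟩ := scheme_core ruleStmt he he8 K (R := R) hη hε₁ hζ
  obtain ⟨B₂, ε₃, hε₃, hD⟩ := hD e he hee₂ K ζ hζ
  refine ⟨max B₁ B₂, min ε₂ ε₃, lt_min hε₂ hε₃, ?_⟩
  intro V ι _ _ X L Bd k hP hthr hU
  have hk := hP.k0
  have hP₂ : PreOK X L Bd k (7 / 5) C K e ε₂ := hP.mono (min_le_left _ _)
  have hrate : (X.s < 1 → BR V ι X L e₀) → ∃ As : Finset ι, As ⊆ X.A ∧ e ≤ ∑ i ∈ As, X.w i ∧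
      ∀ i0 ∈ As, ∀ Av Bv : V → Finset ι, ListOK X (L.lists Av Bv) i0 e (min ε₂ ε₃) →
        ∃ (Om : Type) (_ : Fintype Om) (p : V → Om → ℝ) (g : (V → Om) → V → ι)
          (b : (V → Om) → V → Option ι) (Bn : V → Finset V) (ψ : ι → ι → ℝ),
          Scheme X (L.lists Av Bv) Bd k e ζ (max B₁ B₂) p g b Bn ψ := by
    intro hbad
    by_cases hs : X.s < 1 + 3 * e
    · obtain ⟨As, hAs, hAsw, h1⟩ := hJ V ι X L Bd k (hP₂.mono hε₂₁) (hthr trivial) hU.le hs hbad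
      refine ⟨As, hAs, hAsw, fun i0 hi0 Av Bv hL => ?_⟩
      have hL₂ : ListOK X (L.lists Av Bv) i0 e ε₂ := hL.mono (min_le_left _ _)
      obtain ⟨Om, iOm, p, g, b, Bn, φ, h2⟩ := hS V ι X _ Bd k (7 / 5) C (hP₂.worldOK hL₂)
        fun _ => h1 i0 hi0 Av Bv (hL₂.mono hε₂₁)
      exact ⟨Om, iOm, p, g, b, Bn, φ, h2.mono_e hk.le le_rfl (le_max_left _ _)⟩
    · refine ⟨X.A, subset_rfl, hP.e_le he8, fun i0 _ Av Bv hL => ?_⟩
      have hL₂ : ListOK X (L.lists Av Bv) i0 e ε₂ := hL.mono (min_le_left _ _)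
      obtain ⟨Om, iOm, p, g, b, Bn, φ, h2⟩ := hS V ι X _ Bd k (7 / 5) C (hP₂.worldOK hL₂)
        fun hs' => absurd hs' hs
      exact ⟨Om, iOm, p, g, b, Bn, φ, h2.mono_e hk.le le_rfl (le_max_left _ _)⟩
  by_cases hs1 : X.s < 1
  · rcases hD V ι X L Bd k (hP.mono (min_le_right _ _)) hs1 with hbad | ⟨As, hAs, hAsw, h1⟩
    · exact hrate fun _ => hbad
    · refine ⟨As, hAs, hAsw, fun i0 hi0 Av Bv hL => ?_⟩
      obtain ⟨Om, iOm, p, g, b, Bn, φ, h2⟩ := h1 i0 hi0 Av Bv (hL.mono (min_le_right _ _))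
      exact ⟨Om, iOm, p, g, b, Bn, φ, h2.mono_e hk.le le_rfl (le_max_right _ _)⟩
  · exact hrate fun h => absurd h hs1

end

end Pool.Agent.T6J
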