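import Pool.Agent.T6A.Chain4
import Pool.Agent.T6A.AllR
import Pool.Agent.T6J.LimH

/-!
# All large graphs (MP_c6effb_co): the last step

From `Lim4` with threshold on `[7/5, Q]` (giants averaged) and the certificate for `Q`.
-/

set_option autoImplicit false

namespace Pool.Agent.T6J

open Pool.Agent.T6A

/-- The assertion: `R(3, G) ≤ k + m` for all graphs `G` with `k ≥ k₀` vertices. -/
def AllLarge : Prop :=
  ∃ k₀ : ℕ, ∀ (V : Type) [Fintype V] (G : SimpleGraph V), k₀ ≤ Fintype.card V →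
    ∀ H : SimpleGraph (Fin (Fintype.card V + G.edgeSet.ncard)),
      ¬ H.CliqueFree 3 ∨ ∃ f : G →g Hᶜ, Function.Injective f

/-- ALL large graphs from `Lim4` on `[7/5, Q]` and `CertStmt Q`. -/
theorem all_of_lim4R {Q : ℝ} (h : Lim4 True (fun x => x < 1 + Q) (7 / 5)) (hC : CertStmt Q) :
    AllLarge :=
  all_of_ranges (core3R_of_lim4 h) (coreEmb_of_cert hC)

/-- The same with two ranges. -/
theorem all_of_lim4R_two {Q Q' : ℝ} (h1 : Lim4 True (fun x => x < 1 + Q) (7 / 5))
    (h2 : Lim4 True (fun x => x < 1 + Q') Q) (hC : CertStmt Q') : AllLarge :=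
  all_of_two_ranges (core3R_of_lim4 h1) (core3R_of_lim4 h2) (coreEmb_of_cert hC)

/-- The lower range by another method (for instance pieces). -/
theorem all_of_mixed {Q Q' : ℝ} (h1 : Core3R (7 / 5) Q) (h2 : Lim4 True (fun x => x < 1 + Q') Q)
    (hC : CertStmt Q') : AllLarge :=
  all_of_two_ranges h1 (core3R_of_lim4 h2) (coreEmb_of_cert hC)

/-- **ALL large graphs** from the J certificate with hubs, the dichotomy and the certificate for
`Q`. -/
theorem all_of_J4 {BR : RowCond} {Q : ℝ} (hJ : CertStmtJ4 BR Q) (hD : DichoStmt4 BR)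
    (hC : CertStmt Q) : AllLarge :=
  all_of_lim4R (lim4_of_J4 hJ hD) hC

end Pool.Agent.T6J
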