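import Pool.Agent.T6A.Expect8
import Pool.Agent.T6A.MathStmt

/-!
# The separable lower bound with `K₀` and the `J` rows, without the chord (MP_c6effb_co)

`sum_pairJ_ge`: the cost of the ordered adjacent pairs is bounded by the two rows
`∑ c, w c ≤ σ (1 - n_b)` and `∑ c, w c m b c ≤ τ'` with the multipliers `p`, `r`.
-/

set_option autoImplicit false
set_option linter.unusedSectionVars false

open Finset

namespace Pool.Agent.T6J

open Pool.Agent.T6A

section main

variable {V ι : Type*} [Fintype V] [DecidableEq V] [Fintype ι] [DecidableEq ι]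
variable {F : SimpleGraph ι} [DecidableRel F.Adj] {G : SimpleGraph V} [DecidableRel G.Adj]
  {μ : ι → ℝ}

/-- The bracket is `1` for `s = 0`. -/
theorem brk_zero (a : ι) (u : V) (b b' : ι) : brk F G μ (fun _ _ => 0) a u b b' = 1 := by
  have h : ∀ c, sab F (fun (_ : V) (_ : ι) => (0 : ℝ)) u a b c = 0 := fun c => by
    unfold sab
    split_ifs <;> rfl
  unfold brk
  simp only [h, zero_mul, sum_const_zero, mul_zero, sub_zero]

/-- The sum over the ordered adjacent pairs, by the two rows. -/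
theorem cost_sum_le (h0 : ∀ x, 0 ≤ μ x) (h1 : ∑ x, μ x = 1) {w f p r : ι → ℝ} {m : ι → ι → ℝ}
    {σ τ' : ℝ} (hw : ∀ b, 0 ≤ w b) (hp : ∀ b, 0 ≤ p b) (hr : ∀ b, 0 ≤ r b)
    (hm : ∀ b c, 0 ≤ m b c) (hf : ∀ b, 0 ≤ f b)
    (hσ0 : 0 ≤ σ) (hτ0 : 0 ≤ τ')
    (hσb : ∀ b, 0 < w b → 0 < f b → (∑ c, if F.Adj b c then w c else 0) ≤ σ * (1 - nb F μ b))
    (hJ : ∀ b, 0 < w b → 0 < f b → (∑ c, if F.Adj b c then w c * m b c else 0) ≤ τ')
    (hpair : ∀ b b', F.Adj b b' → 0 < w b → 0 < w b' → 0 < f b → 0 < f b' →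
      f b * f b' * ((1 - nb F μ b)⁻¹ + (1 - nb F μ b')⁻¹) ≤
        p b + p b' + r b * m b b' + r b' * m b' b) :
    ∑ b, ∑ b', (if F.Adj b b' then w b * w b' * (f b * f b' / (1 - nb F μ b')) else 0)
      ≤ ∑ b, w b * (σ * (1 - nb F μ b) * p b + τ' * r b) := by
  set S := ∑ b, ∑ b', (if F.Adj b b' then w b * w b' * (f b * f b' / (1 - nb F μ b')) else 0)
    with hS
  -- the symmetric form
  have hS' : S = ∑ b, ∑ b', (if F.Adj b b' then w b * w b' * (f b * f b' / (1 - nb F μ b))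
      else 0) := by
    rw [hS, sum_comm]
    refine sum_congr rfl fun b _ => sum_congr rfl fun b' _ => ?_
    by_cases h : F.Adj b b'
    · rw [if_pos h, if_pos h.symm]; ring
    · rw [if_neg h, if_neg fun h' => h h'.symm]
  have hn : ∀ b, 0 ≤ 1 - nb F μ b := fun b => by linarith [nb_le_one (F := F) h0 h1 b]
  let X : ι → ι → ℝ := fun b b' => if F.Adj b b' ∧ 0 < w b ∧ 0 < f b then
    w b * w b' * (p b + r b * m b b') else 0
  have hX0 : ∀ b b', 0 ≤ X b b' := by
    intro b b'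
    simp only [X]
    split_ifs
    · exact mul_nonneg (mul_nonneg (hw b) (hw b'))
        (add_nonneg (hp b) (mul_nonneg (hr b) (hm b b')))
    · exact le_rfl
  have hterm : ∀ b b', (if F.Adj b b' then w b * w b' * (f b * f b' / (1 - nb F μ b)) else 0)
      + (if F.Adj b b' then w b * w b' * (f b * f b' / (1 - nb F μ b')) else 0)
      ≤ X b b' + X b' b := by
    intro b b'
    by_cases h : F.Adj b b'
    · rw [if_pos h, if_pos h]
      by_cases hpos : 0 < w b ∧ 0 < w b' ∧ 0 < f b ∧ 0 < f b'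
      · obtain ⟨hb, hb', hfb, hfb'⟩ := hpos
        have e1 : X b b' = w b * w b' * (p b + r b * m b b') := if_pos ⟨h, hb, hfb⟩
        have e2 : X b' b = w b' * w b * (p b' + r b' * m b' b) := if_pos ⟨h.symm, hb', hfb'⟩
        rw [e1, e2]
        have h2 := mul_le_mul_of_nonneg_left (hpair b b' h hb hb' hfb hfb')
          (mul_nonneg (hw b) (hw b'))
        calc w b * w b' * (f b * f b' / (1 - nb F μ b)) + w b * w b' * (f b * f b' / (1 - nb F μ b'))
            = w b * w b' * (f b * f b' * ((1 - nb F μ b)⁻¹ + (1 - nb F μ b')⁻¹)) := by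
              rw [div_eq_mul_inv, div_eq_mul_inv]; ring
          _ ≤ _ := h2
          _ = _ := by ring
      · have hz : w b * w b' * (f b * f b') = 0 := by
          have : w b = 0 ∨ w b' = 0 ∨ f b = 0 ∨ f b' = 0 := by
            by_contra hc
            push Not at hc
            exact hpos ⟨lt_of_le_of_ne (hw b) (Ne.symm hc.1),
              lt_of_le_of_ne (hw b') (Ne.symm hc.2.1),
              lt_of_le_of_ne (hf b) (Ne.symm hc.2.2.1),
              lt_of_le_of_ne (hf b') (Ne.symm hc.2.2.2)⟩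
          rcases this with h | h | h | h <;> rw [h] <;> simp
        have e1 : w b * w b' * (f b * f b' / (1 - nb F μ b)) = 0 := by
          rw [← mul_div_assoc, hz, zero_div]
        have e2 : w b * w b' * (f b * f b' / (1 - nb F μ b')) = 0 := by
          rw [← mul_div_assoc, hz, zero_div]
        rw [e1, e2, add_zero]
        exact add_nonneg (hX0 b b') (hX0 b' b)
    · rw [if_neg h, if_neg h, add_zero]
      exact add_nonneg (hX0 b b') (hX0 b' b)
  have hsum := sum_le_sum fun b (_ : b ∈ univ) => sum_le_sum fun b' (_ : b' ∈ univ) => hterm b b'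
  simp only [sum_add_distrib] at hsum
  rw [← hS', ← hS] at hsum
  have hcomm : ∑ b, ∑ b', X b' b = ∑ b, ∑ b', X b b' := sum_comm
  rw [hcomm] at hsum
  have hrow : ∑ b, ∑ b', X b b' ≤ ∑ b, w b * (σ * (1 - nb F μ b) * p b + τ' * r b) := by
    refine sum_le_sum fun b _ => ?_
    by_cases hb : 0 < w b ∧ 0 < f b
    · have e : ∑ b', X b b' = w b * (p b * (∑ c, if F.Adj b c then w c else 0)
          + r b * (∑ c, if F.Adj b c then w c * m b c else 0)) := by
        rw [mul_sum, mul_sum, ← sum_add_distrib, mul_sum]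
        refine sum_congr rfl fun c _ => ?_
        simp only [X]
        by_cases hc : F.Adj b c
        · rw [if_pos ⟨hc, hb⟩, if_pos hc, if_pos hc]; ring
        · rw [if_neg fun h => hc h.1, if_neg hc, if_neg hc]; ring
      rw [e]
      refine mul_le_mul_of_nonneg_left ?_ (hw b)
      have h2 := mul_le_mul_of_nonneg_left (hσb b hb.1 hb.2) (hp b)
      have h3 := mul_le_mul_of_nonneg_left (hJ b hb.1 hb.2) (hr b)
      calc _ ≤ p b * (σ * (1 - nb F μ b)) + r b * τ' := add_le_add h2 h3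
        _ = _ := by ring
    · have e : ∑ b', X b b' = 0 := sum_eq_zero fun c _ => by
        simp only [X]
        exact if_neg fun h => hb h.2
      rw [e]
      exact mul_nonneg (hw b) (add_nonneg (mul_nonneg (mul_nonneg hσ0 (hn b)) (hp b))
        (mul_nonneg hτ0 (hr b)))
  linarith

/-- **The separable lower bound with the `J` rows.** -/
theorem sum_pairJ_ge (h0 : ∀ x, 0 ≤ μ x) (h1 : ∑ x, μ x = 1) {w f p r : ι → ℝ}
    {hh : V → ι → ℝ} {m : ι → ι → ℝ} {lam um : V → ℝ} {σ τ' : ℝ}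
    (hw : ∀ b, 0 ≤ w b) (hp : ∀ b, 0 ≤ p b) (hr : ∀ b, 0 ≤ r b) (hm : ∀ b c, 0 ≤ m b c)
    (hh0 : ∀ v b, 0 ≤ hh v b) (hhf : ∀ v b, hh v b ≤ f b) (hlam : ∀ v, 0 ≤ lam v)
    (hu : ∀ v, 0 < um v) (hu1 : ∀ v, um v ≤ 1) (hn : ∀ b, 0 < f b → nb F μ b < 1)
    (hσ0 : 0 ≤ σ) (hτ0 : 0 ≤ τ')
    (hσa : ∀ a, 0 < μ a → (∑ c, if F.Adj a c then w c else 0) ≤ σ)
    (hσb : ∀ b, 0 < w b → 0 < f b → (∑ c, if F.Adj b c then w c else 0) ≤ σ * (1 - nb F μ b))
    (hJ : ∀ b, 0 < w b → 0 < f b → (∑ c, if F.Adj b c then w c * m b c else 0) ≤ τ')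
    (hpair : ∀ b b', F.Adj b b' → 0 < w b → 0 < w b' → 0 < f b → 0 < f b' →
      f b * f b' * ((1 - nb F μ b)⁻¹ + (1 - nb F μ b')⁻¹) ≤
        p b + p b' + r b * m b b' + r b' * m b' b) (a : ι) :
    ∑ v, (2 * (∑ b, w b * (lam v * hh v b)) - (∑ b, w b * (lam v * hh v b)) ^ 2
      + KZero.ss #(nbh G v) (um v)
        * (∑ b, w b * (lam v * hh v b) * KZero.ut (um v) (nb F μ b)) ^ 2
      - σ * ∑ b, w b * (lam v * hh v b) ^ 2 * (((1 - nb F μ b)⁻¹) ^ #(nbh G v) - 1
          + KZero.ss #(nbh G v) (um v) * KZero.ut (um v) (nb F μ b) ^ 2)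
      - (#(nbh G v) : ℝ) * lam v ^ 2 * ∑ b, w b * (σ * (1 - nb F μ b) * p b + τ' * r b))
      ≤ ∑ v, pairT F G μ (rate F G μ w fun v b => lam v * hh v b) (fun _ _ => 0) a v := by
  rcases isEmpty_or_nonempty V with hV | ⟨⟨v₀⟩⟩
  · simp
  have hf : ∀ b, 0 ≤ f b := fun b => (hh0 v₀ b).trans (hhf v₀ b)
  have hh' : ∀ v b, 0 ≤ lam v * hh v b := fun v b => mul_nonneg (hlam v) (hh0 v b)
  have hposh : ∀ v b, 0 < lam v * hh v b → 0 < hh v b := fun v b h =>
    lt_of_le_of_ne (hh0 v b) (Ne.symm (by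
      intro hc
      rw [hc, mul_zero] at h
      exact lt_irrefl _ h))
  have hn' : ∀ v b, 0 < lam v * hh v b → nb F μ b < 1 := fun v b h =>
    hn b ((hposh v b h).trans_le (hhf v b))
  set C := ∑ b, ∑ b', (if F.Adj b b' then w b * w b' * (f b * f b' / (1 - nb F μ b')) else 0)
    with hC
  have hny : ∀ b, 0 ≤ 1 - nb F μ b := fun b => by linarith [nb_le_one (F := F) h0 h1 b]
  have hC0 : 0 ≤ C := by
    rw [hC]
    refine sum_nonneg fun b _ => sum_nonneg fun b' _ => ?_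
    split_ifs
    · exact mul_nonneg (mul_nonneg (hw b) (hw b'))
        (div_nonneg (mul_nonneg (hf b) (hf b')) (hny b'))
    · exact le_rfl
  have hCle := cost_sum_le h0 h1 hw hp hr hm hf hσ0 hτ0 hσb hJ hpair
  rw [← hC] at hCle
  -- one ordered edge
  have hedge : ∀ v, ∀ u ∈ nbh G v,
      costE F G μ (rate F G μ w fun v b => lam v * hh v b) (fun _ _ => 0) a v u
        ≤ lam v * lam u * C := by
    intro v u hu'
    have hvu : G.Adj v u := mem_nbh.1 hu'
    rw [hC, mul_sum]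
    unfold costE
    refine sum_le_sum fun b _ => ?_
    rw [mul_sum]
    refine sum_le_sum fun b' _ => ?_
    have hR : 0 ≤ lam v * lam u * (w b * w b' * (f b * f b' / (1 - nb F μ b'))) :=
      mul_nonneg (mul_nonneg (hlam v) (hlam u)) (mul_nonneg (mul_nonneg (hw b) (hw b'))
        (div_nonneg (mul_nonneg (hf b) (hf b')) (hny b')))
    by_cases hab : F.Adj b b' ∧ ¬ F.Adj a b'
    · rw [if_pos hab, if_pos hab.1, brk_zero, mul_one,
        rate_mul (h := fun v b => lam v * hh v b) hh' hn',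
        rate_mul' (h := fun v b => lam v * hh v b) hh' hn' hvu]
      have h2 : hh v b * hh u b' ≤ f b * f b' :=
        mul_le_mul (hhf v b) (hhf u b') (hh0 u b') (hf b)
      have h3 : hh v b * hh u b' / (1 - nb F μ b') ≤ f b * f b' / (1 - nb F μ b') :=
        div_le_div_of_nonneg_right h2 (hny b')
      have h4 : 0 ≤ lam v * lam u * (w b * w b') :=
        mul_nonneg (mul_nonneg (hlam v) (hlam u)) (mul_nonneg (hw b) (hw b'))
      calc w b * (lam v * hh v b) * (w b' * (lam u * hh u b') / (1 - nb F μ b'))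
          = lam v * lam u * (w b * w b') * (hh v b * hh u b' / (1 - nb F μ b')) := by ring
        _ ≤ lam v * lam u * (w b * w b') * (f b * f b' / (1 - nb F μ b')) :=
          mul_le_mul_of_nonneg_left h3 h4
        _ = _ := by ring
    · rw [if_neg hab]
      by_cases hb : F.Adj b b'
      · rw [if_pos hb]; exact hR
      · rw [if_neg hb, mul_zero]
  have hc : ∑ v, ∑ u ∈ nbh G v,
      costE F G μ (rate F G μ w fun v b => lam v * hh v b) (fun _ _ => 0) a v u
      ≤ ∑ v, (#(nbh G v) : ℝ) * lam v ^ 2 * ∑ b, w b * (σ * (1 - nb F μ b) * p b + τ' * r b) := by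
    calc _ ≤ ∑ v, ∑ u ∈ nbh G v, (lam v ^ 2 * C / 2 + lam u ^ 2 * C / 2) := by
          refine sum_le_sum fun v _ => sum_le_sum fun u hu' => (hedge v u hu').trans ?_
          have h2 : 0 ≤ (lam v - lam u) ^ 2 * C := mul_nonneg (sq_nonneg _) hC0
          nlinarith
      _ = ∑ v, (#(nbh G v) : ℝ) * (lam v ^ 2 * C) := by
          simp only [sum_add_distrib]
          rw [sum_nbr_comm (G := G) fun u => lam u ^ 2 * C / 2, ← sum_add_distrib]
          refine sum_congr rfl fun v _ => ?_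
          rw [sum_const, nsmul_eq_mul]
          ring
      _ ≤ _ := by
          refine sum_le_sum fun v _ => ?_
          rw [mul_assoc]
          exact mul_le_mul_of_nonneg_left (mul_le_mul_of_nonneg_left hCle (sq_nonneg _))
            (Nat.cast_nonneg _)
  have hT : ∑ v, pairT F G μ (rate F G μ w fun v b => lam v * hh v b) (fun _ _ => 0) a v
      = ∑ v, (2 * (∑ b, w b * (lam v * hh v b)))
        - ∑ v, ∑ b, ∑ c, rate F G μ w (fun v b => lam v * hh v b) v b
          * rate F G μ w (fun v b => lam v * hh v b) v c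
          * (1 - nb F μ b - nb F μ c + cod F μ b c) ^ #(nbh G v)
        - ∑ v, ∑ u ∈ nbh G v,
          costE F G μ (rate F G μ w fun v b => lam v * hh v b) (fun _ _ => 0) a v u := by
    rw [← sum_sub_distrib, ← sum_sub_distrib]
    refine sum_congr rfl fun v _ => ?_
    unfold pairT
    simp only [rate_mul (h := fun v b => lam v * hh v b) hh' hn']
    rw [mul_sum]
  rw [hT]
  have hcl : ∑ v, ∑ b, ∑ c, rate F G μ w (fun v b => lam v * hh v b) v b
        * rate F G μ w (fun v b => lam v * hh v b) v c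
        * (1 - nb F μ b - nb F μ c + cod F μ b c) ^ #(nbh G v)
      ≤ ∑ v, ((∑ b, w b * (lam v * hh v b)) ^ 2
        - KZero.ss #(nbh G v) (um v)
          * (∑ b, w b * (lam v * hh v b) * KZero.ut (um v) (nb F μ b)) ^ 2
        + σ * ∑ b, w b * (lam v * hh v b) ^ 2 * (((1 - nb F μ b)⁻¹) ^ #(nbh G v) - 1
          + KZero.ss #(nbh G v) (um v) * KZero.ut (um v) (nb F μ b) ^ 2)) :=
    sum_le_sum fun v _ => clumpK_rate_le (h := fun v b => lam v * hh v b) h0 h1 (hu v) (hu1 v) hw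
      hh' hn' hσa v
  have hfin : ∑ v, (2 * (∑ b, w b * (lam v * hh v b)) - (∑ b, w b * (lam v * hh v b)) ^ 2
      + KZero.ss #(nbh G v) (um v)
        * (∑ b, w b * (lam v * hh v b) * KZero.ut (um v) (nb F μ b)) ^ 2
      - σ * ∑ b, w b * (lam v * hh v b) ^ 2 * (((1 - nb F μ b)⁻¹) ^ #(nbh G v) - 1
          + KZero.ss #(nbh G v) (um v) * KZero.ut (um v) (nb F μ b) ^ 2)
      - (#(nbh G v) : ℝ) * lam v ^ 2 * ∑ b, w b * (σ * (1 - nb F μ b) * p b + τ' * r b))
      = ∑ v, (2 * (∑ b, w b * (lam v * hh v b)))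
        - ∑ v, ((∑ b, w b * (lam v * hh v b)) ^ 2
        - KZero.ss #(nbh G v) (um v)
          * (∑ b, w b * (lam v * hh v b) * KZero.ut (um v) (nb F μ b)) ^ 2
        + σ * ∑ b, w b * (lam v * hh v b) ^ 2 * (((1 - nb F μ b)⁻¹) ^ #(nbh G v) - 1
          + KZero.ss #(nbh G v) (um v) * KZero.ut (um v) (nb F μ b) ^ 2))
        - ∑ v, (#(nbh G v) : ℝ) * lam v ^ 2
          * ∑ b, w b * (σ * (1 - nb F μ b) * p b + τ' * r b) := by
    rw [← sum_sub_distrib, ← sum_sub_distrib]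
    exact sum_congr rfl fun v _ => by ring
  rw [hfin]
  linarith

end main

open Classical in
/-- The same for `LB`. -/
theorem sum_LB_ge {V ι : Type} [Fintype V] [Fintype ι] {F : SimpleGraph ι} {G : SimpleGraph V}
    {μ : ι → ℝ} (h0 : ∀ x, 0 ≤ μ x) (h1 : ∑ x, μ x = 1) (hF : F.CliqueFree 3)
    {w f p r : ι → ℝ} {hh : V → ι → ℝ} {m : ι → ι → ℝ} {lam um : V → ℝ} {σ τ' : ℝ}
    (hw : ∀ b, 0 ≤ w b) (hp : ∀ b, 0 ≤ p b) (hr : ∀ b, 0 ≤ r b) (hm : ∀ b c, 0 ≤ m b c)
    (hh0 : ∀ v b, 0 ≤ hh v b) (hhf : ∀ v b, hh v b ≤ f b) (hlam : ∀ v, 0 ≤ lam v)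
    (hu : ∀ v, 0 < um v) (hu1 : ∀ v, um v ≤ 1) (hn : ∀ b, 0 < f b → nb F μ b < 1)
    (hσ0 : 0 ≤ σ) (hτ0 : 0 ≤ τ')
    (hσa : ∀ a, 0 < μ a → (∑ c, if F.Adj a c then w c else 0) ≤ σ)
    (hσb : ∀ b, 0 < w b → 0 < f b → (∑ c, if F.Adj b c then w c else 0) ≤ σ * (1 - nb F μ b))
    (hJ : ∀ b, 0 < w b → 0 < f b → (∑ c, if F.Adj b c then w c * m b c else 0) ≤ τ')
    (hpair : ∀ b b', F.Adj b b' → 0 < w b → 0 < w b' → 0 < f b → 0 < f b' →
      f b * f b' * ((1 - nb F μ b)⁻¹ + (1 - nb F μ b')⁻¹) ≤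
        p b + p b' + r b * m b b' + r b' * m b' b) (a : ι) :
    ∑ v, (2 * (∑ b, w b * (lam v * hh v b)) - (∑ b, w b * (lam v * hh v b)) ^ 2
      + KZero.ss #(nbh G v) (um v)
        * (∑ b, w b * (lam v * hh v b) * KZero.ut (um v) (nb F μ b)) ^ 2
      - σ * ∑ b, w b * (lam v * hh v b) ^ 2 * (((1 - nb F μ b)⁻¹) ^ #(nbh G v) - 1
          + KZero.ss #(nbh G v) (um v) * KZero.ut (um v) (nb F μ b) ^ 2)
      - (#(nbh G v) : ℝ) * lam v ^ 2 * ∑ b, w b * (σ * (1 - nb F μ b) * p b + τ' * r b))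
      ≤ ∑ v, ∑ y, LB F G μ (rate F G μ w fun v b => lam v * hh v b) v a y := by
  refine (sum_pairJ_ge h0 h1 hw hp hr hm hh0 hhf hlam hu hu1 hn hσ0 hτ0 hσa hσb hJ hpair a).trans ?_
  refine sum_le_sum fun v _ => ?_
  have hrate : ∀ u c, 0 ≤ rate F G μ w (fun v b => lam v * hh v b) u c := fun u c =>
    rate_nonneg h0 h1 hw (fun v b => mul_nonneg (hlam v) (hh0 v b)) u c
  exact pairT_le h0 h1 hF hrate (fun _ _ => le_rfl) hrate v a

end Pool.Agent.T6J
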