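import Pool.Agent.T6J.StP
import Pool.Agent.T6J.ExpectJ

/-!
# The assembly of the certificate of Theorem B (MP_c6effb_co): `P.S_VTX → P.S_ASM`
-/

set_option autoImplicit false
set_option linter.unusedSectionVars false

open Finset

namespace Pool.Agent.T6J

open Pool.Agent.T6A

namespace AsmX

noncomputable section

open Classical

/-! ### The average list probability -/

/-- the chord of `d ↦ y ^ d` at `j, j + 1` is below `y ^ d` at all natural `d` -/
theorem pow_chord {n : ℝ} (h0 : 0 ≤ n) (h1 : n ≤ 1) (j d : ℕ) :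
    (1 - n) ^ j * (1 - ((d : ℝ) - j) * n) ≤ (1 - n) ^ d := by
  have hy : 0 ≤ 1 - n := by linarith
  rcases le_total j d with h | h
  · obtain ⟨m, rfl⟩ := Nat.exists_eq_add_of_le h
    rw [pow_add]
    refine mul_le_mul_of_nonneg_left ?_ (pow_nonneg hy j)
    have := one_add_mul_le_pow (a := -n) (by linarith) m
    have e : (1 + -n) = 1 - n := by ring
    rw [e] at this
    refine le_trans (le_of_eq ?_) this
    push_cast
    ring
  · obtain ⟨m, rfl⟩ := Nat.exists_eq_add_of_le h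
    rw [pow_add]
    have h2 : (1 - n) ^ m * (1 + m * n) ≤ 1 := by
      clear h
      induction m with
      | zero => simp
      | succ m ih =>
        refine le_trans ?_ ih
        rw [pow_succ, mul_assoc]
        refine mul_le_mul_of_nonneg_left ?_ (pow_nonneg hy m)
        push_cast
        nlinarith [mul_nonneg h0 h0, mul_nonneg (Nat.cast_nonneg (α := ℝ) m) (mul_nonneg h0 h0)]
    calc (1 - n) ^ d * (1 - n) ^ m * (1 - ((d : ℝ) - ((d + m : ℕ) : ℝ)) * n)
        = (1 - n) ^ d * ((1 - n) ^ m * (1 + m * n)) := by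
          push_cast
          ring
      _ ≤ (1 - n) ^ d * 1 := mul_le_mul_of_nonneg_left h2 (pow_nonneg hy d)
      _ = (1 - n) ^ d := mul_one _

theorem pl_le {V ι : Type} [Fintype V] (L : Low V ι) {D n : ℝ} (j : ℕ)
    (hc : 0 < Fintype.card V) (hD : ∑ v, (L.d v : ℝ) ≤ D * Fintype.card V) (h0 : 0 ≤ n)
    (h1 : n ≤ 1) : pl j D n ≤ (∑ v, (1 - n) ^ (L.d v)) / (Fintype.card V : ℝ) := by
  have hc' : (0 : ℝ) < Fintype.card V := by exact_mod_cast hc
  unfold pl
  rw [le_div_iff₀ hc']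
  have h2 : ∑ v, (1 - n) ^ j * (1 - ((L.d v : ℝ) - j) * n) ≤ ∑ v, (1 - n) ^ (L.d v) :=
    sum_le_sum fun v _ => pow_chord h0 h1 j (L.d v)
  refine le_trans ?_ h2
  have h3 : ∑ v, (1 - n) ^ j * (1 - ((L.d v : ℝ) - j) * n) =
      (1 - n) ^ j * ((1 + j * n) * Fintype.card V - n * ∑ v, (L.d v : ℝ)) := by
    rw [← mul_sum]
    congr 1
    have : ∀ v, 1 - ((L.d v : ℝ) - j) * n = (1 + j * n) - n * (L.d v : ℝ) := fun v => by ring
    simp only [this]
    rw [sum_sub_distrib, sum_const, card_univ, nsmul_eq_mul, ← mul_sum]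
    ring
  rw [h3, mul_assoc]
  refine mul_le_mul_of_nonneg_left ?_ (pow_nonneg (by linarith) j)
  have h4 := mul_le_mul_of_nonneg_left hD h0
  nlinarith

theorem avg_anti {V ι : Type} [Fintype V] (L : Low V ι) {n n' : ℝ} (h : n ≤ n') (h1 : n' ≤ 1) :
    (∑ v, (1 - n') ^ (L.d v)) / (Fintype.card V : ℝ) ≤
      (∑ v, (1 - n) ^ (L.d v)) / (Fintype.card V : ℝ) := by
  refine div_le_div_of_nonneg_right ?_ (Nat.cast_nonneg _)
  exact sum_le_sum fun v _ => pow_le_pow_left₀ (by linarith) (by linarith) _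

/-! ### The factor -/

theorem mJ_nonneg (s n π : ℝ) : 0 ≤ mJ s n π := by
  have h0 : 0 ≤ max 0 π := le_max_left _ _
  unfold mJ
  split_ifs with h
  · exact zero_le_one
  · push Not at h
    exact div_nonneg h0 (by linarith [h.2])

/-- The bound of the box is below the factor. -/
theorem mb_le {s0 s1 s ε D n y π : ℝ} {k : ℕ} (h0 : s0 ≤ s) (h1 : s ≤ s1)
    (hn1 : n ≤ 1) (hπ : pl k D y - ε ≤ π) :
    P.mb s0 s1 ε k D n y ≤ mJ s n π := by
  obtain ⟨P0, hP⟩ : ∃ P0, P0 = pl k D y - ε := ⟨_, rfl⟩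
  have hβ : s * (1 - n) ≤ s1 * (1 - n) :=
    mul_le_mul_of_nonneg_right h1 (by linarith)
  have hP0 : 0 ≤ max 0 P0 := le_max_left _ _
  have hmono : max 0 P0 ≤ max 0 π := max_le_max le_rfl (hP ▸ hπ)
  unfold P.mb mJ
  rw [← hP] at hπ ⊢
  by_cases hm : 1 - s ≤ π ∨ s * (1 - n) ≤ 1 - s
  · rw [if_pos hm]
    split_ifs with h
    · exact le_rfl
    · push Not at h
      exact div_le_one_of_le₀ (by linarith [h.2]) (by linarith [h.2])
  · rw [if_neg hm]
    push Not at hm
    rw [if_neg]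
    · rw [div_le_div_iff₀ (by linarith [hm.2]) (by linarith [hm.2])]
      have hb0 : 0 ≤ s * (1 - n) - (1 - s) := by linarith [hm.2]
      have hb1 : s * (1 - n) - (1 - s) ≤ s1 * (1 - n) - (1 - s1) := by linarith
      nlinarith [mul_le_mul hmono hb1 hb0 (hP0.trans hmono)]
    · rintro (h | h)
      · linarith [hm.1]
      · linarith [hm.2]

/-- Adjacent clusters: `n_b + n_c ≤ 1`. -/
theorem nb_add_le {ι : Type} [Fintype ι] (X : World ι) (h : 0 < X.sA) {b c : ι}
    (hbc : X.F.Adj b c) : nb X.F X.mu b + nb X.F X.mu c ≤ 1 := by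
  rw [← X.mu_sum h]
  unfold nb
  rw [← sum_add_distrib]
  refine sum_le_sum fun x _ => ?_
  have h0 := X.mu_nonneg x
  by_cases h1 : X.F.Adj x b <;> by_cases h2 : X.F.Adj x c
  · exact absurd hbc (X.nbhd_indep h1 h2)
  · rw [if_pos h1, if_neg h2, add_zero]
  · rw [if_neg h1, if_pos h2, zero_add]
  · rw [if_neg h1, if_neg h2, add_zero]
    exact h0

/-! ### The degrees -/

section deg

variable {V ι : Type} [Fintype V] [Fintype ι] {X : World ι} {L : Low V ι} {Bd : ι → ι → Prop}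
  {k Q e ε : ℝ} {C K : ℕ}

/-- Few vertices have a degree below the threshold. -/
theorem few_low (hT : ThrW X L k e) (hj : ∀ v, L.j v = 0) (dm : ℕ)
    (h : ∀ d : ℕ, d < dm → (1 + (d : ℝ)) * (X.s + e) < (1 - e) * X.tot) :
    (#{v | v ∉ L.E ∧ L.d v < dm} : ℝ) ≤ dm * (e * k) := by
  have hmap : ∀ v ∈ (univ.filter fun v => v ∉ L.E ∧ L.d v < dm), L.d v ∈ range dm := by
    intro v hv
    exact mem_range.2 (mem_filter.1 hv).2.2
  rw [card_eq_sum_card_fiberwise hmap]
  push_cast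
  have hle : ∀ d ∈ range dm, ((#{v ∈ (univ.filter fun v => v ∉ L.E ∧ L.d v < dm) | L.d v = d} : ℕ) : ℝ)
      ≤ e * k := by
    intro d hd
    by_contra hc
    push Not at hc
    have hsub : (#{v ∈ (univ.filter fun v => v ∉ L.E ∧ L.d v < dm) | L.d v = d} : ℕ) ≤
        #{v | v ∉ L.E ∧ L.d v + L.j v = d} := by
      refine card_le_card fun v hv => ?_
      rw [mem_filter, mem_filter] at hv
      rw [mem_filter]
      exact ⟨mem_univ v, hv.1.2.1, by rw [hj v, add_zero]; exact hv.2⟩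
    have hsub' : ((#{v ∈ (univ.filter fun v => v ∉ L.E ∧ L.d v < dm) | L.d v = d} : ℕ) : ℝ) ≤
        (#{v | v ∉ L.E ∧ L.d v + L.j v = d} : ℝ) := by exact_mod_cast hsub
    have h1 := hT d (hc.le.trans hsub')
    have h2 := h d (mem_range.1 hd)
    linarith
  calc _ ≤ ∑ _d ∈ range dm, e * k := sum_le_sum hle
    _ = dm * (e * k) := by rw [sum_const, card_range, nsmul_eq_mul]

/-- Some frequent degree is at most the average. -/
theorem exists_thr (H : WorldOK X L Bd k Q C K e ε) (hT : ThrW X L k e) (hj : ∀ v, L.j v = 0)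
    {ε' : ℝ} (he0 : 0 < e) (hε0 : 0 < ε') (hε1 : ε' ≤ 1) (he : 80 * e ≤ ε') (ht : X.tot ≤ 4)
    (ht1 : 1 ≤ X.tot) :
    ∃ δ : ℕ, (δ : ℝ) ≤ 2 * (X.tot - 1) + ε' ∧ X.tot ≤ (1 + δ) * (X.s + ε') := by
  by_contra hcon
  push Not at hcon
  have hk := H.k0
  obtain ⟨T, hTd⟩ : ∃ T, T = 2 * (X.tot - 1) + ε' := ⟨_, rfl⟩
  have hT0 : 0 ≤ T := by rw [hTd]; linarith
  have hT7 : T ≤ 7 := by rw [hTd]; linarith
  obtain ⟨n0, hn0⟩ : ∃ n0 : ℕ, n0 = ⌊T⌋₊ + 1 := ⟨_, rfl⟩
  have hn1 : T < n0 := by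
    rw [hn0]
    push_cast
    exact Nat.lt_floor_add_one T
  have hn2 : (n0 : ℝ) ≤ T + 1 := by
    rw [hn0]
    push_cast
    have := Nat.floor_le hT0
    linarith
  have hfew := few_low (X := X) (L := L) (k := k) (e := e) hT hj n0 (by
    intro d hd
    have h1 : (d : ℝ) ≤ T := by
      have h2 : d ≤ ⌊T⌋₊ := by omega
      exact (Nat.le_floor_iff hT0).1 h2
    have h3 := hcon d (by rw [← hTd]; exact h1)
    have h4 : (0:ℝ) ≤ d := Nat.cast_nonneg d
    have h5 : (1 + (d:ℝ)) * (X.s + e) = (1 + d) * (X.s + ε') - (1 + d) * (ε' - e) := by ring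
    have h6 : ε' - e ≤ (1 + (d:ℝ)) * (ε' - e) := by
      have : 0 ≤ ε' - e := by linarith
      nlinarith
    have h7 : e * X.tot ≤ e * 4 := mul_le_mul_of_nonneg_left ht he0.le
    nlinarith)
  -- the sum of the degrees
  have hdeg : ∑ v, (L.d v : ℝ) ≤ 2 * (X.tot - 1 + e) * k := by
    refine le_trans (le_of_eq ?_) H.deg
    refine sum_congr rfl fun v _ => ?_
    rw [hj v]
    simp
  have hlow : T * ((Fintype.card V : ℝ) - #L.E - #{v | v ∉ L.E ∧ L.d v < n0})
      ≤ ∑ v, (L.d v : ℝ) := by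
    have e1 : ((Fintype.card V : ℝ) - #L.E - #{v | v ∉ L.E ∧ L.d v < n0})
        = ∑ v, (if v ∉ L.E ∧ ¬ L.d v < n0 then (1:ℝ) else 0) := by
      have c1 : (Fintype.card V : ℝ) = ∑ _v : V, (1:ℝ) := by simp
      have c2 : (#L.E : ℝ) = ∑ v, (if v ∈ L.E then (1:ℝ) else 0) := by
        rw [← sum_filter]
        simp
      have c3 : (#{v | v ∉ L.E ∧ L.d v < n0} : ℝ)
          = ∑ v, (if v ∉ L.E ∧ L.d v < n0 then (1:ℝ) else 0) := by
        rw [← sum_filter]
        simp
      rw [c1, c2, c3, ← sum_sub_distrib, ← sum_sub_distrib]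
      refine sum_congr rfl fun v _ => ?_
      by_cases h1 : v ∈ L.E <;> by_cases h2 : L.d v < n0 <;> simp [h1, h2]
    rw [e1, mul_sum]
    refine sum_le_sum fun v _ => ?_
    split_ifs with hv
    · rw [mul_one]
      have h1 : n0 ≤ L.d v := not_lt.1 hv.2
      have h2 : (n0 : ℝ) ≤ L.d v := by exact_mod_cast h1
      linarith
    · rw [mul_zero]
      exact Nat.cast_nonneg _
  have hE := H.Ec
  have hV := H.cV'
  have h8 : (n0 : ℝ) * (e * k) ≤ 8 * (e * k) :=
    mul_le_mul_of_nonneg_right (by linarith) (by positivity)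
  have h9 : (1 - 10 * e) * k ≤
      (Fintype.card V : ℝ) - #L.E - #{v | v ∉ L.E ∧ L.d v < n0} := by linarith
  have h10 := mul_le_mul_of_nonneg_left h9 hT0
  have h11 : T * ((1 - 10 * e) * k) ≤ 2 * (X.tot - 1 + e) * k :=
    h10.trans (hlow.trans hdeg)
  have h12 : T * (1 - 10 * e) ≤ 2 * (X.tot - 1 + e) := by
    refine le_of_mul_le_mul_right ?_ hk
    linarith
  have h13 : e * T ≤ e * 7 := mul_le_mul_of_nonneg_left hT7 he0.le
  nlinarith

/-- The sum of the lines. -/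
theorem sum_lines (H : WorldOK X L Bd k Q C K e ε) (hj : ∀ v, L.j v = 0) {η sl T : ℝ} {dm : ℕ}
    (he0 : 0 ≤ e) (hη : 0 ≤ η) (hsl : 0 ≤ sl) (hsl1 : sl ≤ 1)
    (hq0 : 0 ≤ X.tot - 1) (hq3 : X.tot - 1 ≤ 3) (hs0 : 0 ≤ X.s)
    (hfew : (#{v | v ∉ L.E ∧ L.d v < dm} : ℝ) ≤ 8 * (e * k))
    (hval : ∑ v, (if v ∈ L.E ∨ L.d v < dm then 0 else
      Ld η sl (L.d v) (X.tot - 1) X.s - η / 2) ≤ T) :
    (Fintype.card V : ℝ) - T ≤ (X.s - η / 2 + e * (71 + 5 * η)) * k := by
  obtain ⟨q, hq⟩ : ∃ q, q = X.tot - 1 := ⟨_, rfl⟩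
  rw [← hq] at hq0 hq3 hval
  have hk := H.k0
  obtain ⟨Nv, hNv⟩ : ∃ Nv : ℝ, Nv = (Fintype.card V : ℝ) := ⟨_, rfl⟩
  have hN1 : Nv ≤ k := hNv ▸ H.cV
  have hN2 : (1 - e) * k ≤ Nv := hNv ▸ H.cV'
  obtain ⟨c, hc⟩ : ∃ c, c = 1 - X.s + η / 2 + 2 * sl * q := ⟨_, rfl⟩
  have hslq : 0 ≤ sl * q := mul_nonneg hsl hq0
  have hslq3 : sl * q ≤ 3 := by
    have := mul_le_mul hsl1 hq3 hq0 zero_le_one
    linarith
  have hc1 : c ≤ 7 + η / 2 := by rw [hc]; linarith
  have hc2 : 0 ≤ 7 + η / 2 := by linarith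
  -- the sum
  have hsum : Nv * c - sl * ∑ v, (L.d v : ℝ) - (9 * (e * k)) * (7 + η / 2) ≤
      ∑ v, (if v ∈ L.E ∨ L.d v < dm then 0 else Ld η sl (L.d v) q X.s - η / 2) := by
    have e1 : Nv * c = ∑ _v : V, c := by
      rw [sum_const, nsmul_eq_mul, card_univ, hNv]
    have e2 : (∑ v, (if v ∈ L.E ∨ L.d v < dm then (1:ℝ) else 0)) * (7 + η / 2) ≤
        (9 * (e * k)) * (7 + η / 2) := by
      refine mul_le_mul_of_nonneg_right ?_ hc2
      have c2 : (#L.E : ℝ) = ∑ v, (if v ∈ L.E then (1:ℝ) else 0) := by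
        rw [← sum_filter]
        simp
      have c3 : (#{v | v ∉ L.E ∧ L.d v < dm} : ℝ)
          = ∑ v, (if v ∉ L.E ∧ L.d v < dm then (1:ℝ) else 0) := by
        rw [← sum_filter]
        simp
      have c4 : ∑ v, (if v ∈ L.E ∨ L.d v < dm then (1:ℝ) else 0) ≤
          (#L.E : ℝ) + #{v | v ∉ L.E ∧ L.d v < dm} := by
        rw [c2, c3, ← sum_add_distrib]
        refine sum_le_sum fun v _ => ?_
        by_cases h1 : v ∈ L.E <;> by_cases h2 : L.d v < dm <;> simp [h1, h2]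
      have hE := H.Ec
      linarith
    refine le_trans (sub_le_sub_left e2 _) ?_
    rw [e1, mul_sum, sum_mul, ← sum_sub_distrib, ← sum_sub_distrib]
    refine sum_le_sum fun v _ => ?_
    have h3 : 0 ≤ sl * (L.d v : ℝ) := mul_nonneg hsl (Nat.cast_nonneg _)
    split_ifs with hv
    · linarith
    · unfold Ld
      rw [hc]
      have : sl * ((L.d v : ℝ) - 2 * q) = sl * (L.d v : ℝ) - 2 * sl * q := by ring
      rw [this]
      linarith
  have hdeg : ∑ v, (L.d v : ℝ) ≤ 2 * (q + e) * k := by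
    refine le_trans (le_of_eq ?_) (hq ▸ H.deg)
    refine sum_congr rfl fun v _ => ?_
    rw [hj v]
    simp
  have hdeg' := mul_le_mul_of_nonneg_left hdeg hsl
  have hek : 0 ≤ e * k := mul_nonneg he0 hk.le
  rw [← hNv]
  obtain ⟨M, hM⟩ : ∃ M : ℝ, M = k - Nv := ⟨_, rfl⟩
  have hM0 : 0 ≤ M := by linarith
  have hM1 : M ≤ e * k := by linarith
  have hNM : Nv = k - M := by linarith
  have ha : M * (η / 2 + 2 * (sl * q)) ≤ e * k * (η / 2 + 2 * (sl * q)) :=
    mul_le_mul_of_nonneg_right hM1 (by linarith)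
  have hb : 0 ≤ M * X.s := mul_nonneg hM0 hs0
  have hc1' : e * k * (sl * q) ≤ e * k * 3 := mul_le_mul_of_nonneg_left hslq3 hek
  have hd : e * k * sl ≤ e * k * 1 := mul_le_mul_of_nonneg_left hsl1 hek
  have htot : Nv * c - sl * (2 * (q + e) * k) - (9 * (e * k)) * (7 + η / 2) ≤ T := by linarith
  have hη' : 0 ≤ e * k * η := mul_nonneg hek hη
  rw [hNM, hc] at htot
  rw [hNM]
  nlinarith [ha, hb, hc1', hd, htot, hη']

end deg

end

end AsmX

open Classical in
/-- **The assembly**, for `Q < 3`. -/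
theorem P.asm_lt (hV : P.S_VTX) {Q : ℝ} (hQ : Q < 3) (hcov : P.CoverJ Q) : CertStmtJ Q := by
  obtain ⟨η, ε, hη, hε, hcov⟩ := hcov
  obtain ⟨eV, heV, hvtx⟩ := hV ε η hε hη
  obtain ⟨e₀, he₀⟩ : ∃ e₀ : ℝ, e₀ = min (min (1 / 100) (3 - Q)) (min (eV / 3) (min (ε / 100)
      (η / (4 * (80 + 5 * η))))) := ⟨_, rfl⟩
  have h00 : 0 < e₀ := by
    rw [he₀]
    refine lt_min (lt_min (by norm_num) (by linarith))
      (lt_min (by positivity) (lt_min (by positivity) (by positivity)))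
  have h01 : e₀ ≤ 1 / 100 := by rw [he₀]; exact (min_le_left _ _).trans (min_le_left _ _)
  have h0Q : e₀ ≤ 3 - Q := by rw [he₀]; exact (min_le_left _ _).trans (min_le_right _ _)
  have h02 : 3 * e₀ ≤ eV := by
    have : e₀ ≤ eV / 3 := by rw [he₀]; exact (min_le_right _ _).trans (min_le_left _ _)
    linarith
  have h03 : 100 * e₀ ≤ ε := by
    have : e₀ ≤ ε / 100 := by
      rw [he₀]
      exact (min_le_right _ _).trans ((min_le_right _ _).trans (min_le_left _ _))
    linarith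
  have h04 : e₀ * (4 * (80 + 5 * η)) ≤ η := by
    have : e₀ ≤ η / (4 * (80 + 5 * η)) := by
      rw [he₀]
      exact (min_le_right _ _).trans ((min_le_right _ _).trans (min_le_right _ _))
    rwa [le_div_iff₀ (by positivity)] at this
  refine ⟨e₀, h00, by linarith, fun e he hee K => ?_⟩
  refine ⟨25 ^ K * 4, η / 4, 1, by positivity, one_pos, ?_⟩
  intro V ι _ _ C X L Bd k H hT hj htot hs3 hbad
  -- basic facts
  have hk := H.k0
  have ht1 := H.tot1
  have ht4 : X.tot ≤ 4 := by linarith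
  have hsA : 0 < X.sA := by
    have h1 := H.s1
    have h2 := H.s2
    linarith
  have hμ0 := X.mu_nonneg
  have hμ1 := X.mu_sum hsA
  have hcV : 0 < Fintype.card V := by
    have h1 : 0 < (1 - e) * k := mul_pos (by linarith) hk
    have h2 := h1.trans_le H.cV'
    exact_mod_cast h2
  obtain ⟨δ, hδ1, hδ2⟩ := AsmX.exists_thr H hT hj (ε' := min ε 1) he
    (lt_min hε one_pos) (min_le_right _ _) (le_min (by linarith) (by linarith)) ht4 (by linarith)
  obtain ⟨q0, q1, s0, s1, dmin, dmax, hq0, hq1, hs0, hs1, hbox⟩ := hcov (X.tot - 1) X.s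
    (by linarith) (by linarith) (by linarith)
    ⟨δ, hδ1.trans (by have := min_le_left ε 1; linarith), by
      have h1 : (1 + (δ:ℝ)) * (X.s + min ε 1) ≤ (1 + δ) * (X.s + ε) :=
        mul_le_mul_of_nonneg_left (by have := min_le_left ε 1; linarith) (by positivity)
      linarith⟩
  obtain ⟨k', D, f, p, r, f0, sl, hD, hsl0, hsl1, hB, hdmax, hdmin, hdm20, hdeg⟩ := hbox
  have hsh : 1 / 2 ≤ X.s := hB.s01.1.trans hs0
  have hs0' : 0 ≤ X.s := by linarith
  have hd8 : (dmin : ℝ) ≤ 8 := by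
    have h1 := hdmin _ _ hq0 hq1 hs0 hs1
    have h2 : (0:ℝ) ≤ dmin := Nat.cast_nonneg _
    nlinarith
  have hfew : (#{v | v ∉ L.E ∧ L.d v < dmin} : ℝ) ≤ 8 * (e * k) := by
    refine (AsmX.few_low (X := X) (L := L) (k := k) (e := e) hT hj dmin ?_).trans
      (mul_le_mul_of_nonneg_right hd8 (by positivity))
    intro d hd
    have h1 := hdmin _ _ hq0 hq1 hs0 hs1
    have h2 : (1 + (d:ℝ)) ≤ dmin := by
      have : d + 1 ≤ dmin := hd
      have h3 : ((d + 1 : ℕ) : ℝ) ≤ dmin := by exact_mod_cast this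
      push_cast at h3
      linarith
    have h3 := mul_le_mul h2 (le_refl (X.s + e)) (by linarith) (by linarith [h2, (Nat.cast_nonneg d : (0:ℝ) ≤ d)])
    have h4 : (dmin : ℝ) * e ≤ 8 * e := mul_le_mul_of_nonneg_right hd8 he.le
    have h5 : e * X.tot ≤ e * 4 := mul_le_mul_of_nonneg_left ht4 he.le
    nlinarith
  -- the choice
  have hch : ∀ v, ∃ lam um cut : ℝ, 0 ≤ lam ∧ (∀ x, 2 * (lam * f x) ≤ 1 - e) ∧
      0 < um ∧ um ≤ 1 ∧ (if v ∈ L.E ∨ L.d v < dmin then 0 else
        Ld η sl (L.d v) (X.tot - 1) X.s - η / 2) ≤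
      P.valJ X (L.Bv v) f p r cut (L.d v) um (X.s + 25 * e) (1 - X.s + eV) lam := by
    intro v
    by_cases hv : v ∉ L.E ∧ dmin ≤ L.d v ∧ L.d v < dmax
    · obtain ⟨hvE, hv1, hv2⟩ := hv
      obtain ⟨cut, c1, be, um, a0, b0, a1, b1, aA, bA, lc, hVO, hFO⟩ := hdeg _ hv1 hv2
      obtain ⟨lam, hl0, hl1, hl2⟩ := hvtx V ι X L Bd k e 1 C K he (by linarith) H ht4 q0 q1 s0 s1
        sl D lc f0 cut k' (L.d v) f p r c1 be um a0 b0 a1 b1 aA bA hq0 hq1 hs0 hs1 (by omega)
        hB hVO hFO v hvE (hj v)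
      refine ⟨lam, um, cut, hl0, ?_, hVO.um0.1, hVO.um0.2, ?_⟩
      · intro i
        have h1 : lam * f i ≤ lc * f0 := mul_le_mul hl1 (hB.f0 i).2 (hB.f0 i).1 hFO.lc0.1.le
        have h2 := hFO.load
        linarith
      · rw [if_neg]
        · exact hl2
        · rintro (h | h)
          · exact hvE h
          · omega
    · refine ⟨0, 1, 0, le_rfl, fun i => by rw [zero_mul, mul_zero]; linarith, one_pos, le_rfl, ?_⟩
      have hz : P.valJ X (L.Bv v) f p r 0 (L.d v) 1 (X.s + 25 * e) (1 - X.s + eV) 0 = 0 := by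
        unfold P.valJ
        simp
      rw [hz]
      split_ifs with h
      · exact le_rfl
      · push Not at h hv
        have h1 := hv h.1 h.2
        have h2 := hdmax _ _ hq0 hq1 hs0 hs1
        have h3 : (dmax : ℝ) ≤ L.d v := by exact_mod_cast h1
        unfold Ld at h2 ⊢
        have h4 : sl * ((dmax : ℝ) - 2 * (X.tot - 1)) ≤ sl * ((L.d v : ℝ) - 2 * (X.tot - 1)) :=
          mul_le_mul_of_nonneg_left (by linarith) hsl0
        linarith
  choose lam um cut hlam0 hlamf hum0 hum1 hval using hch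
  -- the profile
  obtain ⟨fb, hfb⟩ : ∃ fb : ι → ℝ, fb = fun b => f (nb X.F X.mu b) := ⟨_, rfl⟩
  have hfb0 : ∀ b, 0 ≤ fb b := fun b => by rw [hfb]; exact (hB.f0 _).1
  have hnb : ∀ b, 0 < fb b → nb X.F X.mu b ≤ 24 / 25 := by
    intro b hb
    by_contra hc
    push Not at hc
    have h2 := hB.supp _ hc
    rw [hfb] at hb
    simp only [h2] at hb
    exact lt_irrefl _ hb
  obtain ⟨hh, hhh⟩ : ∃ hh : V → ι → ℝ, hh = fun v b => P.hJ X (L.Bv v) f (cut v) b := ⟨_, rfl⟩
  have hh0 : ∀ v b, 0 ≤ hh v b := by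
    intro v b
    rw [hhh]
    simp only [P.hJ, P.fc]
    split_ifs
    · exact (hB.f0 _).1
    · exact le_rfl
    · exact le_rfl
  have hhf : ∀ v b, hh v b ≤ fb b := by
    intro v b
    have h1 := (hB.f0 (nb X.F X.mu b)).1
    rw [hhh, hfb]
    simp only [P.hJ, P.fc]
    split_ifs
    · exact le_rfl
    · exact h1
    · exact h1
  have hlh0 : ∀ v b, 0 ≤ lam v * hh v b := fun v b => mul_nonneg (hlam0 v) (hh0 v b)
  have hlh1 : ∀ v b, 2 * (lam v * hh v b) ≤ 1 - e := by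
    intro v b
    refine le_trans ?_ (hlamf v (nb X.F X.mu b))
    have h1 := hhf v b
    rw [hfb] at h1
    have h2 := mul_le_mul_of_nonneg_left h1 (hlam0 v)
    linarith
  have hpos : ∀ v b, 0 < lam v * hh v b → nb X.F X.mu b ≤ 24 / 25 := by
    intro v b h
    refine hnb b (lt_of_lt_of_le ?_ (hhf v b))
    refine lt_of_le_of_ne (hh0 v b) (Ne.symm ?_)
    intro hc
    rw [hc, mul_zero] at h
    exact lt_irrefl _ h
  have hposlt : ∀ v b, 0 < lam v * hh v b → nb X.F X.mu b < 1 := fun v b h => by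
    have := hpos v b h
    linarith
  have hw0 := X.wT_nonneg (24 / 25)
  -- the rates
  obtain ⟨rt, hrt⟩ : ∃ rt : V → ι → ℝ, rt = rate X.F L.G X.mu (X.wT (24 / 25))
      (fun v b => lam v * hh v b) := ⟨_, rfl⟩
  have hr0 : ∀ v b, 0 ≤ rt v b := fun v b => by
    rw [hrt]
    exact rate_nonneg hμ0 hμ1 hw0 hlh0 v b
  have hr1 : ∀ v b, rt v b ≤ 25 ^ K * X.wT (24 / 25) b := by
    intro v b
    rw [hrt]
    unfold rate
    rcases (hlh0 v b).lt_or_eq with hpb | hz
    · have h1 := hpos v b hpb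
      have h2 : (1:ℝ) / 25 ≤ 1 - nb X.F X.mu b := by linarith
      have h3 : ((1:ℝ) / 25) ^ K ≤ (1 - nb X.F X.mu b) ^ #(nbh L.G v) := by
        have hd : #(nbh L.G v) ≤ K := H.dK v
        calc ((1:ℝ) / 25) ^ K ≤ (1 / 25) ^ #(nbh L.G v) :=
              pow_le_pow_of_le_one (by norm_num) (by norm_num) hd
          _ ≤ _ := pow_le_pow_left₀ (by norm_num) h2 _
      have h5 : 0 < ((1:ℝ) / 25) ^ K := by positivity
      rw [div_le_iff₀ (h5.trans_le h3)]
      have h6 : X.wT (24 / 25) b * (lam v * hh v b) ≤ X.wT (24 / 25) b := by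
        refine mul_le_of_le_one_right (hw0 b) ?_
        have := hlh1 v b
        linarith
      have h7 : (25:ℝ) ^ K * ((1:ℝ) / 25) ^ K = 1 := by
        rw [← mul_pow]; norm_num
      calc _ ≤ X.wT (24 / 25) b := h6
        _ = 25 ^ K * X.wT (24 / 25) b * ((1:ℝ) / 25) ^ K := by
          rw [mul_right_comm, h7, one_mul]
        _ ≤ _ := mul_le_mul_of_nonneg_left h3 (mul_nonneg (by positivity) (hw0 b))
    · simp only [← hz, mul_zero, zero_div]
      exact mul_nonneg (by positivity) (hw0 b)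
  refine ⟨rt, ⟨hr0, ?_, ?_, ?_, ?_, ?_⟩⟩
  · intro v y hy
    have e2 : hh v y = 0 := by
      rw [hhh]
      simp only [P.hJ]
      rw [if_neg hy]
    rw [hrt]
    unfold rate
    simp only [e2, mul_zero, zero_div]
  · intro v y
    refine (hr1 v y).trans ?_
    have h1 : (25:ℝ) ^ K * X.wT (24 / 25) y ≤ 25 ^ K * X.w y :=
      mul_le_mul_of_nonneg_left (X.wT_le _ y) (by positivity)
    have h2 : (0:ℝ) ≤ 25 ^ K * X.w y := mul_nonneg (by positivity) (X.pos y).le
    nlinarith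
  · intro v
    calc _ ≤ ∑ y, 25 ^ K * X.w y := sum_le_sum fun y _ => (hr1 v y).trans
          (mul_le_mul_of_nonneg_left (X.wT_le _ y) (by positivity))
      _ = 25 ^ K * X.tot := by rw [← mul_sum]; rfl
      _ ≤ 25 ^ K * 4 := mul_le_mul_of_nonneg_left ht4 (by positivity)
  · intro v y
    have h1 : rt v y * (1 - nb X.F X.mu y) ^ #(nbh L.G v)
        = X.wT (24 / 25) y * (lam v * hh v y) := by
      rw [hrt]
      exact rate_mul hlh0 hposlt v y
    have h2 : L.d v = #(nbh L.G v) := rfl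
    rw [h2, h1]
    have h4 := mul_le_mul_of_nonneg_right (X.wT_le (24 / 25) y) (hlh0 v y)
    have h5 := mul_le_mul_of_nonneg_left (hlh1 v y) (X.pos y).le
    nlinarith
  · intro a ha
    -- the multiplier of the J row
    obtain ⟨m, hm⟩ : ∃ m : ι → ι → ℝ, m = fun b c => if X.s < 1 ∧ b ∉ X.A ∧ c ∉ X.A then
        mJ X.s (nb X.F X.mu b) ((∑ v, (1 - nb X.F X.mu c) ^ L.d v) / Fintype.card V - e₀) else 0 :=
      ⟨_, rfl⟩
    have hm0 : ∀ b c, 0 ≤ m b c := by
      intro b c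
      rw [hm]
      simp only
      split_ifs
      · exact AsmX.mJ_nonneg _ _ _
      · exact le_rfl
    have hτ0 : 0 ≤ 1 - X.s + eV := by linarith
    have hrowJ : ∀ b, 0 < X.wT (24 / 25) b → 0 < fb b →
        (∑ c, if X.F.Adj b c then X.wT (24 / 25) c * m b c else 0) ≤ 1 - X.s + eV := by
      intro b hb _
      by_cases hs : X.s < 1
      · have h1 := hbad hs b (X.of_wT_pos hb).1
        refine le_trans (le_trans (sum_le_sum fun c _ => ?_) h1) (by linarith)
        by_cases hbc : X.F.Adj b c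
        · by_cases hc : c ∈ X.A
          · have e1 : m b c = 0 := by
              rw [hm]
              exact if_neg fun hh => hh.2.2 hc
            rw [if_pos hbc, e1, mul_zero, if_neg fun hh => hh.2 hc]
          · have e1 : m b c = mJ X.s (nb X.F X.mu b)
                ((∑ v, (1 - nb X.F X.mu c) ^ L.d v) / Fintype.card V - e₀) := by
              rw [hm]
              exact if_pos ⟨hs, (X.of_wT_pos hb).1, hc⟩
            rw [if_pos hbc, e1, if_pos ⟨hbc, hc⟩]
            exact mul_le_mul_of_nonneg_right (X.wT_le _ c) (AsmX.mJ_nonneg _ _ _)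
        · rw [if_neg hbc, if_neg fun hh => hbc hh.1]
      · have e1 : ∀ c, (if X.F.Adj b c then X.wT (24 / 25) c * m b c else 0) = 0 := by
          intro c
          have e2 : m b c = 0 := by
            rw [hm]
            exact if_neg fun hh => hs hh.1
          rw [e2, mul_zero, ite_self]
        rw [sum_congr rfl fun c _ => e1 c, sum_const_zero]
        exact hτ0
    have hD' : ∑ v, (L.d v : ℝ) ≤ D * Fintype.card V := by
      have h1 : ∑ v, (L.d v : ℝ) ≤ 2 * (X.tot - 1 + e) * k := by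
        refine le_trans (le_of_eq ?_) H.deg
        refine sum_congr rfl fun v _ => ?_
        rw [hj v]
        simp
      have h2 : 2 * (X.tot - 1) + ε ≤ D := by linarith
      have h3 : 0 ≤ 2 * (X.tot - 1) + ε := by linarith
      have h4 : (2 * (X.tot - 1) + ε) * ((1 - e) * k) ≤ D * Fintype.card V :=
        mul_le_mul h2 H.cV' (mul_nonneg (by linarith) hk.le) (h3.trans h2)
      have h5 : 2 * (X.tot - 1 + e) ≤ (2 * (X.tot - 1) + ε) * (1 - e) := by
        have h6 : e * (2 * (X.tot - 1)) ≤ e * 6 := mul_le_mul_of_nonneg_left (by linarith) he.le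
        have h7 : e * ε ≤ 1 / 100 * ε := mul_le_mul_of_nonneg_right (by linarith) hε.le
        nlinarith
      have h6 := mul_le_mul_of_nonneg_right h5 hk.le
      linarith
    have hmb : ∀ b c, X.s < 1 → b ∉ X.A → c ∉ X.A →
        P.mb s0 s1 ε k' D (nb X.F X.mu b) (nb X.F X.mu c) ≤ m b c := by
      intro b c hs hb hc
      have e1 : m b c = mJ X.s (nb X.F X.mu b)
          ((∑ v, (1 - nb X.F X.mu c) ^ L.d v) / Fintype.card V - e₀) := by
        rw [hm]
        exact if_pos ⟨hs, hb, hc⟩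
      rw [e1]
      have hn0 := nb_nonneg (F := X.F) hμ0
      have hn1 := nb_le_one (F := X.F) hμ0 hμ1
      refine AsmX.mb_le hs0 hs1 (hn1 b) ?_
      have h1 := AsmX.pl_le L k' hcV hD' (hn0 c) (hn1 c)
      linarith
    have hpair : ∀ b b', X.F.Adj b b' → 0 < X.wT (24 / 25) b → 0 < X.wT (24 / 25) b' →
        0 < fb b → 0 < fb b' →
        fb b * fb b' * ((1 - nb X.F X.mu b)⁻¹ + (1 - nb X.F X.mu b')⁻¹) ≤
          p (nb X.F X.mu b) + p (nb X.F X.mu b') +
            r (nb X.F X.mu b) * m b b' + r (nb X.F X.mu b') * m b' b := by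
      intro b b' hbb hb hb' hf hf'
      have hn0 := nb_nonneg (F := X.F) hμ0
      have hsum := AsmX.nb_add_le X hsA hbb
      have hA := (X.of_wT_pos hb).1
      have hA' := (X.of_wT_pos hb').1
      have hfi : fb b = f (nb X.F X.mu b) := by rw [hfb]
      have hfi' : fb b' = f (nb X.F X.mu b') := by rw [hfb]
      have hp := hB.pair _ _ (hn0 b) (hn0 b') hsum
        (by rw [← hfi]; exact hf) (by rw [← hfi']; exact hf')
      rw [← hfi, ← hfi'] at hp
      refine hp.trans ?_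
      rcases hB.hiS with hlt | hr
      · have hs : X.s < 1 := hs1.trans_lt hlt
        have g1 := mul_le_mul_of_nonneg_left (hmb b b' hs hA hA')
          (hB.r0 (nb X.F X.mu b)).1
        have g2 := mul_le_mul_of_nonneg_left (hmb b' b hs hA' hA)
          (hB.r0 (nb X.F X.mu b')).1
        linarith
      · simp only [hr, zero_mul, add_zero]
        exact le_rfl
    have key := sum_LB_ge (G := L.G) (F := X.F) (μ := X.mu) hμ0 hμ1 X.tri
      (w := X.wT (24 / 25)) (f := fb) (p := fun b => p (nb X.F X.mu b))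
      (r := fun b => r (nb X.F X.mu b)) (hh := hh) (m := m) (lam := lam) (um := um)
      (σ := X.s + 25 * e) (τ' := 1 - X.s + eV) hw0 (fun b => (hB.p0 _).1)
      (fun b => (hB.r0 _).1) hm0 hh0 hhf hlam0 hum0 hum1
      (fun b hb => by have := hnb b hb; linarith) (by linarith) hτ0
      (fun a _ => (X.rowT_le _ a).trans (by linarith))
      (fun b hb _ => X.rowT_le' hsA H.s2 he.le (by norm_num) (by norm_num) hb)
      hrowJ hpair a
    have hsumval : ∑ v, (if v ∈ L.E ∨ L.d v < dmin then 0 else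
        Ld η sl (L.d v) (X.tot - 1) X.s - η / 2) ≤ ∑ v, ∑ y, LB X.F L.G X.mu rt v a y := by
      rw [hrt]
      refine le_trans (sum_le_sum fun v _ => ?_) key
      have h1 := hval v
      unfold P.valJ at h1
      rw [hhh]
      exact h1
    have hfin := AsmX.sum_lines (T := ∑ v, ∑ y, LB X.F L.G X.mu rt v a y) H hj he.le
      hη.le hsl0 hsl1 (by linarith) (by linarith) hs0' hfew hsumval
    refine hfin.trans (mul_le_mul_of_nonneg_right ?_ hk.le)
    have h1 : (1 - e) * (X.s - e) ≤ (1 - e) * X.sA :=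
      mul_le_mul_of_nonneg_left H.s2 (by linarith)
    have h2 : e * X.s ≤ e * 2 := mul_le_mul_of_nonneg_left (by linarith) he.le
    have h3 : e * (4 * (80 + 5 * η)) ≤ e₀ * (4 * (80 + 5 * η)) :=
      mul_le_mul_of_nonneg_right hee (by positivity)
    nlinarith [mul_nonneg he.le he.le]

/-- **The assembly.** -/
theorem P.asm_of (hV : P.S_VTX) : P.S_ASM := fun _ hQ h => P.asm_lt hV (by linarith) h

end Pool.Agent.T6J
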