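import Pool.Agent.T6J.St
import Pool.Agent.T6J.LimH

/-!
# The J rows with giants (MP_c6effb_co, all degrees)
-/

set_option autoImplicit false

open Finset

namespace Pool.Agent.T6J

open Pool.Agent.T6A

open Classical in
/-- The J rows with giants. For `n_b ≥ dh`: the row of `BadRow` (the giants are put in `N(b)`); for all
`b`: the row with the additional factor `1 - n_c` (average over the cluster of the giants). -/
def BadRow4 (dh : ℝ) : RowCond := fun V ι _ _ X L e =>
  ∀ b, b ∉ X.A →
    (dh ≤ nb X.F X.mu b → ∑ c, (if X.F.Adj b c ∧ c ∉ X.A then X.w c *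
      mJ X.s (nb X.F X.mu b) ((∑ v, (1 - nb X.F X.mu c) ^ L.d v) / Fintype.card V - e) else 0)
      ≤ 1 - X.s + e) ∧
    ∑ c, (if X.F.Adj b c ∧ c ∉ X.A then X.w c * ((1 - nb X.F X.mu c) *
      mJ X.s (nb X.F X.mu b) ((∑ v, (1 - nb X.F X.mu c) ^ L.d v) / Fintype.card V - e)) else 0)
      ≤ 1 - X.s + e

end Pool.Agent.T6J
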