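import Pool.Agent.T6J.VtxEH
import Pool.Agent.T6J.Row4
import Pool.Agent.T6J.Asm

/-!
# The assembly of the certificate, all degrees (MP_c6effb_co, helper89)

`asm4`: `H.CoverH Q` gives `CertStmtJ4 (BadRow4 dh) Q` for some `dh > 0`. The vertices are in `VtxEH.lean`
(helper42), the average over the cluster of the giants in `AsmH.lean` (helper48).
-/

set_option autoImplicit false

open Finset

namespace Pool.Agent.T6J

open Pool.Agent.T6A

noncomputable section

open Classical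

namespace A4

variable {V ι : Type} [Fintype V] [Fintype ι]

theorem mJ_nonneg {s n π : ℝ} : 0 ≤ mJ s n π := by
  unfold mJ
  split_ifs with h
  · exact zero_le_one
  · push Not at h
    have h0 := le_max_left 0 π
    exact div_nonneg h0 (by linarith [h.2])

theorem mb_le_one {s0 s1 ε D x y : ℝ} {k : ℕ} : P.mb s0 s1 ε k D x y ≤ 1 := by
  unfold P.mb
  split_ifs with h
  · exact le_rfl
  · push Not at h
    have h0 := le_max_left 0 (pl k D y - ε)
    exact div_le_one_of_le₀ (by linarith [h.2]) (by linarith [h.2])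

/-- The bound of the box is below the factor. -/
theorem mb_le_mJ {s0 s1 ε s x π D y : ℝ} {k : ℕ} (hs0 : s0 ≤ s) (hs1 : s ≤ s1) (hx : x ≤ 2)
    (hπ : pl k D y - ε ≤ π) : P.mb s0 s1 ε k D x y ≤ mJ s x π := by
  by_cases h : 1 - s ≤ π ∨ s * (1 - x) ≤ 1 - s
  · have h1 : mJ s x π = 1 := by
      unfold mJ
      rw [if_pos h]
    rw [h1]
    exact mb_le_one
  have h1 : mJ s x π = max 0 π / (max 0 π + s * (1 - x) - (1 - s)) := by
    unfold mJ
    rw [if_neg h]
  push Not at h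
  obtain ⟨h2, h3⟩ := h
  have hβ : s * (1 - x) - (1 - s) ≤ s1 * (1 - x) - (1 - s1) := by
    have := mul_nonneg (sub_nonneg.2 hs1) (sub_nonneg.2 hx)
    nlinarith
  have h4 : P.mb s0 s1 ε k D x y =
      max 0 (pl k D y - ε) / (max 0 (pl k D y - ε) + s1 * (1 - x) - (1 - s1)) := by
    unfold P.mb
    rw [if_neg]
    rintro (h5 | h5) <;> linarith
  rw [h1, h4]
  have h5 := le_max_left 0 (pl k D y - ε)
  have h6 := le_max_left 0 π
  have h7 : max 0 (pl k D y - ε) ≤ max 0 π := max_le_max le_rfl hπ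
  rw [div_le_div_iff₀ (by linarith) (by linarith)]
  have h8 := mul_le_mul h7 hβ (by linarith) h6
  nlinarith

theorem mbH_le {dh s0 s1 ε s x π D y : ℝ} {k : ℕ} (hs0 : s0 ≤ s) (hs1 : s ≤ s1) (hx : x ≤ 2)
    (hy : y ≤ 1) (hπ : pl k D y - ε ≤ π) :
    H.mbH dh s0 s1 ε k D x y ≤ (if x < dh then 1 - y else 1) * mJ s x π := by
  unfold H.mbH
  split_ifs with h
  · exact mul_le_mul_of_nonneg_left (mb_le_mJ hs0 hs1 hx hπ) (by linarith)
  · rw [one_mul]
    exact mb_le_mJ hs0 hs1 hx hπ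

/-! ### The degrees -/

omit [Fintype ι] in
/-- The number of vertices outside `E` whose degree (giants included) is below `n`. -/
theorem rare_class (L : Low V ι) {k e : ℝ} (n : ℕ)
    (h : ∀ δ < n, (#{v | v ∉ L.E ∧ L.d v + L.j v = δ} : ℝ) ≤ e * k) :
    (#{v | v ∉ L.E ∧ L.d v + L.j v < n} : ℝ) ≤ n * (e * k) := by
  have h1 : ({v | v ∉ L.E ∧ L.d v + L.j v < n} : Finset V) ⊆
      (range n).biUnion fun δ => {v | v ∉ L.E ∧ L.d v + L.j v = δ} := by
    intro v hv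
    simp only [mem_filter, mem_univ, true_and] at hv
    simp only [mem_biUnion, mem_range, mem_filter, mem_univ, true_and]
    exact ⟨L.d v + L.j v, hv.2, hv.1, rfl⟩
  have h2 : (#{v | v ∉ L.E ∧ L.d v + L.j v < n} : ℝ) ≤
      ∑ δ ∈ range n, (#{v | v ∉ L.E ∧ L.d v + L.j v = δ} : ℝ) := by
    have := (card_le_card h1).trans card_biUnion_le
    exact_mod_cast this
  refine h2.trans ?_
  calc ∑ δ ∈ range n, (#{v | v ∉ L.E ∧ L.d v + L.j v = δ} : ℝ) ≤ ∑ _δ ∈ range n, e * k :=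
        sum_le_sum fun δ hδ => h δ (mem_range.1 hδ)
    _ = n * (e * k) := by rw [sum_const, card_range, nsmul_eq_mul]

/-- Few vertices have a degree below `dmin`. -/
theorem rare_lt {X : World ι} {L : Low V ι} {k e ε : ℝ} {dmin : ℕ} (hk : 0 < k)
    (hT : ThrW X L k e) (he0 : 0 < e) (h4 : X.tot ≤ 4) (hs : 1 / 2 ≤ X.s)
    (he1 : 200 * e ≤ 1) (heε : 200 * e ≤ ε) (hd : (dmin : ℝ) * X.s + ε ≤ X.tot) :
    (#{v | v ∉ L.E ∧ L.d v + L.j v < dmin} : ℝ) ≤ 8 * (e * k) := by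
  have hd8 : (dmin : ℝ) ≤ 8 := by
    by_contra h
    rw [not_le] at h
    nlinarith
  have hek : 0 ≤ e * k := mul_nonneg he0.le hk.le
  refine (rare_class L dmin ?_).trans (mul_le_mul_of_nonneg_right hd8 hek)
  intro δ hδ
  by_contra h
  rw [not_le] at h
  have h1 := hT δ h.le
  have h2 : ((1 + δ : ℕ) : ℝ) ≤ dmin := by exact_mod_cast (by omega : 1 + δ ≤ dmin)
  push_cast at h2
  have h3 : (1 + (δ : ℝ)) * (X.s + e) ≤ dmin * (X.s + e) :=
    mul_le_mul_of_nonneg_right h2 (by linarith)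
  have h5 : (dmin : ℝ) * e ≤ 8 * e := mul_le_mul_of_nonneg_right hd8 he0.le
  have h6 : e * X.tot ≤ e * 4 := mul_le_mul_of_nonneg_left h4 he0.le
  nlinarith

/-- Some degree `δ ≤ 2 q + ε` is frequent. -/
theorem exists_freq {X : World ι} {L : Low V ι} {Bd : ι → ι → Prop} {k Q : ℝ} {C K : ℕ}
    {e ε' ε : ℝ} (hW : PreOK X L Bd k Q C K e ε') (hT : ThrW X L k e)
    (he0 : 0 < e) (h1 : 1 ≤ X.tot) (h4 : X.tot ≤ 4) (he1 : 200 * e ≤ 1)
    (heε : 200 * e ≤ ε) :
    ∃ δ : ℕ, (δ : ℝ) ≤ 2 * (X.tot - 1) + ε ∧ 1 + (X.tot - 1) ≤ (1 + δ) * (X.s + ε) := by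
  have hk := hW.k0
  obtain ⟨ε1, hε1⟩ : ∃ x, x = min ε 1 := ⟨_, rfl⟩
  have h2 : ε1 ≤ ε := hε1 ▸ min_le_left _ _
  have h3 : ε1 ≤ 1 := hε1 ▸ min_le_right _ _
  have h5 : 200 * e ≤ ε1 := hε1 ▸ le_min heε he1
  by_contra hno
  push Not at hno
  obtain ⟨M, hM⟩ : ∃ x, x = 2 * (X.tot - 1) + ε1 := ⟨_, rfl⟩
  have hM0 : 0 ≤ M := by linarith
  have hM7 : M ≤ 7 := by linarith
  have hek : 0 ≤ e * k := mul_nonneg he0.le hk.le
  have hT1 : ⌊M⌋₊ + 1 ≤ 8 := by
    have : ⌊M⌋₊ < 8 := (Nat.floor_lt hM0).2 (by push_cast; linarith)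
    omega
  have hrare := rare_class (k := k) (e := e) L (⌊M⌋₊ + 1) (fun δ hδ => by
    by_contra h
    rw [not_le] at h
    have h6 := hT δ h.le
    have h7 : (δ : ℝ) ≤ M := (Nat.le_floor_iff hM0).1 (by omega)
    have h8 := hno δ (by linarith)
    have hδ0 : (0 : ℝ) ≤ δ := Nat.cast_nonneg δ
    have h9 : (1 + (δ : ℝ)) * (X.s + ε1) ≤ (1 + δ) * (X.s + ε) :=
      mul_le_mul_of_nonneg_left (by linarith) (by linarith)
    have h10 : (δ : ℝ) * e ≤ 7 * e := mul_le_mul_of_nonneg_right (by linarith) he0.le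
    have h11 : e * X.tot ≤ e * 4 := mul_le_mul_of_nonneg_left h4 he0.le
    have h12 : (δ : ℝ) * e ≤ δ * ε1 := mul_le_mul_of_nonneg_left (by linarith) hδ0
    nlinarith)
  have h8 : ((⌊M⌋₊ + 1 : ℕ) : ℝ) ≤ 8 := by exact_mod_cast hT1
  have hrare' : (#{v | v ∉ L.E ∧ L.d v + L.j v < ⌊M⌋₊ + 1} : ℝ) ≤ 8 * (e * k) :=
    hrare.trans (mul_le_mul_of_nonneg_right h8 hek)
  have hsum : ∑ v, (M - ((L.d v : ℝ) + 2 * L.j v)) ≤ ∑ v, ((if v ∈ L.E then M else 0) +
      (if v ∉ L.E ∧ L.d v + L.j v < ⌊M⌋₊ + 1 then M else 0)) := by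
    refine sum_le_sum fun v _ => ?_
    have hd0 : (0 : ℝ) ≤ L.d v := Nat.cast_nonneg _
    have hj0 : (0 : ℝ) ≤ L.j v := Nat.cast_nonneg _
    by_cases h6 : v ∈ L.E
    · simp only [h6, if_true, not_true_eq_false, false_and, if_false]
      linarith
    by_cases h7 : L.d v + L.j v < ⌊M⌋₊ + 1
    · simp only [h6, h7, if_false, not_false_eq_true, true_and, if_true]
      linarith
    · simp only [h6, h7, if_false, and_false]
      have h9 : M < ((L.d v + L.j v : ℕ) : ℝ) := (Nat.floor_lt hM0).1 (by omega)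
      push_cast at h9
      linarith
  rw [sum_sub_distrib, sum_const, card_univ, nsmul_eq_mul,
    sum_add_distrib (f := fun v => if v ∈ L.E then M else 0), ← sum_filter,
    ← sum_filter, sum_const, sum_const, nsmul_eq_mul, nsmul_eq_mul] at hsum
  have hE : (#({v | v ∈ L.E} : Finset V) : ℝ) ≤ e * k := by
    have : ({v | v ∈ L.E} : Finset V) = L.E := by
      ext v
      simp
    rw [this]
    exact hW.Ec
  have hdeg := hW.deg
  have hc := hW.cV'
  have h9 := mul_le_mul_of_nonneg_right hE hM0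
  have h10 := mul_le_mul_of_nonneg_right hrare' hM0
  have h11 := mul_le_mul_of_nonneg_right hc hM0
  have h12 : (1 - e) * k * M - 2 * (X.tot - 1 + e) * k ≤ e * k * M + 8 * (e * k) * M := by
    linarith
  have h13 : M - 2 * (X.tot - 1) ≤ 2 * e + 10 * e * M := by
    refine le_of_mul_le_mul_right ?_ hk
    nlinarith
  have h14 : 10 * e * M ≤ 10 * e * 7 := mul_le_mul_of_nonneg_left hM7 (by linarith)
  linarith

/-- The average list probability is above `pl`. -/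
theorem pl_le_avg {X : World ι} {L : Low V ι} {Bd : ι → ι → Prop} {k Q : ℝ} {C K : ℕ}
    {e ε' ε q1 D n : ℝ} {j : ℕ} (hP : PreOK X L Bd k Q C K e ε') (he0 : 0 < e) (he1 : 200 * e ≤ 1)
    (heε : 200 * e ≤ ε) (h1 : 1 ≤ X.tot) (h4 : X.tot ≤ 4) (hq : X.tot - 1 ≤ q1)
    (hD : 2 * q1 + ε ≤ D) (hc : 0 < Fintype.card V) (h0 : 0 ≤ n) (hn : n ≤ 1) :
    pl j D n ≤ (∑ v, (1 - n) ^ L.d v) / Fintype.card V := by
  refine AsmX.pl_le L j hc ?_ h0 hn
  have hk := hP.k0
  have h2 : ∑ v, (L.d v : ℝ) ≤ 2 * (X.tot - 1 + e) * k :=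
    (sum_le_sum fun v _ => by
      have : (0 : ℝ) ≤ L.j v := Nat.cast_nonneg _
      linarith).trans hP.deg
  have h3 : 0 ≤ 2 * (X.tot - 1) + ε := by linarith
  have h5 : (2 * (X.tot - 1) + ε) * ((1 - e) * k) ≤ D * Fintype.card V :=
    mul_le_mul (by linarith) hP.cV' (mul_nonneg (by linarith) hk.le) (by linarith)
  have h6 : 2 * (X.tot - 1 + e) ≤ (2 * (X.tot - 1) + ε) * (1 - e) := by
    have h7 : e * (2 * (X.tot - 1)) ≤ e * 6 := mul_le_mul_of_nonneg_left (by linarith) he0.le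
    have h8 : e * ε ≤ 1 / 200 * ε := mul_le_mul_of_nonneg_right (by linarith) (by linarith)
    linarith
  have h9 := mul_le_mul_of_nonneg_right h6 hk.le
  linarith

end A4

/-- **The assembly, all degrees.** -/
theorem asm4 {Q : ℝ} (hQ : Q ≤ 3) (hC : H.CoverH Q) :
    ∃ dh : ℝ, 0 < dh ∧ CertStmtJ4 (BadRow4 dh) Q := by
  obtain ⟨dh, η, ε, hdh, hη, hε, hcov⟩ := hC
  refine ⟨dh, hdh, ?_⟩
  intro C
  have hCC : (0 : ℝ) ≤ C := Nat.cast_nonneg C
  -- the constants
  obtain ⟨η1, hη1⟩ : ∃ x, x = min η 1 := ⟨_, rfl⟩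
  have hη1p : 0 < η1 := by rw [hη1]; exact lt_min hη one_pos
  have hη1η : η1 ≤ η := by rw [hη1]; exact min_le_left _ _
  have hη11 : η1 ≤ 1 := by rw [hη1]; exact min_le_right _ _
  obtain ⟨e₀, he₀⟩ : ∃ x, x = min (P4.eT ε) ε := ⟨_, rfl⟩
  have he₀p : 0 < e₀ := by rw [he₀]; exact lt_min (P4.eT_pos hε) hε
  have he₀T : e₀ ≤ P4.eT ε := by rw [he₀]; exact min_le_left _ _
  have he₀ε : e₀ ≤ ε := by rw [he₀]; exact min_le_right _ _
  have hT8 : P4.eT ε ≤ 1 / 8 := min_le_right _ _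
  obtain ⟨e₁, he₁⟩ : ∃ x, x = min (1 / 200) (min (e₀ / 200) (η1 / (1000 * (2 * C + 5)))) :=
    ⟨_, rfl⟩
  have he₁p : 0 < e₁ := by rw [he₁]; positivity
  have hb1 : e₁ ≤ 1 / 200 := by rw [he₁]; exact min_le_left _ _
  have hb2 : e₁ ≤ e₀ / 200 := by
    rw [he₁]
    exact (min_le_right _ _).trans (min_le_left _ _)
  have hb3 : e₁ ≤ η1 / (1000 * (2 * C + 5)) := by
    rw [he₁]
    exact (min_le_right _ _).trans (min_le_right _ _)
  refine ⟨e₀, e₁, he₀p, he₁p, by linarith, fun e he hee K => ?_⟩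
  refine ⟨25 ^ K * (2 * C + 2), η1 / 8, 1, by positivity, one_pos, ?_⟩
  intro V ι _ _ X L Bd k hP hT htot hs3 hbad
  -- basic facts
  have hk := hP.k0
  have ht1 := hP.tot1
  have ht4 : X.tot ≤ 4 := by linarith
  have he200 : 200 * e ≤ 1 := by linarith
  have heε : 200 * e ≤ ε := by linarith
  have hsA : 0 < X.sA := by
    have h1 := hP.s1
    have h2 := hP.s2
    linarith
  have hμ0 := X.mu_nonneg
  have hμ1 := X.mu_sum hsA
  have hcV : 0 < Fintype.card V := by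
    have h1 : 0 < (1 - e) * k := mul_pos (by linarith) hk
    have h2 := h1.trans_le hP.cV'
    exact_mod_cast h2
  obtain ⟨q0, q1, s0, s1, dmin, dmax, hq0, hq1, hs0, hs1, hbox⟩ := hcov (X.tot - 1) X.s
    (by linarith) (by linarith) (by linarith)
    (A4.exists_freq hP hT he (by linarith) ht4 he200 heε)
  obtain ⟨k', D, f, p, r, f0, sl, hD, hsl0, hsl1, hB, hdmax, hdmin, hdm20, hrow0, hrowH⟩ := hbox
  have hsh : 1 / 2 ≤ X.s := hB.s01.1.trans hs0
  have hfew : (#{v | v ∉ L.E ∧ L.d v + L.j v < dmin} : ℝ) ≤ 8 * (e * k) :=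
    A4.rare_lt hk hT he ht4 hsh he200 heε (by
      have h1 := hdmin _ _ hq0 hq1 hs0 hs1
      linarith)
  have hτ0 : 0 ≤ 1 - X.s + P4.eT ε := by linarith
  -- the exceptional set
  obtain ⟨Z, hZ⟩ : ∃ Z : Finset V, Z = L.E ∪ univ.filter (fun v => v ∉ L.E ∧ L.d v + L.j v < dmin) :=
    ⟨_, rfl⟩
  have hZE : L.E ⊆ Z := by
    rw [hZ]
    exact subset_union_left
  have hZc : ((#Z : ℕ) : ℝ) ≤ 9 * e * k := by
    have h1 : #Z ≤ #L.E + #(univ.filter (fun v => v ∉ L.E ∧ L.d v + L.j v < dmin)) := by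
      rw [hZ]
      exact card_union_le _ _
    have h2 : ((#Z : ℕ) : ℝ) ≤ (#L.E : ℝ) +
        (#(univ.filter (fun v => v ∉ L.E ∧ L.d v + L.j v < dmin)) : ℝ) := by exact_mod_cast h1
    have h3 := hP.Ec
    linarith
  have hZd : ∀ v, v ∉ Z → dmin ≤ L.d v + L.j v := by
    intro v hv
    by_contra h
    rw [not_le] at h
    refine hv ?_
    rw [hZ, mem_union]
    by_cases hE : v ∈ L.E
    · exact Or.inl hE
    · exact Or.inr (mem_filter.2 ⟨mem_univ _, hE, h⟩)
  obtain ⟨hh, lam, um, k1, k2, k3, k4, k5, k6, k7, k8⟩ := P4.vtx_data X hsA ht4 hε he.le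
    (show e ≤ P4.eT ε by linarith) hq0 hq1 hs0 hs1 hdm20 hsl0 (P4.funOKH hB)
    (hdmax _ _ hq0 hq1 hs0 hs1) hrow0 hrowH hτ0 L.d L.j Z hZd
  -- the multiplier of the J rows
  obtain ⟨m, hm⟩ : ∃ m : ι → ι → ℝ, m = fun b c => if X.s < 1 ∧ b ∉ X.A ∧ c ∉ X.A then
      (if nb X.F X.mu b < dh then 1 - nb X.F X.mu c else 1) *
        mJ X.s (nb X.F X.mu b) ((∑ v, (1 - nb X.F X.mu c) ^ L.d v) / Fintype.card V - e₀) else 0 :=
    ⟨_, rfl⟩
  have hn0 := nb_nonneg (F := X.F) hμ0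
  have hn1 := nb_le_one (F := X.F) hμ0 hμ1
  have hfac : ∀ b c, 0 ≤ (if nb X.F X.mu b < dh then 1 - nb X.F X.mu c else 1) := by
    intro b c
    split_ifs
    · linarith [hn1 c]
    · exact zero_le_one
  have hm0 : ∀ b c, 0 ≤ m b c := by
    intro b c
    rw [hm]
    simp only
    by_cases h : X.s < 1 ∧ b ∉ X.A ∧ c ∉ X.A
    · rw [if_pos h]
      exact mul_nonneg (hfac b c) A4.mJ_nonneg
    · rw [if_neg h]
  have hrowJ : ∀ b, 0 < X.wT (24 / 25) b → 0 < f (nb X.F X.mu b) →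
      (∑ c, if X.F.Adj b c then X.wT (24 / 25) c * m b c else 0) ≤ 1 - X.s + P4.eT ε := by
    intro b hb _
    by_cases hs : X.s < 1
    · have hbA := (X.of_wT_pos hb).1
      have hrow : ∑ c, (if X.F.Adj b c ∧ c ∉ X.A then X.w c *
          ((if nb X.F X.mu b < dh then 1 - nb X.F X.mu c else 1) *
          mJ X.s (nb X.F X.mu b) ((∑ v, (1 - nb X.F X.mu c) ^ L.d v) / Fintype.card V - e₀))
          else 0) ≤ 1 - X.s + e₀ := by
        have h1 := hbad hs b hbA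
        by_cases hlt : nb X.F X.mu b < dh
        · simp only [hlt, if_true]
          exact h1.2
        · simp only [hlt, if_false, one_mul]
          exact h1.1 (not_lt.1 hlt)
      refine le_trans (le_trans (sum_le_sum fun c _ => ?_) hrow) (by linarith)
      by_cases hbc : X.F.Adj b c
      · by_cases hc : c ∈ X.A
        · have e1 : m b c = 0 := by
            rw [hm]
            exact if_neg fun hh => hh.2.2 hc
          rw [if_pos hbc, e1, mul_zero, if_neg fun hh => hh.2 hc]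
        · have e1 : m b c = (if nb X.F X.mu b < dh then 1 - nb X.F X.mu c else 1) *
              mJ X.s (nb X.F X.mu b)
              ((∑ v, (1 - nb X.F X.mu c) ^ L.d v) / Fintype.card V - e₀) := by
            rw [hm]
            exact if_pos ⟨hs, hbA, hc⟩
          rw [if_pos hbc, e1, if_pos (show X.F.Adj b c ∧ c ∉ X.A from ⟨hbc, hc⟩)]
          exact mul_le_mul_of_nonneg_right (X.wT_le _ c) (mul_nonneg (hfac b c) A4.mJ_nonneg)
      · rw [if_neg hbc, if_neg fun hh => hbc hh.1]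
    · have e1 : ∀ c, (if X.F.Adj b c then X.wT (24 / 25) c * m b c else 0) = 0 := by
        intro c
        have e2 : m b c = 0 := by
          rw [hm]
          exact if_neg fun hh => hs hh.1
        rw [e2, mul_zero, ite_self]
      rw [sum_congr rfl fun c _ => e1 c, sum_const_zero]
      exact hτ0
  have hmb : ∀ b c, X.s < 1 → b ∉ X.A → c ∉ X.A →
      H.mbH dh s0 s1 ε k' D (nb X.F X.mu b) (nb X.F X.mu c) ≤ m b c := by
    intro b c hs hb hc
    have e1 : m b c = (if nb X.F X.mu b < dh then 1 - nb X.F X.mu c else 1) *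
        mJ X.s (nb X.F X.mu b)
        ((∑ v, (1 - nb X.F X.mu c) ^ L.d v) / Fintype.card V - e₀) := by
      rw [hm]
      exact if_pos ⟨hs, hb, hc⟩
    rw [e1]
    refine A4.mbH_le hs0 hs1 (by linarith [hn1 b]) (hn1 c) ?_
    have h1 := A4.pl_le_avg (j := k') (n := nb X.F X.mu c) hP he he200 heε (by linarith) ht4 hq1
      hD hcV (hn0 c) (hn1 c)
    linarith
  have hpair : ∀ b b', X.F.Adj b b' → 0 < X.wT (24 / 25) b → 0 < X.wT (24 / 25) b' →
      0 < f (nb X.F X.mu b) → 0 < f (nb X.F X.mu b') →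
      f (nb X.F X.mu b) * f (nb X.F X.mu b') *
        ((1 - nb X.F X.mu b)⁻¹ + (1 - nb X.F X.mu b')⁻¹) ≤
        p (nb X.F X.mu b) + p (nb X.F X.mu b') +
          r (nb X.F X.mu b) * m b b' + r (nb X.F X.mu b') * m b' b := by
    intro b b' hbb hb hb' hf hf'
    have hA := (X.of_wT_pos hb).1
    have hA' := (X.of_wT_pos hb').1
    refine (hB.pair _ _ (hn0 b) (hn0 b') (AsmX.nb_add_le X hsA hbb) hf hf').trans ?_
    rcases hB.hiS with hlt | hr
    · have hs : X.s < 1 := hs1.trans_lt hlt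
      have g1 := mul_le_mul_of_nonneg_left (hmb b b' hs hA hA') (hB.r0 (nb X.F X.mu b)).1
      have g2 := mul_le_mul_of_nonneg_left (hmb b' b hs hA' hA) (hB.r0 (nb X.F X.mu b')).1
      linarith
    · simp only [hr, zero_mul, add_zero]
      exact le_rfl
  have hz : 9 * e * (16 * C + 20) ≤ η1 := by
    have h1 : e ≤ η1 / (1000 * (2 * C + 5)) := hee.trans hb3
    rw [le_div_iff₀ (by positivity)] at h1
    nlinarith [mul_nonneg he.le hCC]
  obtain ⟨As, hAs, hAsw, hrate⟩ := EH.asmH (X := X) (L₀ := L) (k := k) (Q := 7 / 5) (e := e)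
    (η1 := η1) (z := 9 * e) (sl := sl) (R := 25 ^ K * (2 * C + 2)) (τ' := 1 - X.s + P4.eT ε)
    (C := C) (K := K) (by norm_num) hk hP.cV hP.cV' hP.tot1 hP.tot2 hP.deg hP.s1 hP.s2 hP.dK he
    (by linarith) (by linarith) (by linarith) hz (by nlinarith [mul_nonneg he.le hCC])
    (by linarith) hs3 hsl0 hsl1 le_rfl Z hZE hZc
    (f := fun b => f (nb X.F X.mu b)) (p := fun b => p (nb X.F X.mu b))
    (r := fun b => r (nb X.F X.mu b)) (hh := hh) (m := m) (lam := lam) (um := um)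
    (fun b => (hB.p0 _).1) (fun b => (hB.r0 _).1) hm0 k1 k2 k3 k4 k5 k6
    (fun b hb => by
      by_contra hc
      push Not at hc
      rw [hB.supp _ hc] at hb
      exact lt_irrefl _ hb) hτ0 k7 hrowJ hpair
    (fun v => by
      refine le_trans ?_ (k8 v)
      split_ifs
      · exact le_rfl
      · linarith)
  refine ⟨As, hAs, ?_, ?_⟩
  · refine le_trans ?_ hAsw
    have h1 : e ≤ η1 / (1000 * (2 * C + 5)) := hee.trans hb3
    refine h1.trans ?_
    refine div_le_div_of_nonneg_left hη1p.le (by positivity) ?_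
    nlinarith
  · intro i0 hi0 Av Bv hL
    refine ⟨_, hrate i0 hi0 (L.lists Av Bv) rfl rfl rfl ?_⟩
    intro v hv
    by_cases hj : L.j v = 0
    · have h1 := hL.Bv0 v hv hj
      refine le_trans (sum_le_sum_of_subset_of_nonneg ?_ fun i _ _ => (X.pos i).le) h1
      intro i hi
      have h2 := (mem_filter.1 hi).2
      exact mem_filter.2 ⟨mem_univ _, h2.1, h2.2.1⟩
    · have h1 := hL.Bv1 v hv
      refine le_trans (sum_le_sum_of_subset_of_nonneg ?_ fun i _ _ => (X.pos i).le) h1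
      intro i hi
      have h2 := (mem_filter.1 hi).2
      exact mem_filter.2 ⟨mem_univ _, ⟨h2.1, h2.2.1⟩, h2.2.2 hj⟩

end

end Pool.Agent.T6J
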