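import Pool.Agent.T6J.JDich
import Pool.Agent.T6J.Row4

/-!
# The dichotomy with giants (MP_c6effb_co, all degrees)

`DichoStmt4 (BadRow4 dh)` for all `dh > 0`: either there is a set `As` of clusters of `A` of weight at
least `e` such that there is a scheme if the giants are in a cluster of `As`, or all rows are bad.
-/

set_option autoImplicit false
set_option linter.unusedSectionVars false

open Finset

namespace Pool.Agent.T6J

open Pool.Agent.T6A

noncomputable section

open Classical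

variable {V ι : Type} [Fintype V] [Fintype ι]

/-- The set `J` of clusters is good with the wanted weight `x`. -/
def Good4 (X : World ι) (L : Low V ι) (J : Finset ι) (x : ℝ) : Prop :=
  x ≤ ∑ c ∈ J, X.w c ∧ ∀ c0 ∈ J,
    x ≤ ∑ c ∈ J with nb X.F X.mu c < nb X.F X.mu c0, X.w c + avP L (nb X.F X.mu c0)

/-- **The row of a subset of `N(b)` which is not good.** -/
theorem bad_rowH (X : World ι) (L : Low V ι) {e η : ℝ} (h : 0 < X.sA) (he : X.s - e ≤ X.sA)
    (he0 : 0 ≤ e) (hη : 0 ≤ η) (hs : X.s < 1) (b : ι) (J : Finset ι)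
    (hJ : ∀ c ∈ J, X.F.Adj b c ∧ c ∉ X.A) (hbad : ¬ Good4 X L J (1 - X.s + η)) :
    ∑ c ∈ J, X.w c * mR X.s (nb X.F X.mu b) (max 0 (avP L (nb X.F X.mu c) - η)) ≤
      1 - X.s + η + e := by
  have hnc1 : ∀ c, nb X.F X.mu c ≤ 1 := fun c => nb_le_one X.mu_nonneg (X.mu_sum h) c
  obtain ⟨S, hS⟩ : ∃ S, S = ∑ c ∈ J, X.w c := ⟨_, rfl⟩
  have hSw : S ≤ X.s * (1 - nb X.F X.mu b) + e := by
    refine le_trans ?_ (wJ_le X h he he0 b)
    rw [hS]
    unfold wJ
    have e1 : ∑ c ∈ J, X.w c = ∑ c, (if c ∈ J then X.w c else 0) := by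
      rw [← sum_filter, filter_mem_eq_inter, univ_inter]
    rw [e1]
    refine sum_le_sum fun c _ => ?_
    by_cases hc : c ∈ J
    · rw [if_pos hc, if_pos (hJ c hc)]
    · rw [if_neg hc]
      split_ifs
      · exact (X.pos c).le
      · exact le_rfl
  -- the sum is at most the weight
  have hle : ∑ c ∈ J, X.w c * mR X.s (nb X.F X.mu b) (max 0 (avP L (nb X.F X.mu c) - η)) ≤ S := by
    rw [hS]
    exact sum_le_sum fun c _ => mul_le_of_le_one_right (X.pos c).le (mR_le_one (le_max_left _ _))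
  unfold Good4 at hbad
  rw [← hS] at hbad
  by_cases hbad1 : 1 - X.s + η ≤ S
  swap
  · linarith
  have hbad2 : ∃ c0 ∈ J, ∑ c ∈ J with nb X.F X.mu c < nb X.F X.mu c0, X.w c +
      avP L (nb X.F X.mu c0) < 1 - X.s + η := by
    by_contra hcon
    push Not at hcon
    exact hbad ⟨hbad1, hcon⟩
  obtain ⟨c0, hc0, hbad⟩ := hbad2
  rcases le_or_gt (X.s * (1 - nb X.F X.mu b)) (1 - X.s) with h1 | h1
  · linarith
  -- the main case
  obtain ⟨q, hq⟩ : ∃ q, q = max 0 (avP L (nb X.F X.mu c0) - η) := ⟨_, rfl⟩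
  obtain ⟨x, hx⟩ : ∃ x, x = ∑ c ∈ J with nb X.F X.mu c < nb X.F X.mu c0, X.w c := ⟨_, rfl⟩
  have hx0 : 0 ≤ x := by
    rw [hx]
    exact sum_nonneg fun c _ => (X.pos c).le
  rw [← hx] at hbad
  have hq0 : 0 ≤ q := by rw [hq]; exact le_max_left _ _
  have hp0 : 0 ≤ avP L (nb X.F X.mu c0) := avP_nonneg L (hnc1 c0)
  have hq1 : q < 1 - X.s := by
    rw [hq, max_lt_iff]
    constructor <;> linarith
  obtain ⟨m, hm⟩ : ∃ m, m = mR X.s (nb X.F X.mu b) q := ⟨_, rfl⟩
  have hm0 : 0 ≤ m := by rw [hm]; exact mR_nonneg hq0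
  have hm1 : m ≤ 1 := by rw [hm]; exact mR_le_one hq0
  have hmq : m * (q + X.s * (1 - nb X.F X.mu b) - (1 - X.s)) = q := by
    rw [hm, mR_eq hq1 h1]
    exact div_mul_cancel₀ _ (by linarith)
  have hsum : ∑ c ∈ J, X.w c * mR X.s (nb X.F X.mu b) (max 0 (avP L (nb X.F X.mu c) - η)) ≤
      x + (S - x) * m := by
    have e1 : x + (S - x) * m = ∑ c ∈ J, ((1 - m) *
        (if nb X.F X.mu c < nb X.F X.mu c0 then X.w c else 0) + m * X.w c) := by
      rw [sum_add_distrib, ← mul_sum, ← mul_sum, ← sum_filter, ← hx, ← hS]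
      ring
    rw [e1]
    refine sum_le_sum fun c _ => ?_
    by_cases hlt : nb X.F X.mu c < nb X.F X.mu c0
    · rw [if_pos hlt]
      have := mul_le_of_le_one_right (X.pos c).le
        (mR_le_one (s := X.s) (n := nb X.F X.mu b) (le_max_left 0 (avP L (nb X.F X.mu c) - η)))
      linarith
    · rw [if_neg hlt, mul_zero, zero_add, mul_comm m]
      refine mul_le_mul_of_nonneg_left ?_ (X.pos c).le
      rw [hm, hq]
      refine mR_mono (le_max_left _ _) (max_le_max le_rfl ?_)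
      have := avP_anti L (not_lt.1 hlt) (hnc1 c)
      linarith
  refine hsum.trans ?_
  have hxq : x ≤ 1 - X.s + η - q := by
    rw [hq]
    rcases le_total 0 (avP L (nb X.F X.mu c0) - η) with h2 | h2
    · rw [max_eq_right h2]
      linarith
    · rw [max_eq_left h2]
      linarith
  have h3 : x * (1 - m) ≤ (1 - X.s + η - q) * (1 - m) :=
    mul_le_mul_of_nonneg_right hxq (by linarith)
  have h4 : S * m ≤ (X.s * (1 - nb X.F X.mu b) + e) * m :=
    mul_le_mul_of_nonneg_right hSw hm0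
  have h5 : 0 ≤ η * m := mul_nonneg hη hm0
  have h6 : e * m ≤ e := mul_le_of_le_one_right he0 hm1
  nlinarith

/-- **A good `J` gives a scheme for all lists of the kind `ListOK`**, if the cluster `i0` of the giants
blocks no cluster of `J`. -/
theorem scheme_of_good4 (K : ℕ) {η ζ : ℝ} (hη : 0 < η) (hζ : 0 < ζ) : ∃ ε : ℝ, 0 < ε ∧
    ∀ (V ι : Type) [Fintype V] [Fintype ι] (X : World ι) (L : Low V ι) (Bd : ι → ι → Prop)
      (k Q : ℝ) (C : ℕ) (e e1 x : ℝ), 0 ≤ e → e ≤ 1 / 8 → 0 < e1 → 2 * e ≤ e1 →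
      5 * e + 3 * η + e1 + 2 * e / e1 ≤ x → PreOK X L Bd k Q C K e ε → X.s < 1 →
      ∀ J : Finset ι, (∀ y ∈ J, y ∉ X.A) → (∀ y ∈ J, ∀ y' ∈ J, ¬ X.F.Adj y y') →
      Good4 X L J (1 - X.s + x) → ∀ i0 : ι, (∀ y ∈ J, ¬ X.F.Adj i0 y) →
      ∀ Av Bv : V → Finset ι, ListOK X (L.lists Av Bv) i0 e ε →
      ∃ (Om : Type) (_ : Fintype Om) (p : V → Om → ℝ) (g : (V → Om) → V → ι)
        (b : (V → Om) → V → Option ι) (Bn : V → Finset V) (φ : ι → ι → ℝ),
        Scheme X (L.lists Av Bv) Bd k e ζ ((K + 1) * (K + 1) * ((K + 1) * (K + 1))) p g b Bn φ := by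
  obtain ⟨ε, hε, hmain⟩ := scheme_of_good K hη hζ
  refine ⟨ε, hε, ?_⟩
  intro V ι _ _ X L Bd k Q C e e1 x he0 he8 he1 hee hx hP hs J hJA hJF hgood i0 hi0 Av Bv hL
  have hk := hP.k0
  have hV := hP.cV
  have hs2 := hP.s2
  have hsA : 0 < X.sA := by
    have := hP.s1
    linarith
  have hW := hP.worldOK hL
  obtain ⟨J', hJ'⟩ : ∃ J', J' = J.filter fun y => (#{v | y ∉ Bv v} : ℝ) ≤ e1 * k := ⟨_, rfl⟩
  have hJ'J : J' ⊆ J := by rw [hJ']; exact filter_subset _ _
  -- the missing weight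
  have hrest : ∑ y ∈ J \ J', X.w y ≤ 2 * e / e1 := by
    have h1 : (∑ y ∈ J \ J', X.w y) * (e1 / 2 * k) ≤
        ∑ y ∈ J \ J', ∑ v : V, (if v ∉ L.E ∧ y ∉ Bv v then X.w y else 0) := by
      rw [sum_mul]
      refine sum_le_sum fun y hy => ?_
      have h2 : e1 * k ≤ (#{v | y ∉ Bv v} : ℝ) := by
        by_contra hh
        rw [not_le] at hh
        refine (mem_sdiff.1 hy).2 ?_
        rw [hJ']
        exact mem_filter.2 ⟨(mem_sdiff.1 hy).1, hh.le⟩
      have h2' : (#{v | y ∉ Bv v} : ℝ) ≤ (#{v | v ∉ L.E ∧ y ∉ Bv v} : ℝ) + #L.E := by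
        have h4 : #{v | y ∉ Bv v} ≤ #{v | v ∉ L.E ∧ y ∉ Bv v} + #L.E := by
          refine (card_le_card ?_).trans (card_union_le _ _)
          intro v hv
          rw [mem_filter] at hv
          rw [mem_union, mem_filter]
          by_cases hvE : v ∈ L.E
          · exact Or.inr hvE
          · exact Or.inl ⟨mem_univ v, hvE, hv.2⟩
        exact_mod_cast h4
      have h3 : ∑ v : V, (if v ∉ L.E ∧ y ∉ Bv v then X.w y else 0) =
          X.w y * (#{v | v ∉ L.E ∧ y ∉ Bv v} : ℝ) := by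
        rw [← sum_filter, sum_const, nsmul_eq_mul, mul_comm]
      rw [h3]
      refine mul_le_mul_of_nonneg_left ?_ (X.pos y).le
      have h5 := mul_le_mul_of_nonneg_right hee hk.le
      have h6 := hP.Ec
      linarith
    have h2 : ∑ y ∈ J \ J', ∑ v : V, (if v ∉ L.E ∧ y ∉ Bv v then X.w y else 0) ≤ e * k := by
      rw [sum_comm]
      have h3 : ∀ v : V, ∑ y ∈ J \ J', (if v ∉ L.E ∧ y ∉ Bv v then X.w y else 0) ≤ e := by
        intro v
        by_cases hv : v ∈ L.E
        · simp [hv, he0]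
        · refine le_trans ?_ (hL.Bv1 v hv)
          rw [← sum_filter]
          refine sum_le_sum_of_subset_of_nonneg ?_ fun i _ _ => (X.pos i).le
          intro y hy
          rw [mem_filter] at hy ⊢
          have hyJ := (mem_sdiff.1 hy.1).1
          exact ⟨mem_univ _, ⟨hJA y hyJ, hy.2.2⟩, hi0 y hyJ⟩
      refine (sum_le_sum fun v _ => h3 v).trans ?_
      rw [sum_const, card_univ, nsmul_eq_mul, mul_comm]
      exact mul_le_mul_of_nonneg_left hV he0
    rw [le_div_iff₀ he1]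
    refine le_of_mul_le_mul_right ?_ hk
    calc _ = 2 * ((∑ y ∈ J \ J', X.w y) * (e1 / 2 * k)) := by ring
      _ ≤ 2 * (e * k) := by linarith [h1.trans h2]
      _ = _ := by ring
  -- sums over subsets of `J`
  have hw1 : ∀ S : Finset ι, S ⊆ J → ∑ y ∈ S, X.w y ≤ 1 := by
    intro S hS
    exact le_trans (X.max S fun a ha a' ha' => hJF a (hS ha) a' (hS ha')) hs.le
  have ht : (Fintype.card V : ℝ) - ((1 - e) * X.sA - 3 * η) * k ≤
      (1 - X.s + (2 * e + 3 * η)) * k := by
    have h3 : X.s - 2 * e ≤ (1 - e) * X.sA := by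
      have h4 := X.sA_le
      have h5 : e * X.sA ≤ e * 1 := mul_le_mul_of_nonneg_left (by linarith) he0
      linarith
    have h4 := mul_le_mul_of_nonneg_right h3 hk.le
    linarith
  have hρ : 0 ≤ 2 * e / e1 := by positivity
  refine hmain V ι X (L.lists Av Bv) Bd k Q C e he0 he8 hW J' (fun y hy => hJA y (hJ'J hy))
    (fun y hy y' hy' => hJF y (hJ'J hy) y' (hJ'J hy')) ?_ ?_
  · have h1 : ∑ y ∈ J, X.w y = ∑ y ∈ J', X.w y + ∑ y ∈ J \ J', X.w y := by
      rw [add_comm]
      exact (sum_sdiff hJ'J).symm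
    have h2 := hgood.1
    have h3 := mul_le_mul_of_nonneg_left (hw1 J' hJ'J) he0
    refine ht.trans (mul_le_mul_of_nonneg_right ?_ hk.le)
    linarith
  · intro y hy
    have hyB : (#{v | y ∉ Bv v} : ℝ) ≤ e1 * k := by
      rw [hJ'] at hy
      exact (mem_filter.1 hy).2
    have hn0 := nb_nonneg (F := X.F) X.mu_nonneg y
    have hn1 := nb_le_one (F := X.F) X.mu_nonneg (X.mu_sum hsA) y
    have h4 : (avP L (nb X.F X.mu y) - e - e1) * k ≤
        ∑ v, (if y ∈ Bv v then (1 - nb X.F X.mu y) ^ L.d v else 0) := by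
      have h5 : ∑ v, (1 - nb X.F X.mu y) ^ L.d v - (#{v | y ∉ Bv v} : ℝ) ≤
          ∑ v, (if y ∈ Bv v then (1 - nb X.F X.mu y) ^ L.d v else 0) := by
        have e1 : (#{v | y ∉ Bv v} : ℝ) = ∑ v, (if y ∉ Bv v then (1 : ℝ) else 0) := by
          rw [← sum_filter, sum_const, nsmul_eq_mul, mul_one]
        rw [e1, ← sum_sub_distrib]
        refine sum_le_sum fun v _ => ?_
        have h6 : (1 - nb X.F X.mu y) ^ L.d v ≤ 1 := pow_le_one₀ (by linarith) (by linarith)
        by_cases h7 : y ∈ Bv v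
        · simp [h7]
        · simp only [h7, not_false_eq_true, if_true, if_false]
          linarith
      have h6 : (avP L (nb X.F X.mu y) - e) * k ≤ ∑ v, (1 - nb X.F X.mu y) ^ L.d v := by
        have h7 := avP_le_one L hn0 hn1
        have h8 := avP_nonneg L (n := nb X.F X.mu y) hn1
        have hc0 : (0 : ℝ) < Fintype.card V := by
          have := hP.cV'
          nlinarith
        have h9 : avP L (nb X.F X.mu y) * Fintype.card V =
            ∑ v, (1 - nb X.F X.mu y) ^ L.d v := by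
          unfold avP
          exact div_mul_cancel₀ _ hc0.ne'
        rw [← h9]
        have h10 := mul_le_mul_of_nonneg_left hP.cV' h8
        have h11 : avP L (nb X.F X.mu y) * (e * k) ≤ 1 * (e * k) :=
          mul_le_mul_of_nonneg_right h7 (mul_nonneg he0 hk.le)
        nlinarith
      nlinarith
    have h5 : ∑ c ∈ J with nb X.F X.mu c < nb X.F X.mu y, X.w c ≤
        ∑ c ∈ J' with nb X.F X.mu c < nb X.F X.mu y, X.w c + 2 * e / e1 := by
      refine le_trans ?_ (add_le_add le_rfl hrest)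
      rw [← sum_filter_add_sum_filter_not (J.filter fun c => nb X.F X.mu c < nb X.F X.mu y)
        (fun c => c ∈ J')]
      refine add_le_add ?_ ?_
      · refine sum_le_sum_of_subset_of_nonneg ?_ fun i _ _ => (X.pos i).le
        intro c hc
        rw [mem_filter, mem_filter] at hc
        exact mem_filter.2 ⟨hc.2, hc.1.2⟩
      · refine sum_le_sum_of_subset_of_nonneg ?_ fun i _ _ => (X.pos i).le
        intro c hc
        rw [mem_filter, mem_filter] at hc
        exact mem_sdiff.2 ⟨hc.1.1, hc.2⟩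
    have h6 := hgood.2 y (hJ'J hy)
    have h7 := mul_le_mul_of_nonneg_left
      (hw1 _ ((filter_subset (fun c => nb X.F X.mu c < nb X.F X.mu y) J').trans hJ'J)) he0
    have h8 : 1 - X.s + (2 * e + 3 * η) ≤ (avP L (nb X.F X.mu y) - e - e1) +
        (1 - e) * ∑ c ∈ J' with nb X.F X.mu c < nb X.F X.mu y, X.w c := by
      linarith
    have h9 := mul_le_mul_of_nonneg_right h8 hk.le
    refine ht.trans (h9.trans ?_)
    rw [add_mul]
    exact add_le_add h4 le_rfl

/-- The clusters of `N(b)` outside `A`. -/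
def NbO (X : World ι) (b : ι) : Finset ι := univ.filter fun c => X.F.Adj b c ∧ c ∉ X.A

theorem mem_NbO {X : World ι} {b c : ι} : c ∈ NbO X b ↔ X.F.Adj b c ∧ c ∉ X.A := by
  unfold NbO
  simp

theorem sum_NbO (X : World ι) (b : ι) (f : ι → ℝ) :
    ∑ c, (if X.F.Adj b c ∧ c ∉ X.A then f c else 0) = ∑ c ∈ NbO X b, f c := by
  unfold NbO
  rw [sum_filter]

/-- The average over the cluster of the giants gives the factor `1 - n_c`. -/
theorem sum_mu_not_adj (X : World ι) (h : 0 < X.sA) (c : ι) :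
    ∑ i, X.mu i * (if X.F.Adj i c then 0 else 1) = 1 - nb X.F X.mu c := by
  have h1 : ∑ i, X.mu i * (if X.F.Adj i c then (0 : ℝ) else 1) + nb X.F X.mu c = 1 := by
    refine Eq.trans ?_ (X.mu_sum h)
    unfold nb
    rw [← sum_add_distrib]
    refine sum_congr rfl fun i _ => ?_
    by_cases hi : X.F.Adj i c
    · rw [if_pos hi, if_pos hi]
      ring
    · rw [if_neg hi, if_neg hi]
      ring
  linarith

/-- **The dichotomy with giants.** -/
theorem dichoH (dh : ℝ) (hdh : 0 < dh) : DichoStmt4 (BadRow4 dh) := by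
  intro C e₀ h0
  refine ⟨min (1 / 8) (min (e₀ / 64) (min (e₀ ^ 2 / 64) (dh / 4))), by positivity, ?_⟩
  intro e he hle K ζ hζ
  have h1 : e ≤ 1 / 8 := hle.trans (min_le_left _ _)
  have h2 : e ≤ e₀ / 64 := hle.trans ((min_le_right _ _).trans (min_le_left _ _))
  have h3 : e ≤ e₀ ^ 2 / 64 :=
    hle.trans ((min_le_right _ _).trans ((min_le_right _ _).trans (min_le_left _ _)))
  have h3' : e ≤ dh / 4 :=
    hle.trans ((min_le_right _ _).trans ((min_le_right _ _).trans (min_le_right _ _)))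
  obtain ⟨ε, hε, hmain⟩ := scheme_of_good4 K (η := e₀ / 16) (by positivity) hζ
  refine ⟨(K + 1) * (K + 1) * ((K + 1) * (K + 1)), ε, hε, ?_⟩
  intro V ι _ _ X L Bd k hP hs
  have h4 : 2 * e / (e₀ / 8) ≤ e₀ / 4 := by
    rw [div_le_iff₀ (by positivity)]
    nlinarith
  obtain ⟨x, hx⟩ : ∃ x : ℝ, x = 3 * e₀ / 4 := ⟨_, rfl⟩
  have hx0 : 0 ≤ x := by rw [hx]; positivity
  have hx5 : 5 * e + 3 * (e₀ / 16) + e₀ / 8 + 2 * e / (e₀ / 8) ≤ x := by
    rw [hx]
    linarith
  have hs1 := hP.s1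
  have hs2 := hP.s2
  have hsA4 : 1 / 4 ≤ X.sA := by linarith
  have hsA : 0 < X.sA := by linarith
  have hgo := hmain V ι X L Bd k (7 / 5) C e (e₀ / 8) x he.le h1 (by positivity) (by linarith)
    hx5 hP hs
  -- case A
  by_cases hA : ∃ b, b ∉ X.A ∧ dh ≤ nb X.F X.mu b ∧ Good4 X L (NbO X b) (1 - X.s + x)
  · right
    obtain ⟨b, -, hb, hg⟩ := hA
    refine ⟨X.A.filter fun i => X.F.Adj b i, filter_subset _ _, ?_, ?_⟩
    · have h5 : ∑ i ∈ X.A.filter (fun i => X.F.Adj b i), X.w i = X.sA * nb X.F X.mu b := by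
        rw [← X.sum_nbA hsA b, ← sum_filter]
        refine sum_congr ?_ fun _ _ => rfl
        ext i
        simp
      rw [h5]
      have h6 : 1 / 4 * dh ≤ X.sA * nb X.F X.mu b :=
        mul_le_mul hsA4 hb hdh.le (by linarith)
      linarith
    · intro i0 hi0 Av Bv hL
      rw [mem_filter] at hi0
      refine hgo (NbO X b) (fun y hy => (mem_NbO.1 hy).2)
        (fun y hy y' hy' => X.nbhd_indep (mem_NbO.1 hy).1 (mem_NbO.1 hy').1) hg i0
        (fun y hy => X.nbhd_indep hi0.2 (mem_NbO.1 hy).1) Av Bv hL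
  -- case B
  by_cases hB : ∃ b, b ∉ X.A ∧ e ≤ ∑ i ∈ X.A.filter (fun i =>
      Good4 X L ((NbO X b).filter fun c => ¬ X.F.Adj i c) (1 - X.s + x)), X.w i
  · right
    obtain ⟨b, -, hb⟩ := hB
    refine ⟨X.A.filter (fun i =>
      Good4 X L ((NbO X b).filter fun c => ¬ X.F.Adj i c) (1 - X.s + x)), filter_subset _ _, hb, ?_⟩
    intro i0 hi0 Av Bv hL
    rw [mem_filter] at hi0
    refine hgo ((NbO X b).filter fun c => ¬ X.F.Adj i0 c)
      (fun y hy => (mem_NbO.1 (mem_filter.1 hy).1).2)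
      (fun y hy y' hy' => X.nbhd_indep (mem_NbO.1 (mem_filter.1 hy).1).1
        (mem_NbO.1 (mem_filter.1 hy').1).1) hi0.2 i0
      (fun y hy => (mem_filter.1 hy).2) Av Bv hL
  -- case C
  left
  push Not at hA hB
  intro b hb
  have hmR : ∀ c, mJ X.s (nb X.F X.mu b)
      ((∑ v, (1 - nb X.F X.mu c) ^ L.d v) / Fintype.card V - e₀) ≤
      mR X.s (nb X.F X.mu b) (max 0 (avP L (nb X.F X.mu c) - x)) := by
    intro c
    rw [mJ_eq_mR hs]
    refine mR_mono (le_max_left _ _) (max_le_max le_rfl ?_)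
    have : x ≤ e₀ := by rw [hx]; linarith
    change avP L (nb X.F X.mu c) - e₀ ≤ avP L (nb X.F X.mu c) - x
    linarith
  constructor
  · intro hdb
    rw [sum_NbO]
    refine (sum_le_sum fun c _ => mul_le_mul_of_nonneg_left (hmR c) (X.pos c).le).trans ?_
    refine (bad_rowH X L hsA hs2 he.le hx0 hs b (NbO X b) (fun c hc => mem_NbO.1 hc)
      (hA b hb hdb)).trans ?_
    rw [hx]
    linarith
  · rw [sum_NbO]
    obtain ⟨m, hm⟩ : ∃ m : ι → ℝ, m = fun c =>
      mR X.s (nb X.F X.mu b) (max 0 (avP L (nb X.F X.mu c) - x)) := ⟨_, rfl⟩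
    have hm0 : ∀ c, 0 ≤ m c := fun c => by rw [hm]; exact mR_nonneg (le_max_left _ _)
    have hm1 : ∀ c, m c ≤ 1 := fun c => by rw [hm]; exact mR_le_one (le_max_left _ _)
    have hn1 : ∀ c, nb X.F X.mu c ≤ 1 := fun c => nb_le_one X.mu_nonneg (X.mu_sum hsA) c
    have h5 : ∑ c ∈ NbO X b, X.w c * ((1 - nb X.F X.mu c) * mJ X.s (nb X.F X.mu b)
        ((∑ v, (1 - nb X.F X.mu c) ^ L.d v) / Fintype.card V - e₀)) ≤
        ∑ c ∈ NbO X b, X.w c * ((1 - nb X.F X.mu c) * m c) := by
      refine sum_le_sum fun c _ => mul_le_mul_of_nonneg_left ?_ (X.pos c).le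
      refine mul_le_mul_of_nonneg_left ?_ (by linarith [hn1 c])
      rw [hm]
      exact hmR c
    refine h5.trans ?_
    -- the average over `i`
    have h6 : ∑ c ∈ NbO X b, X.w c * ((1 - nb X.F X.mu c) * m c) =
        ∑ i, X.mu i * ∑ c ∈ (NbO X b).filter (fun c => ¬ X.F.Adj i c), X.w c * m c := by
      have e1 : ∀ i, X.mu i * ∑ c ∈ (NbO X b).filter (fun c => ¬ X.F.Adj i c), X.w c * m c =
          ∑ c ∈ NbO X b, X.mu i * (if X.F.Adj i c then 0 else 1) * (X.w c * m c) := by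
        intro i
        rw [sum_filter, mul_sum]
        refine sum_congr rfl fun c _ => ?_
        by_cases hc : X.F.Adj i c
        · rw [if_pos hc, if_neg (not_not.2 hc)]
          ring
        · rw [if_neg hc, if_pos hc]
          ring
      rw [sum_congr rfl fun i _ => e1 i, sum_comm]
      refine sum_congr rfl fun c _ => ?_
      rw [← sum_mul, sum_mu_not_adj X hsA c]
      ring
    rw [h6]
    obtain ⟨S, hS⟩ : ∃ S, S = X.A.filter (fun i =>
      Good4 X L ((NbO X b).filter fun c => ¬ X.F.Adj i c) (1 - X.s + x)) := ⟨_, rfl⟩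
    have hSw : ∑ i ∈ S, X.w i < e := by rw [hS]; exact hB b hb
    have hSmu : ∑ i, X.mu i * (if i ∈ S then 1 else 0) ≤ 4 * e := by
      have e1 : ∑ i, X.mu i * (if i ∈ S then (1 : ℝ) else 0) = ∑ i ∈ S, X.mu i := by
        rw [← sum_filter_add_sum_filter_not univ (fun i => i ∈ S)]
        have e2 : ∑ i ∈ univ.filter (fun i => i ∉ S), X.mu i * (if i ∈ S then (1 : ℝ) else 0) = 0 :=
          sum_eq_zero fun i hi => by rw [if_neg (mem_filter.1 hi).2, mul_zero]
        rw [e2, add_zero]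
        have e3 : univ.filter (fun i => i ∈ S) = S := by ext i; simp
        rw [e3]
        exact sum_congr rfl fun i hi => by rw [if_pos hi, mul_one]
      rw [e1]
      have e2 : ∀ i ∈ S, X.mu i ≤ 4 * X.w i := by
        intro i hi
        have hiA : i ∈ X.A := by
          rw [hS] at hi
          exact (mem_filter.1 hi).1
        have e3 := X.mu_mul hsA hiA
        have e4 := X.mu_nonneg i
        nlinarith
      refine (sum_le_sum e2).trans ?_
      rw [← mul_sum]
      linarith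
    have hbd : ∀ i, X.mu i * ∑ c ∈ (NbO X b).filter (fun c => ¬ X.F.Adj i c), X.w c * m c ≤
        X.mu i * (1 - X.s + x + e) + X.mu i * (if i ∈ S then 1 else 0) := by
      intro i
      rw [← mul_add]
      by_cases hiA : i ∈ X.A
      swap
      · have : X.mu i = 0 := by
          unfold World.mu
          rw [if_neg hiA]
        rw [this, zero_mul, zero_mul]
      refine mul_le_mul_of_nonneg_left ?_ (X.mu_nonneg i)
      by_cases hi : i ∈ S
      · rw [if_pos hi]
        have e1 : ∑ c ∈ (NbO X b).filter (fun c => ¬ X.F.Adj i c), X.w c * m c ≤ 1 := by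
          refine le_trans (sum_le_sum fun c _ =>
            mul_le_of_le_one_right (X.pos c).le (hm1 c)) ?_
          refine le_trans (X.max _ fun a ha a' ha' => ?_) hs.le
          exact X.nbhd_indep (mem_NbO.1 (mem_filter.1 ha).1).1 (mem_NbO.1 (mem_filter.1 ha').1).1
        linarith
      · rw [if_neg hi, add_zero]
        have hng : ¬ Good4 X L ((NbO X b).filter fun c => ¬ X.F.Adj i c) (1 - X.s + x) := by
          intro hg
          exact hi (by rw [hS]; exact mem_filter.2 ⟨hiA, hg⟩)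
        have e1 := bad_rowH X L hsA hs2 he.le hx0 hs b ((NbO X b).filter fun c => ¬ X.F.Adj i c)
          (fun c hc => mem_NbO.1 (mem_filter.1 hc).1) hng
        rw [hm]
        exact e1
    refine (sum_le_sum fun i _ => hbd i).trans ?_
    rw [sum_add_distrib, ← sum_mul, X.mu_sum hsA, one_mul]
    rw [hx] at *
    linarith

end

end Pool.Agent.T6J
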