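import Pool.Agent.T6J.AllH
import Pool.Agent.T6J.JDichH
import Pool.Agent.T6J.Asm4

/-!
# All large graphs from the cover and the certificate (MP_c6effb_co)
-/

set_option autoImplicit false

open Finset

namespace Pool.Agent.T6A

/-- A certificate for `Q` is a certificate for every larger `Q'`. -/
theorem CertStmt.mono {Q Q' : ℝ} (h : Q ≤ Q') (hC : CertStmt Q) : CertStmt Q' := by
  intro C
  obtain ⟨e, he0, he8, hC⟩ := hC C
  refine ⟨e, he0, he8, fun K => ?_⟩
  obtain ⟨R, η, ε, hη, hε, hC⟩ := hC K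
  refine ⟨R, η, ε, hη, hε, fun V ι _ _ X L Bd k hW hs => hC V ι X L Bd k ?_ hs⟩
  exact { hW with tot1 := by linarith [hW.tot1] }

end Pool.Agent.T6A

namespace Pool.Agent.T6J

open Pool.Agent.T6A

/-- **ALL large graphs** from the cover of `[7/5, Q]` by boxes and the certificate for `Q' ≤ Q`. -/
theorem all_of_cover {Q Q' : ℝ} (hQ : Q ≤ 3) (hQQ : Q' ≤ Q) (hH : H.CoverH Q) (hC : CertStmt Q') :
    AllLarge := by
  obtain ⟨dh, hdh, hJ⟩ := asm4 hQ hH
  exact all_of_J4 hJ (dichoH dh hdh) (hC.mono hQQ)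

end Pool.Agent.T6J
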