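import Pool.Agent.T6J.ExpectH
import Pool.Agent.T6A.CertAsmT
import Pool.Agent.T6A.WorldMu2

/-!
# The rates with hubs: assembly (MP_c6effb_co, version 4)

`asmH`: the data of the vertices do not depend on lists; the cluster `i₀` of the giants may be any
element of a set `As` of positive weight. `Hb` = the vertices with a giant neighbour. The value of a
vertex has the exponent `eh v = d v + 1` for `v ∈ Hb`, but only `d v` killers.
-/

set_option autoImplicit false
set_option linter.unusedSectionVars false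

open Finset

namespace Pool.Agent.T6J

open Pool.Agent.T6A

namespace EH

noncomputable section

open Classical

variable {V ι : Type} [Fintype V] [Fintype ι]

/-- The lists of the version 4: outside `A` a vertex loses only the neighbours of `i₀` (if it has a
giant neighbour) and a small weight. -/
def HubLists (X : World ι) (L : Low V ι) (i₀ : ι) (e : ℝ) : Prop := ∀ v, v ∉ L.E →
  ∑ i ∈ univ.filter (fun i => i ∉ X.A ∧ i ∉ L.Bv v ∧ (L.j v ≠ 0 → ¬ X.F.Adj i₀ i)), X.w i ≤ e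

/-- The rates: restricted to the lists. -/
def rateL (X : World ι) (L : Low V ι) (w : ι → ℝ) (h : V → ι → ℝ) (i₀ : ι) (v : V) (b : ι) : ℝ :=
  if b ∈ L.Bv v then rateH X.F L.G X.mu w (univ.filter fun v => L.j v ≠ 0) h i₀ v b else 0

/-- The value of a vertex. -/
def valH (X : World ι) (w h p r : ι → ℝ) (e d : ℕ) (um lam σ τ' : ℝ) : ℝ :=
  2 * (∑ b, w b * (lam * h b)) - (∑ b, w b * (lam * h b)) ^ 2
    + KZero.ss e um * (∑ b, w b * (lam * h b) * KZero.ut um (nb X.F X.mu b)) ^ 2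
    - σ * ∑ b, w b * (lam * h b) ^ 2 * (((1 - nb X.F X.mu b)⁻¹) ^ e - 1
        + KZero.ss e um * KZero.ut um (nb X.F X.mu b) ^ 2)
    - (d : ℝ) * lam ^ 2 * ∑ b, w b * (σ * (1 - nb X.F X.mu b) * p b + τ' * r b)

/-- The arithmetic of the lines. -/
theorem line_arith {N k e z η1 s sA sl q c C S Zc : ℝ} (hk : 0 < k) (he0 : 0 < e)
    (he8 : e ≤ 1 / 8) (hez : e ≤ z) (hz8 : z ≤ 1 / 8) (hC : 0 ≤ C)
    (hzη : z * (16 * C + 20) ≤ η1) (hN1 : N ≤ k) (hN2 : (1 - e) * k ≤ N) (hs0 : 0 < s)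
    (hs2 : s - e ≤ sA) (hs3 : s < 1 + 3 * e) (hsl0 : 0 ≤ sl) (hsl1 : sl ≤ 1) (hq0 : 0 ≤ q)
    (hq1 : q ≤ 2 * C + 1) (hc : c = 1 - s + η1 + 2 * sl * q) (hS : S ≤ 2 * (q + e) * k)
    (hZ : Zc ≤ z * k) :
    N - (N * c - sl * S - Zc * c) ≤ ((1 - e) * sA - η1 / 4) * k := by
  have hz0 : 0 < z := he0.trans_le hez
  have hη1 : 0 < η1 := by
    have : 0 < z * (16 * C + 20) := by positivity
    linarith
  have hslq : 0 ≤ sl * q := mul_nonneg hsl0 hq0
  have hslq1 : sl * q ≤ 2 * C + 1 := (mul_le_of_le_one_left hq0 hsl1).trans hq1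
  have hc0 : 0 ≤ c := by
    rw [hc]
    nlinarith
  have hS' := mul_le_mul_of_nonneg_left hS hsl0
  have hZ' := mul_le_mul_of_nonneg_right hZ hc0
  have hfin : N - (N * (1 - s + η1 + 2 * sl * q) - sl * (2 * (q + e) * k)
      - z * k * (1 - s + η1 + 2 * sl * q)) ≤ ((1 - e) * sA - η1 / 4) * k := by
    obtain ⟨M, hM⟩ : ∃ M : ℝ, M = k - N := ⟨_, rfl⟩
    have hM0 : 0 ≤ M := by linarith
    have hM1 : M ≤ e * k := by linarith
    have hzk : 0 ≤ z * k := mul_nonneg hz0.le hk.le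
    have hekz : e * k ≤ z * k := mul_le_mul_of_nonneg_right hez hk.le
    have ha : M * (η1 + 2 * (sl * q)) ≤ z * k * (η1 + 2 * (2 * C + 1)) :=
      mul_le_mul (hM1.trans hekz) (by linarith) (by positivity) hzk
    have hb : 0 ≤ M * s := mul_nonneg hM0 hs0.le
    have hek : 0 ≤ e * k := mul_nonneg he0.le hk.le
    have hc1 : z * k * (sl * q) ≤ z * k * (2 * C + 1) :=
      mul_le_mul_of_nonneg_left hslq1 hzk
    have hd : sl * (e * k) ≤ z * k := (mul_le_of_le_one_left hek hsl1).trans hekz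
    have he' : z * (16 * C + 20) * k ≤ η1 * k := mul_le_mul_of_nonneg_right hzη hk.le
    have hf : z * (η1 * k) ≤ 1 / 8 * (η1 * k) :=
      mul_le_mul_of_nonneg_right hz8 (by positivity)
    have hg : (1 - e) * (s - e) * k ≤ (1 - e) * sA * k :=
      mul_le_mul_of_nonneg_right (mul_le_mul_of_nonneg_left hs2 (by linarith)) hk.le
    have hee : 0 ≤ e * e * k := by positivity
    have hes : e * k * (1 + s) ≤ z * k * (1 + s) :=
      mul_le_mul_of_nonneg_right hekz (by linarith)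
    have hzC : 0 ≤ z * k * C := mul_nonneg hzk hC
    have h1 : N - (N * (1 - s + η1 + 2 * sl * q) - sl * (2 * (q + e) * k)
        - z * k * (1 - s + η1 + 2 * sl * q))
        = k * s - k * η1 - M * s + M * (η1 + 2 * (sl * q)) + 2 * (sl * (e * k))
          + z * k * (1 - s + η1) + 2 * (z * k * (sl * q)) := by
      have hNM : N = k - M := by linarith
      rw [hNM]; ring
    have h2 : (1 - e) * (s - e) * k = k * s - e * k * (1 + s) + e * e * k := by ring
    have h3 : z * k * (η1 + 2 * (2 * C + 1)) = z * (η1 * k) + 4 * (z * k * C) + 2 * (z * k) := by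
      ring
    have h4 : z * k * (1 - s + η1) = z * k - z * k * s + z * (η1 * k) := by ring
    have h5 : z * k * (2 * C + 1) = 2 * (z * k * C) + z * k := by ring
    have h6 : z * (16 * C + 20) * k = 16 * (z * k * C) + 20 * (z * k) := by ring
    have h7 : ((1 - e) * sA - η1 / 4) * k = (1 - e) * sA * k - η1 * k / 4 := by ring
    have h8 : e * k * (1 + s) = e * k + e * k * s := by ring
    have h9 : z * k * (1 + s) = z * k + z * k * s := by ring
    rw [h1, h7]
    rw [h2] at hg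
    rw [h3] at ha
    rw [h5] at hc1
    rw [h6] at he'
    rw [h4]
    rw [h9] at hes
    linarith
  rw [← hc] at hfin
  linarith

/-- **The rates with hubs.** `L₀` gives the graph, `j`, `E`; its lists are not used. -/
theorem asmH {X : World ι} {L₀ : Low V ι} {k Q e η1 z sl R τ' : ℝ} {C K : ℕ}
    (hQ : 1 ≤ Q) (hk : 0 < k) (cV : (Fintype.card V : ℝ) ≤ k)
    (cV' : (1 - e) * k ≤ (Fintype.card V : ℝ)) (tot1 : 1 + Q - e ≤ X.tot)
    (tot2 : X.tot ≤ 2 * C + 2) (deg : ∑ v, ((L₀.d v : ℝ) + 2 * L₀.j v) ≤ 2 * (X.tot - 1 + e) * k)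
    (s1 : 1 / 2 - e ≤ X.s) (s2 : X.s - e ≤ X.sA) (dK : ∀ v, L₀.d v ≤ K)
    (he0 : 0 < e) (he8 : e ≤ 1 / 8) (hez : e ≤ z)
    (hz8 : z ≤ 1 / 8) (hzη : z * (16 * C + 20) ≤ η1) (heη : 16 * e ≤ η1)
    (hη16 : η1 ≤ 16)
    (hs3 : X.s < 1 + 3 * e)
    (hsl0 : 0 ≤ sl) (hsl1 : sl ≤ 1) (hR : 25 ^ K * (2 * C + 2) ≤ R)
    (Z : Finset V) (hZE : L₀.E ⊆ Z) (hZ : ((#Z : ℕ) : ℝ) ≤ z * k)
    {f p r : ι → ℝ} {hh : V → ι → ℝ} {m : ι → ι → ℝ} {lam um : V → ℝ}
    (hp : ∀ b, 0 ≤ p b) (hr : ∀ b, 0 ≤ r b) (hm : ∀ b c, 0 ≤ m b c)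
    (hh0 : ∀ v b, 0 ≤ hh v b) (hhf : ∀ v b, hh v b ≤ f b) (hlam : ∀ v, 0 ≤ lam v)
    (hlamZ : ∀ v ∈ Z, lam v = 0)
    (hu : ∀ v, 0 < um v) (hu1 : ∀ v, um v ≤ 1) (hf25 : ∀ b, 0 < f b → nb X.F X.mu b ≤ 24 / 25)
    (hτ0 : 0 ≤ τ')
    (hload : ∀ v b, 2 * (lam v * hh v b)
      ≤ (1 - e) * (1 - nb X.F X.mu b) ^ (if L₀.j v ≠ 0 then 1 else 0))
    (hJ : ∀ b, 0 < X.wT (24 / 25) b → 0 < f b →
      (∑ c, if X.F.Adj b c then X.wT (24 / 25) c * m b c else 0) ≤ τ')
    (hpair : ∀ b b', X.F.Adj b b' → 0 < X.wT (24 / 25) b → 0 < X.wT (24 / 25) b' →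
      0 < f b → 0 < f b' →
      f b * f b' * ((1 - nb X.F X.mu b)⁻¹ + (1 - nb X.F X.mu b')⁻¹) ≤
        p b + p b' + r b * m b b' + r b' * m b' b)
    (hval : ∀ v, (if v ∈ Z then 0 else 1 - X.s + η1 - sl * ((L₀.d v : ℝ) + 2 * L₀.j v
          - 2 * (X.tot - 1))) ≤
      valH X (X.wT (24 / 25)) (hh v) p r (L₀.d v + if L₀.j v ≠ 0 then 1 else 0) (L₀.d v) (um v)
        (lam v) (X.s + 25 * e) τ') :
    ∃ As ⊆ X.A, η1 / (64 * (2 * C + 5)) ≤ ∑ i ∈ As, X.w i ∧ ∀ i₀ ∈ As, ∀ L : Low V ι,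
      L.G = L₀.G → L.j = L₀.j → L.E = L₀.E → HubLists X L i₀ e →
      RateOK X L k e R (η1 / 8) (rateL X L (X.wT (24 / 25)) (fun v b => lam v * hh v b) i₀) := by
  have hCC : (0:ℝ) ≤ C := Nat.cast_nonneg C
  have hz0 : 0 < z := he0.trans_le hez
  have hη1 : 0 < η1 := by
    have : 0 < z * (16 * C + 20) := by positivity
    linarith
  have hsA : 0 < X.sA := by linarith
  have hsA4 : 1 / 4 ≤ X.sA := by linarith
  have hs0 : 0 < X.s := by have := X.sA_le; linarith
  have hμ0 := X.mu_nonneg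
  have hμ1 := X.mu_sum hsA
  have hw0 : ∀ b, 0 ≤ X.wT (24 / 25) b := X.wT_nonneg _
  have hσ0 : 0 ≤ X.s + 25 * e := by linarith
  have hrowA : ∀ a, 0 < X.mu a →
      (∑ c, if X.F.Adj a c then X.wT (24 / 25) c else 0) ≤ X.s + 25 * e := fun a _ => by
    have := X.rowT_le (24 / 25) a
    linarith
  have hrowB : ∀ b, 0 < X.wT (24 / 25) b → 0 < f b →
      (∑ c, if X.F.Adj b c then X.wT (24 / 25) c else 0)
        ≤ (X.s + 25 * e) * (1 - nb X.F X.mu b) := fun b hb _ =>
    X.rowT_le' hsA s2 he0.le (by norm_num) (by norm_num) hb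
  obtain ⟨Hb, hHb⟩ : ∃ Hb : Finset V, Hb = univ.filter fun v => L₀.j v ≠ 0 := ⟨_, rfl⟩
  have hmem : ∀ v, v ∈ Hb ↔ L₀.j v ≠ 0 := fun v => by rw [hHb]; simp
  have hpow : ∀ v, (if v ∈ Hb then 1 else 0) = (if L₀.j v ≠ 0 then 1 else 0 : ℕ) := fun v => by
    simp only [hmem]
  have heh : ∀ v, eh L₀.G Hb v = L₀.d v + (if L₀.j v ≠ 0 then 1 else 0) := fun v => by
    unfold eh
    rw [hpow]
    rfl
  have key := avg_pairX_ge (F := X.F) (G := L₀.G) (μ := X.mu) (w := X.wT (24 / 25)) (f := f)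
    (p := p) (r := r) (hh := hh) (m := m) (lam := lam) (um := um) (σ := X.s + 25 * e) (τ' := τ')
    hμ0 hμ1 X.tri Hb hw0 hp hr hm hh0 hhf hlam hu hu1
    (fun b hb => by have := hf25 b hb; linarith) hσ0 hτ0 hrowA hrowB hJ hpair
  obtain ⟨Φ, hΦ⟩ : ∃ Φ : ι → ℝ, Φ = fun x => ∑ v, pairX X.F L₀.G X.mu
    (rateH X.F L₀.G X.mu (X.wT (24 / 25)) Hb (fun v b => lam v * hh v b) x) v := ⟨_, rfl⟩
  obtain ⟨M, hM⟩ : ∃ M, M = ∑ v, (if v ∈ Z then 0 else 1 - X.s + η1
    - sl * ((L₀.d v : ℝ) + 2 * L₀.j v - 2 * (X.tot - 1))) := ⟨_, rfl⟩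
  have hMΦ : M ≤ ∑ x, X.mu x * Φ x := by
    rw [hM, hΦ]
    refine le_trans (sum_le_sum fun v _ => ?_) key
    have h1 := hval v
    unfold valH at h1
    rw [← heh v] at h1
    exact h1
  -- the size of the rates
  have hh' : ∀ v b, 0 ≤ lam v * hh v b := fun v b => mul_nonneg (hlam v) (hh0 v b)
  have hpos : ∀ v b, 0 < lam v * hh v b → nb X.F X.mu b ≤ 24 / 25 := by
    intro v b h
    refine hf25 b (lt_of_lt_of_le ?_ (hhf v b))
    exact pos_of_mul_pos_right h (hlam v)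
  have hn0 : ∀ b, 0 ≤ nb X.F X.mu b := nb_nonneg hμ0
  have hn1 : ∀ b, nb X.F X.mu b ≤ 1 := nb_le_one hμ0 hμ1
  have hH0 : ∀ x v b, 0 ≤ rateH X.F L₀.G X.mu (X.wT (24 / 25)) Hb (fun v b => lam v * hh v b) x v b
      := fun x v b => rateH_nonneg (F := X.F) (G := L₀.G) hμ0 hμ1 hw0 hh' x v b
  have hload' : ∀ x v b, 2 * (rateH X.F L₀.G X.mu (X.wT (24 / 25)) Hb
      (fun v b => lam v * hh v b) x v b * (1 - nb X.F X.mu b) ^ L₀.d v) ≤ (1 - e) * X.w b := by
    intro x v b
    rcases (hh' v b).lt_or_eq with hpb | hz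
    · have h1 := hpos v b hpb
      have hy : 0 < 1 - nb X.F X.mu b := by linarith
      have e1 : (1 - nb X.F X.mu b) ^ eh L₀.G Hb v = (1 - nb X.F X.mu b) ^ L₀.d v
          * (1 - nb X.F X.mu b) ^ (if L₀.j v ≠ 0 then 1 else 0 : ℕ) := by
        rw [heh v, pow_add]
      have e2 : X.wT (24 / 25) b * (lam v * hh v b) / (1 - nb X.F X.mu b) ^ eh L₀.G Hb v
          * (1 - nb X.F X.mu b) ^ L₀.d v
          = X.wT (24 / 25) b * (lam v * hh v b)
            / (1 - nb X.F X.mu b) ^ (if L₀.j v ≠ 0 then 1 else 0 : ℕ) := by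
        rw [e1]
        have h5 := pow_ne_zero (L₀.d v) hy.ne'
        have h6 := pow_ne_zero (if L₀.j v ≠ 0 then 1 else 0 : ℕ) hy.ne'
        field_simp
      have h2 : 0 < (1 - nb X.F X.mu b) ^ (if L₀.j v ≠ 0 then 1 else 0 : ℕ) := by positivity
      have h3 := hload v b
      have h4 : X.wT (24 / 25) b * (lam v * hh v b)
            / (1 - nb X.F X.mu b) ^ (if L₀.j v ≠ 0 then 1 else 0 : ℕ) ≤ (1 - e) * X.w b / 2 := by
        rw [div_le_iff₀ h2]
        have h5 := mul_le_mul_of_nonneg_left h3 (hw0 b)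
        have h6 := mul_le_mul_of_nonneg_right (X.wT_le (24 / 25) b)
          (mul_nonneg (by linarith : (0:ℝ) ≤ 1 - e) h2.le)
        nlinarith
      have h7 : rateH X.F L₀.G X.mu (X.wT (24 / 25)) Hb (fun v b => lam v * hh v b) x v b
          ≤ X.wT (24 / 25) b * (lam v * hh v b) / (1 - nb X.F X.mu b) ^ eh L₀.G Hb v := by
        unfold rateH
        refine mul_le_of_le_one_right ?_ (chi_le_one _ _ _ _)
        exact div_nonneg (mul_nonneg (hw0 b) (hh' v b)) (pow_nonneg hy.le _)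
      have h8 := mul_le_mul_of_nonneg_right h7 (pow_nonneg hy.le (L₀.d v))
      rw [e2] at h8
      linarith
    · have e2 : rateH X.F L₀.G X.mu (X.wT (24 / 25)) Hb (fun v b => lam v * hh v b) x v b = 0 := by
        unfold rateH
        simp only [← hz, mul_zero, zero_div, zero_mul]
      rw [e2]
      simp only [zero_mul, mul_zero]
      exact mul_nonneg (by linarith) (X.pos b).le
  have hHle : ∀ x v b, rateH X.F L₀.G X.mu (X.wT (24 / 25)) Hb (fun v b => lam v * hh v b) x v b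
      ≤ 25 ^ K * X.w b := by
    intro x v b
    rcases (hh' v b).lt_or_eq with hpb | hz
    · have h1 := hpos v b hpb
      have hy : (1:ℝ) / 25 ≤ 1 - nb X.F X.mu b := by linarith
      have h2 := hload' x v b
      have h3 : ((1:ℝ) / 25) ^ K ≤ (1 - nb X.F X.mu b) ^ L₀.d v := by
        calc ((1:ℝ) / 25) ^ K ≤ (1 / 25) ^ L₀.d v :=
              pow_le_pow_of_le_one (by norm_num) (by norm_num) (dK v)
          _ ≤ _ := pow_le_pow_left₀ (by norm_num) hy _
      have h4 := mul_le_mul_of_nonneg_left h3 (hH0 x v b)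
      have h5 : (25:ℝ) ^ K * ((1:ℝ) / 25) ^ K = 1 := by rw [← mul_pow]; norm_num
      have h6 : 0 < (25:ℝ) ^ K := by positivity
      have h7 : rateH X.F L₀.G X.mu (X.wT (24 / 25)) Hb (fun v b => lam v * hh v b) x v b
          * ((1:ℝ) / 25) ^ K ≤ X.w b := by
        have := X.pos b
        nlinarith
      calc rateH X.F L₀.G X.mu (X.wT (24 / 25)) Hb (fun v b => lam v * hh v b) x v b
          = 25 ^ K * (rateH X.F L₀.G X.mu (X.wT (24 / 25)) Hb (fun v b => lam v * hh v b) x v b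
            * ((1:ℝ) / 25) ^ K) := by
            rw [mul_left_comm, h5, mul_one]
        _ ≤ 25 ^ K * X.w b := mul_le_mul_of_nonneg_left h7 h6.le
    · have e2 : rateH X.F L₀.G X.mu (X.wT (24 / 25)) Hb (fun v b => lam v * hh v b) x v b = 0 := by
        unfold rateH
        simp only [← hz, mul_zero, zero_div, zero_mul]
      rw [e2]
      exact mul_nonneg (by positivity) (X.pos b).le
  -- the bound of `Φ`
  have hΦB : ∀ x, 0 < X.mu x → Φ x ≤ (2 * C + 2) * k := by
    intro x _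
    rw [hΦ]
    have h1 : ∀ v, pairX X.F L₀.G X.mu
        (rateH X.F L₀.G X.mu (X.wT (24 / 25)) Hb (fun v b => lam v * hh v b) x) v ≤ X.tot := by
      intro v
      unfold pairX
      have h2 : 0 ≤ ∑ b, ∑ c, rateH X.F L₀.G X.mu (X.wT (24 / 25)) Hb
          (fun v b => lam v * hh v b) x v b
          * rateH X.F L₀.G X.mu (X.wT (24 / 25)) Hb (fun v b => lam v * hh v b) x v c
          * (1 - nb X.F X.mu b - nb X.F X.mu c + cod X.F X.mu b c) ^ #(nbh L₀.G v) :=
        sum_nonneg fun b _ => sum_nonneg fun c _ => mul_nonneg (mul_nonneg (hH0 x v b) (hH0 x v c))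
          (pow_nonneg (fr_pair_nonneg hμ0 hμ1 b c) _)
      have h3 : 0 ≤ ∑ u ∈ nbh L₀.G v, costX X.F L₀.G X.mu (rateH X.F L₀.G X.mu (X.wT (24 / 25)) Hb
          (fun v b => lam v * hh v b) x) v u := by
        refine sum_nonneg fun u _ => ?_
        unfold costX
        refine sum_nonneg fun b _ => sum_nonneg fun b' _ => ?_
        split_ifs
        · exact mul_nonneg (mul_nonneg (hH0 x v b) (pow_nonneg (by linarith [hn1 b]) _))
            (mul_nonneg (hH0 x u b') (pow_nonneg (by linarith [hn1 b']) _))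
        · exact le_rfl
      have h4 : ∑ b, 2 * (rateH X.F L₀.G X.mu (X.wT (24 / 25)) Hb (fun v b => lam v * hh v b) x v b
          * (1 - nb X.F X.mu b) ^ #(nbh L₀.G v)) ≤ X.tot := by
        unfold World.tot
        refine sum_le_sum fun b _ => ?_
        have h5 := hload' x v b
        have h6 : L₀.d v = #(nbh L₀.G v) := rfl
        rw [h6] at h5
        have := X.pos b
        nlinarith
      linarith
    refine (sum_le_sum fun v _ => h1 v).trans ?_
    rw [sum_const, nsmul_eq_mul, card_univ, mul_comm (2 * (C:ℝ) + 2)]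
    exact mul_le_mul cV tot2 (by linarith) hk.le
  -- the lines
  obtain ⟨Nv, hNv⟩ : ∃ Nv : ℝ, Nv = (Fintype.card V : ℝ) := ⟨_, rfl⟩
  obtain ⟨q, hq⟩ : ∃ q : ℝ, q = X.tot - 1 := ⟨_, rfl⟩
  have hq0 : 0 ≤ q := by rw [hq]; linarith
  have hq1 : q ≤ 2 * C + 1 := by rw [hq]; linarith
  have hMlow : Nv * (1 - X.s + η1 + 2 * sl * q) - sl * ∑ v, ((L₀.d v : ℝ) + 2 * L₀.j v)
      - ((#Z : ℕ) : ℝ) * (1 - X.s + η1 + 2 * sl * q) ≤ M := by
    have h1 : ((#Z : ℕ) : ℝ) * (1 - X.s + η1 + 2 * sl * q)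
        = ∑ v, (if v ∈ Z then (1 - X.s + η1 + 2 * sl * q) else 0) := by
      rw [← sum_filter, sum_const, nsmul_eq_mul]
      congr 3
      ext v; simp
    have h2 : Nv * (1 - X.s + η1 + 2 * sl * q) = ∑ _v : V, (1 - X.s + η1 + 2 * sl * q) := by
      rw [sum_const, nsmul_eq_mul, card_univ, hNv]
    rw [h1, h2, mul_sum, ← sum_sub_distrib, ← sum_sub_distrib, hM]
    refine sum_le_sum fun v _ => ?_
    have h3 : 0 ≤ sl * ((L₀.d v : ℝ) + 2 * L₀.j v) := by positivity
    split_ifs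
    · linarith
    · rw [hq]
      have : sl * ((L₀.d v : ℝ) + 2 * L₀.j v - 2 * (X.tot - 1))
          = sl * ((L₀.d v : ℝ) + 2 * L₀.j v) - 2 * sl * (X.tot - 1) := by ring
      linarith
  have harith := line_arith (N := Nv) (k := k) (e := e) (z := z) (η1 := η1) (s := X.s)
    (sA := X.sA) (sl := sl) (q := q) (C := C) (S := ∑ v, ((L₀.d v : ℝ) + 2 * L₀.j v))
    (Zc := ((#Z : ℕ) : ℝ)) hk he0 he8 hez hz8 hCC hzη (hNv ▸ cV) (hNv ▸ cV') hs0 s2 hs3 hsl0
    hsl1 hq0 hq1 rfl (by rw [hq]; exact deg) hZ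
  have hMb : Nv - M ≤ ((1 - e) * X.sA - η1 / 4) * k := by linarith
  have hMlow2 : -k ≤ M := by
    have h1 : ((1 - e) * X.sA - η1 / 4) * k ≤ (1 + 3 * e) * k := by
      refine mul_le_mul_of_nonneg_right ?_ hk.le
      have h2 := X.sA_le
      have h3 : (1 - e) * X.sA ≤ X.sA := by nlinarith
      linarith
    have h2 : (1 - e) * k ≤ Nv := hNv ▸ cV'
    nlinarith
  -- the selection
  have hsel := select (Φ := Φ) (M := M) (B := (2 * C + 2) * k) (δ := η1 / 16 * k) hμ0 hμ1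
    (by positivity) hMΦ hΦB
  refine ⟨X.A.filter fun x => M - η1 / 16 * k ≤ Φ x, filter_subset _ _, ?_, ?_⟩
  · -- the weight
    have h1 : ∑ i ∈ X.A.filter (fun x => M - η1 / 16 * k ≤ Φ x), X.w i
        = X.sA * ∑ x ∈ univ.filter (fun x => M - η1 / 16 * k ≤ Φ x), X.mu x := by
      rw [mul_sum, sum_filter, sum_filter, ← sum_subset (subset_univ X.A)]
      · refine sum_congr rfl fun i hi => ?_
        split_ifs
        · rw [mul_comm, X.mu_mul hsA hi]
        · rfl
      · intro i _ hi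
        unfold World.mu
        rw [if_neg hi]
        simp
    rw [h1]
    have h2 : (0:ℝ) < 2 * C + 5 := by positivity
    have h3 : η1 / 16 * k / ((2 * C + 2) * k - M + η1 / 16 * k)
        ≤ ∑ x ∈ univ.filter (fun x => M - η1 / 16 * k ≤ Φ x), X.mu x := hsel
    have hden : 0 < (2 * C + 2) * k - M + η1 / 16 * k := by
      have h4 : M ≤ (2 * C + 2) * k := by
        refine hMΦ.trans ?_
        calc ∑ x, X.mu x * Φ x ≤ ∑ x, X.mu x * ((2 * C + 2) * k) := by
              refine sum_le_sum fun x _ => ?_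
              rcases (hμ0 x).lt_or_eq with hx | hx
              · exact mul_le_mul_of_nonneg_left (hΦB x hx) hx.le
              · rw [← hx]; simp
          _ = _ := by rw [← sum_mul, hμ1, one_mul]
      have : 0 < η1 / 16 * k := by positivity
      linarith
    have h5 : η1 / (16 * (2 * C + 5))
        ≤ ∑ x ∈ univ.filter (fun x => M - η1 / 16 * k ≤ Φ x), X.mu x := by
      refine le_trans ?_ h3
      rw [div_le_div_iff₀ (by positivity) hden]
      have h6 : η1 / 16 * k ≤ 1 * k := mul_le_mul_of_nonneg_right (by linarith) hk.le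
      have h7 : (2 * C + 2) * k - M + η1 / 16 * k ≤ (2 * C + 5) * k := by
        have e1 : (2 * (C:ℝ) + 5) * k = (2 * C + 2) * k + 3 * k := by ring
        rw [e1]
        linarith
      have h8 := mul_le_mul_of_nonneg_left h7 hη1.le
      exact h8.trans (le_of_eq (by ring))
    have h6 : η1 / (64 * (2 * C + 5)) = 1 / 4 * (η1 / (16 * (2 * C + 5))) := by
      field_simp; ring
    rw [h6]
    exact mul_le_mul hsA4 h5 (by positivity) hsA.le
  · intro i₀ hi₀ L hLG hLj hLE hlists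
    have hΦi := (mem_filter.1 hi₀).2
    obtain ⟨G', j', E', Av', Bv'⟩ := L
    simp only at hLG hLj hLE
    subst hLG hLj hLE
    subst hHb
    obtain ⟨ρ, hρ⟩ : ∃ ρ : V → ι → ℝ, ρ = rateH X.F L₀.G X.mu (X.wT (24 / 25))
      (univ.filter fun v => L₀.j v ≠ 0) (fun v b => lam v * hh v b) i₀ := ⟨_, rfl⟩
    obtain ⟨r', hr'⟩ : ∃ r' : V → ι → ℝ, r' = rateL X ⟨L₀.G, L₀.j, L₀.E, Av', Bv'⟩
      (X.wT (24 / 25)) (fun v b => lam v * hh v b) i₀ := ⟨_, rfl⟩
    have hr'e : ∀ v b, r' v b = if b ∈ Bv' v then ρ v b else 0 := fun v b => by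
      rw [hr', hρ]; rfl
    have hρ0 : ∀ v b, 0 ≤ ρ v b := fun v b => by rw [hρ]; exact hH0 i₀ v b
    have hr'0 : ∀ v b, 0 ≤ r' v b := fun v b => by
      rw [hr'e]; split_ifs
      · exact hρ0 v b
      · exact le_rfl
    have hr'ρ : ∀ v b, r' v b ≤ ρ v b := fun v b => by
      rw [hr'e]; split_ifs
      · exact le_rfl
      · exact hρ0 v b
    have hρK : ∀ v b, ρ v b ≤ 25 ^ K * X.w b := fun v b => by rw [hρ]; exact hHle i₀ v b
    have hρl : ∀ v b, 2 * (ρ v b * (1 - nb X.F X.mu b) ^ L₀.d v) ≤ (1 - e) * X.w b :=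
      fun v b => by rw [hρ]; exact hload' i₀ v b
    have hΦi' : M - η1 / 16 * k ≤ ∑ v, pairX X.F L₀.G X.mu ρ v := by
      rw [hρ]
      have e1 : Φ i₀ = ∑ v, pairX X.F L₀.G X.mu (rateH X.F L₀.G X.mu (X.wT (24 / 25))
        (univ.filter fun v => L₀.j v ≠ 0) (fun v b => lam v * hh v b) i₀) v := by rw [hΦ]
      rw [← e1]
      exact hΦi
    rw [← hr']
    have hy : ∀ b, 0 ≤ 1 - nb X.F X.mu b := fun b => by linarith [hn1 b]
    constructor
    · exact hr'0
    · intro v y hyB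
      rw [hr'e, if_neg hyB]
    · intro v y
      refine ((hr'ρ v y).trans (hρK v y)).trans (mul_le_mul_of_nonneg_right ?_ (X.pos y).le)
      refine le_trans ?_ hR
      have : (0:ℝ) < 25 ^ K := by positivity
      nlinarith
    · intro v
      calc ∑ y, r' v y ≤ ∑ y, 25 ^ K * X.w y :=
            sum_le_sum fun y _ => (hr'ρ v y).trans (hρK v y)
        _ = 25 ^ K * X.tot := by rw [← mul_sum]; rfl
        _ ≤ 25 ^ K * (2 * C + 2) := mul_le_mul_of_nonneg_left tot2 (by positivity)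
        _ ≤ R := hR
    · intro v y
      have h1 := hρl v y
      have h2 := mul_le_mul_of_nonneg_right (hr'ρ v y) (pow_nonneg (hy y) (L₀.d v))
      have h3 : Low.d (⟨L₀.G, L₀.j, L₀.E, Av', Bv'⟩ : Low V ι) v = L₀.d v := rfl
      rw [h3]
      linarith
    · intro a ha
      have hloss : ∀ v, 2 * ∑ b, (ρ v b - r' v b) * (1 - nb X.F X.mu b) ^ #(nbh L₀.G v) ≤ e := by
        intro v
        by_cases hvZ : v ∈ Z
        · have h1 : ∀ b, ρ v b = 0 := fun b => by
            rw [hρ]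
            unfold rateH
            simp only [hlamZ v hvZ, zero_mul, mul_zero, zero_div]
          have h2 : ∀ b, r' v b = 0 := fun b => le_antisymm ((hr'ρ v b).trans (h1 b).le) (hr'0 v b)
          simp only [h1, h2, sub_self, zero_mul, sum_const_zero, mul_zero]
          exact he0.le
        · have hvE : v ∉ L₀.E := fun h => hvZ (hZE h)
          have hl := hlists v hvE
          have h1 : ∀ b, 2 * ((ρ v b - r' v b) * (1 - nb X.F X.mu b) ^ #(nbh L₀.G v))
              ≤ if (b ∉ X.A ∧ b ∉ Bv' v ∧ (L₀.j v ≠ 0 → ¬ X.F.Adj i₀ b)) then (1 - e) * X.w b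
                else 0 := by
            intro b
            have h2 := hρl v b
            have h3 : L₀.d v = #(nbh L₀.G v) := rfl
            rw [h3] at h2
            rw [hr'e]
            by_cases hbB : b ∈ Bv' v
            · rw [if_pos hbB, if_neg fun h => h.2.1 hbB]
              simp
            · rw [if_neg hbB, sub_zero]
              split_ifs with hcond
              · exact h2
              · have h4 : ρ v b = 0 := by
                  rw [hρ]
                  unfold rateH chi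
                  by_cases hbA : b ∈ X.A
                  · have : X.wT (24 / 25) b = 0 := by
                      unfold World.wT
                      exact if_neg fun h => h.1 hbA
                    rw [this]; simp
                  · have h5 : ¬ (L₀.j v ≠ 0 → ¬ X.F.Adj i₀ b) := fun h => hcond ⟨hbA, hbB, h⟩
                    push Not at h5
                    rw [if_pos ⟨mem_filter.2 ⟨mem_univ _, h5.1⟩, h5.2⟩, mul_zero]
                rw [h4]; simp
          rw [mul_sum]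
          refine (sum_le_sum fun b _ => h1 b).trans ?_
          rw [← sum_filter, ← mul_sum]
          have h6 : ∑ b ∈ univ.filter (fun b => b ∉ X.A ∧ b ∉ Bv' v ∧
              (L₀.j v ≠ 0 → ¬ X.F.Adj i₀ b)), X.w b ≤ e := hl
          have h7 : 0 ≤ ∑ b ∈ univ.filter (fun b => b ∉ X.A ∧ b ∉ Bv' v ∧
              (L₀.j v ≠ 0 → ¬ X.F.Adj i₀ b)), X.w b := sum_nonneg fun b _ => (X.pos b).le
          nlinarith
      have hv : ∀ v, pairX X.F L₀.G X.mu ρ v - e
          ≤ ∑ y, LB X.F L₀.G X.mu r' v a y := by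
        intro v
        have h1 := pairX_mono (F := X.F) (G := L₀.G) (μ := X.mu) hμ0 hμ1 (r := ρ) (r' := r')
          hr'0 hr'ρ v
        have h2 := pairX_le_pairT (F := X.F) (G := L₀.G) (μ := X.mu) hμ0 hμ1 (r := r') hr'0 a v
        have h3 := pairT_le (F := X.F) (G := L₀.G) (μ := X.mu) hμ0 hμ1 X.tri (r := r')
          (s := fun _ _ => 0) hr'0 (fun _ _ => le_rfl) hr'0 v a
        have h4 := hloss v
        have h5 : pairT X.F L₀.G X.mu r' (fun _ _ => 0) a v
            ≤ ∑ y, LB X.F L₀.G X.mu r' v a y := h3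
        linarith
      have hsum : ∑ v, pairX X.F L₀.G X.mu ρ v - e * Nv
          ≤ ∑ v, ∑ y, LB X.F L₀.G X.mu r' v a y := by
        calc _ = ∑ v, (pairX X.F L₀.G X.mu ρ v - e) := by
              rw [sum_sub_distrib, sum_const, nsmul_eq_mul, card_univ, hNv]; ring
          _ ≤ _ := sum_le_sum fun v _ => hv v
      have heN : e * Nv ≤ e * k := mul_le_mul_of_nonneg_left (hNv ▸ cV) he0.le
      have hek : e * k ≤ η1 / 16 * k := mul_le_mul_of_nonneg_right (by linarith) hk.le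
      have hfin : Nv - ∑ v, ∑ y, LB X.F L₀.G X.mu r' v a y
          ≤ ((1 - e) * X.sA - η1 / 8) * k := by
        have e1 : ((1 - e) * X.sA - η1 / 8) * k
            = ((1 - e) * X.sA - η1 / 4) * k + η1 / 16 * k + η1 / 16 * k := by ring
        rw [e1]
        linarith
      rw [hNv] at hfin
      exact hfin

end

end EH

end Pool.Agent.T6J
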