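import Pool.Agent.T6A.LowEx
import Pool.Agent.T6A.Thr3
import Pool.Agent.T6A.TopDeg

/-!
# Bounded degree: from the low problem to the core statement (MP_c6effb_co)

For graphs of maximum degree at most `Δ` the threshold `K` for the hubs is taken so large that only
few vertices have a neighbour which is a hub.
-/

set_option autoImplicit false

open Finset Classical

namespace Pool.Agent.T6J

open Pool.Agent.T6A

/-- The low problem for graphs of maximum degree at most `Δ`: few vertices have a hub as a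
neighbour. -/
def LowProbB (Δ : ℕ) : Prop :=
  ∃ δ₁ e₃ : ℝ, 0 < δ₁ ∧ δ₁ ≤ 1 / 4 ∧ 0 < e₃ ∧ ∃ K₁ : ℕ, ∀ K : ℕ, K₁ ≤ K → ∃ δ : ℝ, 0 < δ ∧ δ ≤ e₃ ∧
    ∀ M : ℕ, ∃ k₀ : ℕ, ∀ (V : Type) [Fintype V] (G : SimpleGraph V)
      (D : LowData (7 / 5) Δ K M δ₁ δ G), k₀ ≤ Fintype.card V →
      (∀ v : V, (G.neighborSet v).ncard ≤ Δ) →
      ((univ.filter fun v => v ∉ D.Qh ∧ jHub G D.Gi v ≠ 0).card : ℝ) ≤ δ₁ * Fintype.card V →
      ThrD D e₃ → LowSol D

/-- Few vertices have a hub as a neighbour. -/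
theorem few_hub_types {V : Type} [Fintype V] (G : SimpleGraph V) {Δ : ℕ}
    (hG : ∀ v : V, (G.neighborSet v).ncard ≤ Δ) (X Y : Finset V) :
    (univ.filter fun v => v ∉ Y ∧ jHub G X v ≠ 0).card ≤ Δ * X.card := by
  have h1 : (univ.filter fun v => v ∉ Y ∧ jHub G X v ≠ 0) ⊆
      univ.filter fun v => ∃ u ∈ X, G.Adj v u := by
    intro v hv
    obtain ⟨-, -, h2⟩ := mem_filter.1 hv
    unfold jHub at h2
    obtain ⟨u, hu⟩ := card_pos.1 (Nat.pos_of_ne_zero h2)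
    exact mem_filter.2 ⟨mem_univ _, u, (mem_filter.1 hu).2.2, (mem_filter.1 hu).2.1⟩
  refine (card_le_card h1).trans ((card_exc_le G X).trans ?_)
  calc ∑ u ∈ X, (G.neighborSet u).ncard ≤ ∑ _u ∈ X, Δ := sum_le_sum fun u _ => hG u
    _ = Δ * X.card := by rw [sum_const, smul_eq_mul, mul_comm]

/-- **Bounded degree: the core statement follows from the low problem.** -/
theorem core3D_of_lowB {Δ : ℕ} (h : LowProbB Δ) : Core3D Δ := by
  obtain ⟨δ₁, e₃, hδ₁, hδ₁4, he₃, K₁, h1⟩ := h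
  -- the functions of `K`
  have h2 : ∀ K, ∃ δ : ℝ, 0 < δ ∧ δ ≤ e₃ ∧ (K₁ ≤ K → ∀ M : ℕ, ∃ k₀ : ℕ, ∀ (V : Type) [Fintype V]
      (G : SimpleGraph V) (D : LowData (7 / 5) Δ K M δ₁ δ G), k₀ ≤ Fintype.card V →
      (∀ v : V, (G.neighborSet v).ncard ≤ Δ) →
      ((univ.filter fun v => v ∉ D.Qh ∧ jHub G D.Gi v ≠ 0).card : ℝ) ≤ δ₁ * Fintype.card V →
      ThrD D e₃ → LowSol D) := by
    intro K
    by_cases hK : K₁ ≤ K
    · obtain ⟨δ, hδ, hδe, h3⟩ := h1 K hK
      exact ⟨δ, hδ, hδe, fun _ => h3⟩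
    · exact ⟨e₃, he₃, le_rfl, fun h => absurd h hK⟩
  choose δf hδf hδe h3 using h2
  obtain ⟨K₂, hK₂⟩ : ∃ K₂ : ℕ, K₂ = max K₁ (⌈2 * (Δ : ℝ) ^ 2 / δ₁⌉₊ + 1) := ⟨_, rfl⟩
  obtain ⟨Mf, h4⟩ := low_exists (7 / 5) Δ hδ₁ hδ₁4 K₂ δf hδf
  have h5 : ∀ K, ∃ k₀ : ℕ, K₁ ≤ K → ∀ (V : Type) [Fintype V]
      (G : SimpleGraph V) (D : LowData (7 / 5) Δ K (Mf K) δ₁ (δf K) G), k₀ ≤ Fintype.card V →
      (∀ v : V, (G.neighborSet v).ncard ≤ Δ) →
      ((univ.filter fun v => v ∉ D.Qh ∧ jHub G D.Gi v ≠ 0).card : ℝ) ≤ δ₁ * Fintype.card V →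
      ThrD D e₃ → LowSol D := by
    intro K
    by_cases hK : K₁ ≤ K
    · obtain ⟨k₀, h6⟩ := h3 K hK (Mf K)
      exact ⟨k₀, fun _ => h6⟩
    · exact ⟨0, fun h => absurd h hK⟩
  choose kf h6 using h5
  obtain ⟨N₀, h7⟩ := h4 kf
  obtain ⟨ε, hε⟩ : ∃ ε : ℝ, ε = min e₃ (1 / 2) := ⟨_, rfl⟩
  have hε0 : 0 < ε := by rw [hε]; exact lt_min he₃ (by norm_num)
  have hεe : ε ≤ e₃ := by rw [hε]; exact min_le_left _ _
  have hεh : ε ≤ 1 / 2 := by rw [hε]; exact min_le_right _ _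
  refine ⟨ε, hε0, N₀, ?_⟩
  intro W V _ _ H G I hN hH hΔ _ hkm h75 hI _ hIk hdeg hthr
  have hmC : G.edgeSet.ncard ≤ Δ * Fintype.card V := by
    have h8 := sum_nbr G
    have h9 : ∑ v : V, (G.neighborSet v).ncard ≤ ∑ _v : V, Δ := sum_le_sum fun v _ => hΔ v
    rw [sum_const, card_univ, smul_eq_mul, h8] at h9
    have h10 : Fintype.card V * Δ = Δ * Fintype.card V := mul_comm _ _
    omega
  have hQ : (1 + 7 / 5 : ℝ) * Fintype.card V ≤ Fintype.card W := by
    have h8 : ((Fintype.card V + G.edgeSet.ncard : ℕ) : ℝ) ≤ (Fintype.card W : ℝ) :=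
      Nat.cast_le.2 hkm
    have h9 : ((7 * Fintype.card V : ℕ) : ℝ) < ((5 * G.edgeSet.ncard : ℕ) : ℝ) := Nat.cast_lt.2 h75
    push_cast at h8 h9
    linarith
  obtain ⟨K, hK, D, hk, hD1, hD2, hD3, hD4⟩ := h7 W V H G I hN hH hkm hQ hmC hI hIk hdeg
  have hKK₁ : K₁ ≤ K := le_trans (by rw [hK₂]; exact le_max_left _ _) hK
  have hKc : ⌈2 * (Δ : ℝ) ^ 2 / δ₁⌉₊ + 1 ≤ K := le_trans (by rw [hK₂]; exact le_max_right _ _) hK
  have hk0 : (0 : ℝ) < Fintype.card V := by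
    have : 0 < Fintype.card V := by omega
    exact Nat.cast_pos.2 this
  refine hD4 (h6 K hKK₁ V G D hk hΔ ?_ ?_)
  · -- few hub types
    have h8 : ((univ.filter fun v => v ∉ D.Qh ∧ jHub G D.Gi v ≠ 0).card : ℝ) ≤
        Δ * (D.Qh.card : ℝ) := by
      have h9 := few_hub_types G hΔ D.Gi D.Qh
      have h10 : Δ * D.Gi.card ≤ Δ * D.Qh.card := Nat.mul_le_mul_left _ (card_le_card D.giants)
      exact_mod_cast h9.trans h10
    refine h8.trans ?_
    have hKp : (0 : ℝ) < K := by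
      have : 0 < K := by omega
      exact Nat.cast_pos.2 this
    have h9 := D.hubs
    have h10 : 2 * (Δ : ℝ) ^ 2 / δ₁ ≤ K := by
      have h11 : ((⌈2 * (Δ : ℝ) ^ 2 / δ₁⌉₊ : ℕ) : ℝ) ≤ K := Nat.cast_le.2 (by omega)
      exact (Nat.le_ceil _).trans h11
    rw [div_le_iff₀ hδ₁] at h10
    have h12 : (Δ * (D.Qh.card : ℝ)) * K ≤ (δ₁ * Fintype.card V) * K := by
      calc (Δ * (D.Qh.card : ℝ)) * K = Δ * (D.Qh.card * K) := by ring
        _ ≤ Δ * (2 * Δ * Fintype.card V) := mul_le_mul_of_nonneg_left h9 (Nat.cast_nonneg _)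
        _ = (2 * (Δ : ℝ) ^ 2) * Fintype.card V := by ring
        _ ≤ (K * δ₁) * Fintype.card V := mul_le_mul_of_nonneg_right h10 hk0.le
        _ = _ := by ring
    exact le_of_mul_le_mul_right h12 hKp
  · -- the threshold
    intro d hd
    have h8 : ε * Fintype.card V ≤
        ((univ.filter fun v : V => (G.neighborSet v).ncard = d).card : ℝ) := by
      have h9 : ε * (Fintype.card V : ℝ) ≤ e₃ * Fintype.card V :=
        mul_le_mul_of_nonneg_right hεe hk0.le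
      refine h9.trans (hd.trans ?_)
      have h10 : (univ.filter fun v : V => v ∉ D.Qh ∧ v ∉ D.Ex ∧
          dLow G D.Qh v + jHub G D.Gi v = d).card ≤
          (univ.filter fun v : V => (G.neighborSet v).ncard = d).card := by
        refine card_le_card fun v hv => ?_
        obtain ⟨-, h11, h12, h13⟩ := mem_filter.1 hv
        exact mem_filter.2 ⟨mem_univ _, by rw [← hD3 v h11 h12]; exact h13⟩
      exact_mod_cast h10
    have h9 := hthr d (by convert h8)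
    have h10 : (1 + (d : ℝ)) * I.card ≤
        (1 + d) * (((∑ i ∈ D.A, D.w i) + e₃) * Fintype.card V) := by
      refine mul_le_mul_of_nonneg_left (hD2.trans ?_) (by positivity)
      exact mul_le_mul_of_nonneg_right (by linarith [hδe K]) hk0.le
    have htot : D.world.tot * Fintype.card V ≤ Fintype.card W := hD1
    have htot0 : 0 ≤ D.world.tot := sum_nonneg fun i _ => (D.wpos' i).le
    have hsA : D.world.sA = ∑ i ∈ D.A, D.w i := rfl
    rw [hsA]
    by_cases he1 : 1 ≤ e₃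
    · have h11 : (1 - e₃) * D.world.tot ≤ 0 :=
        mul_nonpos_of_nonpos_of_nonneg (by linarith) htot0
      have h12 : 0 ≤ (∑ i ∈ D.A, D.w i) := sum_nonneg fun i _ => (D.wpos' i).le
      have h13 : 0 ≤ (1 + (d : ℝ)) * ((∑ i ∈ D.A, D.w i) + e₃) := by positivity
      linarith
    · have h11 : (1 - e₃) * (D.world.tot * Fintype.card V) ≤ (1 - ε) * Fintype.card W := by
        have h12 : (1 - e₃) * (D.world.tot * Fintype.card V) ≤ (1 - e₃) * Fintype.card W :=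
          mul_le_mul_of_nonneg_left htot (by linarith)
        have h13 : (1 - e₃) * (Fintype.card W : ℝ) ≤ (1 - ε) * Fintype.card W :=
          mul_le_mul_of_nonneg_right (by linarith) (Nat.cast_nonneg _)
        exact h12.trans h13
      have h14 : ((1 - e₃) * D.world.tot) * Fintype.card V ≤
          ((1 + d) * ((∑ i ∈ D.A, D.w i) + e₃)) * Fintype.card V := by
        calc ((1 - e₃) * D.world.tot) * (Fintype.card V : ℝ)
            = (1 - e₃) * (D.world.tot * Fintype.card V) := by ring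
          _ ≤ (1 - ε) * Fintype.card W := h11
          _ ≤ (1 + d) * I.card := h9
          _ ≤ _ := h10
          _ = _ := by ring
      exact le_of_mul_le_mul_right h14 hk0

end Pool.Agent.T6J
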