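import Mathlib

/-!
# Covering the region of the certificate of Theorem B by boxes (MP_c6effb_co, helper78)

All numbers are naturals over one denominator `M`; `ε = e / M`. A box is `[A / M, B / M] × [U / M, V / M]`.
`colsOK M e Qn top fuel L a cols`: the columns `[a, b₁], [b₁, b₂], …` (given by the list of the pairs `(b, dm)`, `dm` = largest
degree below `2 q + ε` in the column) reach `Qn`, and in every column the boxes of `L` which contain the column cover the stack from
the threshold `(1 + q) / (1 + dm) - ε` to `top`.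

`cover`: for all `q, s` of the region of `CoverJ` there is a box of `L` which contains `(q, s)`.
-/

set_option autoImplicit false

namespace Pool.Agent.T6J

/-- A box, all ends over the common denominator `M`. -/
structure Bx where
  (A B U V : ℕ)

/-- The highest `V` of a box which contains the column `[a, b]` and the height `u` (or `u`). -/
def reach : List Bx → ℕ → ℕ → ℕ → ℕ
  | [], _, _, u => u
  | x :: L, a, b, u =>
    bif Nat.ble x.A a && Nat.ble b x.B && Nat.ble x.U u then max x.V (reach L a b u)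
    else reach L a b u

/-- Climb from the height `u` to `top` in the column `[a, b]`. -/
def climb (L : List Bx) (a b top : ℕ) : ℕ → ℕ → Bool
  | 0, u => Nat.ble top u
  | n + 1, u => Nat.ble top u || climb L a b top n (reach L a b u)

/-- One column. -/
def colOK (M e top fuel : ℕ) (L : List Bx) (a b dm : ℕ) : Bool :=
  Nat.blt (2 * b + e) ((dm + 1) * M) &&
    (Nat.blt (((M + a - 1) / (dm + 1) - e + e) * (dm + 1)) (M + a) &&
      climb L a b top fuel ((M + a - 1) / (dm + 1) - e))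

/-- All columns. -/
def colsOK (M e Qn top fuel : ℕ) (L : List Bx) : ℕ → List (ℕ × ℕ) → Bool
  | a, [] => Nat.ble Qn a
  | a, (b, dm) :: t => colOK M e top fuel L a b dm && colsOK M e Qn top fuel L b t

theorem reach_spec (L : List Bx) (a b u : ℕ) :
    reach L a b u = u ∨ ∃ x ∈ L, x.A ≤ a ∧ b ≤ x.B ∧ x.U ≤ u ∧ x.V = reach L a b u := by
  induction L with
  | nil => exact Or.inl rfl
  | cons x L ih =>
    unfold reach
    rcases hb : (Nat.ble x.A a && Nat.ble b x.B && Nat.ble x.U u) with _ | _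
    · rw [cond_false]
      rcases ih with h | ⟨y, hy, h⟩
      · exact Or.inl h
      · exact Or.inr ⟨y, List.mem_cons_of_mem _ hy, h⟩
    · rw [cond_true]
      rw [Bool.and_eq_true, Bool.and_eq_true] at hb
      rcases le_total (reach L a b u) x.V with h1 | h1
      · rw [max_eq_left h1]
        exact Or.inr ⟨x, List.mem_cons_self, Nat.le_of_ble_eq_true hb.1.1,
          Nat.le_of_ble_eq_true hb.1.2, Nat.le_of_ble_eq_true hb.2, rfl⟩
      · rw [max_eq_right h1]
        rcases ih with h | ⟨y, hy, h⟩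
        · exact Or.inl h
        · exact Or.inr ⟨y, List.mem_cons_of_mem _ hy, h⟩

theorem climb_spec {M : ℕ} (L : List Bx) (a b top : ℕ) (s : ℝ)
    (hs : s * M ≤ top) : ∀ (n u : ℕ), climb L a b top n u = true → (u : ℝ) < s * M →
    ∃ x ∈ L, x.A ≤ a ∧ b ≤ x.B ∧ (x.U : ℝ) ≤ s * M ∧ s * M ≤ x.V := by
  intro n
  induction n with
  | zero =>
    intro u h hu
    have h1 : (top : ℝ) ≤ u := by exact_mod_cast Nat.le_of_ble_eq_true h
    linarith
  | succ n ih =>
    intro u h hu
    unfold climb at h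
    rw [Bool.or_eq_true] at h
    rcases h with h | h
    · have h1 : (top : ℝ) ≤ u := by exact_mod_cast Nat.le_of_ble_eq_true h
      linarith
    · rcases lt_or_ge ((reach L a b u : ℕ) : ℝ) (s * M) with h2 | h2
      · exact ih _ h h2
      · rcases reach_spec L a b u with h3 | ⟨x, hx, hA, hB, hU, hV⟩
        · rw [h3] at h2
          linarith
        · refine ⟨x, hx, hA, hB, ?_, ?_⟩
          · have : (x.U : ℝ) ≤ u := by exact_mod_cast hU
            linarith
          · rw [hV]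
            exact h2

theorem colOK_spec {M e : ℕ} (hM : 0 < M) {top fuel : ℕ} {L : List Bx} {a b dm : ℕ}
    (h : colOK M e top fuel L a b dm = true) {q s : ℝ} (hq0 : (a : ℝ) ≤ q * M)
    (hq1 : q * M ≤ b) (hs : s * M ≤ top)
    (hδ : ∃ δ : ℕ, (δ : ℝ) ≤ 2 * q + e / M ∧ 1 + q ≤ (1 + δ) * (s + e / M)) :
    ∃ x ∈ L, x.A ≤ a ∧ b ≤ x.B ∧ (x.U : ℝ) ≤ s * M ∧ s * M ≤ x.V := by
  have hM' : (0 : ℝ) < M := by exact_mod_cast hM
  unfold colOK at h
  rw [Bool.and_eq_true, Bool.and_eq_true] at h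
  obtain ⟨h1, h2, h3⟩ := h
  have h1' : 2 * b + e < (dm + 1) * M := Nat.le_of_ble_eq_true h1
  have h2' : ((M + a - 1) / (dm + 1) - e + e) * (dm + 1) < M + a := Nat.le_of_ble_eq_true h2
  set u := (M + a - 1) / (dm + 1) - e with hu
  refine climb_spec L a b top s hs fuel u h3 ?_
  obtain ⟨δ, hd1, hd2⟩ := hδ
  have hm1 : (δ : ℝ) * M ≤ 2 * (q * M) + e := by
    have := mul_le_mul_of_nonneg_right hd1 hM'.le
    have h4 : (2 * q + e / M) * M = 2 * (q * M) + e := by
      field_simp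
    linarith
  have hdm : δ ≤ dm := by
    by_contra hh
    push Not at hh
    have h5 : ((dm : ℝ) + 1) * M ≤ δ * M :=
      mul_le_mul_of_nonneg_right (by exact_mod_cast hh) hM'.le
    have h6 : (2 * b + e : ℝ) < (dm + 1) * M := by exact_mod_cast h1'
    linarith
  have hm2 : M + q * M ≤ (1 + δ) * (s * M + e) := by
    have := mul_le_mul_of_nonneg_right hd2 hM'.le
    have h4 : (1 + (δ : ℝ)) * (s + e / M) * M = (1 + δ) * (s * M + e) := by
      field_simp
    have h5 : (1 + q) * M = M + q * M := by ring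
    linarith
  have hpos : 0 < s * M + e := by
    by_contra hh
    push Not at hh
    have h7 : (1 + (δ : ℝ)) * (s * M + e) ≤ 0 :=
      mul_nonpos_of_nonneg_of_nonpos (by positivity) hh
    have h8 : (0 : ℝ) ≤ a := Nat.cast_nonneg a
    linarith
  have h9 : (1 + (δ : ℝ)) * (s * M + e) ≤ (dm + 1) * (s * M + e) := by
    refine mul_le_mul_of_nonneg_right ?_ hpos.le
    have : (δ : ℝ) ≤ dm := by exact_mod_cast hdm
    linarith
  have h10 : ((u : ℝ) + e) * (dm + 1) < M + a := by exact_mod_cast h2'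
  have h11 : ((u : ℝ) + e) * (dm + 1) < (s * M + e) * (dm + 1) := by nlinarith
  have h12 : (0 : ℝ) < dm + 1 := by positivity
  have h13 := lt_of_mul_lt_mul_right h11 h12.le
  linarith

theorem colsOK_spec {M e Qn : ℕ} (hM : 0 < M) {top fuel : ℕ} {L : List Bx} {q s : ℝ}
    (hq : q * M ≤ Qn) (hs : s * M ≤ top)
    (hδ : ∃ δ : ℕ, (δ : ℝ) ≤ 2 * q + e / M ∧ 1 + q ≤ (1 + δ) * (s + e / M)) :
    ∀ (cols : List (ℕ × ℕ)) (a : ℕ), colsOK M e Qn top fuel L a cols = true → (a : ℝ) < q * M →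
    ∃ x ∈ L, (x.A : ℝ) ≤ q * M ∧ q * M ≤ x.B ∧ (x.U : ℝ) ≤ s * M ∧ s * M ≤ x.V := by
  intro cols
  induction cols with
  | nil =>
    intro a h ha
    have h1 : (Qn : ℝ) ≤ a := by exact_mod_cast Nat.le_of_ble_eq_true h
    linarith
  | cons c t ih =>
    obtain ⟨b, dm⟩ := c
    intro a h ha
    unfold colsOK at h
    rw [Bool.and_eq_true] at h
    rcases lt_or_ge (b : ℝ) (q * M) with h2 | h2
    · exact ih b h.2 h2
    · obtain ⟨x, hx, hA, hB, hU, hV⟩ := colOK_spec hM h.1 ha.le h2 hs hδ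
      refine ⟨x, hx, ?_, ?_, hU, hV⟩
      · have : (x.A : ℝ) ≤ a := by exact_mod_cast hA
        linarith
      · have : (b : ℝ) ≤ x.B := by exact_mod_cast hB
        linarith

/-- **The covering lemma**: `P` = any predicate on boxes. -/
theorem cover {M e Qn : ℕ} {Q : ℝ} (P : ℝ → ℝ → ℝ → ℝ → Prop) (hM : 0 < M) {top fuel : ℕ}
    {L : List Bx} {a : ℕ} {cols : List (ℕ × ℕ)} (h0 : 5 * (a + e) < 7 * M)
    (hQ : (Q + e / M) * M ≤ Qn) (htop : M + e ≤ top)
    (hc : colsOK M e Qn top fuel L a cols = true)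
    (hP : ∀ x ∈ L, P (x.A / M) (x.B / M) (x.U / M) (x.V / M)) :
    ∀ q s : ℝ, 7 / 5 - (e : ℝ) / M ≤ q → q ≤ Q + e / M → s ≤ 1 + (e : ℝ) / M →
      (∃ δ : ℕ, (δ : ℝ) ≤ 2 * q + e / M ∧ 1 + q ≤ (1 + δ) * (s + e / M)) →
      ∃ q0 q1 s0 s1 : ℝ, q0 ≤ q ∧ q ≤ q1 ∧ s0 ≤ s ∧ s ≤ s1 ∧ P q0 q1 s0 s1 := by
  intro q s hq0 hq1 hs hδ
  have hM' : (0 : ℝ) < M := by exact_mod_cast hM
  have e1 : (e : ℝ) / M * M = e := div_mul_cancel₀ _ hM'.ne'
  have ha : (a : ℝ) < q * M := by
    have h1 : (5 * (a + e) : ℝ) < 7 * M := by exact_mod_cast h0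
    have h2 := mul_le_mul_of_nonneg_right hq0 hM'.le
    have h3 : (7 / 5 - (e : ℝ) / M) * M = 7 / 5 * M - e := by
      rw [sub_mul, e1]
    linarith
  have hqQ : q * M ≤ Qn := (mul_le_mul_of_nonneg_right hq1 hM'.le).trans hQ
  have hst : s * M ≤ top := by
    have h2 := mul_le_mul_of_nonneg_right hs hM'.le
    have h3 : (1 + (e : ℝ) / M) * M = M + e := by
      rw [add_mul, e1, one_mul]
    have h4 : (M + e : ℝ) ≤ top := by exact_mod_cast htop
    linarith
  obtain ⟨x, hx, h1, h2, h3, h4⟩ := colsOK_spec hM hqQ hst hδ cols a hc ha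
  exact ⟨_, _, _, _, by rw [div_le_iff₀ hM']; exact h1, by rw [le_div_iff₀ hM']; exact h2,
    by rw [div_le_iff₀ hM']; exact h3, by rw [le_div_iff₀ hM']; exact h4, hP x hx⟩

end Pool.Agent.T6J
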