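import Pool.Agent.T6J.St

/-!
# Theorem B: the certificate with arbitrary functions `f, p, r` (MP_c6effb_co)

The same as `St.lean`, but the profile `f` and the multipliers `p, r` are functions on `ℝ` and all
conditions are pointwise on `[0, 1]` (`x`, `y` = values `n_b`): no cells in the assembly. The cells (affine
functions with end values, Bernstein checks) are only in the machine.
-/

set_option autoImplicit false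

open Finset

namespace Pool.Agent.T6J.P

open Pool.Agent.T6A

noncomputable section

open Classical in
/-- Lower bound for `mJ` in the row of a cluster with `n_b = x`, other cluster `n_c = y`, `s` in
`[s0, s1]`; `ε` = tolerance of the list probability. -/
def mb (s0 s1 ε : ℝ) (k : ℕ) (D x y : ℝ) : ℝ :=
  if 1 - s0 ≤ pl k D y - ε ∨ s1 * (1 - x) ≤ 1 - s1 then 1 else
    max 0 (pl k D y - ε) / (max 0 (pl k D y - ε) + s1 * (1 - x) - (1 - s1))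

/-- The common data of a box: `D = 2 q1` (with tolerance), `k ≤ D ≤ k + 1`. -/
structure BoxOK (s0 s1 ε : ℝ) (k : ℕ) (D : ℝ) (f p r : ℝ → ℝ) (f0 : ℝ) : Prop where
  s01 : 1 / 2 ≤ s0 ∧ s0 < s1 ∧ s1 ≤ 2
  hiS : s1 < 1 ∨ ∀ x, r x = 0
  kD : (k : ℝ) ≤ D ∧ D ≤ k + 1
  f0' : f0 ≤ 10
  f0 : ∀ x, 0 ≤ f x ∧ f x ≤ f0
  p0 : ∀ x, 0 ≤ p x ∧ p x ≤ 10
  r0 : ∀ x, 0 ≤ r x ∧ r x ≤ 10
  supp : ∀ x, 24 / 25 < x → f x = 0
  pair : ∀ x y, 0 ≤ x → 0 ≤ y → x + y ≤ 1 → 0 < f x → 0 < f y →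
    f x * f y * ((1 - x)⁻¹ + (1 - y)⁻¹) ≤
      p x + p y + r x * mb s0 s1 ε k D x y + r y * mb s0 s1 ε k D y x

/-- The profile of the degree `d`: cut at `cut`. -/
def fc (f : ℝ → ℝ) (cut x : ℝ) : ℝ := if x < cut then f x else 0

/-- The data of the degree `d` in a box: lines at `s0`, `s1` and for the mass. -/
structure VtxOKJ (s0 s1 : ℝ) (f p r : ℝ → ℝ) (d : ℕ) (cut : ℝ)
    (c1 be um a0 b0 a1 b1 aA bA : ℝ) : Prop where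
  c10 : 0 ≤ c1 ∧ c1 ≤ 100
  be0 : 0 ≤ be ∧ be ≤ 10
  um0 : 0 < um ∧ um ≤ 1
  a0' : (0 ≤ a0 ∧ a0 ≤ 1000) ∧ (0 ≤ a1 ∧ a1 ≤ 1000) ∧ 0 ≤ aA ∧ aA ≤ 100
  b0' : (0 ≤ b0 ∧ b0 ≤ 1000) ∧ (0 ≤ b1 ∧ b1 ≤ 1000) ∧ 0 ≤ bA ∧ bA ≤ 100
  row0 : ∀ x, 0 ≤ x → x ≤ 1 → a0 - b0 * x ≤ rowX (fc f cut x) (p x) (r x) d s0 c1 be um x
  row1 : ∀ x, 0 ≤ x → x ≤ 1 → a1 - b1 * x ≤ rowX (fc f cut x) (p x) (r x) d s1 c1 be um x
  mass : ∀ x, 0 ≤ x → x ≤ 1 → aA - bA * x ≤ fc f cut x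

/-- A complete certificate for one box: `dmin` = least degree which can be frequent, `dmax` = the line is
not positive from here on. -/
def BoxCert (η ε q0 q1 s0 s1 : ℝ) (dmin dmax : ℕ) : Prop :=
  ∃ (k : ℕ) (D : ℝ) (f p r : ℝ → ℝ) (f0 sl : ℝ), 2 * q1 + ε ≤ D ∧ 0 ≤ sl ∧ sl ≤ 1 ∧
    BoxOK s0 s1 ε k D f p r f0 ∧
    (∀ q s : ℝ, q0 ≤ q → q ≤ q1 → s0 ≤ s → s ≤ s1 → Ld η sl dmax q s ≤ 0) ∧
    (∀ q s : ℝ, q0 ≤ q → q ≤ q1 → s0 ≤ s → s ≤ s1 → (dmin : ℝ) * s + ε ≤ 1 + q) ∧ dmax ≤ 20 ∧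
    ∀ d : ℕ, dmin ≤ d → d < dmax → ∃ (cut c1 be um a0 b0 a1 b1 aA bA lc : ℝ),
      VtxOKJ s0 s1 f p r d cut c1 be um a0 b0 a1 b1 aA bA ∧
      FinOK q0 q1 s0 s1 η sl ε lc f0 d c1 be um a0 b0 a1 b1 aA bA

/-- The finite list of boxes covers the region: `q` in `[7/5 - ε, Q + ε]`, `s` at least the threshold of the
least frequent degree `δ ≤ 2 q + ε`, `s ≤ 1 + ε`. -/
def CoverJ (Q : ℝ) : Prop := ∃ η ε : ℝ, 0 < η ∧ 0 < ε ∧ ∀ q s : ℝ, 7 / 5 - ε ≤ q → q ≤ Q + ε →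
  s ≤ 1 + ε → (∃ δ : ℕ, (δ : ℝ) ≤ 2 * q + ε ∧ 1 + q ≤ (1 + δ) * (s + ε)) →
    ∃ (q0 q1 s0 s1 : ℝ) (dmin dmax : ℕ), q0 ≤ q ∧ q ≤ q1 ∧ s0 ≤ s ∧ s ≤ s1 ∧
      BoxCert η ε q0 q1 s0 s1 dmin dmax

open Classical in
/-- The profile of a vertex with list `B`. -/
def hJ {ι : Type} [Fintype ι] (X : World ι) (B : Finset ι) (f : ℝ → ℝ) (cut : ℝ) (b : ι) : ℝ :=
  if b ∈ B then fc f cut (nb X.F X.mu b) else 0

open Classical in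
/-- The value of a vertex of degree `d` with list `B` and rate factor `lam` (the summand of
`sum_pairJ_ge` of `ExpectJ.lean` for `w = X.wT (24/25)`). -/
def valJ {ι : Type} [Fintype ι] (X : World ι) (B : Finset ι) (f p r : ℝ → ℝ) (cut : ℝ) (d : ℕ)
    (um sg tau lam : ℝ) : ℝ :=
  2 * (∑ b, X.wT (24 / 25) b * (lam * hJ X B f cut b))
    - (∑ b, X.wT (24 / 25) b * (lam * hJ X B f cut b)) ^ 2
    + KZero.ss d um * (∑ b, X.wT (24 / 25) b * (lam * hJ X B f cut b)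
        * KZero.ut um (nb X.F X.mu b)) ^ 2
    - sg * (∑ b, X.wT (24 / 25) b * (lam * hJ X B f cut b) ^ 2
        * (((1 - nb X.F X.mu b)⁻¹) ^ d - 1 + KZero.ss d um * KZero.ut um (nb X.F X.mu b) ^ 2))
    - d * lam ^ 2 * (∑ b, X.wT (24 / 25) b * (sg * (1 - nb X.F X.mu b)
        * p (nb X.F X.mu b) + tau * r (nb X.F X.mu b)))

/-- VTX: one vertex (proof as in `St.lean`). -/
def S_VTX : Prop := ∀ ε η : ℝ, 0 < ε → 0 < η → ∃ e₀ : ℝ, 0 < e₀ ∧ ∀ (V ι : Type) [Fintype V]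
  [Fintype ι] (X : World ι) (L : Low V ι) (Bd : ι → ι → Prop) (k e ε' : ℝ) (C K : ℕ), 0 < e → e ≤ e₀ →
  WorldOK X L Bd k (7 / 5) C K e ε' → X.tot ≤ 4 →
  ∀ (q0 q1 s0 s1 sl D lc f0 cut : ℝ) (k' d : ℕ) (f p r : ℝ → ℝ) (c1 be um a0 b0 a1 b1 aA bA : ℝ),
  q0 ≤ X.tot - 1 → X.tot - 1 ≤ q1 → s0 ≤ X.s → X.s ≤ s1 → d ≤ 20 →
  BoxOK s0 s1 ε k' D f p r f0 → VtxOKJ s0 s1 f p r d cut c1 be um a0 b0 a1 b1 aA bA →
  FinOK q0 q1 s0 s1 η sl ε lc f0 d c1 be um a0 b0 a1 b1 aA bA →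
  ∀ v, v ∉ L.E → L.j v = 0 → ∃ lam : ℝ, 0 ≤ lam ∧ lam ≤ lc ∧
    Ld η sl d (X.tot - 1) X.s - η / 2 ≤
      valJ X (L.Bv v) f p r cut d um (X.s + 25 * e) (1 - X.s + e₀) lam

/-- Assembly of the certificate (proof as in `St.lean`). -/
def S_ASM : Prop := ∀ Q : ℝ, Q ≤ 5 / 2 → CoverJ Q → CertStmtJ Q

end

end Pool.Agent.T6J.P
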