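import Pool.Agent.T6J.ExpectJ

/-!
# Vertices with a giant neighbour: the cluster `i₀` of the giants is averaged (MP_c6effb_co)

`Hb` = the vertices with a giant neighbour. For a fixed cluster `i₀` of the giants such a vertex has
the list `{b | b not adjacent to i₀}`. `rateH i₀` = the rates, `pairX r v` = the lower bound for the
expectation without `a` and without lists. Averaged over `i₀` a vertex of `Hb` behaves like a vertex
with one more random neighbour which is never in `T`: exponent `eh v = d v + 1`, but `d v` killers.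
-/

set_option autoImplicit false
set_option linter.unusedSectionVars false

open Finset

namespace Pool.Agent.T6J

open Pool.Agent.T6A

namespace EH

variable {V ι : Type*} [Fintype V] [DecidableEq V] [Fintype ι] [DecidableEq ι]

section defs

variable (F : SimpleGraph ι) [DecidableRel F.Adj] (G : SimpleGraph V) [DecidableRel G.Adj]
  (μ : ι → ℝ)

/-- The exponent of a vertex. -/
def eh (Hb : Finset V) (v : V) : ℕ := #(nbh G v) + if v ∈ Hb then 1 else 0

/-- `b` is allowed for `v` if the giants are in `i₀`. -/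
def chi (Hb : Finset V) (i₀ : ι) (v : V) (b : ι) : ℝ := if v ∈ Hb ∧ F.Adj i₀ b then 0 else 1

/-- The rates if the giants are in `i₀`. -/
noncomputable def rateH (w : ι → ℝ) (Hb : Finset V) (h : V → ι → ℝ) (i₀ : ι) (v : V) (b : ι) : ℝ :=
  w b * h v b / (1 - nb F μ b) ^ eh G Hb v * chi F Hb i₀ v b

/-- The cost of the ordered edge `(v, u)`. -/
noncomputable def costX (r : V → ι → ℝ) (v u : V) : ℝ :=
  ∑ b, ∑ b', if F.Adj b b' then
    r v b * (1 - nb F μ b) ^ #(nbh G v) * (r u b' * (1 - nb F μ b') ^ (#(nbh G u) - 1)) else 0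

/-- The lower bound for the expectation, vertex `v`. -/
noncomputable def pairX (r : V → ι → ℝ) (v : V) : ℝ :=
  ∑ b, 2 * (r v b * (1 - nb F μ b) ^ #(nbh G v))
    - ∑ b, ∑ c, r v b * r v c * (1 - nb F μ b - nb F μ c + cod F μ b c) ^ #(nbh G v)
    - ∑ u ∈ nbh G v, costX F G μ r v u

end defs

variable {F : SimpleGraph ι} [DecidableRel F.Adj] {G : SimpleGraph V} [DecidableRel G.Adj]
  {μ : ι → ℝ}

theorem chi_nonneg (Hb : Finset V) (i₀ : ι) (v : V) (b : ι) : 0 ≤ chi F Hb i₀ v b := by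
  unfold chi; split_ifs <;> norm_num

theorem chi_le_one (Hb : Finset V) (i₀ : ι) (v : V) (b : ι) : chi F Hb i₀ v b ≤ 1 := by
  unfold chi; split_ifs <;> norm_num

theorem rateH_nonneg (h0 : ∀ x, 0 ≤ μ x) (h1 : ∑ x, μ x = 1) {w : ι → ℝ} {Hb : Finset V}
    {h : V → ι → ℝ} (hw : ∀ b, 0 ≤ w b) (hh : ∀ v b, 0 ≤ h v b) (i₀ : ι) (v : V) (b : ι) :
    0 ≤ rateH F G μ w Hb h i₀ v b :=
  mul_nonneg (div_nonneg (mul_nonneg (hw b) (hh v b))
    (pow_nonneg (by linarith [nb_le_one (F := F) h0 h1 b]) _)) (chi_nonneg _ _ _ _)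

/-- Without `a` the bound is smaller. -/
theorem pairX_le_pairT (h0 : ∀ x, 0 ≤ μ x) (h1 : ∑ x, μ x = 1) {r : V → ι → ℝ}
    (hr : ∀ u c, 0 ≤ r u c) (a : ι) (v : V) :
    pairX F G μ r v ≤ pairT F G μ r (fun _ _ => 0) a v := by
  unfold pairX pairT
  have hy : ∀ b, 0 ≤ 1 - nb F μ b := fun b => by linarith [nb_le_one (F := F) h0 h1 b]
  have : ∑ u ∈ nbh G v, costE F G μ r (fun _ _ => 0) a v u ≤ ∑ u ∈ nbh G v, costX F G μ r v u := by
    refine sum_le_sum fun u _ => ?_
    unfold costE costX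
    refine sum_le_sum fun b _ => sum_le_sum fun b' _ => ?_
    have h2 : 0 ≤ r v b * (1 - nb F μ b) ^ #(nbh G v)
        * (r u b' * (1 - nb F μ b') ^ (#(nbh G u) - 1)) :=
      mul_nonneg (mul_nonneg (hr v b) (pow_nonneg (hy b) _))
        (mul_nonneg (hr u b') (pow_nonneg (hy b') _))
    rw [brk_zero, mul_one]
    by_cases hb : F.Adj b b'
    · rw [if_pos hb]
      split_ifs
      · exact le_rfl
      · exact h2
    · rw [if_neg hb, if_neg fun h => hb h.1]
  linarith

/-- Smaller rates cost only the lost first term. -/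
theorem pairX_mono (h0 : ∀ x, 0 ≤ μ x) (h1 : ∑ x, μ x = 1) {r r' : V → ι → ℝ}
    (hr : ∀ u c, 0 ≤ r' u c) (hrr : ∀ u c, r' u c ≤ r u c) (v : V) :
    pairX F G μ r v - 2 * ∑ b, (r v b - r' v b) * (1 - nb F μ b) ^ #(nbh G v)
      ≤ pairX F G μ r' v := by
  unfold pairX
  have hy : ∀ b, 0 ≤ 1 - nb F μ b := fun b => by linarith [nb_le_one (F := F) h0 h1 b]
  have hr0 : ∀ u c, 0 ≤ r u c := fun u c => (hr u c).trans (hrr u c)
  have e1 : ∑ b, 2 * (r v b * (1 - nb F μ b) ^ #(nbh G v))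
      - 2 * ∑ b, (r v b - r' v b) * (1 - nb F μ b) ^ #(nbh G v)
      = ∑ b, 2 * (r' v b * (1 - nb F μ b) ^ #(nbh G v)) := by
    rw [mul_sum, ← sum_sub_distrib]
    exact sum_congr rfl fun b _ => by ring
  have e2 : ∑ b, ∑ c, r' v b * r' v c * (1 - nb F μ b - nb F μ c + cod F μ b c) ^ #(nbh G v)
      ≤ ∑ b, ∑ c, r v b * r v c * (1 - nb F μ b - nb F μ c + cod F μ b c) ^ #(nbh G v) := by
    refine sum_le_sum fun b _ => sum_le_sum fun c _ => ?_
    refine mul_le_mul_of_nonneg_right ?_ (pow_nonneg (fr_pair_nonneg h0 h1 b c) _)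
    exact mul_le_mul (hrr v b) (hrr v c) (hr v c) (hr0 v b)
  have e3 : ∑ u ∈ nbh G v, costX F G μ r' v u ≤ ∑ u ∈ nbh G v, costX F G μ r v u := by
    refine sum_le_sum fun u _ => ?_
    unfold costX
    refine sum_le_sum fun b _ => sum_le_sum fun b' _ => ?_
    split_ifs
    · refine mul_le_mul (mul_le_mul_of_nonneg_right (hrr v b) (pow_nonneg (hy b) _))
        (mul_le_mul_of_nonneg_right (hrr u b') (pow_nonneg (hy b') _)) ?_ ?_
      · exact mul_nonneg (hr u b') (pow_nonneg (hy b') _)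
      · exact mul_nonneg (hr0 v b) (pow_nonneg (hy b) _)
    · exact le_rfl
  linarith

/-- The law of `chi`. -/
theorem avg_chi (h1 : ∑ x, μ x = 1) (Hb : Finset V) (v : V) (b : ι) :
    ∑ x, μ x * chi F Hb x v b = (1 - nb F μ b) ^ (if v ∈ Hb then 1 else 0) := by
  unfold chi
  by_cases hv : v ∈ Hb
  · simp only [hv, true_and, if_true, pow_one]
    exact sum_not_adj h1 b
  · simp only [hv, false_and, if_false, mul_one, pow_zero]
    exact h1

theorem avg_chi₂ (h1 : ∑ x, μ x = 1) (Hb : Finset V) (v : V) (b c : ι) :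
    ∑ x, μ x * (chi F Hb x v b * chi F Hb x v c)
      = (1 - nb F μ b - nb F μ c + cod F μ b c) ^ (if v ∈ Hb then 1 else 0) := by
  unfold chi
  by_cases hv : v ∈ Hb
  · simp only [hv, true_and, if_true, pow_one]
    exact sum_not_adj₂ h1 b c
  · simp only [hv, false_and, if_false, mul_one, pow_zero]
    exact h1

/-- Two different vertices, adjacent clusters. -/
theorem avg_chi_adj (h0 : ∀ x, 0 ≤ μ x) (h1 : ∑ x, μ x = 1) (hF : F.CliqueFree 3) (Hb : Finset V)
    (v u : V) {b c : ι} (hbc : F.Adj b c) :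
    ∑ x, μ x * (chi F Hb x v b * chi F Hb x u c)
      ≤ (1 - nb F μ b) ^ (if v ∈ Hb then 1 else 0) * (1 - nb F μ c) ^ (if u ∈ Hb then 1 else 0) := by
  unfold chi
  by_cases hv : v ∈ Hb
  · by_cases hu : u ∈ Hb
    · simp only [hv, hu, true_and, if_true, pow_one]
      rw [sum_not_adj₂ h1, cod_eq_zero hF hbc]
      have := mul_nonneg (nb_nonneg (F := F) h0 b) (nb_nonneg (F := F) h0 c)
      nlinarith
    · simp only [hv, hu, true_and, false_and, if_true, if_false, pow_one, pow_zero, mul_one]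
      exact (sum_not_adj h1 b).le
  · by_cases hu : u ∈ Hb
    · simp only [hv, hu, true_and, false_and, if_true, if_false, pow_one, pow_zero, one_mul]
      exact (sum_not_adj h1 c).le
    · simp only [hv, hu, false_and, if_false, pow_zero, mul_one]
      exact h1.le

/-- The clump term with exponent `e`. -/
theorem clumpK_le (h0 : ∀ x, 0 ≤ μ x) (h1 : ∑ x, μ x = 1) {w h : ι → ℝ}
    {σ um : ℝ} (hu : 0 < um) (hu1 : um ≤ 1)
    (hw : ∀ b, 0 ≤ w b) (hh : ∀ b, 0 ≤ h b) (hn : ∀ b, 0 < h b → nb F μ b < 1)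
    (hσa : ∀ a, 0 < μ a → (∑ c, if F.Adj a c then w c else 0) ≤ σ) (e : ℕ) :
    ∑ b, ∑ c, (w b * h b / (1 - nb F μ b) ^ e) * (w c * h c / (1 - nb F μ c) ^ e)
        * (1 - nb F μ b - nb F μ c + cod F μ b c) ^ e
      ≤ (∑ b, w b * h b) ^ 2
        - KZero.ss e um * (∑ b, w b * h b * KZero.ut um (nb F μ b)) ^ 2
        + σ * ∑ b, w b * h b ^ 2 * (((1 - nb F μ b)⁻¹) ^ e - 1
          + KZero.ss e um * KZero.ut um (nb F μ b) ^ 2) := by
  have e0 : ∀ b c, (w b * h b / (1 - nb F μ b) ^ e) * (w c * h c / (1 - nb F μ c) ^ e)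
        * (1 - nb F μ b - nb F μ c + cod F μ b c) ^ e
      = w b * w c * h b * h c
        * ((1 - nb F μ b - nb F μ c + cod F μ b c) / ((1 - nb F μ b) * (1 - nb F μ c))) ^ e := by
    intro b c
    rw [div_pow, mul_pow]
    ring
  simp only [e0]
  rcases Nat.eq_zero_or_pos e with hd | hd
  · rw [hd]
    have hs : KZero.ss 0 um = 0 := by simp [KZero.ss]
    rw [hs]
    simp only [pow_zero, mul_one, zero_mul, sub_self, sub_zero, add_zero, mul_zero,
      sum_const_zero]
    rw [sq, sum_mul_sum]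
    exact (sum_congr rfl fun b _ => sum_congr rfl fun c _ => by ring).le
  · obtain ⟨B, hB⟩ : ∃ B : Finset ι, B = univ.filter fun b => 0 < h b := ⟨_, rfl⟩
    have hBn : ∀ b, b ∉ B → h b = 0 := by
      intro b hb
      rw [hB, mem_filter] at hb
      by_contra hc
      exact hb ⟨mem_univ _, lt_of_le_of_ne (hh b) (Ne.symm hc)⟩
    have hBm : ∀ b ∈ B, 0 < h b := by
      intro b hb
      rw [hB, mem_filter] at hb
      exact hb.2
    have key := KZero.clump B hd hu hu1 w h (fun b => nb F μ b) (fun b c => cod F μ b c)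
      (fun b _ => hw b) (fun b _ => hh b) (fun b _ => nb_nonneg h0 b)
      (fun b hb => hn b (hBm b hb)) (fun b _ c _ => cod_comm b c)
      (fun b _ c _ => cod_nonneg h0 b c) (fun b _ c _ => cod_le_left h0 b c)
      (fun b _ c _ => by have := fr_pair_nonneg (F := F) h0 h1 b c; linarith)
      (sg := σ) (fun b _ => by
        refine le_trans ?_ (sum_cod_le (w := w) h0 hσa b)
        exact sum_le_sum_of_subset_of_nonneg (subset_univ _) fun c _ _ =>
          mul_nonneg (hw c) (cod_nonneg h0 b c))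
    have e1 : ∑ b, ∑ c, w b * w c * h b * h c
        * ((1 - nb F μ b - nb F μ c + cod F μ b c) / ((1 - nb F μ b) * (1 - nb F μ c))) ^ e
        = ∑ b ∈ B, ∑ c ∈ B, w b * w c * h b * h c
        * ((1 - nb F μ b - nb F μ c + cod F μ b c) / ((1 - nb F μ b) * (1 - nb F μ c))) ^ e := by
      rw [← sum_subset (subset_univ B)]
      · refine sum_congr rfl fun b _ => ?_
        rw [← sum_subset (subset_univ B)]
        intro c _ hc
        rw [hBn c hc]; ring
      · intro b _ hb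
        refine sum_eq_zero fun c _ => ?_
        rw [hBn b hb]; ring
    have e2 : ∑ b, w b * h b = ∑ b ∈ B, w b * h b := by
      rw [← sum_subset (subset_univ B)]
      intro b _ hb
      rw [hBn b hb, mul_zero]
    have e3 : ∑ b, w b * h b * KZero.ut um (nb F μ b)
        = ∑ b ∈ B, w b * h b * KZero.ut um (nb F μ b) := by
      rw [← sum_subset (subset_univ B)]
      intro b _ hb
      rw [hBn b hb]; ring
    have e4 : ∑ b, w b * h b ^ 2 * (((1 - nb F μ b)⁻¹) ^ e - 1
          + KZero.ss e um * KZero.ut um (nb F μ b) ^ 2)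
        = ∑ b ∈ B, w b * h b ^ 2 * (((1 - nb F μ b)⁻¹) ^ e - 1
          + KZero.ss e um * KZero.ut um (nb F μ b) ^ 2) := by
      rw [← sum_subset (subset_univ B)]
      intro b _ hb
      rw [hBn b hb]; ring
    rw [e1, e2, e3, e4]
    exact key

/-- Average of the first term. -/
theorem avg_first (h1 : ∑ x, μ x = 1) {w : ι → ℝ} {Hb : Finset V}
    {h : V → ι → ℝ} (hh : ∀ v b, 0 ≤ h v b) (hn : ∀ v b, 0 < h v b → nb F μ b < 1) (v : V)
    (b : ι) :
    ∑ x, μ x * (rateH F G μ w Hb h x v b * (1 - nb F μ b) ^ #(nbh G v)) = w b * h v b := by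
  have e1 : ∀ x, μ x * (rateH F G μ w Hb h x v b * (1 - nb F μ b) ^ #(nbh G v))
      = w b * h v b / (1 - nb F μ b) ^ eh G Hb v * (1 - nb F μ b) ^ #(nbh G v)
        * (μ x * chi F Hb x v b) := fun x => by unfold rateH; ring
  simp only [e1]
  rw [← mul_sum, avg_chi h1]
  rcases (hh v b).lt_or_eq with hpos | hz
  · have hy : 0 < 1 - nb F μ b := by linarith [hn v b hpos]
    rw [mul_assoc, ← pow_add]
    have : #(nbh G v) + (if v ∈ Hb then 1 else 0) = eh G Hb v := rfl
    rw [this, div_mul_cancel₀ _ (pow_ne_zero _ hy.ne')]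
  · rw [← hz]; simp

/-- Average of the clump term. -/
theorem avg_clump (h1 : ∑ x, μ x = 1) {w : ι → ℝ} {Hb : Finset V}
    {h : V → ι → ℝ} (v : V) (b c : ι) :
    ∑ x, μ x * (rateH F G μ w Hb h x v b * rateH F G μ w Hb h x v c
        * (1 - nb F μ b - nb F μ c + cod F μ b c) ^ #(nbh G v))
      = (w b * h v b / (1 - nb F μ b) ^ eh G Hb v) * (w c * h v c / (1 - nb F μ c) ^ eh G Hb v)
        * (1 - nb F μ b - nb F μ c + cod F μ b c) ^ eh G Hb v := by
  have e1 : ∀ x, μ x * (rateH F G μ w Hb h x v b * rateH F G μ w Hb h x v c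
        * (1 - nb F μ b - nb F μ c + cod F μ b c) ^ #(nbh G v))
      = (w b * h v b / (1 - nb F μ b) ^ eh G Hb v) * (w c * h v c / (1 - nb F μ c) ^ eh G Hb v)
        * (1 - nb F μ b - nb F μ c + cod F μ b c) ^ #(nbh G v)
        * (μ x * (chi F Hb x v b * chi F Hb x v c)) := fun x => by unfold rateH; ring
  simp only [e1]
  rw [← mul_sum, avg_chi₂ h1, mul_assoc, ← pow_add]
  rfl

/-- Average of the cost of one ordered edge. -/
theorem avg_cost (h0 : ∀ x, 0 ≤ μ x) (h1 : ∑ x, μ x = 1) (hF : F.CliqueFree 3) {w : ι → ℝ}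
    {Hb : Finset V} {h : V → ι → ℝ} (hw : ∀ b, 0 ≤ w b) (hh : ∀ v b, 0 ≤ h v b)
    (hn : ∀ v b, 0 < h v b → nb F μ b < 1) {v u : V} (huv : G.Adj v u) :
    ∑ x, μ x * costX F G μ (rateH F G μ w Hb h x) v u
      ≤ ∑ b, ∑ b', if F.Adj b b' then w b * w b' * (h v b * h u b' / (1 - nb F μ b')) else 0 := by
  have hdu : #(nbh G u) - 1 + 1 = #(nbh G u) := by
    have : 0 < #(nbh G u) := card_pos.2 ⟨v, mem_nbh.2 huv.symm⟩
    omega
  unfold costX
  simp only [mul_sum]
  rw [sum_comm]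
  refine sum_le_sum fun b _ => ?_
  rw [sum_comm]
  refine sum_le_sum fun b' _ => ?_
  by_cases hbb : F.Adj b b'
  · simp only [if_pos hbb]
    have e1 : ∀ x, μ x * (rateH F G μ w Hb h x v b * (1 - nb F μ b) ^ #(nbh G v)
        * (rateH F G μ w Hb h x u b' * (1 - nb F μ b') ^ (#(nbh G u) - 1)))
        = (w b * h v b / (1 - nb F μ b) ^ eh G Hb v * (1 - nb F μ b) ^ #(nbh G v))
          * (w b' * h u b' / (1 - nb F μ b') ^ eh G Hb u * (1 - nb F μ b') ^ (#(nbh G u) - 1))
          * (μ x * (chi F Hb x v b * chi F Hb x u b')) := fun x => by unfold rateH; ring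
    simp only [e1]
    rw [← mul_sum]
    rcases (hh v b).lt_or_eq with hpos | hz
    · rcases (hh u b').lt_or_eq with hpos' | hz'
      · have hy : 0 < 1 - nb F μ b := by linarith [hn v b hpos]
        have hy' : 0 < 1 - nb F μ b' := by linarith [hn u b' hpos']
        have hA := avg_chi_adj (μ := μ) h0 h1 hF Hb v u hbb
        have hc : 0 ≤ (w b * h v b / (1 - nb F μ b) ^ eh G Hb v * (1 - nb F μ b) ^ #(nbh G v))
          * (w b' * h u b' / (1 - nb F μ b') ^ eh G Hb u
            * (1 - nb F μ b') ^ (#(nbh G u) - 1)) := by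
          have := hw b
          have := hw b'
          positivity
        refine (mul_le_mul_of_nonneg_left hA hc).trans (le_of_eq ?_)
        have e2 : w b * h v b / (1 - nb F μ b) ^ eh G Hb v * (1 - nb F μ b) ^ #(nbh G v)
            * (1 - nb F μ b) ^ (if v ∈ Hb then 1 else 0) = w b * h v b := by
          rw [mul_assoc, ← pow_add]
          exact div_mul_cancel₀ _ (pow_ne_zero _ hy.ne')
        have e3 : w b' * h u b' / (1 - nb F μ b') ^ eh G Hb u
            * (1 - nb F μ b') ^ (#(nbh G u) - 1)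
            * (1 - nb F μ b') ^ (if u ∈ Hb then 1 else 0) = w b' * h u b' / (1 - nb F μ b') := by
          have e4 : (1 - nb F μ b') ^ eh G Hb u = (1 - nb F μ b') ^ (#(nbh G u) - 1)
              * (1 - nb F μ b') ^ (if u ∈ Hb then 1 else 0) * (1 - nb F μ b') := by
            rw [← pow_add, ← pow_succ]
            congr 1
            unfold eh
            omega
          rw [e4]
          have h5 := pow_ne_zero (#(nbh G u) - 1) hy'.ne'
          have h6 := pow_ne_zero (if u ∈ Hb then 1 else 0) hy'.ne'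
          field_simp
        calc _ = (w b * h v b / (1 - nb F μ b) ^ eh G Hb v * (1 - nb F μ b) ^ #(nbh G v)
            * (1 - nb F μ b) ^ (if v ∈ Hb then 1 else 0))
            * (w b' * h u b' / (1 - nb F μ b') ^ eh G Hb u
            * (1 - nb F μ b') ^ (#(nbh G u) - 1)
            * (1 - nb F μ b') ^ (if u ∈ Hb then 1 else 0)) := by ring
          _ = w b * h v b * (w b' * h u b' / (1 - nb F μ b')) := by rw [e2, e3]
          _ = _ := by ring
      · rw [← hz']; simp
    · rw [← hz]; simp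
  · simp only [if_neg hbb, mul_zero, sum_const_zero, le_refl]

/-- **The separable lower bound for the average over the cluster of the giants.** -/
theorem avg_pairX_ge (h0 : ∀ x, 0 ≤ μ x) (h1 : ∑ x, μ x = 1) (hF : F.CliqueFree 3)
    {w f p r : ι → ℝ} (Hb : Finset V)
    {hh : V → ι → ℝ} {m : ι → ι → ℝ} {lam um : V → ℝ} {σ τ' : ℝ}
    (hw : ∀ b, 0 ≤ w b) (hp : ∀ b, 0 ≤ p b) (hr : ∀ b, 0 ≤ r b) (hm : ∀ b c, 0 ≤ m b c)
    (hh0 : ∀ v b, 0 ≤ hh v b) (hhf : ∀ v b, hh v b ≤ f b) (hlam : ∀ v, 0 ≤ lam v)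
    (hu : ∀ v, 0 < um v) (hu1 : ∀ v, um v ≤ 1) (hn : ∀ b, 0 < f b → nb F μ b < 1)
    (hσ0 : 0 ≤ σ) (hτ0 : 0 ≤ τ')
    (hσa : ∀ a, 0 < μ a → (∑ c, if F.Adj a c then w c else 0) ≤ σ)
    (hσb : ∀ b, 0 < w b → 0 < f b → (∑ c, if F.Adj b c then w c else 0) ≤ σ * (1 - nb F μ b))
    (hJ : ∀ b, 0 < w b → 0 < f b → (∑ c, if F.Adj b c then w c * m b c else 0) ≤ τ')
    (hpair : ∀ b b', F.Adj b b' → 0 < w b → 0 < w b' → 0 < f b → 0 < f b' →
      f b * f b' * ((1 - nb F μ b)⁻¹ + (1 - nb F μ b')⁻¹) ≤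
        p b + p b' + r b * m b b' + r b' * m b' b) :
    ∑ v, (2 * (∑ b, w b * (lam v * hh v b)) - (∑ b, w b * (lam v * hh v b)) ^ 2
      + KZero.ss (eh G Hb v) (um v)
        * (∑ b, w b * (lam v * hh v b) * KZero.ut (um v) (nb F μ b)) ^ 2
      - σ * ∑ b, w b * (lam v * hh v b) ^ 2 * (((1 - nb F μ b)⁻¹) ^ eh G Hb v - 1
          + KZero.ss (eh G Hb v) (um v) * KZero.ut (um v) (nb F μ b) ^ 2)
      - (#(nbh G v) : ℝ) * lam v ^ 2 * ∑ b, w b * (σ * (1 - nb F μ b) * p b + τ' * r b))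
      ≤ ∑ x, μ x * ∑ v, pairX F G μ (rateH F G μ w Hb (fun v b => lam v * hh v b) x) v := by
  rcases isEmpty_or_nonempty V with hV | ⟨⟨v₀⟩⟩
  · simp
  have hf : ∀ b, 0 ≤ f b := fun b => (hh0 v₀ b).trans (hhf v₀ b)
  have hh' : ∀ v b, 0 ≤ lam v * hh v b := fun v b => mul_nonneg (hlam v) (hh0 v b)
  have hposh : ∀ v b, 0 < lam v * hh v b → 0 < hh v b := fun v b h =>
    lt_of_le_of_ne (hh0 v b) (Ne.symm (by
      intro hc
      rw [hc, mul_zero] at h
      exact lt_irrefl _ h))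
  have hn' : ∀ v b, 0 < lam v * hh v b → nb F μ b < 1 := fun v b h =>
    hn b ((hposh v b h).trans_le (hhf v b))
  obtain ⟨C, hC⟩ : ∃ C, C = ∑ b, ∑ b', (if F.Adj b b' then
    w b * w b' * (f b * f b' / (1 - nb F μ b')) else 0) := ⟨_, rfl⟩
  have hny : ∀ b, 0 ≤ 1 - nb F μ b := fun b => by linarith [nb_le_one (F := F) h0 h1 b]
  have hC0 : 0 ≤ C := by
    rw [hC]
    refine sum_nonneg fun b _ => sum_nonneg fun b' _ => ?_
    split_ifs
    · exact mul_nonneg (mul_nonneg (hw b) (hw b'))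
        (div_nonneg (mul_nonneg (hf b) (hf b')) (hny b'))
    · exact le_rfl
  have hCle := cost_sum_le h0 h1 hw hp hr hm hf hσ0 hτ0 hσb hJ hpair
  rw [← hC] at hCle
  -- one ordered edge
  have hedge : ∀ v, ∀ u ∈ nbh G v,
      ∑ x, μ x * costX F G μ (rateH F G μ w Hb (fun v b => lam v * hh v b) x) v u
        ≤ lam v * lam u * C := by
    intro v u hu'
    refine (avg_cost h0 h1 hF hw hh' hn' (mem_nbh.1 hu')).trans ?_
    rw [hC, mul_sum]
    refine sum_le_sum fun b _ => ?_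
    rw [mul_sum]
    refine sum_le_sum fun b' _ => ?_
    by_cases hab : F.Adj b b'
    · rw [if_pos hab, if_pos hab]
      have h2 : hh v b * hh u b' ≤ f b * f b' :=
        mul_le_mul (hhf v b) (hhf u b') (hh0 u b') (hf b)
      have h3 : hh v b * hh u b' / (1 - nb F μ b') ≤ f b * f b' / (1 - nb F μ b') :=
        div_le_div_of_nonneg_right h2 (hny b')
      have h4 : 0 ≤ lam v * lam u * (w b * w b') :=
        mul_nonneg (mul_nonneg (hlam v) (hlam u)) (mul_nonneg (hw b) (hw b'))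
      calc w b * w b' * (lam v * hh v b * (lam u * hh u b') / (1 - nb F μ b'))
          = lam v * lam u * (w b * w b') * (hh v b * hh u b' / (1 - nb F μ b')) := by ring
        _ ≤ lam v * lam u * (w b * w b') * (f b * f b' / (1 - nb F μ b')) :=
          mul_le_mul_of_nonneg_left h3 h4
        _ = _ := by ring
    · rw [if_neg hab, if_neg hab, mul_zero]
  have hc : ∑ v, ∑ u ∈ nbh G v,
      ∑ x, μ x * costX F G μ (rateH F G μ w Hb (fun v b => lam v * hh v b) x) v u
      ≤ ∑ v, (#(nbh G v) : ℝ) * lam v ^ 2 * ∑ b, w b * (σ * (1 - nb F μ b) * p b + τ' * r b) := by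
    calc _ ≤ ∑ v, ∑ u ∈ nbh G v, (lam v ^ 2 * C / 2 + lam u ^ 2 * C / 2) := by
          refine sum_le_sum fun v _ => sum_le_sum fun u hu' => (hedge v u hu').trans ?_
          have h2 : 0 ≤ (lam v - lam u) ^ 2 * C := mul_nonneg (sq_nonneg _) hC0
          nlinarith
      _ = ∑ v, (#(nbh G v) : ℝ) * (lam v ^ 2 * C) := by
          simp only [sum_add_distrib]
          rw [sum_nbr_comm (G := G) fun u => lam u ^ 2 * C / 2, ← sum_add_distrib]
          refine sum_congr rfl fun v _ => ?_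
          rw [sum_const, nsmul_eq_mul]
          ring
      _ ≤ _ := by
          refine sum_le_sum fun v _ => ?_
          rw [mul_assoc]
          exact mul_le_mul_of_nonneg_left (mul_le_mul_of_nonneg_left hCle (sq_nonneg _))
            (Nat.cast_nonneg _)
  -- the average of one vertex
  have hT : ∑ x, μ x * ∑ v, pairX F G μ (rateH F G μ w Hb (fun v b => lam v * hh v b) x) v
      = ∑ v, (2 * (∑ b, w b * (lam v * hh v b)))
        - ∑ v, ∑ b, ∑ c, (w b * (lam v * hh v b) / (1 - nb F μ b) ^ eh G Hb v)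
          * (w c * (lam v * hh v c) / (1 - nb F μ c) ^ eh G Hb v)
          * (1 - nb F μ b - nb F μ c + cod F μ b c) ^ eh G Hb v
        - ∑ v, ∑ u ∈ nbh G v,
          ∑ x, μ x * costX F G μ (rateH F G μ w Hb (fun v b => lam v * hh v b) x) v u := by
    simp only [mul_sum]
    rw [sum_comm, ← sum_sub_distrib, ← sum_sub_distrib]
    refine sum_congr rfl fun v _ => ?_
    unfold pairX
    simp only [mul_sub, sum_sub_distrib]
    congr 1
    · congr 1
      · simp only [mul_sum]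
        rw [sum_comm]
        refine sum_congr rfl fun b _ => ?_
        rw [← avg_first (F := F) (G := G) (μ := μ) (w := w) (Hb := Hb)
          (h := fun v b => lam v * hh v b) h1 hh' hn' v b, mul_sum]
        exact sum_congr rfl fun x _ => by ring
      · simp only [mul_sum]
        rw [sum_comm]
        refine sum_congr rfl fun b _ => ?_
        rw [sum_comm]
        refine sum_congr rfl fun c _ => ?_
        exact avg_clump (F := F) (G := G) (μ := μ) (w := w) (Hb := Hb)
          (h := fun v b => lam v * hh v b) h1 v b c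
    · simp only [mul_sum]
      rw [sum_comm]
  rw [hT]
  have hcl : ∑ v, ∑ b, ∑ c, (w b * (lam v * hh v b) / (1 - nb F μ b) ^ eh G Hb v)
          * (w c * (lam v * hh v c) / (1 - nb F μ c) ^ eh G Hb v)
          * (1 - nb F μ b - nb F μ c + cod F μ b c) ^ eh G Hb v
      ≤ ∑ v, ((∑ b, w b * (lam v * hh v b)) ^ 2
        - KZero.ss (eh G Hb v) (um v)
          * (∑ b, w b * (lam v * hh v b) * KZero.ut (um v) (nb F μ b)) ^ 2
        + σ * ∑ b, w b * (lam v * hh v b) ^ 2 * (((1 - nb F μ b)⁻¹) ^ eh G Hb v - 1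
          + KZero.ss (eh G Hb v) (um v) * KZero.ut (um v) (nb F μ b) ^ 2)) :=
    sum_le_sum fun v _ => clumpK_le (h := fun b => lam v * hh v b) h0 h1 (hu v) (hu1 v) hw
      (hh' v) (hn' v) hσa (eh G Hb v)
  have hfin : ∑ v, (2 * (∑ b, w b * (lam v * hh v b)) - (∑ b, w b * (lam v * hh v b)) ^ 2
      + KZero.ss (eh G Hb v) (um v)
        * (∑ b, w b * (lam v * hh v b) * KZero.ut (um v) (nb F μ b)) ^ 2
      - σ * ∑ b, w b * (lam v * hh v b) ^ 2 * (((1 - nb F μ b)⁻¹) ^ eh G Hb v - 1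
          + KZero.ss (eh G Hb v) (um v) * KZero.ut (um v) (nb F μ b) ^ 2)
      - (#(nbh G v) : ℝ) * lam v ^ 2 * ∑ b, w b * (σ * (1 - nb F μ b) * p b + τ' * r b))
      = ∑ v, (2 * (∑ b, w b * (lam v * hh v b)))
        - ∑ v, ((∑ b, w b * (lam v * hh v b)) ^ 2
        - KZero.ss (eh G Hb v) (um v)
          * (∑ b, w b * (lam v * hh v b) * KZero.ut (um v) (nb F μ b)) ^ 2
        + σ * ∑ b, w b * (lam v * hh v b) ^ 2 * (((1 - nb F μ b)⁻¹) ^ eh G Hb v - 1
          + KZero.ss (eh G Hb v) (um v) * KZero.ut (um v) (nb F μ b) ^ 2))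
        - ∑ v, (#(nbh G v) : ℝ) * lam v ^ 2
          * ∑ b, w b * (σ * (1 - nb F μ b) * p b + τ' * r b) := by
    rw [← sum_sub_distrib, ← sum_sub_distrib]
    exact sum_congr rfl fun v _ => by ring
  rw [hfin]
  linarith

/-- **Choice of the cluster of the giants**: a positive proportion of the clusters is nearly as good as
the average. -/
theorem select (h0 : ∀ x, 0 ≤ μ x) (h1 : ∑ x, μ x = 1) {Φ : ι → ℝ} {M B δ : ℝ} (hδ : 0 < δ)
    (hM : M ≤ ∑ x, μ x * Φ x) (hB : ∀ x, 0 < μ x → Φ x ≤ B) :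
    δ / (B - M + δ) ≤ ∑ x ∈ univ.filter (fun x => M - δ ≤ Φ x), μ x := by
  obtain ⟨S, hS⟩ : ∃ S : Finset ι, S = univ.filter (fun x => M - δ ≤ Φ x) := ⟨_, rfl⟩
  obtain ⟨P, hP⟩ : ∃ P, P = ∑ x ∈ S, μ x := ⟨_, rfl⟩
  rw [← hS, ← hP]
  have hle : ∑ x, μ x * Φ x ≤ B := by
    calc ∑ x, μ x * Φ x ≤ ∑ x, μ x * B := by
          refine sum_le_sum fun x _ => ?_
          rcases (h0 x).lt_or_eq with hx | hx
          · exact mul_le_mul_of_nonneg_left (hB x hx) hx.le
          · rw [← hx]; simp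
      _ = B := by rw [← sum_mul, h1, one_mul]
  have hBM : 0 ≤ B - M := by linarith
  have hc : ∑ x ∈ univ.filter (fun x => ¬ M - δ ≤ Φ x), μ x = 1 - P := by
    rw [hP, hS, ← h1, eq_sub_iff_add_eq, add_comm]
    exact sum_filter_add_sum_filter_not univ _ _
  have h2 : ∑ x, μ x * Φ x ≤ B * P + (M - δ) * (1 - P) := by
    rw [← hc, hP, mul_sum, mul_sum, hS,
      ← sum_filter_add_sum_filter_not univ (fun x => M - δ ≤ Φ x) (fun x => μ x * Φ x)]
    refine add_le_add (sum_le_sum fun x _ => ?_) (sum_le_sum fun x hx => ?_)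
    · rcases (h0 x).lt_or_eq with hx | hx
      · rw [mul_comm B]
        exact mul_le_mul_of_nonneg_left (hB x hx) hx.le
      · rw [← hx]; simp
    · have h3 := (mem_filter.1 hx).2
      push Not at h3
      rw [mul_comm (M - δ)]
      exact mul_le_mul_of_nonneg_left h3.le (h0 x)
  rw [div_le_iff₀ (by linarith)]
  nlinarith

end EH

end Pool.Agent.T6J
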