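import Pool.Agent.T6J.ExpectH

/-!
# Vertices with giant neighbours: virtual giants, averaged (MP_c6effb_co)

A vertex `v` gets the set `S v` of virtual giants (which never leave `A`); the giant `i` sits in the
cluster `c i`, the `c i` are independent with law `μ`. `rateK c` = the rates. Averaged over `c` the
vertex `v` behaves like a vertex of degree `dK v = d v + #(S v)` (with only `d v` killers).
-/

set_option autoImplicit false
set_option linter.unusedSectionVars false

open Finset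

namespace Pool.Agent.T6J

open Pool.Agent.T6A

namespace EK

open EH

variable {V ι J : Type*} [Fintype V] [DecidableEq V] [Fintype ι] [DecidableEq ι]
  [Fintype J] [DecidableEq J]

section defs

variable (F : SimpleGraph ι) [DecidableRel F.Adj] (G : SimpleGraph V) [DecidableRel G.Adj]
  (μ : ι → ℝ)

/-- The exponent of a vertex. -/
def dK (S : V → Finset J) (v : V) : ℕ := #(nbh G v) + #(S v)

/-- The weight of a configuration of the virtual giants. -/
def WK (c : J → ι) : ℝ := wt (fun _ : J => μ) c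

/-- The rates if the virtual giants are in `c`. -/
noncomputable def rateK (w : ι → ℝ) (S : V → Finset J) (h : V → ι → ℝ) (c : J → ι) (v : V)
    (b : ι) : ℝ :=
  w b * h v b / (1 - nb F μ b) ^ dK G S v * il F (S v) b c

end defs

variable {F : SimpleGraph ι} [DecidableRel F.Adj] {G : SimpleGraph V} [DecidableRel G.Adj]
  {μ : ι → ℝ}

theorem WK_nonneg (h0 : ∀ x, 0 ≤ μ x) (h1 : ∑ x, μ x = 1) (c : J → ι) : 0 ≤ WK μ c :=
  wt_nonneg (isLaw_const h0 h1) c

theorem sum_WK (h0 : ∀ x, 0 ≤ μ x) (h1 : ∑ x, μ x = 1) : ∑ c : J → ι, WK μ c = 1 :=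
  sum_wt (isLaw_const h0 h1)

theorem rateK_nonneg (h0 : ∀ x, 0 ≤ μ x) (h1 : ∑ x, μ x = 1) {w : ι → ℝ} {S : V → Finset J}
    {h : V → ι → ℝ} (hw : ∀ b, 0 ≤ w b) (hh : ∀ v b, 0 ≤ h v b) (c : J → ι) (v : V) (b : ι) :
    0 ≤ rateK F G μ w S h c v b :=
  mul_nonneg (div_nonneg (mul_nonneg (hw b) (hh v b))
    (pow_nonneg (by linarith [nb_le_one (F := F) h0 h1 b]) _)) (il_nonneg _ _ _)

theorem avg_il (h0 : ∀ x, 0 ≤ μ x) (h1 : ∑ x, μ x = 1) (S : V → Finset J) (v : V) (b : ι) :
    ∑ c, WK μ c * il F (S v) b c = (1 - nb F μ b) ^ #(S v) :=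
  EE_il h0 h1 (S v) b

theorem avg_il₂ (h0 : ∀ x, 0 ≤ μ x) (h1 : ∑ x, μ x = 1) (S : V → Finset J) (v : V) (b b' : ι) :
    ∑ c, WK μ c * (il F (S v) b c * il F (S v) b' c)
      = (1 - nb F μ b - nb F μ b' + cod F μ b b') ^ #(S v) :=
  EE_il_il_same h0 h1 (S v) b b'

/-- Two different vertices, adjacent clusters. -/
theorem avg_il_adj (h0 : ∀ x, 0 ≤ μ x) (h1 : ∑ x, μ x = 1) (hF : F.CliqueFree 3)
    (S : V → Finset J) (v u : V) {b b' : ι} (hbb : F.Adj b b') :
    ∑ c, WK μ c * (il F (S v) b c * il F (S u) b' c)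
      ≤ (1 - nb F μ b) ^ #(S v) * (1 - nb F μ b') ^ #(S u) := by
  have h := EE_il_il (F := F) h0 h1 (S v) (S u) b b'
  rw [cod_eq_zero hF hbb, add_zero] at h
  refine (le_of_eq h).trans ?_
  have hz := fr_pair_nonneg (F := F) h0 h1 b b'
  rw [cod_eq_zero hF hbb, add_zero] at hz
  have hy : 0 ≤ 1 - nb F μ b := by linarith [nb_le_one (F := F) h0 h1 b]
  have hy' : 0 ≤ 1 - nb F μ b' := by linarith [nb_le_one (F := F) h0 h1 b']
  have hzy : 1 - nb F μ b - nb F μ b' ≤ (1 - nb F μ b) * (1 - nb F μ b') := by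
    have := mul_nonneg (nb_nonneg (F := F) h0 b) (nb_nonneg (F := F) h0 b')
    nlinarith
  have e1 : #(S v) = #(S v \ S u) + #(S v ∩ S u) := (card_sdiff_add_card_inter _ _).symm
  have e2 : #(S u) = #(S u \ S v) + #(S v ∩ S u) := by
    rw [inter_comm]; exact (card_sdiff_add_card_inter _ _).symm
  calc (1 - nb F μ b) ^ #(S v \ S u) * (1 - nb F μ b') ^ #(S u \ S v)
        * (1 - nb F μ b - nb F μ b') ^ #(S v ∩ S u)
      ≤ (1 - nb F μ b) ^ #(S v \ S u) * (1 - nb F μ b') ^ #(S u \ S v)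
        * ((1 - nb F μ b) * (1 - nb F μ b')) ^ #(S v ∩ S u) :=
        mul_le_mul_of_nonneg_left (pow_le_pow_left₀ hz hzy _)
          (mul_nonneg (pow_nonneg hy _) (pow_nonneg hy' _))
    _ = (1 - nb F μ b) ^ #(S v) * (1 - nb F μ b') ^ #(S u) := by
        rw [mul_pow, e1, e2, pow_add, pow_add]
        ring

/-- Average of the first term. -/
theorem avg_first (h0 : ∀ x, 0 ≤ μ x) (h1 : ∑ x, μ x = 1) {w : ι → ℝ} {S : V → Finset J}
    {h : V → ι → ℝ} (hh : ∀ v b, 0 ≤ h v b) (hn : ∀ v b, 0 < h v b → nb F μ b < 1) (v : V)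
    (b : ι) :
    ∑ x, WK μ x * (rateK F G μ w S h x v b * (1 - nb F μ b) ^ #(nbh G v)) = w b * h v b := by
  have e1 : ∀ x, WK μ x * (rateK F G μ w S h x v b * (1 - nb F μ b) ^ #(nbh G v))
      = w b * h v b / (1 - nb F μ b) ^ dK G S v * (1 - nb F μ b) ^ #(nbh G v)
        * (WK μ x * il F (S v) b x) := fun x => by unfold rateK; ring
  simp only [e1]
  rw [← mul_sum, avg_il h0 h1 S v]
  rcases (hh v b).lt_or_eq with hpos | hz
  · have hy : 0 < 1 - nb F μ b := by linarith [hn v b hpos]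
    rw [mul_assoc, ← pow_add]
    have : #(nbh G v) + #(S v) = dK G S v := rfl
    rw [this, div_mul_cancel₀ _ (pow_ne_zero _ hy.ne')]
  · rw [← hz]; simp

/-- Average of the clump term. -/
theorem avg_clump (h0 : ∀ x, 0 ≤ μ x) (h1 : ∑ x, μ x = 1) {w : ι → ℝ} {S : V → Finset J}
    {h : V → ι → ℝ} (v : V) (b c : ι) :
    ∑ x, WK μ x * (rateK F G μ w S h x v b * rateK F G μ w S h x v c
        * (1 - nb F μ b - nb F μ c + cod F μ b c) ^ #(nbh G v))
      = (w b * h v b / (1 - nb F μ b) ^ dK G S v) * (w c * h v c / (1 - nb F μ c) ^ dK G S v)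
        * (1 - nb F μ b - nb F μ c + cod F μ b c) ^ dK G S v := by
  have e1 : ∀ x, WK μ x * (rateK F G μ w S h x v b * rateK F G μ w S h x v c
        * (1 - nb F μ b - nb F μ c + cod F μ b c) ^ #(nbh G v))
      = (w b * h v b / (1 - nb F μ b) ^ dK G S v) * (w c * h v c / (1 - nb F μ c) ^ dK G S v)
        * (1 - nb F μ b - nb F μ c + cod F μ b c) ^ #(nbh G v)
        * (WK μ x * (il F (S v) b x * il F (S v) c x)) := fun x => by unfold rateK; ring
  simp only [e1]
  rw [← mul_sum, avg_il₂ h0 h1 S v, mul_assoc, ← pow_add]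
  rfl

/-- Average of the cost of one ordered edge. -/
theorem avg_cost (h0 : ∀ x, 0 ≤ μ x) (h1 : ∑ x, μ x = 1) (hF : F.CliqueFree 3) {w : ι → ℝ}
    {S : V → Finset J} {h : V → ι → ℝ} (hw : ∀ b, 0 ≤ w b) (hh : ∀ v b, 0 ≤ h v b)
    (hn : ∀ v b, 0 < h v b → nb F μ b < 1) {v u : V} (huv : G.Adj v u) :
    ∑ x, WK μ x * costX F G μ (rateK F G μ w S h x) v u
      ≤ ∑ b, ∑ b', if F.Adj b b' then w b * w b' * (h v b * h u b' / (1 - nb F μ b')) else 0 := by
  have hdu : #(nbh G u) - 1 + 1 = #(nbh G u) := by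
    have : 0 < #(nbh G u) := card_pos.2 ⟨v, mem_nbh.2 huv.symm⟩
    omega
  unfold costX
  simp only [mul_sum]
  rw [sum_comm]
  refine sum_le_sum fun b _ => ?_
  rw [sum_comm]
  refine sum_le_sum fun b' _ => ?_
  by_cases hbb : F.Adj b b'
  · simp only [if_pos hbb]
    have e1 : ∀ x, WK μ x * (rateK F G μ w S h x v b * (1 - nb F μ b) ^ #(nbh G v)
        * (rateK F G μ w S h x u b' * (1 - nb F μ b') ^ (#(nbh G u) - 1)))
        = (w b * h v b / (1 - nb F μ b) ^ dK G S v * (1 - nb F μ b) ^ #(nbh G v))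
          * (w b' * h u b' / (1 - nb F μ b') ^ dK G S u * (1 - nb F μ b') ^ (#(nbh G u) - 1))
          * (WK μ x * (il F (S v) b x * il F (S u) b' x)) := fun x => by unfold rateK; ring
    simp only [e1]
    rw [← mul_sum]
    rcases (hh v b).lt_or_eq with hpos | hz
    · rcases (hh u b').lt_or_eq with hpos' | hz'
      · have hy : 0 < 1 - nb F μ b := by linarith [hn v b hpos]
        have hy' : 0 < 1 - nb F μ b' := by linarith [hn u b' hpos']
        have hA := avg_il_adj (μ := μ) h0 h1 hF S v u hbb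
        have hc : 0 ≤ (w b * h v b / (1 - nb F μ b) ^ dK G S v * (1 - nb F μ b) ^ #(nbh G v))
          * (w b' * h u b' / (1 - nb F μ b') ^ dK G S u
            * (1 - nb F μ b') ^ (#(nbh G u) - 1)) := by
          have := hw b
          have := hw b'
          positivity
        refine (mul_le_mul_of_nonneg_left hA hc).trans (le_of_eq ?_)
        have e2 : w b * h v b / (1 - nb F μ b) ^ dK G S v * (1 - nb F μ b) ^ #(nbh G v)
            * (1 - nb F μ b) ^ #(S v) = w b * h v b := by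
          rw [mul_assoc, ← pow_add]
          exact div_mul_cancel₀ _ (pow_ne_zero _ hy.ne')
        have e3 : w b' * h u b' / (1 - nb F μ b') ^ dK G S u
            * (1 - nb F μ b') ^ (#(nbh G u) - 1)
            * (1 - nb F μ b') ^ #(S u) = w b' * h u b' / (1 - nb F μ b') := by
          have e4 : (1 - nb F μ b') ^ dK G S u = (1 - nb F μ b') ^ (#(nbh G u) - 1)
              * (1 - nb F μ b') ^ #(S u) * (1 - nb F μ b') := by
            rw [← pow_add, ← pow_succ]
            congr 1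
            unfold dK
            omega
          rw [e4]
          have h5 := pow_ne_zero (#(nbh G u) - 1) hy'.ne'
          have h6 := pow_ne_zero #(S u) hy'.ne'
          field_simp
        calc _ = (w b * h v b / (1 - nb F μ b) ^ dK G S v * (1 - nb F μ b) ^ #(nbh G v)
            * (1 - nb F μ b) ^ #(S v))
            * (w b' * h u b' / (1 - nb F μ b') ^ dK G S u
            * (1 - nb F μ b') ^ (#(nbh G u) - 1)
            * (1 - nb F μ b') ^ #(S u)) := by ring
          _ = w b * h v b * (w b' * h u b' / (1 - nb F μ b')) := by rw [e2, e3]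
          _ = _ := by ring
      · rw [← hz']; simp
    · rw [← hz]; simp
  · simp only [if_neg hbb, mul_zero, sum_const_zero, le_refl]

/-- **The separable lower bound for the average over the cluster of the giants.** -/
theorem avg_pairX_ge (h0 : ∀ x, 0 ≤ μ x) (h1 : ∑ x, μ x = 1) (hF : F.CliqueFree 3)
    {w f p r : ι → ℝ} (S : V → Finset J)
    {hh : V → ι → ℝ} {m : ι → ι → ℝ} {lam um : V → ℝ} {σ τ' : ℝ}
    (hw : ∀ b, 0 ≤ w b) (hp : ∀ b, 0 ≤ p b) (hr : ∀ b, 0 ≤ r b) (hm : ∀ b c, 0 ≤ m b c)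
    (hh0 : ∀ v b, 0 ≤ hh v b) (hhf : ∀ v b, hh v b ≤ f b) (hlam : ∀ v, 0 ≤ lam v)
    (hu : ∀ v, 0 < um v) (hu1 : ∀ v, um v ≤ 1) (hn : ∀ b, 0 < f b → nb F μ b < 1)
    (hσ0 : 0 ≤ σ) (hτ0 : 0 ≤ τ')
    (hσa : ∀ a, 0 < μ a → (∑ c, if F.Adj a c then w c else 0) ≤ σ)
    (hσb : ∀ b, 0 < w b → 0 < f b → (∑ c, if F.Adj b c then w c else 0) ≤ σ * (1 - nb F μ b))
    (hJ : ∀ b, 0 < w b → 0 < f b → (∑ c, if F.Adj b c then w c * m b c else 0) ≤ τ')
    (hpair : ∀ b b', F.Adj b b' → 0 < w b → 0 < w b' → 0 < f b → 0 < f b' →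
      f b * f b' * ((1 - nb F μ b)⁻¹ + (1 - nb F μ b')⁻¹) ≤
        p b + p b' + r b * m b b' + r b' * m b' b) :
    ∑ v, (2 * (∑ b, w b * (lam v * hh v b)) - (∑ b, w b * (lam v * hh v b)) ^ 2
      + KZero.ss (dK G S v) (um v)
        * (∑ b, w b * (lam v * hh v b) * KZero.ut (um v) (nb F μ b)) ^ 2
      - σ * ∑ b, w b * (lam v * hh v b) ^ 2 * (((1 - nb F μ b)⁻¹) ^ dK G S v - 1
          + KZero.ss (dK G S v) (um v) * KZero.ut (um v) (nb F μ b) ^ 2)
      - (#(nbh G v) : ℝ) * lam v ^ 2 * ∑ b, w b * (σ * (1 - nb F μ b) * p b + τ' * r b))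
      ≤ ∑ x, WK μ x * ∑ v, pairX F G μ (rateK F G μ w S (fun v b => lam v * hh v b) x) v := by
  rcases isEmpty_or_nonempty V with hV | ⟨⟨v₀⟩⟩
  · simp
  have hf : ∀ b, 0 ≤ f b := fun b => (hh0 v₀ b).trans (hhf v₀ b)
  have hh' : ∀ v b, 0 ≤ lam v * hh v b := fun v b => mul_nonneg (hlam v) (hh0 v b)
  have hposh : ∀ v b, 0 < lam v * hh v b → 0 < hh v b := fun v b h =>
    lt_of_le_of_ne (hh0 v b) (Ne.symm (by
      intro hc
      rw [hc, mul_zero] at h
      exact lt_irrefl _ h))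
  have hn' : ∀ v b, 0 < lam v * hh v b → nb F μ b < 1 := fun v b h =>
    hn b ((hposh v b h).trans_le (hhf v b))
  obtain ⟨C, hC⟩ : ∃ C, C = ∑ b, ∑ b', (if F.Adj b b' then
    w b * w b' * (f b * f b' / (1 - nb F μ b')) else 0) := ⟨_, rfl⟩
  have hny : ∀ b, 0 ≤ 1 - nb F μ b := fun b => by linarith [nb_le_one (F := F) h0 h1 b]
  have hC0 : 0 ≤ C := by
    rw [hC]
    refine sum_nonneg fun b _ => sum_nonneg fun b' _ => ?_
    split_ifs
    · exact mul_nonneg (mul_nonneg (hw b) (hw b'))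
        (div_nonneg (mul_nonneg (hf b) (hf b')) (hny b'))
    · exact le_rfl
  have hCle := cost_sum_le h0 h1 hw hp hr hm hf hσ0 hτ0 hσb hJ hpair
  rw [← hC] at hCle
  -- one ordered edge
  have hedge : ∀ v, ∀ u ∈ nbh G v,
      ∑ x, WK μ x * costX F G μ (rateK F G μ w S (fun v b => lam v * hh v b) x) v u
        ≤ lam v * lam u * C := by
    intro v u hu'
    refine (avg_cost h0 h1 hF hw hh' hn' (mem_nbh.1 hu')).trans ?_
    rw [hC, mul_sum]
    refine sum_le_sum fun b _ => ?_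
    rw [mul_sum]
    refine sum_le_sum fun b' _ => ?_
    by_cases hab : F.Adj b b'
    · rw [if_pos hab, if_pos hab]
      have h2 : hh v b * hh u b' ≤ f b * f b' :=
        mul_le_mul (hhf v b) (hhf u b') (hh0 u b') (hf b)
      have h3 : hh v b * hh u b' / (1 - nb F μ b') ≤ f b * f b' / (1 - nb F μ b') :=
        div_le_div_of_nonneg_right h2 (hny b')
      have h4 : 0 ≤ lam v * lam u * (w b * w b') :=
        mul_nonneg (mul_nonneg (hlam v) (hlam u)) (mul_nonneg (hw b) (hw b'))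
      calc w b * w b' * (lam v * hh v b * (lam u * hh u b') / (1 - nb F μ b'))
          = lam v * lam u * (w b * w b') * (hh v b * hh u b' / (1 - nb F μ b')) := by ring
        _ ≤ lam v * lam u * (w b * w b') * (f b * f b' / (1 - nb F μ b')) :=
          mul_le_mul_of_nonneg_left h3 h4
        _ = _ := by ring
    · rw [if_neg hab, if_neg hab, mul_zero]
  have hc : ∑ v, ∑ u ∈ nbh G v,
      ∑ x, WK μ x * costX F G μ (rateK F G μ w S (fun v b => lam v * hh v b) x) v u
      ≤ ∑ v, (#(nbh G v) : ℝ) * lam v ^ 2 * ∑ b, w b * (σ * (1 - nb F μ b) * p b + τ' * r b) := by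
    calc _ ≤ ∑ v, ∑ u ∈ nbh G v, (lam v ^ 2 * C / 2 + lam u ^ 2 * C / 2) := by
          refine sum_le_sum fun v _ => sum_le_sum fun u hu' => (hedge v u hu').trans ?_
          have h2 : 0 ≤ (lam v - lam u) ^ 2 * C := mul_nonneg (sq_nonneg _) hC0
          nlinarith
      _ = ∑ v, (#(nbh G v) : ℝ) * (lam v ^ 2 * C) := by
          simp only [sum_add_distrib]
          rw [sum_nbr_comm (G := G) fun u => lam u ^ 2 * C / 2, ← sum_add_distrib]
          refine sum_congr rfl fun v _ => ?_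
          rw [sum_const, nsmul_eq_mul]
          ring
      _ ≤ _ := by
          refine sum_le_sum fun v _ => ?_
          rw [mul_assoc]
          exact mul_le_mul_of_nonneg_left (mul_le_mul_of_nonneg_left hCle (sq_nonneg _))
            (Nat.cast_nonneg _)
  -- the average of one vertex
  have hT : ∑ x, WK μ x * ∑ v, pairX F G μ (rateK F G μ w S (fun v b => lam v * hh v b) x) v
      = ∑ v, (2 * (∑ b, w b * (lam v * hh v b)))
        - ∑ v, ∑ b, ∑ c, (w b * (lam v * hh v b) / (1 - nb F μ b) ^ dK G S v)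
          * (w c * (lam v * hh v c) / (1 - nb F μ c) ^ dK G S v)
          * (1 - nb F μ b - nb F μ c + cod F μ b c) ^ dK G S v
        - ∑ v, ∑ u ∈ nbh G v,
          ∑ x, WK μ x * costX F G μ (rateK F G μ w S (fun v b => lam v * hh v b) x) v u := by
    simp only [mul_sum]
    rw [sum_comm, ← sum_sub_distrib, ← sum_sub_distrib]
    refine sum_congr rfl fun v _ => ?_
    unfold pairX
    simp only [mul_sub, sum_sub_distrib]
    congr 1
    · congr 1
      · simp only [mul_sum]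
        rw [sum_comm]
        refine sum_congr rfl fun b _ => ?_
        rw [← avg_first (F := F) (G := G) (μ := μ) (w := w) (S := S)
          (h := fun v b => lam v * hh v b) h0 h1 hh' hn' v b, mul_sum]
        exact sum_congr rfl fun x _ => by ring
      · simp only [mul_sum]
        rw [sum_comm]
        refine sum_congr rfl fun b _ => ?_
        rw [sum_comm]
        refine sum_congr rfl fun c _ => ?_
        exact avg_clump (F := F) (G := G) (μ := μ) (w := w) (S := S)
          (h := fun v b => lam v * hh v b) h0 h1 v b c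
    · simp only [mul_sum]
      rw [sum_comm]
  rw [hT]
  have hcl : ∑ v, ∑ b, ∑ c, (w b * (lam v * hh v b) / (1 - nb F μ b) ^ dK G S v)
          * (w c * (lam v * hh v c) / (1 - nb F μ c) ^ dK G S v)
          * (1 - nb F μ b - nb F μ c + cod F μ b c) ^ dK G S v
      ≤ ∑ v, ((∑ b, w b * (lam v * hh v b)) ^ 2
        - KZero.ss (dK G S v) (um v)
          * (∑ b, w b * (lam v * hh v b) * KZero.ut (um v) (nb F μ b)) ^ 2
        + σ * ∑ b, w b * (lam v * hh v b) ^ 2 * (((1 - nb F μ b)⁻¹) ^ dK G S v - 1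
          + KZero.ss (dK G S v) (um v) * KZero.ut (um v) (nb F μ b) ^ 2)) :=
    sum_le_sum fun v _ => clumpK_le (h := fun b => lam v * hh v b) h0 h1 (hu v) (hu1 v) hw
      (hh' v) (hn' v) hσa (dK G S v)
  have hfin : ∑ v, (2 * (∑ b, w b * (lam v * hh v b)) - (∑ b, w b * (lam v * hh v b)) ^ 2
      + KZero.ss (dK G S v) (um v)
        * (∑ b, w b * (lam v * hh v b) * KZero.ut (um v) (nb F μ b)) ^ 2
      - σ * ∑ b, w b * (lam v * hh v b) ^ 2 * (((1 - nb F μ b)⁻¹) ^ dK G S v - 1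
          + KZero.ss (dK G S v) (um v) * KZero.ut (um v) (nb F μ b) ^ 2)
      - (#(nbh G v) : ℝ) * lam v ^ 2 * ∑ b, w b * (σ * (1 - nb F μ b) * p b + τ' * r b))
      = ∑ v, (2 * (∑ b, w b * (lam v * hh v b)))
        - ∑ v, ((∑ b, w b * (lam v * hh v b)) ^ 2
        - KZero.ss (dK G S v) (um v)
          * (∑ b, w b * (lam v * hh v b) * KZero.ut (um v) (nb F μ b)) ^ 2
        + σ * ∑ b, w b * (lam v * hh v b) ^ 2 * (((1 - nb F μ b)⁻¹) ^ dK G S v - 1
          + KZero.ss (dK G S v) (um v) * KZero.ut (um v) (nb F μ b) ^ 2))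
        - ∑ v, (#(nbh G v) : ℝ) * lam v ^ 2
          * ∑ b, w b * (σ * (1 - nb F μ b) * p b + τ' * r b) := by
    rw [← sum_sub_distrib, ← sum_sub_distrib]
    exact sum_congr rfl fun v _ => by ring
  rw [hfin]
  linarith

end EK

end Pool.Agent.T6J
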