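import Pool.Agent.T6A.WorldMu2

/-!
# The row of a cluster whose neighbourhood is not good for the `J` alternative (MP_c6effb_co, helper89)

`avP L n` = the average of `(1 - n) ^ d_v`, the average list probability of a cluster with `n_b = n`. `mR s n π` = the factor of the mass of a cluster of list
probability `π` in the row of a cluster with `n_b = n`. `J = N(b)` minus `A` is GOOD if `w(J) ≥ τ + η` and `w {c in J : n_c < n_(c0)} + avP (n_(c0)) ≥ τ + η` for all
`c0` in `J`, `τ = 1 - s`. `bad_row`: if `J` is not good then `∑_(c in J) w c mR s (n_b) (max 0 (avP (n_c) - η)) ≤ τ + η + e`.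
-/

set_option autoImplicit false

open Finset

namespace Pool.Agent.T6J

open Pool.Agent.T6A

noncomputable section

open Classical

/-! ### The average list probability -/

/-- the average of `(1 - n) ^ d_v` -/
def avP {V ι : Type} [Fintype V] (L : Low V ι) (n : ℝ) : ℝ :=
  (∑ v, (1 - n) ^ (L.d v)) / (Fintype.card V : ℝ)

/-- the chord of `d ↦ y ^ d` at `j, j + 1` is below `y ^ d` at all natural `d` -/
theorem pow_chord {n : ℝ} (h0 : 0 ≤ n) (h1 : n ≤ 1) (j d : ℕ) :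
    (1 - n) ^ j * (1 - ((d : ℝ) - j) * n) ≤ (1 - n) ^ d := by
  have hy : 0 ≤ 1 - n := by linarith
  rcases le_total j d with h | h
  · obtain ⟨m, rfl⟩ := Nat.exists_eq_add_of_le h
    rw [pow_add]
    refine mul_le_mul_of_nonneg_left ?_ (pow_nonneg hy j)
    have := one_add_mul_le_pow (a := -n) (by linarith) m
    have e : (1 + -n) = 1 - n := by ring
    rw [e] at this
    refine le_trans (le_of_eq ?_) this
    push_cast
    ring
  · obtain ⟨m, rfl⟩ := Nat.exists_eq_add_of_le h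
    rw [pow_add]
    have h2 : (1 - n) ^ m * (1 + m * n) ≤ 1 := by
      clear h
      induction m with
      | zero => simp
      | succ m ih =>
        refine le_trans ?_ ih
        rw [pow_succ, mul_assoc]
        refine mul_le_mul_of_nonneg_left ?_ (pow_nonneg hy m)
        push_cast
        nlinarith [mul_nonneg h0 h0, mul_nonneg (Nat.cast_nonneg (α := ℝ) m) (mul_nonneg h0 h0)]
    calc (1 - n) ^ d * (1 - n) ^ m * (1 - ((d : ℝ) - ((d + m : ℕ) : ℝ)) * n)
        = (1 - n) ^ d * ((1 - n) ^ m * (1 + m * n)) := by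
          push_cast
          ring
      _ ≤ (1 - n) ^ d * 1 := mul_le_mul_of_nonneg_left h2 (pow_nonneg hy d)
      _ = (1 - n) ^ d := mul_one _

theorem avP_ge {V ι : Type} [Fintype V] (L : Low V ι) {D n : ℝ} (j : ℕ)
    (hc : 0 < Fintype.card V) (hD : ∑ v, (L.d v : ℝ) ≤ D * Fintype.card V) (h0 : 0 ≤ n)
    (h1 : n ≤ 1) : (1 - n) ^ j * (1 - (D - j) * n) ≤ avP L n := by
  have hc' : (0 : ℝ) < Fintype.card V := by exact_mod_cast hc
  unfold avP
  rw [le_div_iff₀ hc']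
  have h2 : ∑ v, (1 - n) ^ j * (1 - ((L.d v : ℝ) - j) * n) ≤ ∑ v, (1 - n) ^ (L.d v) :=
    sum_le_sum fun v _ => pow_chord h0 h1 j (L.d v)
  refine le_trans ?_ h2
  have h3 : ∑ v, (1 - n) ^ j * (1 - ((L.d v : ℝ) - j) * n) =
      (1 - n) ^ j * ((1 + j * n) * Fintype.card V - n * ∑ v, (L.d v : ℝ)) := by
    rw [← mul_sum]
    congr 1
    have : ∀ v, 1 - ((L.d v : ℝ) - j) * n = (1 + j * n) - n * (L.d v : ℝ) := fun v => by ring
    simp only [this]
    rw [sum_sub_distrib, sum_const, card_univ, nsmul_eq_mul, ← mul_sum]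
    ring
  rw [h3, mul_assoc]
  refine mul_le_mul_of_nonneg_left ?_ (pow_nonneg (by linarith) j)
  have h4 := mul_le_mul_of_nonneg_left hD h0
  nlinarith

theorem avP_nonneg {V ι : Type} [Fintype V] (L : Low V ι) {n : ℝ} (h1 : n ≤ 1) : 0 ≤ avP L n :=
  div_nonneg (sum_nonneg fun _ _ => pow_nonneg (by linarith) _) (Nat.cast_nonneg _)

theorem avP_le_one {V ι : Type} [Fintype V] (L : Low V ι) {n : ℝ} (h0 : 0 ≤ n) (h1 : n ≤ 1) :
    avP L n ≤ 1 := by
  unfold avP
  refine div_le_one_of_le₀ ?_ (Nat.cast_nonneg _)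
  calc ∑ v, (1 - n) ^ (L.d v) ≤ ∑ _v : V, (1 : ℝ) :=
        sum_le_sum fun v _ => pow_le_one₀ (by linarith) (by linarith)
    _ = Fintype.card V := by simp

/-- clusters with larger `n` have a smaller list probability -/
theorem avP_anti {V ι : Type} [Fintype V] (L : Low V ι) {n n' : ℝ} (h : n ≤ n') (h1 : n' ≤ 1) :
    avP L n' ≤ avP L n := by
  unfold avP
  refine div_le_div_of_nonneg_right ?_ (Nat.cast_nonneg _)
  exact sum_le_sum fun v _ => pow_le_pow_left₀ (by linarith) (by linarith) _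

/-! ### The factor -/

/-- the factor of the mass -/
def mR (s n π : ℝ) : ℝ :=
  if 1 - s ≤ π ∨ s * (1 - n) ≤ 1 - s then 1 else π / (π + s * (1 - n) - (1 - s))

theorem mR_of {s n π : ℝ} (h : 1 - s ≤ π ∨ s * (1 - n) ≤ 1 - s) : mR s n π = 1 := by
  unfold mR
  rw [if_pos h]

theorem mR_eq {s n π : ℝ} (h : π < 1 - s) (h' : 1 - s < s * (1 - n)) :
    mR s n π = π / (π + s * (1 - n) - (1 - s)) := by
  unfold mR
  rw [if_neg]
  rintro (hh | hh)
  · exact absurd h (not_lt.2 hh)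
  · exact absurd h' (not_lt.2 hh)

theorem mR_nonneg {s n π : ℝ} (hπ : 0 ≤ π) : 0 ≤ mR s n π := by
  unfold mR
  split_ifs with h
  · exact zero_le_one
  · push Not at h
    exact div_nonneg hπ (by linarith [h.2])

theorem mR_le_one {s n π : ℝ} (hπ : 0 ≤ π) : mR s n π ≤ 1 := by
  unfold mR
  split_ifs with h
  · exact le_rfl
  · push Not at h
    exact div_le_one_of_le₀ (by linarith [h.2]) (by linarith [h.2])

theorem mR_mono {s n π π' : ℝ} (hπ : 0 ≤ π) (h : π ≤ π') : mR s n π ≤ mR s n π' := by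
  rcases le_or_gt (1 - s) π' with h1 | h1
  · rw [mR_of (Or.inl h1)]
    exact mR_le_one hπ
  rcases le_or_gt (s * (1 - n)) (1 - s) with h2 | h2
  · rw [mR_of (Or.inr h2), mR_of (Or.inr h2)]
  rw [mR_eq h1 h2, mR_eq (h.trans_lt h1) h2, div_le_div_iff₀ (by linarith) (by linarith)]
  nlinarith

theorem mR_mono_n {s n n' π : ℝ} (hs : 0 ≤ s) (hπ : 0 ≤ π) (h : n ≤ n') :
    mR s n π ≤ mR s n' π := by
  have h0 : s * (1 - n') ≤ s * (1 - n) := mul_le_mul_of_nonneg_left (by linarith) hs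
  rcases le_or_gt (1 - s) π with h1 | h1
  · rw [mR_of (Or.inl h1), mR_of (Or.inl h1)]
  rcases le_or_gt (s * (1 - n')) (1 - s) with h2 | h2
  · rw [mR_of (n := n') (Or.inr h2)]
    exact mR_le_one hπ
  rw [mR_eq h1 h2, mR_eq h1 (h2.trans_le h0)]
  exact div_le_div_of_nonneg_left hπ (by linarith) (by linarith)

/-! ### The row -/

variable {V ι : Type} [Fintype V] [Fintype ι]

/-- the weight of the clusters of `N(b)` outside `A` -/
def wJ (X : World ι) (b : ι) : ℝ := ∑ c, if X.F.Adj b c ∧ c ∉ X.A then X.w c else 0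

/-- the weight of the clusters `c` of `N(b)` outside `A` with `n_c < t` -/
def wJlt (X : World ι) (b : ι) (t : ℝ) : ℝ :=
  ∑ c, if (X.F.Adj b c ∧ c ∉ X.A) ∧ nb X.F X.mu c < t then X.w c else 0

theorem wJ_le (X : World ι) {e : ℝ} (h : 0 < X.sA) (he : X.s - e ≤ X.sA) (he0 : 0 ≤ e) (b : ι) :
    wJ X b ≤ X.s * (1 - nb X.F X.mu b) + e := by
  have h1 : wJ X b ≤ X.s - X.sA * nb X.F X.mu b := by
    refine le_trans (le_of_eq ?_) (X.rowOut_le h b)
    unfold wJ
    refine sum_congr rfl fun c _ => ?_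
    by_cases h1 : X.F.Adj b c <;> by_cases h2 : c ∈ X.A <;> simp [h1, h2]
  have h2 := nb_nonneg (F := X.F) X.mu_nonneg b
  have h3 := nb_le_one (F := X.F) X.mu_nonneg (X.mu_sum h) b
  have h4 : (X.s - e) * nb X.F X.mu b ≤ X.sA * nb X.F X.mu b := mul_le_mul_of_nonneg_right he h2
  nlinarith

/-- **The row of a bad neighbourhood.** -/
theorem bad_row (X : World ι) (L : Low V ι) {e η : ℝ} (h : 0 < X.sA) (he : X.s - e ≤ X.sA)
    (he0 : 0 ≤ e) (hη : 0 ≤ η) (hs : X.s < 1) (b : ι)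
    (hbad : wJ X b < 1 - X.s + η ∨ ∃ c0, X.F.Adj b c0 ∧ c0 ∉ X.A ∧
      wJlt X b (nb X.F X.mu c0) + avP L (nb X.F X.mu c0) < 1 - X.s + η) :
    ∑ c, (if X.F.Adj b c ∧ c ∉ X.A then
      X.w c * mR X.s (nb X.F X.mu b) (max 0 (avP L (nb X.F X.mu c) - η)) else 0) ≤
      1 - X.s + η + e := by
  have hnc1 : ∀ c, nb X.F X.mu c ≤ 1 := fun c => nb_le_one X.mu_nonneg (X.mu_sum h) c
  -- the sum is at most the weight
  have hle : ∑ c, (if X.F.Adj b c ∧ c ∉ X.A then
      X.w c * mR X.s (nb X.F X.mu b) (max 0 (avP L (nb X.F X.mu c) - η)) else 0) ≤ wJ X b := by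
    unfold wJ
    refine sum_le_sum fun c _ => ?_
    split_ifs
    · exact mul_le_of_le_one_right (X.pos c).le (mR_le_one (le_max_left _ _))
    · exact le_rfl
  have hwJ := wJ_le X h he he0 b
  rcases hbad with hbad | ⟨c0, hc1, hc2, hbad⟩
  · linarith
  rcases le_or_gt (X.s * (1 - nb X.F X.mu b)) (1 - X.s) with h1 | h1
  · linarith
  -- the main case
  obtain ⟨q, hq⟩ : ∃ q, q = max 0 (avP L (nb X.F X.mu c0) - η) := ⟨_, rfl⟩
  obtain ⟨x, hx⟩ : ∃ x, x = wJlt X b (nb X.F X.mu c0) := ⟨_, rfl⟩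
  have hx0 : 0 ≤ x := by
    rw [hx]
    unfold wJlt
    refine sum_nonneg fun c _ => ?_
    split_ifs
    · exact (X.pos c).le
    · exact le_rfl
  rw [← hx] at hbad
  have hq0 : 0 ≤ q := by rw [hq]; exact le_max_left _ _
  have hp0 : 0 ≤ avP L (nb X.F X.mu c0) := avP_nonneg L (hnc1 c0)
  have hq1 : q < 1 - X.s := by
    rw [hq, max_lt_iff]
    constructor <;> linarith
  obtain ⟨m, hm⟩ : ∃ m, m = mR X.s (nb X.F X.mu b) q := ⟨_, rfl⟩
  have hm0 : 0 ≤ m := by rw [hm]; exact mR_nonneg hq0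
  have hm1 : m ≤ 1 := by rw [hm]; exact mR_le_one hq0
  have hmq : m * (q + X.s * (1 - nb X.F X.mu b) - (1 - X.s)) = q := by
    rw [hm, mR_eq hq1 h1]
    exact div_mul_cancel₀ _ (by linarith)
  have hsum : ∑ c, (if X.F.Adj b c ∧ c ∉ X.A then
      X.w c * mR X.s (nb X.F X.mu b) (max 0 (avP L (nb X.F X.mu c) - η)) else 0) ≤
      x + (wJ X b - x) * m := by
    have e1 : x + (wJ X b - x) * m = ∑ c, ((1 - m) *
        (if (X.F.Adj b c ∧ c ∉ X.A) ∧ nb X.F X.mu c < nb X.F X.mu c0 then X.w c else 0) +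
        m * (if X.F.Adj b c ∧ c ∉ X.A then X.w c else 0)) := by
      rw [sum_add_distrib, ← mul_sum, ← mul_sum, hx]
      unfold wJ wJlt
      ring
    rw [e1]
    refine sum_le_sum fun c _ => ?_
    by_cases hc : X.F.Adj b c ∧ c ∉ X.A
    · by_cases hlt : nb X.F X.mu c < nb X.F X.mu c0
      · rw [if_pos hc, if_pos ⟨hc, hlt⟩, if_pos hc]
        have := mul_le_of_le_one_right (X.pos c).le
          (mR_le_one (s := X.s) (n := nb X.F X.mu b) (le_max_left 0 (avP L (nb X.F X.mu c) - η)))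
        linarith
      · rw [if_pos hc, if_neg (fun hh => hlt hh.2), if_pos hc, mul_zero, zero_add, mul_comm m]
        refine mul_le_mul_of_nonneg_left ?_ (X.pos c).le
        rw [hm, hq]
        refine mR_mono (le_max_left _ _) (max_le_max le_rfl ?_)
        have := avP_anti L (not_lt.1 hlt) (hnc1 c)
        linarith
    · rw [if_neg hc, if_neg (fun hh => hc hh.1), if_neg hc, mul_zero, mul_zero, add_zero]
  refine hsum.trans ?_
  -- x ≤ τ + η - q in all cases
  have hxq : x ≤ 1 - X.s + η - q := by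
    rw [hq]
    rcases le_total 0 (avP L (nb X.F X.mu c0) - η) with h2 | h2
    · rw [max_eq_right h2]
      linarith
    · rw [max_eq_left h2]
      linarith
  have h3 : x * (1 - m) ≤ (1 - X.s + η - q) * (1 - m) :=
    mul_le_mul_of_nonneg_right hxq (by linarith)
  have h4 : wJ X b * m ≤ (X.s * (1 - nb X.F X.mu b) + e) * m :=
    mul_le_mul_of_nonneg_right hwJ hm0
  have h5 : 0 ≤ η * m := mul_nonneg hη hm0
  have h6 : e * m ≤ e := mul_le_of_le_one_right he0 hm1
  nlinarith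

/-- The same for a subset `J` of `N(b)` minus `A` which contains all but the weight `ρ`. -/
theorem bad_row_sub (X : World ι) (L : Low V ι) {e η ρ e₀ : ℝ} (h : 0 < X.sA)
    (he : X.s - e ≤ X.sA) (he0 : 0 ≤ e) (hη : 0 ≤ η) (hs : X.s < 1) (b : ι) (J : Finset ι)
    (hJ : ∀ c ∈ J, X.F.Adj b c ∧ c ∉ X.A)
    (hρ : ∑ c, (if (X.F.Adj b c ∧ c ∉ X.A) ∧ c ∉ J then X.w c else 0) ≤ ρ) (hle : e + η + ρ ≤ e₀)
    (hbad : ∑ c ∈ J, X.w c < 1 - X.s + η ∨ ∃ c0 ∈ J,
      ∑ c ∈ J with nb X.F X.mu c < nb X.F X.mu c0, X.w c + avP L (nb X.F X.mu c0) <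
        1 - X.s + η) :
    ∑ c, (if X.F.Adj b c ∧ c ∉ X.A then
      X.w c * mR X.s (nb X.F X.mu b) (max 0 (avP L (nb X.F X.mu c) - e₀)) else 0) ≤ 1 - X.s + e₀ := by
  have hρ0 : 0 ≤ ρ := by
    refine le_trans (sum_nonneg fun c _ => ?_) hρ
    split_ifs
    · exact (X.pos c).le
    · exact le_rfl
  have hbad' : wJ X b < 1 - X.s + (η + ρ) ∨ ∃ c0, X.F.Adj b c0 ∧ c0 ∉ X.A ∧
      wJlt X b (nb X.F X.mu c0) + avP L (nb X.F X.mu c0) < 1 - X.s + (η + ρ) := by
    rcases hbad with hb | ⟨c0, hc0, hb⟩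
    · left
      have h1 : wJ X b ≤ ∑ c ∈ J, X.w c +
          ∑ c, (if (X.F.Adj b c ∧ c ∉ X.A) ∧ c ∉ J then X.w c else 0) := by
        have e1 : ∑ c ∈ J, X.w c = ∑ c, (if c ∈ J then X.w c else 0) := by
          rw [← sum_filter, filter_mem_eq_inter, univ_inter]
        rw [e1, ← sum_add_distrib]
        unfold wJ
        refine sum_le_sum fun c _ => ?_
        have := (X.pos c).le
        by_cases h1 : X.F.Adj b c ∧ c ∉ X.A <;> by_cases h2 : c ∈ J <;> simp [h1, h2, this]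
      linarith
    · right
      refine ⟨c0, (hJ c0 hc0).1, (hJ c0 hc0).2, ?_⟩
      have h1 : wJlt X b (nb X.F X.mu c0) ≤
          ∑ c ∈ J with nb X.F X.mu c < nb X.F X.mu c0, X.w c +
          ∑ c, (if (X.F.Adj b c ∧ c ∉ X.A) ∧ c ∉ J then X.w c else 0) := by
        have e1 : ∑ c ∈ J with nb X.F X.mu c < nb X.F X.mu c0, X.w c =
            ∑ c, (if c ∈ J ∧ nb X.F X.mu c < nb X.F X.mu c0 then X.w c else 0) := by
          rw [← sum_filter]
          refine sum_congr ?_ fun _ _ => rfl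
          ext c
          simp
        rw [e1, ← sum_add_distrib]
        unfold wJlt
        refine sum_le_sum fun c _ => ?_
        have := (X.pos c).le
        by_cases h1 : X.F.Adj b c ∧ c ∉ X.A <;> by_cases h2 : c ∈ J <;>
          by_cases h3 : nb X.F X.mu c < nb X.F X.mu c0 <;> simp [h1, h2, h3, this]
      linarith
  have h2 := bad_row X L (η := η + ρ) h he he0 (by linarith) hs b hbad'
  refine (sum_le_sum fun c _ => ?_).trans (h2.trans (by linarith))
  split_ifs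
  · exact mul_le_mul_of_nonneg_left (mR_mono (le_max_left _ _) (max_le_max le_rfl (by linarith)))
      (X.pos c).le
  · exact le_rfl

/-- The set `J` of the cluster `b`: the clusters of `N(b)` outside `A` which are allowed for all but
`e1 k` vertices. -/
def Jb (X : World ι) (L : Low V ι) (k e1 : ℝ) (b : ι) : Finset ι :=
  univ.filter fun y => (X.F.Adj b y ∧ y ∉ X.A) ∧ (#{v | y ∉ L.Bv v} : ℝ) ≤ e1 * k

theorem mem_Jb {X : World ι} {L : Low V ι} {k e1 : ℝ} {b y : ι} :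
    y ∈ Jb X L k e1 b ↔ (X.F.Adj b y ∧ y ∉ X.A) ∧ (#{v | y ∉ L.Bv v} : ℝ) ≤ e1 * k := by
  unfold Jb
  simp

/-- the clusters of `Jb` are pairwise not blocked -/
theorem Jb_indep {X : World ι} {L : Low V ι} {k e1 : ℝ} {b y y' : ι} (h : y ∈ Jb X L k e1 b)
    (h' : y' ∈ Jb X L k e1 b) : ¬ X.F.Adj y y' :=
  X.nbhd_indep (mem_Jb.1 h).1.1 (mem_Jb.1 h').1.1

/-- the weight which is missing in `Jb` -/
theorem Jb_rest (X : World ι) (L : Low V ι) {k e e1 : ℝ} (hk : 0 < k)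
    (hV : (Fintype.card V : ℝ) ≤ k) (he0 : 0 ≤ e) (he1 : 0 < e1) (hee : 2 * e ≤ e1)
    (hE : (#L.E : ℝ) ≤ e * k)
    (hB : ∀ v, v ∉ L.E → ∑ i ∈ univ.filter (fun i => i ∉ X.A ∧ i ∉ L.Bv v), X.w i ≤ e) (b : ι) :
    ∑ c, (if (X.F.Adj b c ∧ c ∉ X.A) ∧ c ∉ Jb X L k e1 b then X.w c else 0) ≤ 2 * e / e1 := by
  have h1 : ∑ c, (if (X.F.Adj b c ∧ c ∉ X.A) ∧ c ∉ Jb X L k e1 b then X.w c else 0) *
      (e1 / 2 * k) ≤ ∑ c, ∑ v : V, (if v ∉ L.E ∧ c ∉ X.A ∧ c ∉ L.Bv v then X.w c else 0) := by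
    refine sum_le_sum fun c _ => ?_
    by_cases hc : (X.F.Adj b c ∧ c ∉ X.A) ∧ c ∉ Jb X L k e1 b
    · rw [if_pos hc]
      have h2 : e1 * k ≤ (#{v | c ∉ L.Bv v} : ℝ) := by
        by_contra hh
        rw [not_le] at hh
        exact hc.2 (mem_Jb.2 ⟨hc.1, hh.le⟩)
      have h2' : (#{v | c ∉ L.Bv v} : ℝ) ≤ (#{v | v ∉ L.E ∧ c ∉ L.Bv v} : ℝ) + #L.E := by
        have h4 : #{v | c ∉ L.Bv v} ≤ #{v | v ∉ L.E ∧ c ∉ L.Bv v} + #L.E := by
          refine (card_le_card ?_).trans (card_union_le _ _)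
          intro v hv
          rw [mem_filter] at hv
          rw [mem_union, mem_filter]
          by_cases hvE : v ∈ L.E
          · exact Or.inr hvE
          · exact Or.inl ⟨mem_univ v, hvE, hv.2⟩
        exact_mod_cast h4
      have h3 : ∑ v : V, (if v ∉ L.E ∧ c ∉ X.A ∧ c ∉ L.Bv v then X.w c else 0) =
          X.w c * (#{v | v ∉ L.E ∧ c ∉ L.Bv v} : ℝ) := by
        rw [← sum_filter, sum_const, nsmul_eq_mul, mul_comm]
        congr 3
        ext v
        simp [hc.1.2]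
      rw [h3]
      refine mul_le_mul_of_nonneg_left ?_ (X.pos c).le
      have h5 := mul_le_mul_of_nonneg_right hee hk.le
      linarith
    · rw [if_neg hc, zero_mul]
      refine sum_nonneg fun v _ => ?_
      split_ifs
      · exact (X.pos c).le
      · exact le_rfl
  have h2 : ∑ c, ∑ v : V, (if v ∉ L.E ∧ c ∉ X.A ∧ c ∉ L.Bv v then X.w c else 0) ≤ e * k := by
    rw [sum_comm]
    have h3 : ∀ v : V, ∑ c, (if v ∉ L.E ∧ c ∉ X.A ∧ c ∉ L.Bv v then X.w c else 0) ≤ e := by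
      intro v
      by_cases hv : v ∈ L.E
      · simp [hv, he0]
      · have h4 := hB v hv
        rw [sum_filter] at h4
        refine le_trans (le_of_eq ?_) h4
        refine sum_congr rfl fun c _ => ?_
        simp [hv]
    refine (sum_le_sum fun v _ => h3 v).trans ?_
    rw [sum_const, card_univ, nsmul_eq_mul, mul_comm]
    exact mul_le_mul_of_nonneg_left hV he0
  rw [← sum_mul] at h1
  rw [le_div_iff₀ he1]
  refine le_of_mul_le_mul_right ?_ hk
  calc _ = 2 * ((∑ c, (if (X.F.Adj b c ∧ c ∉ X.A) ∧ c ∉ Jb X L k e1 b then X.w c else 0)) *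
        (e1 / 2 * k)) := by ring
    _ ≤ 2 * (e * k) := by linarith [h1.trans h2]
    _ = _ := by ring

end

end Pool.Agent.T6J
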