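import Pool.Agent.T6J.St
import Pool.Agent.T6J.JRow
import Pool.Agent.T6A.JScheme2

/-!
# The dichotomy of Theorem B: a scheme, or all rows are bad (MP_c6effb_co, helper89)

`dichotomy`: for some `b` outside `A` the set `Jb` fulfils the hypotheses of `cut_world`, or `BadRow`.
`scheme_or_badRow`: from `scheme_of_good` (helper26, helper63) and `dichotomy`.
-/

set_option autoImplicit false

open Finset

namespace Pool.Agent.T6J

open Pool.Agent.T6A

noncomputable section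

open Classical

variable {V ι : Type} [Fintype V] [Fintype ι]

/-- The factor of `St.lean` and the factor of `JRow.lean`. -/
theorem mJ_eq_mR {s n π : ℝ} (hs : s < 1) : mJ s n π = mR s n (max 0 π) := by
  have h : (1 - s ≤ π ∨ s * (1 - n) ≤ 1 - s) ↔ (1 - s ≤ max 0 π ∨ s * (1 - n) ≤ 1 - s) := by
    rw [le_max_iff]
    constructor
    · rintro (h | h)
      · exact Or.inl (Or.inr h)
      · exact Or.inr h
    · rintro ((h | h) | h)
      · linarith
      · exact Or.inl h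
      · exact Or.inr h
  unfold mJ mR
  by_cases h1 : 1 - s ≤ π ∨ s * (1 - n) ≤ 1 - s
  · rw [if_pos h1, if_pos (h.1 h1)]
  · rw [if_neg h1, if_neg fun h2 => h1 (h.2 h2)]

/-- **Dichotomy.** `κ` = slack `k (δ + K ε₁)` of `cut_world` divided by `k`. -/
theorem dichotomy (X : World ι) (L : Low V ι) {Bd : ι → ι → Prop} {k Q : ℝ} {C K : ℕ}
    {e ε e1 t κ eT e₀ : ℝ} (hW : WorldOK X L Bd k Q C K e ε) (he0 : 0 ≤ e) (he : e ≤ 1 / 8)
    (hs : X.s < 1) (hj : ∀ v, L.j v = 0) (he1 : 0 < e1) (hee : 2 * e ≤ e1) (heT : 0 ≤ eT)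
    (ht : t + k * κ ≤ (1 - X.s + eT) * k) (hle : 3 * e + eT + e1 + 2 * e / e1 ≤ e₀) :
    (∃ b, b ∉ X.A ∧ t + k * κ ≤ (1 - e) * (∑ y ∈ Jb X L k e1 b, X.w y) * k ∧
      ∀ y ∈ Jb X L k e1 b, t + k * κ ≤
        ∑ v, (if y ∈ L.Bv v then (1 - nb X.F X.mu y) ^ L.d v else 0) +
          (1 - e) * (∑ y' ∈ Jb X L k e1 b with nb X.F X.mu y' < nb X.F X.mu y, X.w y') * k) ∨
    BadRow X L e₀ := by
  by_cases hgood : ∃ b, b ∉ X.A ∧ t + k * κ ≤ (1 - e) * (∑ y ∈ Jb X L k e1 b, X.w y) * k ∧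
      ∀ y ∈ Jb X L k e1 b, t + k * κ ≤
        ∑ v, (if y ∈ L.Bv v then (1 - nb X.F X.mu y) ^ L.d v else 0) +
          (1 - e) * (∑ y' ∈ Jb X L k e1 b with nb X.F X.mu y' < nb X.F X.mu y, X.w y') * k
  · exact Or.inl hgood
  right
  push Not at hgood
  have hk := hW.k0
  have hsA : 0 < X.sA := by
    have h1 := hW.s1
    have h2 := hW.s2
    linarith
  have hB : ∀ v, v ∉ L.E → ∑ i ∈ univ.filter (fun i => i ∉ X.A ∧ i ∉ L.Bv v), X.w i ≤ e := by
    intro v hv
    have h1 := hW.Bvw v hv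
    rw [if_pos (hj v), zero_add] at h1
    exact h1
  intro b hb
  have hmain := bad_row_sub X L (e := e) (η := eT + 2 * e + e1) (ρ := 2 * e / e1) (e₀ := e₀) hsA hW.s2
    he0 (by linarith) hs b (Jb X L k e1 b) (fun c hc => (mem_Jb.1 hc).1)
    (Jb_rest X L hk hW.cV he0 he1 hee hW.Ec hB b) (by linarith) ?_
  · refine le_trans (sum_le_sum fun c _ => ?_) hmain
    rw [mJ_eq_mR hs]
    exact le_rfl
  -- sums over subsets of `Jb` are at most `s`
  have hw1 : ∀ S : Finset ι, S ⊆ Jb X L k e1 b → ∑ y ∈ S, X.w y ≤ 1 := by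
    intro S hS
    refine le_trans (X.max S fun a ha a' ha' => ?_) hs.le
    exact Jb_indep (hS ha) (hS ha')
  by_cases h1 : t + k * κ ≤ (1 - e) * (∑ y ∈ Jb X L k e1 b, X.w y) * k
  · right
    obtain ⟨y, hy, h2⟩ := hgood b hb h1
    refine ⟨y, hy, ?_⟩
    have h3 := h2.trans_le ht
    have hyJ := (mem_Jb.1 hy).2
    have hn0 := nb_nonneg (F := X.F) X.mu_nonneg y
    have hn1 := nb_le_one (F := X.F) X.mu_nonneg (X.mu_sum hsA) y
    have h4 : (avP L (nb X.F X.mu y) - e - e1) * k ≤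
        ∑ v, (if y ∈ L.Bv v then (1 - nb X.F X.mu y) ^ L.d v else 0) := by
      have h5 : ∑ v, (1 - nb X.F X.mu y) ^ L.d v - (#{v | y ∉ L.Bv v} : ℝ) ≤
          ∑ v, (if y ∈ L.Bv v then (1 - nb X.F X.mu y) ^ L.d v else 0) := by
        have e1 : (#{v | y ∉ L.Bv v} : ℝ) = ∑ v, (if y ∉ L.Bv v then (1 : ℝ) else 0) := by
          rw [← sum_filter, sum_const, nsmul_eq_mul, mul_one]
        rw [e1, ← sum_sub_distrib]
        refine sum_le_sum fun v _ => ?_
        have h6 : (1 - nb X.F X.mu y) ^ L.d v ≤ 1 := pow_le_one₀ (by linarith) (by linarith)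
        by_cases h7 : y ∈ L.Bv v
        · simp [h7]
        · simp only [h7, not_false_eq_true, if_true, if_false]
          linarith
      have h6 : (avP L (nb X.F X.mu y) - e) * k ≤ ∑ v, (1 - nb X.F X.mu y) ^ L.d v := by
        have h7 := avP_le_one L hn0 hn1
        have h8 := avP_nonneg L (n := nb X.F X.mu y) hn1
        have hc0 : (0 : ℝ) < Fintype.card V := by
          have := hW.cV'
          nlinarith
        have h9 : avP L (nb X.F X.mu y) * Fintype.card V =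
            ∑ v, (1 - nb X.F X.mu y) ^ L.d v := by
          unfold avP
          exact div_mul_cancel₀ _ hc0.ne'
        rw [← h9]
        have h10 := mul_le_mul_of_nonneg_left hW.cV' h8
        have h11 : avP L (nb X.F X.mu y) * (e * k) ≤ 1 * (e * k) :=
          mul_le_mul_of_nonneg_right h7 (mul_nonneg he0 hk.le)
        nlinarith
      nlinarith
    have h5 := hw1 _ (filter_subset (fun y' => nb X.F X.mu y' < nb X.F X.mu y) _)
    have h6 : (avP L (nb X.F X.mu y) - e - e1) +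
        (1 - e) * (∑ y' ∈ Jb X L k e1 b with nb X.F X.mu y' < nb X.F X.mu y, X.w y') <
        1 - X.s + eT := by
      refine lt_of_mul_lt_mul_right ?_ hk.le
      nlinarith
    have h7 := mul_le_mul_of_nonneg_left h5 he0
    nlinarith
  · left
    rw [not_le] at h1
    have h2 : (1 - e) * (∑ y ∈ Jb X L k e1 b, X.w y) < 1 - X.s + eT := by
      refine lt_of_mul_lt_mul_right ?_ hk.le
      linarith
    have h3 := mul_le_mul_of_nonneg_left (hw1 _ (Subset.refl _)) he0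
    nlinarith

/-- **A scheme, or all rows are bad.** `ε` depends only on `K`, `η`, `ζ`. -/
theorem scheme_or_badRow (K : ℕ) {η ζ : ℝ} (hη : 0 < η) (hζ : 0 < ζ) : ∃ ε : ℝ, 0 < ε ∧
    ∀ (V ι : Type) [Fintype V] [Fintype ι] (X : World ι) (L : Low V ι) (Bd : ι → ι → Prop)
      (k Q : ℝ) (C : ℕ) (e e1 e₀ : ℝ), 0 ≤ e → e ≤ 1 / 8 → 0 < e1 → 2 * e ≤ e1 →
      5 * e + 3 * η + e1 + 2 * e / e1 ≤ e₀ → WorldOK X L Bd k Q C K e ε → X.s < 1 →
      (∀ v, L.j v = 0) →
      (∃ (Om : Type) (_ : Fintype Om) (p : V → Om → ℝ) (g : (V → Om) → V → ι)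
        (b : (V → Om) → V → Option ι) (Bn : V → Finset V) (φ : ι → ι → ℝ),
        Scheme X L Bd k e ζ ((K + 1) * (K + 1) * ((K + 1) * (K + 1))) p g b Bn φ) ∨
      BadRow X L e₀ := by
  obtain ⟨ε, hε, hmain⟩ := scheme_of_good K hη hζ
  refine ⟨ε, hε, ?_⟩
  intro V ι _ _ X L Bd k Q C e e1 e₀ he0 he8 he1 hee hle hW hs hj
  have hk := hW.k0
  have ht : (Fintype.card V : ℝ) - ((1 - e) * X.sA - 3 * η) * k ≤
      (1 - X.s + (2 * e + 3 * η)) * k := by
    have h1 := hW.cV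
    have h2 := hW.s2
    have h3 : X.s - 2 * e ≤ (1 - e) * X.sA := by
      have h4 := X.sA_le
      have h5 : e * X.sA ≤ e * 1 := mul_le_mul_of_nonneg_left (by linarith) he0
      linarith
    have h4 := mul_le_mul_of_nonneg_right h3 hk.le
    linarith
  have hd := dichotomy X L (t := (Fintype.card V : ℝ) - ((1 - e) * X.sA - 3 * η) * k) (κ := 0)
    (eT := 2 * e + 3 * η) (e₀ := e₀) hW he0 he8 hs hj he1 hee (by positivity)
    (by rw [mul_zero, add_zero]; exact ht) (by linarith)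
  rcases hd with ⟨b, -, h1, h2⟩ | h
  · left
    rw [mul_zero, add_zero] at h1
    simp only [mul_zero, add_zero] at h2
    exact hmain V ι X L Bd k Q C e he0 he8 hW (Jb X L k e1 b) (fun y hy => (mem_Jb.1 hy).1.2)
      (fun y hy y' hy' => Jb_indep hy hy') h1 h2
  · exact Or.inr h

/-- **The dichotomy in the form of the assembly.** `e` is chosen after `e₀`; `B`, `ε` depend on `K`, `e₀`, `z`. -/
theorem dicho : ∀ (K : ℕ) (e₀ : ℝ), 0 < e₀ → ∃ e1 : ℝ, 0 < e1 ∧ ∀ e : ℝ, 0 < e → e ≤ e1 →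
    ∀ z : ℝ, 0 < z → ∃ (B : ℕ) (ε : ℝ), 0 < ε ∧
    ∀ (V ι : Type) [Fintype V] [Fintype ι] (X : World ι) (L : Low V ι) (Bd : ι → ι → Prop)
      (k Q : ℝ) (C : ℕ), WorldOK X L Bd k Q C K e ε → (∀ v, L.j v = 0) → X.s < 1 →
      BadRow X L e₀ ∨ ∃ (Om : Type) (_ : Fintype Om) (p : V → Om → ℝ) (g : (V → Om) → V → ι)
        (b : (V → Om) → V → Option ι) (Bn : V → Finset V) (φ : ι → ι → ℝ),
        Scheme X L Bd k e z B p g b Bn φ := by
  intro K e₀ h0
  refine ⟨min (1 / 8) (min (e₀ / 64) (e₀ ^ 2 / 64)), by positivity, ?_⟩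
  intro e he hle z hz
  have h1 : e ≤ 1 / 8 := hle.trans (min_le_left _ _)
  have h2 : e ≤ e₀ / 64 := hle.trans ((min_le_right _ _).trans (min_le_left _ _))
  have h3 : e ≤ e₀ ^ 2 / 64 := hle.trans ((min_le_right _ _).trans (min_le_right _ _))
  obtain ⟨ε, hε, hmain⟩ := scheme_or_badRow K (η := e₀ / 16) (by positivity) hz
  refine ⟨(K + 1) * (K + 1) * ((K + 1) * (K + 1)), ε, hε, ?_⟩
  intro V ι _ _ X L Bd k Q C hW hj hs
  have h4 : 2 * e / (e₀ / 8) ≤ e₀ / 4 := by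
    rw [div_le_iff₀ (by positivity)]
    nlinarith
  exact (hmain V ι X L Bd k Q C e (e₀ / 8) e₀ he.le h1 (by positivity) (by linarith) (by linarith)
    hW hs hj).symm

end

end Pool.Agent.T6J
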