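import Pool.Agent.T6A.JScheme

/-!
# The scheme of a kernel (MP_c6effb_co)

`J` = an `F`-independent set of clusters outside `A`, `q` = a kernel for the lists in `J` with the
loads and the value which are needed. Then there is a scheme; the tolerance `ε` for bad pairs depends
only on the bounds.
-/

set_option autoImplicit false
set_option linter.unusedSectionVars false

open Finset
open Pool.Agent.T6A

namespace Pool.Agent.T6J

noncomputable section

open Classical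

section one

variable {V ι : Type} [Fintype V] [Fintype ι] {X : World ι} {L : Low V ι} {Bd : ι → ι → Prop}
  {J : Finset ι} {R : ℝ} {q : V → Finset ι → ι → ℝ} {μ : ι → ℝ}

/-- The pair (position in `A`, position in `J`) depends on the ball of radius two. -/
theorem loc_J (v : V) : DepOn (fun ω : V → ι × (Finset ι → Option ι) =>
    (JS.gj ω v, JS.bj X L Bd J ω v)) (RF.N2 L.G v) := by
  intro ω ω' h
  have h1 : ∀ u ∈ RF.N1 L.G v, ω u = ω' u := fun u hu =>
    h u (RF.mem_N2.2 ⟨v, RF.mem_N1.2 (Or.inl rfl), hu⟩)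
  have hv : ω v = ω' v := h1 v (RF.mem_N1.2 (Or.inl rfl))
  have hl : JS.LJ X L Bd J (fun u => (ω u).1) v = JS.LJ X L Bd J (fun u => (ω' u).1) v :=
    JS.LJ_congr fun u hu => by
      show (ω u).1 = (ω' u).1
      rw [h1 u (RF.mem_N1.2 (Or.inr hu))]
  refine Prod.ext ?_ ?_
  · show (ω v).1 = (ω' v).1
    rw [hv]
  · show JS.ch (JS.LJ X L Bd J (fun u => (ω u).1) v) (ω v).2 =
      JS.ch (JS.LJ X L Bd J (fun u => (ω' u).1) v) (ω' v).2
    rw [hl, hv]

/-- Position `a` in `A`. -/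
theorem EE_gj (h : JS.Ker X R q) (h0 : ∀ a, 0 ≤ μ a) (h1 : ∑ a, μ a = 1) (v : V) (a : ι) :
    EE (JS.pl μ q) (fun ω => if JS.gj ω v = a then (1 : ℝ) else 0) = μ a := by
  have hM := JS.marg (V := V) h h0 h1
  rw [← hM.m1 v a]
  refine (EE_single hM.law v
    (fun x : ι × (Finset ι → Option ι) => if x.1 = a then (1 : ℝ) else 0)).trans ?_
  refine sum_congr rfl fun x _ => ?_
  congr 1

/-- Position `a` in `A` and position `y` in `J`. -/
theorem EE_gj_bj (h : JS.Ker X R q) (h0 : ∀ a, 0 ≤ μ a) (h1 : ∑ a, μ a = 1) (v : V) (a y : ι) :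
    EE (JS.pl μ q) (fun ω => if JS.gj ω v = a ∧ JS.bj X L Bd J ω v = some y then (1 : ℝ) else 0) =
      μ a * EE (fun _ => μ) (fun g => q v (JS.LJ X L Bd J g v) y) := by
  have e1 := JS.EE_bj (X := X) (L := L) (Bd := Bd) (J := J) (μ := μ) h
    (fun g : V → ι => if g v = a then (1 : ℝ) else 0) v y
  have e2 := JS.EE_coord_LJ (X := X) (L := L) (Bd := Bd) (J := J) h0 h1
    (fun S => q v S y) v a
  rw [← e2, ← e1]
  congr 1
  funext ω
  show (if (ω v).1 = a ∧ JS.bj X L Bd J ω v = some y then (1 : ℝ) else 0) =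
    (if (ω v).1 = a then (1 : ℝ) else 0) * (if JS.bj X L Bd J ω v = some y then 1 else 0)
  by_cases ha : (ω v).1 = a
  · by_cases hb : JS.bj X L Bd J ω v = some y
    · rw [if_pos ⟨ha, hb⟩, if_pos ha, if_pos hb, mul_one]
    · rw [if_neg fun h' => hb h'.2, if_neg hb, mul_zero]
  · rw [if_neg fun h' => ha h'.1, if_neg ha, zero_mul]

/-- The bad vertices. -/
theorem bad_J (h : JS.Ker X R q) (hR : 0 ≤ R) (h0 : ∀ a, 0 ≤ μ a) (h1 : ∑ a, μ a = 1) {K : ℕ}
    {ε ε₁ : ℝ} (hε : 0 ≤ ε) (hε₁ : 0 ≤ ε₁) (hsymm : ∀ i i', Bd i i' → Bd i' i)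
    (hd : ∀ v, L.d v ≤ K) (hAv : ∀ u, ∑ i, μ i * BB.ind (i ∉ L.Av u) ≤ ε₁)
    (hBd : ∀ i, ∑ i', μ i' * BB.ind (Bd i i') ≤ ε₁)
    (hbs : ∀ i, ∑ i' ∈ univ.filter (fun i' => Bd i i'), X.w i' ≤ ε) (v : V) (a : ι) :
    EE (JS.pl μ q) (fun ω => if JS.gj ω v = a ∧ ¬ zev L Bd JS.gj ω v ∧
      badE L Bd JS.gj (JS.bj X L Bd J) ω v then (1 : ℝ) else 0) ≤
      μ a * (K * (ε₁ + K * ε₁) + K * (R * ε)) := by
  have hM := JS.marg (V := V) h h0 h1
  have t1 := BB.bad_le (L := L) (Bd := Bd) (K := K) (ε₁ := ε₁) (ε₂ := 0) hM hsymm hd hAv hBd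
    (fun v i => by simp) hε₁ le_rfl le_rfl (fun _ _ => none) (fun ω v y hy => by simp at hy) v a
    (fun ω => if JS.gj ω v = a ∧ ¬ zev L Bd JS.gj ω v ∧
      badE L Bd JS.gj (fun _ _ => none) ω v then (1 : ℝ) else 0)
    (fun ω => by split_ifs <;> norm_num) (fun ω hω => by
      refine le_of_eq (if_neg ?_)
      exact hω)
  have hle : ∀ ω : V → ι × (Finset ι → Option ι), (if JS.gj ω v = a ∧ ¬ zev L Bd JS.gj ω v ∧
      badE L Bd JS.gj (JS.bj X L Bd J) ω v then (1 : ℝ) else 0) ≤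
      (if JS.gj ω v = a ∧ ¬ zev L Bd JS.gj ω v ∧
        badE L Bd JS.gj (fun _ _ => none) ω v then (1 : ℝ) else 0) +
      ∑ u ∈ BB.nbs L v, (if JS.gj ω v = a ∧ ∃ y, JS.bj X L Bd J ω v = some y ∧
        ∃ y', JS.bj X L Bd J ω u = some y' ∧ Bd y y' then (1 : ℝ) else 0) := by
    intro ω
    have hs : 0 ≤ ∑ u ∈ BB.nbs L v, (if JS.gj ω v = a ∧ ∃ y, JS.bj X L Bd J ω v = some y ∧
        ∃ y', JS.bj X L Bd J ω u = some y' ∧ Bd y y' then (1 : ℝ) else 0) :=
      sum_nonneg fun u _ => by split_ifs <;> norm_num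
    have hs' : (0 : ℝ) ≤ (if JS.gj ω v = a ∧ ¬ zev L Bd JS.gj ω v ∧
        badE L Bd JS.gj (fun _ _ => none) ω v then (1 : ℝ) else 0) := by split_ifs <;> norm_num
    by_cases hc : JS.gj ω v = a ∧ ¬ zev L Bd JS.gj ω v ∧ badE L Bd JS.gj (JS.bj X L Bd J) ω v
    · rw [if_pos hc]
      obtain ⟨hga, hnz, hbad⟩ := hc
      rcases hbad with hbad | ⟨u, hu, hzu⟩ | ⟨y, hy, u, hu, hbad⟩
      · exact absurd hbad hnz
      · have hb' : badE L Bd JS.gj (fun _ _ => none) ω v := Or.inr (Or.inl ⟨u, hu, hzu⟩)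
        rw [if_pos ⟨hga, hnz, hb'⟩]
        linarith
      · rcases hbad with hbad | ⟨y', hy', hbad⟩
        · exact absurd hbad ((JS.mem_LJ.1 (JS.bj_mem hy)).2.2 u hu).2
        · have hm := single_le_sum (f := fun u => (if JS.gj ω v = a ∧
            ∃ y, JS.bj X L Bd J ω v = some y ∧
            ∃ y', JS.bj X L Bd J ω u = some y' ∧ Bd y y' then (1 : ℝ) else 0))
            (fun u _ => by split_ifs <;> norm_num) (BB.mem_nbs.2 hu)
          have hm' : (1 : ℝ) ≤ ∑ u ∈ BB.nbs L v, (if JS.gj ω v = a ∧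
            ∃ y, JS.bj X L Bd J ω v = some y ∧
            ∃ y', JS.bj X L Bd J ω u = some y' ∧ Bd y y' then (1 : ℝ) else 0) := by
            refine le_trans (le_of_eq ?_) hm
            exact (if_pos ⟨hga, y, hy, y', hy', hbad⟩).symm
          linarith
    · rw [if_neg hc]
      linarith
  refine (EE_mono hM.law hle).trans ?_
  rw [EE_add, EE_sum]
  have t2 : ∑ u ∈ BB.nbs L v, EE (JS.pl μ q) (fun ω => if JS.gj ω v = a ∧
      ∃ y, JS.bj X L Bd J ω v = some y ∧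
      ∃ y', JS.bj X L Bd J ω u = some y' ∧ Bd y y' then (1 : ℝ) else 0) ≤
      μ a * (K * (R * ε)) := by
    calc _ ≤ ∑ u ∈ BB.nbs L v, μ a * (R * ε) := sum_le_sum fun u hu =>
          JS.EE_pair_bad h h0 h1 hR hε hbs (L.G.ne_of_adj (BB.mem_nbs.1 hu)) a
      _ = (L.d v : ℝ) * (μ a * (R * ε)) := by rw [sum_const, nsmul_eq_mul, BB.card_nbs]
      _ ≤ K * (μ a * (R * ε)) := mul_le_mul_of_nonneg_right (by exact_mod_cast hd v)
          (mul_nonneg (h0 a) (mul_nonneg hR hε))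
      _ = _ := by ring
  have t1' : EE (JS.pl μ q) (fun ω => if JS.gj ω v = a ∧ ¬ zev L Bd JS.gj ω v ∧
      badE L Bd JS.gj (fun _ _ => none) ω v then (1 : ℝ) else 0) ≤
      μ a * (K * (ε₁ + K * ε₁)) := by
    refine t1.trans (le_of_eq ?_)
    ring
  calc _ ≤ μ a * (K * (ε₁ + K * ε₁)) + μ a * (K * (R * ε)) := add_le_add t1' t2
    _ = _ := by ring

/-- One vertex. -/
theorem vertex_J (h : JS.Ker X R q) (h0 : ∀ a, 0 ≤ μ a) (h1 : ∑ a, μ a = 1) {δ : ℝ} (v : V) (a : ι)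
    (hbad : EE (JS.pl μ q) (fun ω => if JS.gj ω v = a ∧ ¬ zev L Bd JS.gj ω v ∧
      badE L Bd JS.gj (JS.bj X L Bd J) ω v then (1 : ℝ) else 0) ≤ μ a * δ) :
    EE (JS.pl μ q) (fun ω => if JS.gj ω v = a ∧ ¬ zev L Bd JS.gj ω v then 1 else 0) -
      ∑ y, EE (JS.pl μ q) (fun ω => if JS.gj ω v = a ∧ JS.bj X L Bd J ω v = some y ∧
        ¬ badE L Bd JS.gj (JS.bj X L Bd J) ω v then 1 else 0) ≤
      μ a * (1 - ∑ y, EE (fun _ => μ) (fun g => q v (JS.LJ X L Bd J g v) y)) + μ a * δ := by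
  have hlaw := JS.isLaw_pl (V := V) h h0 h1
  have h3 : (∑ y, EE (JS.pl μ q) (fun ω => if JS.gj ω v = a ∧ JS.bj X L Bd J ω v = some y
        then (1 : ℝ) else 0)) -
      (∑ y, EE (JS.pl μ q) (fun ω => if JS.gj ω v = a ∧ JS.bj X L Bd J ω v = some y ∧
        ¬ badE L Bd JS.gj (JS.bj X L Bd J) ω v then 1 else 0)) ≤
      EE (JS.pl μ q) (fun ω => if JS.gj ω v = a then 1 else 0) -
        EE (JS.pl μ q) (fun ω => if JS.gj ω v = a ∧ ¬ zev L Bd JS.gj ω v then 1 else 0) +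
        EE (JS.pl μ q) (fun ω => if JS.gj ω v = a ∧ ¬ zev L Bd JS.gj ω v ∧
          badE L Bd JS.gj (JS.bj X L Bd J) ω v then 1 else 0) := by
    rw [← EE_sum, ← EE_sum, ← EE_sub, ← EE_sub, ← EE_add]
    refine EE_mono hlaw fun ω => ?_
    rw [← sum_sub_distrib]
    by_cases hg : JS.gj ω v = a
    · have hzb : zev L Bd JS.gj ω v → badE L Bd JS.gj (JS.bj X L Bd J) ω v := Or.inl
      rcases hb : JS.bj X L Bd J ω v with _ | y₀
      · have : ∀ y : ι, ((if JS.gj ω v = a ∧ JS.bj X L Bd J ω v = some y then (1 : ℝ) else 0) -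
            if JS.gj ω v = a ∧ JS.bj X L Bd J ω v = some y ∧
              ¬ badE L Bd JS.gj (JS.bj X L Bd J) ω v then 1 else 0) = 0 := by
          intro y
          simp [hb]
        simp only [hb] at this
        rw [sum_congr rfl fun y _ => this y, sum_const_zero]
        by_cases hz : zev L Bd JS.gj ω v
        · simp [hg, hz]
        · by_cases hbd : badE L Bd JS.gj (JS.bj X L Bd J) ω v <;> simp [hg, hz, hbd]
      · rw [sum_eq_single y₀]
        · by_cases hbd : badE L Bd JS.gj (JS.bj X L Bd J) ω v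
          · by_cases hz : zev L Bd JS.gj ω v <;> simp [hg, hz, hbd]
          · have hz : ¬ zev L Bd JS.gj ω v := fun h => hbd (hzb h)
            simp [hg, hz, hbd]
        · intro y _ hy
          have : ¬ (some y₀ = some y) := fun h => hy (Option.some.inj h).symm
          simp [this]
        · intro h
          exact absurd (mem_univ _) h
    · simp [hg]
  have h4 := EE_gj (V := V) h h0 h1 v a
  rw [h4] at h3
  have h5 : (∑ y, EE (JS.pl μ q) (fun ω => if JS.gj ω v = a ∧ JS.bj X L Bd J ω v = some y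
        then (1 : ℝ) else 0)) =
      μ a * ∑ y, EE (fun _ => μ) (fun g => q v (JS.LJ X L Bd J g v) y) := by
    rw [mul_sum]
    exact sum_congr rfl fun y _ => EE_gj_bj h h0 h1 v a y
  rw [h5] at h3
  have h6 : μ a * (1 - ∑ y, EE (fun _ => μ) (fun g => q v (JS.LJ X L Bd J g v) y)) =
    μ a - μ a * ∑ y, EE (fun _ => μ) (fun g => q v (JS.LJ X L Bd J g v) y) := by ring
  rw [h6]
  linarith

end one

/-- A larger overlap bound. -/
theorem scheme_mono_B {V ι Om : Type} [Fintype V] [Fintype ι] [Fintype Om] {X : World ι}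
    {L : Low V ι} {Bd : ι → ι → Prop} {k e ζ : ℝ} {B B' : ℕ} {p : V → Om → ℝ}
    {g : (V → Om) → V → ι} {b : (V → Om) → V → Option ι} {Bn : V → Finset V} {φ : ι → ι → ℝ}
    (h : Scheme X L Bd k e ζ B p g b Bn φ) (hB : B ≤ B') : Scheme X L Bd k e ζ B' p g b Bn φ :=
  { h with ov := fun v => (h.ov v).trans hB }

/-- **The scheme of a kernel**, with uniform constants. -/
theorem scheme_of_ker {e : ℝ} (he0 : 0 < e) (he8 : e ≤ 1 / 8) (K : ℕ) {R η ζ : ℝ} (hR : 0 ≤ R)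
    (hη : 0 < η) (hζ : 0 < ζ) :
    ∃ (B : ℕ) (ε : ℝ), 0 < ε ∧ ∀ (V ι : Type) [Fintype V] [Fintype ι] (X : World ι)
      (L : Low V ι) (Bd : ι → ι → Prop) (k Q : ℝ) (C : ℕ), WorldOK X L Bd k Q C K e ε →
      ∀ (J : Finset ι) (q : V → Finset ι → ι → ℝ), (∀ y ∈ J, y ∉ X.A) →
      (∀ y ∈ J, ∀ y' ∈ J, ¬ X.F.Adj y y') → JS.Ker X R q →
      (∀ y, y ∉ X.A → ∑ v, EE (fun _ => X.mu) (fun g => q v (JS.LJ X L Bd J g v) y) ≤
        (1 - e) * X.w y * k) →
      (Fintype.card V : ℝ) - ∑ v, ∑ y, EE (fun _ => X.mu) (fun g => q v (JS.LJ X L Bd J g v) y) ≤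
        ((1 - e) * X.sA - η) * k →
      ∃ (Om : Type) (_ : Fintype Om) (p : V → Om → ℝ) (g : (V → Om) → V → ι)
        (b : (V → Om) → V → Option ι) (Bn : V → Finset V) (φ : ι → ι → ℝ),
        Scheme X L Bd k e ζ B p g b Bn φ := by
  obtain ⟨D, hD⟩ : ∃ D : ℝ, D = 4 * ((K : ℝ) + 1) * (K + 1) * (R + 1) := ⟨_, rfl⟩
  have hK0 : (0 : ℝ) ≤ K := Nat.cast_nonneg K
  have hD0 : 0 < D := by rw [hD]; positivity
  obtain ⟨m, hm⟩ : ∃ m, m = min η ζ := ⟨_, rfl⟩
  have hm0 : 0 < m := hm ▸ lt_min hη hζ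
  have hmη : m ≤ η := hm ▸ min_le_left _ _
  have hmζ : m ≤ ζ := hm ▸ min_le_right _ _
  obtain ⟨ε, hε'⟩ : ∃ ε, ε = m / D := ⟨_, rfl⟩
  have hε : 0 < ε := hε' ▸ div_pos hm0 hD0
  have hDε : D * ε = m := by rw [hε']; field_simp
  refine ⟨(K + 1) * (K + 1) * ((K + 1) * (K + 1)), ε, hε, ?_⟩
  intro V ι _ _ X L Bd k Q C hW J q hJA hJF hq hload hval
  have hk := hW.k0
  have hsA : 1 / 4 ≤ X.sA := by
    have h1 := hW.s1
    have h2 := hW.s2
    linarith
  have hsA0 : 0 < X.sA := by linarith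
  have hμ0 := X.mu_nonneg
  have hμ1 := X.mu_sum hsA0
  have hμw : ∀ i, X.mu i ≤ X.w i / X.sA := by
    intro i
    by_cases hi : i ∈ X.A
    · exact (X.mu_mem hi).le
    · rw [X.mu_notMem hi]
      exact div_nonneg (X.pos i).le hsA0.le
  have hμ4 : ∀ i, X.mu i ≤ 4 * X.w i := by
    intro i
    refine (hμw i).trans ?_
    rw [div_le_iff₀ hsA0]
    have := X.pos i
    nlinarith
  have hAv : ∀ u, ∑ i, X.mu i * BB.ind (i ∉ L.Av u) ≤ 4 * ε := by
    intro u
    refine (BB.hAv_of hW hsA0 hμw (fun i hi => X.mu_notMem hi) u).trans ?_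
    rw [div_le_iff₀ hsA0]
    nlinarith
  have hBd : ∀ i, ∑ i', X.mu i' * BB.ind (Bd i i') ≤ 4 * ε := fun i =>
    BB.hBd_of hW (by norm_num) hμ4 i
  have hbs : ∀ i, ∑ i' ∈ univ.filter (fun i' => Bd i i'), X.w i' ≤ ε := by
    intro i
    exact hW.bsmall i
  have h4ε : (0 : ℝ) ≤ 4 * ε := by linarith
  have hlaw := JS.isLaw_pl (V := V) (μ := X.mu) hq hμ0 hμ1
  have hbad : ∀ (v : V) (a : ι), EE (JS.pl X.mu q) (fun ω => if JS.gj ω v = a ∧
      ¬ zev L Bd JS.gj ω v ∧ badE L Bd JS.gj (JS.bj X L Bd J) ω v then (1 : ℝ) else 0) ≤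
      X.mu a * η := by
    intro v a
    refine (bad_J hq hR hμ0 hμ1 hε.le h4ε hW.bsymm hW.dK hAv hBd hbs v a).trans ?_
    refine mul_le_mul_of_nonneg_left ?_ (hμ0 a)
    refine le_trans ?_ (hDε.le.trans hmη)
    have e1 : (K : ℝ) * (4 * ε + K * (4 * ε)) + K * (R * ε) =
        (4 * K * (K + 1) + K * R) * ε := by ring
    rw [e1, hD]
    refine mul_le_mul_of_nonneg_right ?_ hε.le
    nlinarith [mul_nonneg hK0 hR, mul_nonneg (mul_nonneg hK0 hK0) hR]
  have hind : ∀ (v : V) (a y : ι), 0 ≤ EE (JS.pl X.mu q) (fun ω =>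
      if JS.gj ω v = a ∧ JS.bj X L Bd J ω v = some y ∧
        ¬ badE L Bd JS.gj (JS.bj X L Bd J) ω v then (1 : ℝ) else 0) := fun v a y =>
    EE_nonneg hlaw fun ω => by split_ifs <;> norm_num
  have hk1 : ∀ x : ℝ, (1 / k) * x * k = x := fun x => by field_simp
  refine ⟨ι × (Finset ι → Option ι), inferInstance, JS.pl X.mu q, JS.gj, JS.bj X L Bd J,
    RF.N2 L.G, fun a y => (1 / k) * ∑ v, EE (JS.pl X.mu q) (fun ω =>
      if JS.gj ω v = a ∧ JS.bj X L Bd J ω v = some y ∧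
        ¬ badE L Bd JS.gj (JS.bj X L Bd J) ω v then 1 else 0), ?_⟩
  refine ⟨hlaw, loc_J, fun v => ?_, ?_, ?_, ?_, ?_, ?_, ?_, ?_, ?_, ?_⟩
  · exact RF.ov (fun v => hW.dK v) v
  · intro ω v y h
    exact (JS.mem_LJ.1 (JS.bj_mem h)).2.1
  · intro ω v y h u hu
    exact ((JS.mem_LJ.1 (JS.bj_mem h)).2.2 u hu).1
  · intro ω v y u y' h h' _
    exact hJF y (JS.mem_LJ.1 (JS.bj_mem h)).1 y' (JS.mem_LJ.1 (JS.bj_mem h')).1
  · intro a y
    exact mul_nonneg (by positivity) (sum_nonneg fun v _ => hind v a y)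
  · intro a y hy
    have h1 : ∀ v, EE (JS.pl X.mu q) (fun ω =>
        if JS.gj ω v = a ∧ JS.bj X L Bd J ω v = some y ∧
          ¬ badE L Bd JS.gj (JS.bj X L Bd J) ω v then (1 : ℝ) else 0) = 0 := by
      intro v
      refine le_antisymm ?_ (hind v a y)
      refine (EE_mono hlaw (g := fun _ => (0 : ℝ)) fun ω => ?_).trans (EE_const hlaw 0).le
      refine le_of_eq (if_neg ?_)
      rintro ⟨-, hb, -⟩
      exact hJA y (JS.mem_LJ.1 (JS.bj_mem hb)).1 hy
    simp only [h1, sum_const_zero, mul_zero]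
  · intro a _ y
    rw [hk1]
  · intro a ha
    have e1 : ∑ y, (1 / k) * (∑ v, EE (JS.pl X.mu q) (fun ω =>
        if JS.gj ω v = a ∧ JS.bj X L Bd J ω v = some y ∧
          ¬ badE L Bd JS.gj (JS.bj X L Bd J) ω v then (1 : ℝ) else 0)) * k =
        ∑ v, ∑ y, EE (JS.pl X.mu q) (fun ω =>
        if JS.gj ω v = a ∧ JS.bj X L Bd J ω v = some y ∧
          ¬ badE L Bd JS.gj (JS.bj X L Bd J) ω v then (1 : ℝ) else 0) := by
      rw [sum_comm]
      exact sum_congr rfl fun y _ => hk1 _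
    rw [e1, ← sum_sub_distrib]
    have h1 := sum_le_sum fun v (_ : v ∈ (univ : Finset V)) =>
      vertex_J (X := X) (L := L) (Bd := Bd) (J := J) hq hμ0 hμ1 v a (hbad v a)
    refine h1.trans ?_
    rw [sum_add_distrib, ← mul_sum, sum_sub_distrib]
    simp only [sum_const, card_univ, nsmul_eq_mul, mul_one]
    have hμa := hμ0 a
    have h3 : (Fintype.card V : ℝ) * (X.mu a * η) ≤ X.mu a * (η * k) := by
      have h4 : (Fintype.card V : ℝ) * η ≤ k * η := mul_le_mul_of_nonneg_right hW.cV hη.le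
      calc (Fintype.card V : ℝ) * (X.mu a * η)
          = X.mu a * ((Fintype.card V : ℝ) * η) := by ring
        _ ≤ X.mu a * (k * η) := mul_le_mul_of_nonneg_left h4 hμa
        _ = _ := by ring
    have h5 := mul_le_mul_of_nonneg_left hval hμa
    have h6 : X.mu a * X.sA = X.w a := X.mu_mul hsA0 ha
    calc _ ≤ X.mu a * (((1 - e) * X.sA - η) * k) + X.mu a * (η * k) := add_le_add h5 h3
      _ = (1 - e) * (X.mu a * X.sA) * k := by ring
      _ = _ := by rw [h6]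
  · intro y hy
    have h1 : ∀ a ∈ X.A, (1 / k) * (∑ v, EE (JS.pl X.mu q) (fun ω =>
        if JS.gj ω v = a ∧ JS.bj X L Bd J ω v = some y ∧
          ¬ badE L Bd JS.gj (JS.bj X L Bd J) ω v then (1 : ℝ) else 0)) ≤
        X.mu a * ((1 - e) * X.w y) := by
      intro a _
      have hμa := hμ0 a
      have h2 : ∑ v, EE (JS.pl X.mu q) (fun ω =>
          if JS.gj ω v = a ∧ JS.bj X L Bd J ω v = some y ∧
            ¬ badE L Bd JS.gj (JS.bj X L Bd J) ω v then (1 : ℝ) else 0) ≤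
          X.mu a * ((1 - e) * X.w y * k) := by
        calc _ ≤ ∑ v, X.mu a * EE (fun _ => X.mu) (fun g => q v (JS.LJ X L Bd J g v) y) := by
              refine sum_le_sum fun v _ => ?_
              rw [← EE_gj_bj (X := X) (L := L) (Bd := Bd) (J := J) hq hμ0 hμ1 v a y]
              refine EE_mono hlaw fun ω => ?_
              by_cases h : JS.gj ω v = a ∧ JS.bj X L Bd J ω v = some y ∧
                ¬ badE L Bd JS.gj (JS.bj X L Bd J) ω v
              · rw [if_pos h, if_pos ⟨h.1, h.2.1⟩]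
              · rw [if_neg h]
                split_ifs <;> norm_num
          _ = X.mu a * ∑ v, EE (fun _ => X.mu) (fun g => q v (JS.LJ X L Bd J g v) y) :=
              (mul_sum _ _ _).symm
          _ ≤ _ := mul_le_mul_of_nonneg_left (hload y hy) hμa
      calc _ ≤ (1 / k) * (X.mu a * ((1 - e) * X.w y * k)) :=
            mul_le_mul_of_nonneg_left h2 (by positivity)
        _ = _ := by field_simp
    refine (sum_le_sum h1).trans ?_
    rw [← sum_mul]
    have h3 : ∑ a ∈ X.A, X.mu a ≤ 1 := by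
      rw [← hμ1]
      exact sum_le_sum_of_subset_of_nonneg (subset_univ _) fun a _ _ => hμ0 a
    have hnn : 0 ≤ (1 - e) * X.w y := mul_nonneg (by linarith) (X.pos y).le
    calc _ ≤ 1 * ((1 - e) * X.w y) := mul_le_mul_of_nonneg_right h3 hnn
      _ = _ := one_mul _
  · have h1 : ∀ v : V, EE (JS.pl X.mu q) (fun ω => if zev L Bd JS.gj ω v then (1 : ℝ) else 0) ≤
        ζ := by
      intro v
      refine (BB.zev_le (L := L) (Bd := Bd) (K := K) (JS.marg (V := V) hq hμ0 hμ1) hW.dK hAv hBd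
        h4ε v _ (fun ω => ?_) (fun ω h => ?_)).trans ?_
      · split_ifs <;> norm_num
      · exact le_of_eq (if_neg h)
      · refine le_trans ?_ (hDε.le.trans hmζ)
        have e1 : 4 * ε + (K : ℝ) * (4 * ε) = (4 * (K + 1)) * ε := by ring
        rw [e1, hD]
        refine mul_le_mul_of_nonneg_right ?_ hε.le
        nlinarith [mul_nonneg hK0 hR, mul_nonneg (mul_nonneg hK0 hK0) hR]
    refine (sum_le_sum fun v (_ : v ∈ (univ : Finset V)) => h1 v).trans ?_
    rw [sum_const, card_univ, nsmul_eq_mul]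
    calc (Fintype.card V : ℝ) * ζ ≤ k * ζ := mul_le_mul_of_nonneg_right hW.cV hζ.le
      _ = _ := mul_comm _ _

end

end Pool.Agent.T6J
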