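import Pool.Agent.T6J.JRow

/-!
# The row of a bad set `J` (MP_c6effb_co, all degrees)

As `bad_row` in `JRow.lean`, for an arbitrary set `J` of clusters of weight at most `s (1 - n_b) + e`.
-/

set_option autoImplicit false

open Finset

namespace Pool.Agent.T6J

open Pool.Agent.T6A

noncomputable section

open Classical

variable {V ι : Type} [Fintype V] [Fintype ι]

/-- a set of clusters of `N(b)` outside `A` has weight at most `s (1 - n_b) + e` -/
theorem sumJ_le (X : World ι) {e : ℝ} (h : 0 < X.sA) (he : X.s - e ≤ X.sA) (he0 : 0 ≤ e) (b : ι)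
    (J : Finset ι) (hJ : ∀ c ∈ J, X.F.Adj b c ∧ c ∉ X.A) :
    ∑ c ∈ J, X.w c ≤ X.s * (1 - nb X.F X.mu b) + e := by
  refine le_trans ?_ (wJ_le X h he he0 b)
  have e1 : ∑ c ∈ J, X.w c = ∑ c, (if c ∈ J then X.w c else 0) := by
    rw [← sum_filter, filter_mem_eq_inter, univ_inter]
  rw [e1]
  unfold wJ
  refine sum_le_sum fun c _ => ?_
  have := (X.pos c).le
  by_cases h2 : c ∈ J
  · rw [if_pos h2, if_pos (hJ c h2)]
  · rw [if_neg h2]
    split_ifs
    · exact this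
    · exact le_rfl

/-- **The row of a bad set `J`.** -/
theorem bad_rowG (X : World ι) (L : Low V ι) {e η : ℝ} (h : 0 < X.sA)
    (he0 : 0 ≤ e) (hη : 0 ≤ η) (hs : X.s < 1) (b : ι) (J : Finset ι)
    (hwJ : ∑ c ∈ J, X.w c ≤ X.s * (1 - nb X.F X.mu b) + e)
    (hbad : ∑ c ∈ J, X.w c < 1 - X.s + η ∨ ∃ c0 ∈ J,
      ∑ c ∈ J with nb X.F X.mu c < nb X.F X.mu c0, X.w c + avP L (nb X.F X.mu c0) <
        1 - X.s + η) :
    ∑ c ∈ J, X.w c * mR X.s (nb X.F X.mu b) (max 0 (avP L (nb X.F X.mu c) - η)) ≤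
      1 - X.s + η + e := by
  have hnc1 : ∀ c, nb X.F X.mu c ≤ 1 := fun c => nb_le_one X.mu_nonneg (X.mu_sum h) c
  -- the sum is at most the weight
  have hle : ∑ c ∈ J, X.w c *
      mR X.s (nb X.F X.mu b) (max 0 (avP L (nb X.F X.mu c) - η)) ≤ ∑ c ∈ J, X.w c :=
    sum_le_sum fun c _ => mul_le_of_le_one_right (X.pos c).le (mR_le_one (le_max_left _ _))
  rcases hbad with hbad | ⟨c0, hc0, hbad⟩
  · linarith
  rcases le_or_gt (X.s * (1 - nb X.F X.mu b)) (1 - X.s) with h1 | h1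
  · linarith
  -- the main case
  obtain ⟨q, hq⟩ : ∃ q, q = max 0 (avP L (nb X.F X.mu c0) - η) := ⟨_, rfl⟩
  obtain ⟨x, hx⟩ : ∃ x, x = ∑ c ∈ J with nb X.F X.mu c < nb X.F X.mu c0, X.w c := ⟨_, rfl⟩
  have hx0 : 0 ≤ x := by
    rw [hx]
    exact sum_nonneg fun c _ => (X.pos c).le
  rw [← hx] at hbad
  have hq0 : 0 ≤ q := by rw [hq]; exact le_max_left _ _
  have hp0 : 0 ≤ avP L (nb X.F X.mu c0) := avP_nonneg L (hnc1 c0)
  have hq1 : q < 1 - X.s := by
    rw [hq, max_lt_iff]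
    constructor <;> linarith
  obtain ⟨m, hm⟩ : ∃ m, m = mR X.s (nb X.F X.mu b) q := ⟨_, rfl⟩
  have hm0 : 0 ≤ m := by rw [hm]; exact mR_nonneg hq0
  have hm1 : m ≤ 1 := by rw [hm]; exact mR_le_one hq0
  have hmq : m * (q + X.s * (1 - nb X.F X.mu b) - (1 - X.s)) = q := by
    rw [hm, mR_eq hq1 h1]
    exact div_mul_cancel₀ _ (by linarith)
  have hsum : ∑ c ∈ J, X.w c *
      mR X.s (nb X.F X.mu b) (max 0 (avP L (nb X.F X.mu c) - η)) ≤
      x + (∑ c ∈ J, X.w c - x) * m := by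
    have e1 : x + (∑ c ∈ J, X.w c - x) * m = ∑ c ∈ J, ((1 - m) *
        (if nb X.F X.mu c < nb X.F X.mu c0 then X.w c else 0) + m * X.w c) := by
      rw [sum_add_distrib, ← mul_sum, ← mul_sum, hx, sum_filter]
      ring
    rw [e1]
    refine sum_le_sum fun c _ => ?_
    by_cases hlt : nb X.F X.mu c < nb X.F X.mu c0
    · rw [if_pos hlt]
      have := mul_le_of_le_one_right (X.pos c).le
        (mR_le_one (s := X.s) (n := nb X.F X.mu b) (le_max_left 0 (avP L (nb X.F X.mu c) - η)))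
      linarith
    · rw [if_neg hlt, mul_zero, zero_add, mul_comm m]
      refine mul_le_mul_of_nonneg_left ?_ (X.pos c).le
      rw [hm, hq]
      refine mR_mono (le_max_left _ _) (max_le_max le_rfl ?_)
      have := avP_anti L (not_lt.1 hlt) (hnc1 c)
      linarith
  refine hsum.trans ?_
  -- x ≤ τ + η - q in all cases
  have hxq : x ≤ 1 - X.s + η - q := by
    rw [hq]
    rcases le_total 0 (avP L (nb X.F X.mu c0) - η) with h2 | h2
    · rw [max_eq_right h2]
      linarith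
    · rw [max_eq_left h2]
      linarith
  have h3 : x * (1 - m) ≤ (1 - X.s + η - q) * (1 - m) :=
    mul_le_mul_of_nonneg_right hxq (by linarith)
  have h4 : (∑ c ∈ J, X.w c) * m ≤ (X.s * (1 - nb X.F X.mu b) + e) * m :=
    mul_le_mul_of_nonneg_right hwJ hm0
  have h5 : 0 ≤ η * m := mul_nonneg hη hm0
  have h6 : e * m ≤ e := mul_le_of_le_one_right he0 hm1
  nlinarith

end

end Pool.Agent.T6J
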