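import Pool.Agent.T6A.Chain
import Pool.Agent.T6J.CoreB

/-!
# LIM for graphs of bounded degree (MP_c6effb_co, round 2)

`LimB Δ` = `Lim3 (7 / 5)` for low graphs of maximum degree at most `Δ` and without hub neighbours.
The few vertices with a hub neighbour are exceptional.
-/

set_option autoImplicit false

open Finset

namespace Pool.Agent.T6J

open Pool.Agent.T6A Classical

noncomputable section

/-- **LIM for bounded degree**: no hub neighbours, all degrees are at most `Δ`; the slack `e` may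
depend on `Δ`. -/
def LimB (Δ : ℕ) : Prop := ∃ e : ℝ, 0 < e ∧ e ≤ 1 / 8 ∧ ∀ ζ : ℝ, 0 < ζ →
  ∃ (B : ℕ) (ε : ℝ), 0 < ε ∧ ∀ (V ι : Type) [Fintype V] [Fintype ι] (X : World ι) (L : Low V ι)
    (Bd : ι → ι → Prop) (k : ℝ), WorldOK X L Bd k (7 / 5) Δ Δ e ε → (∀ v, L.j v = 0) →
    ThrW X L k e →
    ∃ (Om : Type) (_ : Fintype Om) (p : V → Om → ℝ) (g : (V → Om) → V → ι)
      (b : (V → Om) → V → Option ι) (Bn : V → Finset V) (φ : ι → ι → ℝ),
      Scheme X L Bd k e ζ B p g b Bn φ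

/-- CERT for bounded degree. -/
def CertStmtB (Δ : ℕ) : Prop := ∃ e : ℝ, 0 < e ∧ e ≤ 1 / 8 ∧ ∃ R η ε : ℝ, 0 < η ∧ 0 < ε ∧
  ∀ (V ι : Type) [Fintype V] [Fintype ι] (X : World ι) (L : Low V ι)
    (Bd : ι → ι → Prop) (k : ℝ), WorldOK X L Bd k (7 / 5) Δ Δ e ε → (∀ v, L.j v = 0) →
    ThrW X L k e → X.s < 1 + 3 * e → ∃ r : V → ι → ℝ, RateOK X L k e R η r

variable {Q : ℝ} {C K M : ℕ} {δ₁ δ : ℝ} {V : Type} [Fintype V] {G : SimpleGraph V}

/-- The low graph; the vertices with a hub neighbour are exceptional. -/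
def lowB (D : LowData Q C K M δ₁ δ G) : Low D.Lv D.ι where
  G := G.comap Subtype.val
  j _ := 0
  E := univ.filter fun v => v.1 ∈ D.Ex ∨ jHub G D.Gi v.1 ≠ 0
  Av v := D.A.filter fun i => i ∈ D.Al v.1
  Bv v := univ.filter fun i => (v.1 ∉ D.Ex ∧ jHub G D.Gi v.1 = 0) ∧ i ∉ D.A ∧ i ∈ D.Al v.1

theorem lowB_d (D : LowData Q C K M δ₁ δ G) (v : D.Lv) : (lowB D).d v = dLow G D.Qh v.1 :=
  D.low_d v

theorem lowB_notMem (D : LowData Q C K M δ₁ δ G) {v : D.Lv} (hv : v ∉ (lowB D).E) :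
    v.1 ∉ D.Ex ∧ jHub G D.Gi v.1 = 0 := by
  refine ⟨fun h => hv (mem_filter.2 ⟨mem_univ _, Or.inl h⟩), ?_⟩
  by_contra h
  exact hv (mem_filter.2 ⟨mem_univ _, Or.inr h⟩)

theorem low_notMem (D : LowData Q C K M δ₁ δ G) {v : D.Lv} (hv : v ∉ (lowB D).E) :
    v ∉ D.low.E := fun h => (lowB_notMem D hv).1 (mem_filter.1 h).2

/-- The hypotheses of `LimB` hold. -/
theorem wokB {Δ : ℕ} (D : LowData Q Δ K M δ₁ δ G) {e ε : ℝ} (he : 0 < e) (hδe : δ ≤ e)
    (hδε : δ ≤ ε) (hδ₁ : δ₁ ≤ e / 8) (hK : 0 < K) (hK' : 32 * (Δ : ℝ) ≤ e * K)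
    (hV : 0 < Fintype.card V) (hdeg : ∀ v, (G.neighborSet v).ncard ≤ Δ)
    (hhub : (#{v | v ∉ D.Qh ∧ jHub G D.Gi v ≠ 0} : ℝ) ≤ δ₁ * Fintype.card V) :
    WorldOK D.world (lowB D) D.Bd (Fintype.card V) Q Δ Δ e ε := by
  have H := D.wok (e := e) (ε := ε) he hδe hδε (by linarith) hK hK' hV
  have hV0 : (0 : ℝ) < Fintype.card V := by exact_mod_cast hV
  refine
    { k0 := H.k0
      cV := H.cV
      cV' := H.cV'
      tot1 := H.tot1
      tot2 := H.tot2
      deg := ?_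
      s1 := H.s1
      s2 := H.s2
      Ec := ?_
      mind := ?_
      dK := ?_
      jK := fun _ => Nat.zero_le _
      bsymm := H.bsymm
      brefl := H.brefl
      bsmall := H.bsmall
      AvA := H.AvA
      Avw := H.Avw
      BvA := ?_
      BvE := ?_
      Bvw := ?_ }
  · refine le_trans (sum_le_sum fun v _ => ?_) H.deg
    rw [lowB_d, D.low_d]
    have h1 : (0 : ℝ) ≤ D.low.j v := Nat.cast_nonneg _
    have h2 : (((lowB D).j v : ℕ) : ℝ) = 0 := Nat.cast_zero
    rw [h2]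
    linarith
  · have h1 : (lowB D).E.card ≤ D.Ex.card + #{v | v ∉ D.Qh ∧ jHub G D.Gi v ≠ 0} := by
      refine le_trans ?_ (card_union_le _ _)
      rw [← card_map (Function.Embedding.subtype (fun v => v ∉ D.Qh))]
      apply card_le_card
      intro u hu
      rw [mem_map] at hu
      obtain ⟨u', hu', rfl⟩ := hu
      rw [mem_union, mem_filter]
      rcases (mem_filter.1 hu').2 with h | h
      · exact Or.inl h
      · exact Or.inr ⟨mem_univ _, u'.2, h⟩
    have h2 : ((lowB D).E.card : ℝ) ≤ D.Ex.card + #{v | v ∉ D.Qh ∧ jHub G D.Gi v ≠ 0} := by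
      exact_mod_cast h1
    have h3 := D.exCard
    have h4 : δ₁ * (Fintype.card V : ℝ) ≤ e / 8 * Fintype.card V :=
      mul_le_mul_of_nonneg_right hδ₁ hV0.le
    have h5 : e / 8 * (Fintype.card V : ℝ) + e / 8 * Fintype.card V ≤ e * Fintype.card V := by
      nlinarith
    linarith
  · intro v hv
    have h1 := H.mind v (low_notMem D hv)
    have h2 : D.low.j v = 0 := (lowB_notMem D hv).2
    rw [D.low_d, h2] at h1
    rw [lowB_d]
    exact h1
  · intro v
    rw [lowB_d]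
    refine le_trans ?_ (hdeg v.1)
    rw [Set.ncard_eq_toFinset_card']
    refine card_le_card fun u hu => ?_
    rw [Set.mem_toFinset]
    exact (mem_filter.1 hu).2.1
  · intro v
    rw [disjoint_left]
    intro i hi hA
    exact (mem_filter.1 hi).2.2.1 hA
  · intro v hv
    rw [eq_empty_iff_forall_notMem]
    intro i hi
    rcases (mem_filter.1 hv).2 with h | h
    · exact (mem_filter.1 hi).2.1.1 h
    · exact h (mem_filter.1 hi).2.1.2
  · intro v hv
    have hv' := lowB_notMem D hv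
    have h1 := H.Bvw v (low_notMem D hv)
    have h2 : D.low.j v = 0 := hv'.2
    rw [if_pos h2] at h1
    have h3 : (lowB D).j v = 0 := rfl
    rw [if_pos h3]
    have h4 : (lowB D).Bv v = D.low.Bv v := by
      ext i
      constructor
      · intro hi
        have hi' := (mem_filter.1 hi).2
        exact mem_filter.2 ⟨mem_univ _, hi'.1.1, hi'.2⟩
      · intro hi
        have hi' := (mem_filter.1 hi).2
        exact mem_filter.2 ⟨mem_univ _, hv', hi'.2⟩
    rw [h4]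
    exact h1

/-- The threshold hypothesis. -/
theorem thrB_of_thrD (D : LowData Q C K M δ₁ δ G) {e : ℝ} (h : ThrD D e) :
    ThrW D.world (lowB D) (Fintype.card V) e := by
  intro d hd
  refine h d (hd.trans ?_)
  have h1 : (univ.filter fun v : D.Lv => v ∉ (lowB D).E ∧ (lowB D).d v + (lowB D).j v = d).card ≤
      (univ.filter fun v : V =>
        v ∉ D.Qh ∧ v ∉ D.Ex ∧ dLow G D.Qh v + jHub G D.Gi v = d).card := by
    rw [← card_map (Function.Embedding.subtype (fun v => v ∉ D.Qh))]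
    apply card_le_card
    intro v hv
    rw [mem_map] at hv
    obtain ⟨u, hu, rfl⟩ := hv
    rw [mem_filter] at hu ⊢
    have hu' := lowB_notMem D hu.2.1
    refine ⟨mem_univ _, u.2, hu'.1, ?_⟩
    have h3 := hu.2.2
    rw [lowB_d] at h3
    change dLow G D.Qh u.1 + jHub G D.Gi u.1 = d
    rw [hu'.2]
    exact h3
  have h2 : ((univ.filter fun v : D.Lv =>
      v ∉ (lowB D).E ∧ (lowB D).d v + (lowB D).j v = d).card : ℝ) ≤
      ((univ.filter fun v : V =>
        v ∉ D.Qh ∧ v ∉ D.Ex ∧ dLow G D.Qh v + jHub G D.Gi v = d).card : ℝ) := by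
    exact_mod_cast h1
  convert h2 using 1 <;> congr

/-- A solution for `lowB` is a solution for `low`. -/
theorem sol_of_lowB (D : LowData Q C K M δ₁ δ G) {k e : ℝ} {T : Finset D.Lv} {g b : D.Lv → D.ι}
    (h : Sol D.world (lowB D) D.Bd k e T g b) : Sol D.world D.low D.Bd k e T g b where
  tB v hv := by
    have h1 := (mem_filter.1 (h.tB v hv)).2
    exact mem_filter.2 ⟨mem_univ _, h1.1.1, h1.2⟩
  gA := h.gA
  tt := h.tt
  ts := h.ts
  ss := h.ss
  la := h.la
  lb := h.lb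
  lt := h.lt

/-- **`LimB` solves the low problem for bounded degree.** -/
theorem lowProbB_of_limB {Δ : ℕ} (hlim : LimB Δ) : LowProbB Δ := by
  obtain ⟨e, he, he8, h1⟩ := hlim
  refine ⟨e / 8, e, by linarith, by linarith, he, ⌈32 * (Δ : ℝ) / e⌉₊ + 1, fun K hK => ?_⟩
  obtain ⟨B, ε, hε, h2⟩ := h1 (e / 16) (by linarith)
  refine ⟨min e ε, lt_min he hε, min_le_left _ _, fun M => ?_⟩
  obtain ⟨hK0, hK'⟩ := large_K he hK
  obtain ⟨k₁, h3⟩ := sel (7 / 5) e ε (1 / (2 * M + 1)) Δ Δ B M he he8 (by positivity)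
  refine ⟨⌈k₁⌉₊ + 1, fun V _ G D hV hdeg hhub hthr => ?_⟩
  have hok := wokB D (e := e) (ε := ε) he (min_le_left _ _) (min_le_right _ _) le_rfl hK0 hK'
    (by omega) hdeg (by convert hhub)
  obtain ⟨Om, _, p, g, b, Bn, φ, hsch⟩ := h2 D.Lv D.ι D.world (lowB D) D.Bd (Fintype.card V) hok
    (fun _ => rfl) (thrB_of_thrD D hthr)
  obtain ⟨T, g', b', hs⟩ := h3 D.Lv D.ι D.world (lowB D) D.Bd (Fintype.card V) (by
      have h4 : k₁ ≤ ⌈k₁⌉₊ := Nat.le_ceil _
      have h5 : ((⌈k₁⌉₊ + 1 : ℕ) : ℝ) ≤ Fintype.card V := by exact_mod_cast hV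
      push_cast at h5
      linarith) (by
        have h4 := D.few
        convert h4) (fun i => by
      change 1 / (2 * (M : ℝ) + 1) ≤ D.w i
      rw [div_le_iff₀ (by positivity)]
      have h4 := D.wpos i
      have h5 := D.wpos' i
      linarith) hok Om p g b Bn φ hsch
  exact D.sol he he8 (min_le_left _ _) le_rfl hK0 hK' T g' b' (sol_of_lowB D hs)

/-- **Theorem B**: `R(3, G) ≤ k + m` for all graphs `G` of maximum degree at most `Δ` with `k ≥ k₀(Δ)`
vertices and `m` edges, from `LimB Δ`. -/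
theorem theoremB_of_limB {Δ : ℕ} (h : LimB Δ) :
    ∃ k₀ : ℕ, ∀ (V : Type) [Fintype V] (G : SimpleGraph V),
      (∀ v : V, (G.neighborSet v).ncard ≤ Δ) → k₀ ≤ Fintype.card V →
      ∀ H : SimpleGraph (Fin (Fintype.card V + G.edgeSet.ncard)),
        ¬ H.CliqueFree 3 ∨ ∃ f : G →g Hᶜ, Function.Injective f :=
  all_of_core3D (core3D_of_lowB (lowProbB_of_limB h))

end

end Pool.Agent.T6J
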