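import Pool.Agent.T6A.Chain
import Pool.Agent.T6A.LimSplit
import Pool.Agent.T6A.CertAsmT
import Pool.Agent.T6J.LimB
import Pool.Agent.T6J.JDich

/-!
# `LimB` from the certificates and the dichotomy (MP_c6effb_co, Theorem B)

`tot > 1 + Q'`: CERT without threshold. `1 + Q < tot ≤ 1 + Q'`: CERT with the threshold, no giants.
`tot ≤ 1 + Q`: either a good `J` gives the scheme, or all rows are bad and `CertStmtJ` gives the rates.
-/

set_option autoImplicit false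

open Finset

namespace Pool.Agent.T6J

open Pool.Agent.T6A

noncomputable section

/-- **`LimB` from the certificates.** -/
theorem limB_of {Q Q' : ℝ} (hC : CertStmt Q') (hT : CertStmtT Q Q') (hJ : CertStmtJ Q) (Δ : ℕ) :
    LimB Δ := by
  obtain ⟨e₀, he₀, he₀8, hJ⟩ := hJ
  obtain ⟨e₁, he₁, he₁8, h1⟩ := lim_of ruleStmt hC Δ
  obtain ⟨e₂, he₂, he₂8, h2⟩ := hT Δ
  obtain ⟨e, hedef⟩ : ∃ e : ℝ, e = min (min e₁ e₂) (e₀ ^ 2 / 64) := ⟨_, rfl⟩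
  have he : 0 < e := by rw [hedef]; exact lt_min (lt_min he₁ he₂) (by positivity)
  have hee₁ : e ≤ e₁ := by rw [hedef]; exact (min_le_left _ _).trans (min_le_left _ _)
  have hee₂ : e ≤ e₂ := by rw [hedef]; exact (min_le_left _ _).trans (min_le_right _ _)
  have heq : e ≤ e₀ ^ 2 / 64 := by rw [hedef]; exact min_le_right _ _
  have hee₀ : e ≤ e₀ := by nlinarith
  have he8 : e ≤ 1 / 8 := hee₁.trans he₁8
  refine ⟨e, he, he8, fun ζ hζ => ?_⟩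
  obtain ⟨B₁, ε₁, hε₁, h1⟩ := h1 Δ ζ hζ
  obtain ⟨R₂, η₂, c₂, hη₂, hc₂, h2⟩ := h2 Δ
  obtain ⟨B₂, ε₂, hε₂, hεc₂, h2'⟩ := scheme_core ruleStmt he₂ he₂8 Δ (R := R₂) hη₂ hc₂ hζ
  obtain ⟨R₃, η₃, c₃, hη₃, hc₃, h3⟩ := hJ e he hee₀ Δ
  obtain ⟨B₃, ε₃, hε₃, hεc₃, h3'⟩ := scheme_core ruleStmt he he8 Δ (R := R₃) hη₃ hc₃ hζ
  obtain ⟨ε₄, hε₄, h4⟩ := scheme_or_badRow Δ (η := e₀ / 24) (ζ := ζ) (by positivity) hζ
  obtain ⟨B, hB⟩ : ∃ B : ℕ, B = max (max B₁ B₂)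
    (max B₃ ((Δ + 1) * (Δ + 1) * ((Δ + 1) * (Δ + 1)))) := ⟨_, rfl⟩
  have hB₁ : B₁ ≤ B := by rw [hB]; exact (le_max_left _ _).trans (le_max_left _ _)
  have hB₂ : B₂ ≤ B := by rw [hB]; exact (le_max_right _ _).trans (le_max_left _ _)
  have hB₃ : B₃ ≤ B := by rw [hB]; exact (le_max_left _ _).trans (le_max_right _ _)
  have hB₄ : (Δ + 1) * (Δ + 1) * ((Δ + 1) * (Δ + 1)) ≤ B := by
    rw [hB]; exact (le_max_right _ _).trans (le_max_right _ _)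
  obtain ⟨ε, hε⟩ : ∃ ε : ℝ, ε = min (min ε₁ ε₂) (min ε₃ ε₄) := ⟨_, rfl⟩
  have hεε₁ : ε ≤ ε₁ := by rw [hε]; exact (min_le_left _ _).trans (min_le_left _ _)
  have hεε₂ : ε ≤ ε₂ := by rw [hε]; exact (min_le_left _ _).trans (min_le_right _ _)
  have hεε₃ : ε ≤ ε₃ := by rw [hε]; exact (min_le_right _ _).trans (min_le_left _ _)
  have hεε₄ : ε ≤ ε₄ := by rw [hε]; exact (min_le_right _ _).trans (min_le_right _ _)
  have hε0 : 0 < ε := by rw [hε]; exact lt_min (lt_min hε₁ hε₂) (lt_min hε₃ hε₄)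
  refine ⟨B, ε, hε0, ?_⟩
  intro V ι _ _ X L Bd k hW hj hthr
  have hk := hW.k0
  rcases lt_or_ge (1 + Q') X.tot with ht | ht
  · -- large total weight
    obtain ⟨Om, iOm, p, g, b, Bn, φ, hs⟩ := h1 V ι X L Bd k
      (hW.mono_e (by linarith) hee₁ hεε₁)
    exact ⟨Om, iOm, p, g, b, Bn, φ, hs.mono_e hk.le hee₁ hB₁⟩
  rcases lt_or_ge (1 + Q) X.tot with ht' | ht'
  · -- middle range
    have hW2 : WorldOK X L Bd k Q Δ Δ e₂ ε₂ := hW.mono_e (by linarith) hee₂ hεε₂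
    obtain ⟨Om, iOm, p, g, b, Bn, φ, hs⟩ := h2' V ι X L Bd k Q Δ hW2
      (fun hs => h2 V ι X L Bd k (hW2.mono hεc₂) (hthr.mono_e hk.le hee₂) hj ht hs)
    exact ⟨Om, iOm, p, g, b, Bn, φ, hs.mono_e hk.le hee₂ hB₂⟩
  -- small total weight
  have hW3 : WorldOK X L Bd k (7 / 5) Δ Δ e ε₃ := hW.mono hεε₃
  have hrate : (X.s < 1 → BadRow X L e₀) → ∃ (Om : Type) (_ : Fintype Om) (p : V → Om → ℝ)
      (g : (V → Om) → V → ι) (b : (V → Om) → V → Option ι) (Bn : V → Finset V) (φ : ι → ι → ℝ),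
      Scheme X L Bd k e ζ B p g b Bn φ := by
    intro hbad
    obtain ⟨Om, iOm, p, g, b, Bn, φ, hs⟩ := h3' V ι X L Bd k (7 / 5) Δ hW3
      (fun hs => h3 V ι Δ X L Bd k (hW3.mono hεc₃) hthr hj (by linarith) hs hbad)
    exact ⟨Om, iOm, p, g, b, Bn, φ, hs.mono_e hk.le le_rfl hB₃⟩
  by_cases hs1 : X.s < 1
  · have hsum : 5 * e + 3 * (e₀ / 24) + e₀ / 4 + 2 * e / (e₀ / 4) ≤ e₀ := by
      have h5 : 2 * e / (e₀ / 4) ≤ e₀ / 8 := by
        rw [div_le_iff₀ (by positivity)]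
        nlinarith
      have h6 : 5 * e ≤ e₀ / 8 := by nlinarith
      linarith
    rcases h4 V ι X L Bd k (7 / 5) Δ e (e₀ / 4) e₀ he.le he8 (by positivity) (by nlinarith) hsum
      (hW.mono hεε₄) hs1 hj with ⟨Om, iOm, p, g, b, Bn, φ, hs⟩ | hbad
    · exact ⟨Om, iOm, p, g, b, Bn, φ, hs.mono_e hk.le le_rfl hB₄⟩
    · exact hrate fun _ => hbad
  · exact hrate fun h => absurd h hs1

/-- **Theorem B from the certificates**: for every `Δ` there is a `k₀` such that `R(3, G) ≤ k + m` for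
all graphs `G` of maximum degree at most `Δ` with `k ≥ k₀` vertices and `m` edges. -/
theorem theoremB_of_cert {Q Q' : ℝ} (hC : CertStmt Q') (hT : CertStmtT Q Q') (hJ : CertStmtJ Q)
    (Δ : ℕ) : ∃ k₀ : ℕ, ∀ (V : Type) [Fintype V] (G : SimpleGraph V),
      (∀ v : V, (G.neighborSet v).ncard ≤ Δ) → k₀ ≤ Fintype.card V →
      ∀ H : SimpleGraph (Fin (Fintype.card V + G.edgeSet.ncard)),
        ¬ H.CliqueFree 3 ∨ ∃ f : G →g Hᶜ, Function.Injective f :=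
  theoremB_of_limB (limB_of hC hT hJ Δ)

/-- `CertStmtT Q Q` is contained in `CertStmt Q`. -/
theorem certStmtT_of {Q Q' : ℝ} (h : CertStmt Q) : CertStmtT Q Q' := by
  intro C
  obtain ⟨e, he, he8, h⟩ := h C
  refine ⟨e, he, he8, fun K => ?_⟩
  obtain ⟨R, η, ε, hη, hε, h⟩ := h K
  exact ⟨R, η, ε, hη, hε, fun V ι _ _ X L Bd k hW _ _ _ hs => h V ι X L Bd k hW hs⟩

end

end Pool.Agent.T6J
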