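import Pool.Agent.T6J.St
import Pool.Agent.T6A.PolyBox

/-!
# The kernel-checked tables of Theorem B (MP_c6effb_co): the checker

A `Box` contains the data of one box `[q0, q1] × [s0, s1]` as natural numbers, `chkBox` is a Boolean
check in integer arithmetic (evaluated by the kernel), `boxCert_of_chk` (file `MachineSound.lean`) says
that a box which passes gives `BoxCert`.
-/

set_option autoImplicit false

namespace Pool.Agent.T6J.Mach

open Pool.Agent.T6A.PolyBox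

/-- One cell: `g / M`, `g' / M` = its ends; `f / tf`, `p / tf`, `r / tf` = the values; `u / 10 ^ 6` = upper
bound for `1 / (1 - g' / M)` (if `f > 0`); `pi / (sd M)` = lower bound for the list probability at `g'`;
`be / (sd M)` = upper bound for `s1 (1 - g / M) - (1 - s1)`. -/
structure Cl where
  g : ℕ
  g' : ℕ
  f : ℕ
  p : ℕ
  r : ℕ
  u : ℕ
  pi : ℕ
  be : ℕ

/-- The data of one degree; everything over `10 ^ 6`, except for `d`, `cut`, `um` (over `1000`), `ssl`, `ssh`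
(over `10 ^ 8`, bounds for `ss d um`). -/
structure Dg where
  d : ℕ
  cut : ℕ
  c1 : ℕ
  be : ℕ
  um : ℕ
  a0 : ℕ
  b0 : ℕ
  a1 : ℕ
  b1 : ℕ
  aA : ℕ
  bA : ℕ
  lc : ℕ
  ssl : ℕ
  ssh : ℕ

/-- The data of a box: `[q0 / qd, q1 / qd] × [s0 / sd, s1 / sd]`; `eta`, `eps`, `D`, `sl` over `10 ^ 6`. -/
structure Box where
  M : ℕ
  sd : ℕ
  qd : ℕ
  tf : ℕ
  q0 : ℕ
  q1 : ℕ
  s0 : ℕ
  s1 : ℕ
  eta : ℕ
  eps : ℕ
  k : ℕ
  D : ℕ
  sl : ℕ
  dmin : ℕ
  dmax : ℕ
  cells : List Cl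
  degs : List Dg

/-! ### the cells -/

/-- The cells are a partition of `[x / M, 1]`. -/
def chkChain (M : ℕ) : List Cl → ℕ → Bool
  | [], x => Nat.beq x M
  | c :: l, x => Nat.beq c.g x && (Nat.blt c.g c.g' && chkChain M l c.g')

/-- The check of one cell. -/
def chkCell (B : Box) (f0 : ℕ) (c : Cl) : Bool :=
  Nat.ble c.f f0 && (Nat.ble c.p (10 * B.tf) && (Nat.ble c.r (10 * B.tf) &&
    ((Nat.beq c.f 0 || Nat.ble (1000000 * B.M) (c.u * (B.M - c.g'))) &&
    ((Nat.beq c.pi 0 || Nat.ble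
        ((c.pi * 1000000 + B.sd * B.M * B.eps) * (B.M ^ B.k * B.M))
        (B.sd * B.M * ((B.M - c.g') ^ B.k * (1000000 * B.M - (B.D - B.k * 1000000) * c.g')))) &&
      Nat.ble (B.s1 * (B.M - c.g) + B.s1 * B.M) (c.be + B.sd * B.M)))))

/-- The multiplier times `10 ^ 6 tf r`. -/
def mt (t K : ℕ) (c c' : Cl) : ℕ :=
  if Nat.ble t c'.pi || Nat.beq c.be 0 then K * c.r else K * c.r * c'.pi / (c'.pi + c.be)

/-- The check of a pair of cells: `t / (sd M) = 1 - s0`, `K = 10 ^ 6 tf`. -/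
def chkPair (M t K : ℕ) (c c' : Cl) : Bool :=
  Nat.beq c.f 0 || (Nat.beq c'.f 0 || (Nat.blt M (c.g + c'.g) ||
    Nat.ble (c.f * c'.f * (c.u + c'.u)) (K * (c.p + c'.p) + (mt t K c c' + mt t K c' c))))

/-- All pairs. -/
def chkPairs (M t K : ℕ) : List Cl → Bool
  | [] => true
  | c :: l => (c :: l).all (chkPair M t K c) && chkPairs M t K l

/-- The last cell: `f = 0`, `g ≤ 24 / 25`. -/
def chkLast (M : ℕ) : List Cl → Bool
  | [] => false
  | [c] => Nat.beq c.f 0 && Nat.ble (25 * c.g) (24 * M)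
  | _ :: c :: l => chkLast M (c :: l)

/-! ### one degree -/

/-- the common scale -/
def ZZ : ℕ := 1000000000000

/-- Bounds for the capped odds on the cell `[g / M, g' / M]`, over `10 ^ 6`: a linear lower bound by its values at
the two ends, and upper bounds at the two ends (convex below the cap). -/
def uts (M um g g' : ℕ) : (ℕ × ℕ) × (ℕ × ℕ) :=
  if Nat.blt g' M && Nat.ble (g' * 1000) (um * (M - g')) then
    ((1000000 * g / (M - g), 1000000 * (g * (M - g) + M * (g' - g)) / ((M - g) * (M - g))),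
      (1000000 * g / (M - g) + 1, 1000000 * g' / (M - g') + 1))
  else if Nat.ble (um * (M - g)) (g * 1000) then ((1000 * um, 1000 * um), (1000 * um, 1000 * um))
  else ((1000000 * g / (M - g), 1000000 * g / (M - g)), (1000 * um, 1000 * um))

/-- The row inequality at the point `e / M` with the value `F` of the profile, `ul`, `uh` = lower and upper bound
for the capped odds; `s = sn / sd`. -/
def chkRow (B : Box) (x : Dg) (sn a b F P R e ul uh : ℕ) : Bool :=
  Nat.ble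
    (a * 1000000 + (sn * (F * F) * B.M ^ x.d * ZZ / (B.sd * (B.tf * B.tf) * (B.M - e) ^ x.d) + 1)
      + (sn * (F * F) * x.ssh * (uh * uh) * ZZ /
          (B.sd * (B.tf * B.tf) * 100000000 * 1000000000000) + 1)
      + (sn * x.d * (B.M - e) * P * ZZ / (B.sd * B.M * B.tf) + 1)
      + ((B.sd - sn) * x.d * R * ZZ / (B.sd * B.tf) + 1))
    (sn * (F * F) * ZZ / (B.sd * (B.tf * B.tf)) + b * e * ZZ / (1000000 * B.M)
      + x.c1 * F * ZZ / (1000000 * B.tf)
      + 2 * x.be * x.ssl * F * ul * ZZ / (1000000 * 100000000 * B.tf * 1000000))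

/-- The mass line at the cell `c`. -/
def chkMass (B : Box) (x : Dg) (F : ℕ) (c : Cl) : Bool :=
  Nat.ble (x.aA * (B.M * B.tf)) (x.bA * c.g * B.tf + F * (1000000 * B.M))

/-- The rows at one cell, at both ends. -/
def chkRow2 (B : Box) (x : Dg) (sn a b F : ℕ) (c : Cl) (u : (ℕ × ℕ) × (ℕ × ℕ)) : Bool :=
  chkRow B x sn a b F c.p c.r c.g u.1.1 u.2.1 && chkRow B x sn a b F c.p c.r c.g' u.1.2 u.2.2

/-- All rows at one cell. -/
def chkRows (B : Box) (x : Dg) (F : ℕ) (c : Cl) : Bool :=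
  chkRow2 B x B.s0 x.a0 x.b0 F c (uts B.M x.um c.g c.g') &&
    (chkRow2 B x B.s1 x.a1 x.b1 F c (uts B.M x.um c.g c.g') && chkMass B x F c)

/-- The bounds for `ss d um`. -/
def chkSS (x : Dg) : Bool :=
  Nat.ble (x.ssl * (1000000 ^ x.d * (x.um * x.um)))
      (100000000 * 1000000 * (1000000 ^ x.d - (1000000 - x.um * x.um) ^ x.d)) &&
    Nat.ble (100000000 * 1000000 * (1000000 ^ x.d - (1000000 - x.um * x.um) ^ x.d))
      (x.ssh * (1000000 ^ x.d * (x.um * x.um)))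

/-- `10 ^ 6` times the line. -/
def LP (B : Box) (d : ℕ) : P2 :=
  [[1000000 + (B.eta : ℤ) - (B.sl : ℤ) * d, -1000000], [2 * (B.sl : ℤ)]]

/-- `10 ^ 6 (1 + q - s)` times `a`, minus `10 ^ 6 b s`, `a = a0 + ...` interpolated (times `s1 - s0`). -/
def EP (B : Box) (x : Dg) : P2 :=
  add2 (mul2 [[(x.a0 : ℤ) * ((B.s1 : ℤ) - B.s0) - ((x.a1 : ℤ) - x.a0) * B.s0,
      ((x.a1 : ℤ) - x.a0) * B.sd]] [[1, -1], [1]])
    (add2 (mul2 [[(x.b0 : ℤ) * ((B.s1 : ℤ) - B.s0) - ((x.b1 : ℤ) - x.b0) * B.s0,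
      ((x.b1 : ℤ) - x.b0) * B.sd]] [[0, -1]])
      (cst (-(((B.s1 : ℤ) - B.s0) * ((x.ssh * (x.be * x.be) / (100000000 * 1000000) + 1 + B.eps : ℕ) : ℤ)))))

/-- `10 ^ 6` times the mass. -/
def AP (B : Box) (x : Dg) : P2 :=
  [[(x.aA : ℤ) - B.eps, -((x.aA : ℤ) + x.bA)], [(x.aA : ℤ)]]

/-- The polynomial of `F1`. -/
def F1P (B : Box) (x : Dg) : P2 :=
  add2 (mul2 (cst 4000000) (mul2 (EP B x) (add2 (cst 1000000) (mul2 (cst (-1)) (LP B x.d)))))
    (mul2 (cst (-((x.c1 : ℤ) * x.c1 * ((B.s1 : ℤ) - B.s0)))) (LP B x.d))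

/-- The polynomial of `F2`. -/
def F2P (B : Box) (x : Dg) : P2 :=
  add2 (mul2 (cst (2 * (x.lc : ℤ) * 1000000000000 * ((B.s1 : ℤ) - B.s0))) (AP B x))
    (add2 (mul2 (cst (-((x.lc : ℤ) * x.lc * ((B.s1 : ℤ) - B.s0)))) (mul2 (AP B x) (AP B x)))
      (add2 (mul2 (cst (-((x.lc : ℤ) * x.lc * ((B.s1 : ℤ) - B.s0) * x.c1))) (AP B x))
        (add2 (mul2 (cst ((x.lc : ℤ) * x.lc * 1000000)) (EP B x))
          (mul2 (cst (-(1000000000000000000 * ((B.s1 : ℤ) - B.s0)))) (LP B x.d)))))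

/-- nonnegative on a box, with at most `n` bisections in `y` -/
def okR : ℕ → ℤ → ℤ → ℤ → ℤ → ℤ → ℤ → P2 → Bool
  | 0, a, b, c, a', b', c', p => ok2 a b c a' b' c' p
  | n + 1, a, b, c, a', b', c', p => ok2 a b c a' b' c' p ||
      (okR n a b c (2 * a') (a' + b') (2 * c') p && okR n a b c (a' + b') (2 * b') (2 * c') p)

/-- nonnegative on the box -/
def okB (B : Box) (p : P2) : Bool := okR 3 B.q0 B.q1 B.qd B.s0 B.s1 B.sd p

/-- The check of the numbers of one degree. -/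
def chkNum (B : Box) (f0 N : ℕ) (x : Dg) : Bool :=
  Nat.blt x.cut N && (Nat.ble x.c1 10000000 && (Nat.ble x.be 10000000 && (Nat.blt 0 x.um &&
    (Nat.ble x.um 1000 && (Nat.ble x.a0 100000000 && (Nat.ble x.a1 100000000 &&
    (Nat.ble x.b0 100000000 && (Nat.ble x.b1 100000000 && (Nat.ble x.aA 100000000 &&
    (Nat.ble x.bA 100000000 && (Nat.blt 0 x.lc && (Nat.ble x.lc 10000000 &&
    (Nat.ble (2 * x.lc * f0 + B.eps * B.tf) (1000000 * B.tf) && chkSS x)))))))))))))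

/-- The check of the final inequalities of one degree. -/
def chkFin (B : Box) (x : Dg) : Bool :=
  okB B (AP B x) && (okB B (add2 (cst 999999) (mul2 (cst (-1)) (LP B x.d))) && (okB B (EP B x) &&
    (okB B (F1P B x) && okB B (F2P B x))))

/-- The check of one degree. -/
def chkDeg (B : Box) (f0 N : ℕ) (x : Dg) : Bool :=
  chkNum B f0 N x && ((B.cells.take x.cut).all (fun c => chkRows B x c.f c) &&
    ((B.cells.drop x.cut).all (chkRows B x 0) && chkFin B x))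

/-- All degrees. -/
def chkDegs (B : Box) (f0 N : ℕ) : List Dg → ℕ → Bool
  | [], d => Nat.beq d B.dmax
  | x :: l, d => Nat.beq x.d d && (chkDeg B f0 N x && chkDegs B f0 N l (d + 1))

/-- The check of the numbers of the box. -/
def chkHead (B : Box) : Bool :=
  Nat.blt 0 B.M && (Nat.blt 0 B.sd && (Nat.blt 0 B.qd && (Nat.blt 0 B.tf && (Nat.blt 0 B.eta &&
    (Nat.blt 0 B.eps && (Nat.ble B.sd (2 * B.s0) && (Nat.blt B.s0 B.s1 && (Nat.blt B.s0 B.sd &&
    (Nat.ble B.s1 (2 * B.sd) && ((Nat.blt B.s1 B.sd || B.cells.all (fun c => Nat.beq c.r 0)) &&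
    (Nat.ble (B.k * 1000000) B.D && (Nat.ble B.D (B.k * 1000000 + 1000000) &&
    (Nat.ble (2 * B.q1 * 1000000 + B.eps * B.qd) (B.D * B.qd) && (Nat.ble B.sl 1000000 &&
    (Nat.ble B.dmax 20 && (Nat.ble B.dmin B.dmax && (okB B (mul2 (cst (-1)) (LP B B.dmax)) &&
    okB B [[1000000 - (B.eps : ℤ), -(1000000 * (B.dmin : ℤ))], [1000000]])))))))))))))))))

/-- the first value of `f` -/
def fst0 (B : Box) : ℕ := (B.cells.headD ⟨0, 0, 0, 0, 0, 0, 0, 0⟩).f

/-- **The check of a box.** -/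
def chkBox (B : Box) : Bool :=
  chkHead B && (Nat.blt 1 B.cells.length && (chkChain B.M B.cells 0 && (chkLast B.M B.cells &&
    (Nat.ble (fst0 B) (10 * B.tf) && (B.cells.all (chkCell B (fst0 B)) &&
    (chkPairs B.M ((B.sd - B.s0) * B.M) (1000000 * B.tf) B.cells &&
      chkDegs B (fst0 B) B.cells.length B.degs B.dmin))))))

end Pool.Agent.T6J.Mach
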