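import Pool.Agent.T6J.Machine
import Pool.Agent.T6J.StH

/-!
# The kernel-checked tables for all degrees (MP_c6effb_co): the checker

As `Machine.lean`, for the certificate `H.BoxCertH` of `StH.lean`: the row of the first cell has the extra factor
`1 - y`, and there is a second list of degrees (`hub`: all `D` with `dL dmin D < dmax`) with the line `dL` and the
load `(1 - eps) (1 - x)`.
-/

set_option autoImplicit false

namespace Pool.Agent.T6J.Mach

open Pool.Agent.T6A.PolyBox

/-- A box with the list `hub`. -/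
structure BoxH where
  b : Box
  hub : List Dg

/-- The multiplier with the factor of the first cell. -/
def mtH (M t K : ℕ) (c c' : Cl) : ℕ :=
  if Nat.beq c.g 0 then mt t K c c' * (M - c'.g') / M else mt t K c c'

/-- The check of a pair of cells. -/
def chkPairH (M t K : ℕ) (c c' : Cl) : Bool :=
  Nat.beq c.f 0 || (Nat.beq c'.f 0 || (Nat.blt M (c.g + c'.g) ||
    Nat.ble (c.f * c'.f * (c.u + c'.u))
      (K * (c.p + c'.p) + (mtH M t K c c' + mtH M t K c' c))))

/-- All pairs. -/
def chkPairsH (M t K : ℕ) : List Cl → Bool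
  | [] => true
  | c :: l => (c :: l).all (chkPairH M t K c) && chkPairsH M t K l

/-- the line -/
def dLn (dmin D : ℕ) : ℕ :=
  if Nat.ble (2 * dmin + 1 - D) (D + 1) then D + 1 else 2 * dmin + 1 - D

/-- The polynomial of `F1` with the line `dl`. -/
def F1L (B : Box) (x : Dg) (dl : ℕ) : P2 :=
  add2 (mul2 (cst 4000000) (mul2 (EP B x) (add2 (cst 1000000) (mul2 (cst (-1)) (LP B dl)))))
    (mul2 (cst (-((x.c1 : ℤ) * x.c1 * ((B.s1 : ℤ) - B.s0)))) (LP B dl))

/-- The polynomial of `F2` with the line `dl`. -/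
def F2L (B : Box) (x : Dg) (dl : ℕ) : P2 :=
  add2 (mul2 (cst (2 * (x.lc : ℤ) * 1000000000000 * ((B.s1 : ℤ) - B.s0))) (AP B x))
    (add2 (mul2 (cst (-((x.lc : ℤ) * x.lc * ((B.s1 : ℤ) - B.s0)))) (mul2 (AP B x) (AP B x)))
      (add2 (mul2 (cst (-((x.lc : ℤ) * x.lc * ((B.s1 : ℤ) - B.s0) * x.c1))) (AP B x))
        (add2 (mul2 (cst ((x.lc : ℤ) * x.lc * 1000000)) (EP B x))
          (mul2 (cst (-(1000000000000000000 * ((B.s1 : ℤ) - B.s0)))) (LP B dl)))))

/-- The check of the final inequalities with the line `dl`. -/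
def chkFinL (B : Box) (x : Dg) (dl : ℕ) : Bool :=
  okB B (AP B x) && (okB B (add2 (cst 999999) (mul2 (cst (-1)) (LP B dl))) && (okB B (EP B x) &&
    (okB B (F1L B x dl) && okB B (F2L B x dl))))

/-- The check of one degree of the list `hub`. -/
def chkHub (B : Box) (f0 N : ℕ) (x : Dg) : Bool :=
  chkNum B f0 N x && ((B.cells.take x.cut).all (fun c =>
      Nat.ble (2 * x.lc * c.f * B.M) ((1000000 - B.eps) * B.tf * (B.M - c.g')) &&
        chkRows B x c.f c) &&
    ((B.cells.drop x.cut).all (chkRows B x 0) && chkFinL B x (dLn B.dmin x.d)))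

/-- All degrees with `dL < dmax` are in the list `hub`. -/
def chkHubs (B : Box) (l : List Dg) : Bool :=
  (List.range B.dmax).all (fun D => Nat.beq D 0 || (Nat.ble B.dmax (dLn B.dmin D) ||
    l.any (fun x => Nat.beq x.d D)))

/-- the end of the first cell -/
def end0 (B : Box) : ℕ := (B.cells.headD ⟨0, 0, 0, 0, 0, 0, 0, 0⟩).g'

/-- **The check of a box.** -/
def chkBoxH (B : BoxH) : Bool :=
  chkHead B.b && (Nat.blt 1 B.b.cells.length && (chkChain B.b.M B.b.cells 0 &&
    (chkLast B.b.M B.b.cells &&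
    (Nat.ble (fst0 B.b) (10 * B.b.tf) && (B.b.cells.all (chkCell B.b (fst0 B.b)) &&
    (chkPairsH B.b.M ((B.b.sd - B.b.s0) * B.b.M) (1000000 * B.b.tf) B.b.cells &&
      (chkDegs B.b (fst0 B.b) B.b.cells.length B.b.degs B.b.dmin &&
      (B.hub.all (chkHub B.b (fst0 B.b) B.b.cells.length) && (chkHubs B.b B.hub &&
        (Nat.ble B.b.M (1000 * end0 B.b) && Nat.ble B.b.eps 1000000))))))))))

end Pool.Agent.T6J.Mach
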