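import Pool.Agent.T6J.Machine
import Pool.Agent.T6J.StP

/-!
# The kernel-checked tables of Theorem B (MP_c6effb_co): soundness of the checker
-/

set_option autoImplicit false
set_option linter.unusedVariables false

open Finset

namespace Pool.Agent.T6J.Mach

open Pool.Agent.T6A Pool.Agent.T6A.PolyBox

noncomputable section

/-! ### general -/

theorem blt_iff {a b : ℕ} : Nat.blt a b = true ↔ a < b := by
  unfold Nat.blt
  rw [Nat.ble_eq]
  exact Iff.rfl

theorem beq_iff {a b : ℕ} : Nat.beq a b = true ↔ a = b := by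
  rw [Nat.beq_eq]

/-- `⌊a / b⌋ ≤ a / b` -/
theorem fl_le (a b : ℕ) : ((a / b : ℕ) : ℝ) ≤ (a : ℝ) / b := Nat.cast_div_le

/-- `a / b ≤ ⌊a / b⌋ + 1` -/
theorem le_fl (a : ℕ) {b : ℕ} (hb : 0 < b) : (a : ℝ) / b ≤ ((a / b + 1 : ℕ) : ℝ) := by
  rw [div_le_iff₀ (by exact_mod_cast hb)]
  have h := Nat.div_add_mod a b
  have h2 := Nat.mod_lt a hb
  have h3 : a ≤ (a / b + 1) * b := by
    rw [add_mul, one_mul, mul_comm]
    omega
  exact_mod_cast h3

/-! ### the chain of the cells -/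

theorem chain_head {M : ℕ} {l : List Cl} {x : ℕ} (h : chkChain M l x = true) :
    (l.map Cl.g).getD 0 M = x := by
  cases l with
  | nil =>
    rw [chkChain, beq_iff] at h
    simp [h]
  | cons c l =>
    rw [chkChain, Bool.and_eq_true, beq_iff] at h
    simp [h.1]

theorem chain_spec {M : ℕ} : ∀ {l : List Cl} {x : ℕ}, chkChain M l x = true →
    ∀ i (hi : i < l.length), (l.map Cl.g).getD (i + 1) M = (l[i]'hi).g' ∧
      (l[i]'hi).g < (l[i]'hi).g' := by
  intro l
  induction l with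
  | nil => intro x _ i hi; exact absurd hi (by simp)
  | cons c l ih =>
    intro x h i hi
    rw [chkChain, Bool.and_eq_true, Bool.and_eq_true, beq_iff, blt_iff] at h
    obtain ⟨h1, h2, h3⟩ := h
    cases i with
    | zero =>
      refine ⟨?_, h2⟩
      have h4 := chain_head h3
      simpa using h4
    | succ i =>
      have h4 := ih h3 i (by simpa using hi)
      simpa using h4

theorem chain_le {M : ℕ} : ∀ {l : List Cl} {x : ℕ}, chkChain M l x = true →
    x ≤ M ∧ ∀ i (hi : i < l.length), (l[i]'hi).g' ≤ M := by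
  intro l
  induction l with
  | nil =>
    intro x h
    rw [chkChain, beq_iff] at h
    exact ⟨h.le, fun i hi => absurd hi (by simp)⟩
  | cons c l ih =>
    intro x h
    rw [chkChain, Bool.and_eq_true, Bool.and_eq_true, beq_iff, blt_iff] at h
    obtain ⟨h1, h2, h3⟩ := h
    obtain ⟨h4, h5⟩ := ih h3
    refine ⟨by omega, fun i hi => ?_⟩
    cases i with
    | zero => exact h4
    | succ i => simpa using h5 i (by simpa using hi)

theorem pairs_spec {M t K : ℕ} : ∀ {l : List Cl}, chkPairs M t K l = true →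
    ∀ i j (hi : i < l.length) (hj : j < l.length), i ≤ j →
      chkPair M t K (l[i]'hi) (l[j]'hj) = true := by
  intro l
  induction l with
  | nil => intro _ i j hi; exact absurd hi (by simp)
  | cons c l ih =>
    intro h i j hi hj hij
    rw [chkPairs, Bool.and_eq_true, List.all_eq_true] at h
    cases i with
    | zero => exact h.1 _ (List.getElem_mem hj)
    | succ i =>
      cases j with
      | zero => omega
      | succ j =>
        have h4 := ih h.2 i j (by simpa using hi) (by simpa using hj) (by omega)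
        simpa using h4

theorem last_spec {M : ℕ} : ∀ {l : List Cl}, chkLast M l = true →
    ∃ h : l.length - 1 < l.length, (l[l.length - 1]'h).f = 0 ∧
      25 * (l[l.length - 1]'h).g ≤ 24 * M := by
  intro l
  induction l with
  | nil => intro h; exact absurd h (by simp [chkLast])
  | cons c l ih =>
    intro h
    cases l with
    | nil =>
      rw [chkLast, Bool.and_eq_true, beq_iff, Nat.ble_eq] at h
      exact ⟨by simp, by simpa using h⟩
    | cons c' l =>
      rw [chkLast] at h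
      obtain ⟨h1, h2⟩ := ih h
      refine ⟨by simp, ?_⟩
      simpa using h2

/-! ### the J factor -/

open Classical in
/-- The lower bound of the J factor. -/
def ml (t : ℕ) (c c' : Cl) : ℝ :=
  if t ≤ c'.pi ∨ c.be = 0 then 1 else (c'.pi : ℝ) / ((c'.pi : ℝ) + c.be)

theorem mt_le (t K : ℕ) (c c' : Cl) : (mt t K c c' : ℝ) ≤ K * c.r * ml t c c' := by
  unfold mt ml
  by_cases h : t ≤ c'.pi ∨ c.be = 0
  · rw [if_pos (by
      rcases h with h | h
      · rw [Nat.ble_eq_true_of_le h, Bool.true_or]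
      · rw [h, Bool.or_eq_true]; exact Or.inr rfl), if_pos h]
    push_cast
    linarith
  · rw [if_neg (by
      rw [Bool.or_eq_true, Nat.ble_eq, beq_iff]
      exact h), if_neg h]
    refine (fl_le _ _).trans (le_of_eq ?_)
    push_cast
    ring

theorem ml_le_one (t : ℕ) (c c' : Cl) : ml t c c' ≤ 1 := by
  unfold ml
  split_ifs
  · exact le_rfl
  · exact div_le_one_of_le₀ (by linarith [(Nat.cast_nonneg c.be : (0 : ℝ) ≤ c.be)])
      (by positivity)

theorem ml_le_mb {s0 s1 ε D S : ℝ} {k t : ℕ} {x y : ℝ} {c c' : Cl} (hS : 0 < S)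
    (ht : (t : ℝ) = S * (1 - s0)) (ht0 : 0 < t)
    (hpi : c'.pi = 0 ∨ (c'.pi : ℝ) ≤ S * (pl k D y - ε))
    (hbe : S * (s1 * (1 - x) - (1 - s1)) ≤ c.be) :
    ml t c c' ≤ P.mb s0 s1 ε k D x y := by
  classical
  unfold P.mb
  split_ifs with h
  · exact ml_le_one t c c'
  · push Not at h
    obtain ⟨h1, h2⟩ := h
    have hc : 0 < s1 * (1 - x) - (1 - s1) := by linarith
    have hbe0 : (0 : ℝ) < c.be := lt_of_lt_of_le (mul_pos hS hc) hbe
    have hx0 : 0 ≤ max 0 (pl k D y - ε) := le_max_left _ _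
    have hpi2 : (c'.pi : ℝ) ≤ S * max 0 (pl k D y - ε) := by
      rcases hpi with h3 | h3
      · rw [h3]
        simpa using mul_nonneg hS.le hx0
      · exact h3.trans (mul_le_mul_of_nonneg_left (le_max_right _ _) hS.le)
    unfold ml
    rw [if_neg]
    · have h0 : (0 : ℝ) ≤ c'.pi := Nat.cast_nonneg _
      have e1 : max 0 (pl k D y - ε) + s1 * (1 - x) - (1 - s1) =
          max 0 (pl k D y - ε) + (s1 * (1 - x) - (1 - s1)) := by ring
      rw [e1, div_le_div_iff₀ (by linarith) (by linarith)]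
      have h5 : (c'.pi : ℝ) * (s1 * (1 - x) - (1 - s1)) ≤
          max 0 (pl k D y - ε) * c.be := by
        calc (c'.pi : ℝ) * (s1 * (1 - x) - (1 - s1))
            ≤ (S * max 0 (pl k D y - ε)) * (s1 * (1 - x) - (1 - s1)) :=
              mul_le_mul_of_nonneg_right hpi2 hc.le
          _ = max 0 (pl k D y - ε) * (S * (s1 * (1 - x) - (1 - s1))) := by ring
          _ ≤ _ := mul_le_mul_of_nonneg_left hbe hx0
      linarith
    · rintro (h3 | h3)
      · rcases hpi with h4 | h4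
        · omega
        · have h5 : (t : ℝ) ≤ c'.pi := by exact_mod_cast h3
          rw [ht] at h5
          have h6 := h5.trans h4
          have := le_of_mul_le_mul_left h6 hS
          linarith
      · rw [h3] at hbe0
        simp at hbe0

/-- `pl` is decreasing. -/
theorem pl_anti {k : ℕ} {D x y : ℝ} (hD : (k : ℝ) ≤ D) (hD1 : D ≤ k + 1) (hxy : x ≤ y)
    (hy : y ≤ 1) (hx : 0 ≤ x) : pl k D y ≤ pl k D x := by
  unfold pl
  have h1 : (D - k) * x ≤ (D - k) * y := mul_le_mul_of_nonneg_left hxy (by linarith)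
  have h2 : 0 ≤ 1 - (D - k) * y := by
    have : (D - k) * y ≤ 1 * 1 := mul_le_mul (by linarith) hy (by linarith) (by norm_num)
    linarith
  exact mul_le_mul (pow_le_pow_left₀ (by linarith) (by linarith) k) (by linarith) h2
    (pow_nonneg (by linarith) k)

/-! ### the pair inequality -/

theorem u_real {M : ℕ} (hM : 0 < M) {d : Cl} (hd : 1000000 * M ≤ d.u * (M - d.g')) {x : ℝ}
    (hx : x ≤ (d.g' : ℝ) / M) : (1 - x)⁻¹ ≤ (d.u : ℝ) / 1000000 := by
  have hM' : (0 : ℝ) < M := by exact_mod_cast hM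
  have h0 : 0 < M - d.g' := by
    by_contra hcon
    have : M - d.g' = 0 := by omega
    rw [this] at hd
    omega
  have h1 : ((M - d.g' : ℕ) : ℝ) = M - d.g' := by
    rw [Nat.cast_sub (by omega)]
  have h2 : (0 : ℝ) < M - d.g' := by rw [← h1]; exact_mod_cast h0
  have h3 : (1000000 : ℝ) * M ≤ d.u * (M - d.g') := by rw [← h1]; exact_mod_cast hd
  have h4 : (M - d.g' : ℝ) / M ≤ 1 - x := by
    have : (M - d.g' : ℝ) / M = 1 - (d.g' : ℝ) / M := by field_simp
    rw [this]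
    linarith
  refine (inv_anti₀ (div_pos h2 hM') h4).trans ?_
  rw [inv_div, div_le_div_iff₀ h2 (by norm_num)]
  linarith

theorem pair_real {M tf t : ℕ} (hM : 0 < M) (htf : 0 < tf) {c c' : Cl} {m1 m2 x y : ℝ}
    (hu : 1000000 * M ≤ c.u * (M - c.g')) (hu' : 1000000 * M ≤ c'.u * (M - c'.g'))
    (hx : x ≤ (c.g' : ℝ) / M) (hy : y ≤ (c'.g' : ℝ) / M)
    (hm1 : ml t c c' ≤ m1) (hm2 : ml t c' c ≤ m2)
    (h : c.f * c'.f * (c.u + c'.u) ≤
      1000000 * tf * (c.p + c'.p) + (mt t (1000000 * tf) c c' + mt t (1000000 * tf) c' c)) :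
    (c.f : ℝ) / tf * (c'.f / tf) * ((1 - x)⁻¹ + (1 - y)⁻¹) ≤
      (c.p : ℝ) / tf + c'.p / tf + c.r / tf * m1 + c'.r / tf * m2 := by
  have hM' : (0 : ℝ) < M := by exact_mod_cast hM
  have htf' : (0 : ℝ) < tf := by exact_mod_cast htf
  have h1 := u_real hM hu hx
  have h2 := u_real hM hu' hy
  have h3 : ((c.f : ℝ) * c'.f * (c.u + c'.u)) ≤ 1000000 * tf * (c.p + c'.p) +
      (mt t (1000000 * tf) c c' + mt t (1000000 * tf) c' c) := by exact_mod_cast h
  have h4 : (mt t (1000000 * tf) c c' : ℝ) ≤ 1000000 * tf * c.r * m1 := by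
    refine (mt_le _ _ _ _).trans ?_
    push_cast
    exact mul_le_mul_of_nonneg_left hm1 (by positivity)
  have h5 : (mt t (1000000 * tf) c' c : ℝ) ≤ 1000000 * tf * c'.r * m2 := by
    refine (mt_le _ _ _ _).trans ?_
    push_cast
    exact mul_le_mul_of_nonneg_left hm2 (by positivity)
  have h6 : (c.f : ℝ) / tf * (c'.f / tf) * ((1 - x)⁻¹ + (1 - y)⁻¹) ≤
      (c.f : ℝ) / tf * (c'.f / tf) * ((c.u : ℝ) / 1000000 + c'.u / 1000000) :=
    mul_le_mul_of_nonneg_left (by linarith) (by positivity)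
  refine h6.trans ?_
  have e1 : (c.f : ℝ) / tf * (c'.f / tf) * ((c.u : ℝ) / 1000000 + c'.u / 1000000) =
      ((c.f : ℝ) * c'.f * (c.u + c'.u)) / (1000000 * tf ^ 2) := by field_simp
  have e2 : (c.p : ℝ) / tf + c'.p / tf + c.r / tf * m1 + c'.r / tf * m2 =
      (1000000 * tf * (c.p + c'.p) + (1000000 * tf * c.r * m1 + 1000000 * tf * c'.r * m2)) /
        (1000000 * tf ^ 2) := by
    field_simp
    ring
  rw [e1, e2]
  exact div_le_div_of_nonneg_right (by linarith) (by positivity)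

/-! ### the rows -/

theorem pow_conv {A B t : ℝ} (hA : 0 ≤ A) (hB : 0 ≤ B) (ht0 : 0 ≤ t) (ht1 : t ≤ 1) (d : ℕ) :
    ((1 - t) * A + t * B) ^ d ≤ (1 - t) * A ^ d + t * B ^ d := by
  have h := (convexOn_pow (𝕜 := ℝ) d).2 (Set.mem_Ici.2 hA) (Set.mem_Ici.2 hB)
    (show 0 ≤ 1 - t by linarith) ht0 (by ring)
  simpa [smul_eq_mul] using h

theorem inv_conv {g g' t : ℝ} (hg : g < 1) (hg' : g' < 1) (ht0 : 0 ≤ t) (ht1 : t ≤ 1) :
    (1 - ((1 - t) * g + t * g'))⁻¹ ≤ (1 - t) * (1 - g)⁻¹ + t * (1 - g')⁻¹ := by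
  have h := (convexOn_zpow (𝕜 := ℝ) (-1)).2 (Set.mem_Ioi.2 (show 0 < 1 - g by linarith))
    (Set.mem_Ioi.2 (show 0 < 1 - g' by linarith)) (show 0 ≤ 1 - t by linarith) ht0 (by ring)
  simp only [smul_eq_mul, zpow_neg, zpow_one] at h
  refine le_trans (le_of_eq ?_) h
  congr 1
  ring

/-- The row inequality on a cell from the two ends. -/
theorem row_conv {g g' x a b s F P R c1 be ss um : ℝ} {d : ℕ} {l l' h h' : ℝ}
    (hss : KZero.ss d um = ss) (hss0 : 0 ≤ ss) (hs : 0 ≤ s) (hF : 0 ≤ F) (hbe : 0 ≤ be)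
    (hgg : g < g') (hx : g ≤ x) (hx' : x ≤ g') (hum : 0 ≤ um)
    (hut : F = 0 ∨ (g' < 1 ∧ ∀ t : ℝ, 0 ≤ t → t ≤ 1 →
      (1 - t) * l + t * l' ≤ KZero.ut um ((1 - t) * g + t * g') ∧
      KZero.ut um ((1 - t) * g + t * g') ≤ (1 - t) * h + t * h'))
    (hh : 0 ≤ h) (hh' : 0 ≤ h') (hg0 : 0 ≤ g)
    (h1 : a + s * F ^ 2 * ((1 - g)⁻¹) ^ d + s * F ^ 2 * ss * h ^ 2 + s * d * (1 - g) * P
      + (1 - s) * d * R ≤ s * F ^ 2 + b * g + c1 * F + 2 * be * ss * F * l)
    (h2 : a + s * F ^ 2 * ((1 - g')⁻¹) ^ d + s * F ^ 2 * ss * h' ^ 2 + s * d * (1 - g') * P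
      + (1 - s) * d * R ≤ s * F ^ 2 + b * g' + c1 * F + 2 * be * ss * F * l') :
    a - b * x ≤ rowX F P R d s c1 be um x := by
  obtain ⟨t, ht⟩ : ∃ t : ℝ, t = (x - g) / (g' - g) := ⟨_, rfl⟩
  have hgg' : 0 < g' - g := by linarith
  have ht0 : 0 ≤ t := by rw [ht]; exact div_nonneg (by linarith) hgg'.le
  have ht1 : t ≤ 1 := by rw [ht]; exact div_le_one_of_le₀ (by linarith) hgg'.le
  have hxt : x = (1 - t) * g + t * g' := by
    have : t * (g' - g) = x - g := by rw [ht]; exact div_mul_cancel₀ _ hgg'.ne'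
    linarith
  unfold rowX
  rw [hss]
  have key : s * F ^ 2 * ((1 - x)⁻¹) ^ d + s * F ^ 2 * ss * KZero.ut um x ^ 2
      - 2 * be * ss * F * KZero.ut um x ≤
      (1 - t) * (s * F ^ 2 * ((1 - g)⁻¹) ^ d + s * F ^ 2 * ss * h ^ 2 - 2 * be * ss * F * l) +
      t * (s * F ^ 2 * ((1 - g')⁻¹) ^ d + s * F ^ 2 * ss * h' ^ 2 - 2 * be * ss * F * l') := by
    rcases hut with h0 | ⟨hg1, hut⟩
    · rw [h0]
      simp
    · obtain ⟨h3, h4⟩ := hut t ht0 ht1
      rw [← hxt] at h3 h4
      have hg2 : g < 1 := hgg.trans hg1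
      have h5 : ((1 - x)⁻¹) ^ d ≤ (1 - t) * ((1 - g)⁻¹) ^ d + t * ((1 - g')⁻¹) ^ d := by
        refine (pow_le_pow_left₀ ?_ ?_ d).trans (pow_conv (inv_nonneg.2 (by linarith))
          (inv_nonneg.2 (by linarith)) ht0 ht1 d)
        · exact inv_nonneg.2 (by linarith)
        · rw [hxt]
          exact inv_conv hg2 hg1 ht0 ht1
      have hu0 : 0 ≤ KZero.ut um x := by
        unfold KZero.ut
        exact le_min (div_nonneg (by linarith) (by linarith)) hum
      have h6 : KZero.ut um x ^ 2 ≤ (1 - t) * h ^ 2 + t * h' ^ 2 :=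
        (pow_le_pow_left₀ hu0 h4 2).trans (pow_conv hh hh' ht0 ht1 2)
      have e1 : 0 ≤ s * F ^ 2 := by positivity
      have e2 : 0 ≤ s * F ^ 2 * ss := by positivity
      have e3 : 0 ≤ 2 * be * ss * F := by positivity
      have h7 := mul_le_mul_of_nonneg_left h5 e1
      have h8 := mul_le_mul_of_nonneg_left h6 e2
      have h9 := mul_le_mul_of_nonneg_left h3 e3
      nlinarith [h7, h8, h9]
  have h10 := mul_le_mul_of_nonneg_left h1 (show 0 ≤ 1 - t by linarith)
  have h11 := mul_le_mul_of_nonneg_left h2 ht0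
  have e4 : (1 - t) * (s * d * (1 - g) * P) + t * (s * d * (1 - g') * P) = s * d * (1 - x) * P := by
    rw [hxt]; ring
  have e5 : (1 - t) * (b * g) + t * (b * g') = b * x := by rw [hxt]; ring
  nlinarith [key, h10, h11, e4, e5]

/-! ### the capped odds -/

theorem odds_mono {x y : ℝ} (hxy : x ≤ y) (hy : y < 1) : x / (1 - x) ≤ y / (1 - y) := by
  rw [div_le_div_iff₀ (by linarith) (by linarith)]
  nlinarith

theorem uts_spec {M um g g' : ℕ} (hM : 0 < M) (hgg : g < g') (hg' : g' < M) {t : ℝ}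
    (ht0 : 0 ≤ t) (ht1 : t ≤ 1) :
    (1 - t) * (((uts M um g g').1.1 : ℝ) / 1000000) + t * (((uts M um g g').1.2 : ℝ) / 1000000) ≤
      KZero.ut ((um : ℝ) / 1000) ((1 - t) * ((g : ℝ) / M) + t * ((g' : ℝ) / M)) ∧
    KZero.ut ((um : ℝ) / 1000) ((1 - t) * ((g : ℝ) / M) + t * ((g' : ℝ) / M)) ≤
      (1 - t) * (((uts M um g g').2.1 : ℝ) / 1000000) +
        t * (((uts M um g g').2.2 : ℝ) / 1000000) := by
  have hM' : (0 : ℝ) < M := by exact_mod_cast hM
  have hgM : (g : ℝ) < M := by exact_mod_cast (hgg.trans hg')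
  have hg'M : (g' : ℝ) < M := by exact_mod_cast hg'
  have hggr : (g : ℝ) < g' := by exact_mod_cast hgg
  have hg0 : (0 : ℝ) ≤ g := Nat.cast_nonneg _
  have c1 : ((M - g : ℕ) : ℝ) = M - g := Nat.cast_sub (hgg.trans hg').le
  have c2 : ((M - g' : ℕ) : ℝ) = M - g' := Nat.cast_sub hg'.le
  have c3 : ((g' - g : ℕ) : ℝ) = g' - g := Nat.cast_sub hgg.le
  obtain ⟨G, hG⟩ : ∃ G : ℝ, G = (g : ℝ) / M := ⟨_, rfl⟩
  obtain ⟨G', hG'⟩ : ∃ G' : ℝ, G' = (g' : ℝ) / M := ⟨_, rfl⟩
  have hGG : G < G' := by rw [hG, hG']; exact div_lt_div_of_pos_right hggr hM'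
  have hG'1 : G' < 1 := by rw [hG', div_lt_one hM']; exact hg'M
  have hG0 : 0 ≤ G := by rw [hG]; positivity
  have o1 : G / (1 - G) = (g : ℝ) / (M - g) := by
    rw [hG]
    have : (M : ℝ) - g ≠ 0 := by linarith
    field_simp
  have o2 : G' / (1 - G') = (g' : ℝ) / (M - g') := by
    rw [hG']
    have : (M : ℝ) - g' ≠ 0 := by linarith
    field_simp
  rw [← hG, ← hG']
  obtain ⟨x, hx⟩ : ∃ x : ℝ, x = (1 - t) * G + t * G' := ⟨_, rfl⟩
  rw [← hx]
  have hx1 : G ≤ x := by rw [hx]; nlinarith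
  have hx2 : x ≤ G' := by rw [hx]; nlinarith
  have hxl : x < 1 := hx2.trans_lt hG'1
  unfold uts
  by_cases hA : (Nat.blt g' M && Nat.ble (g' * 1000) (um * (M - g'))) = true
  · rw [if_pos hA]
    rw [Bool.and_eq_true, Nat.ble_eq] at hA
    have h1 : (g' : ℝ) * 1000 ≤ um * (M - g') := by rw [← c2]; exact_mod_cast hA.2
    have h2 : G' / (1 - G') ≤ (um : ℝ) / 1000 := by
      rw [o2, div_le_div_iff₀ (by linarith) (by norm_num)]
      exact h1
    have hut : KZero.ut ((um : ℝ) / 1000) x = x / (1 - x) := by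
      unfold KZero.ut
      exact min_eq_left ((odds_mono hx2 hG'1).trans h2)
    rw [hut]
    have l1 : ((1000000 * g / (M - g) : ℕ) : ℝ) / 1000000 ≤ G / (1 - G) := by
      have := fl_le (1000000 * g) (M - g)
      rw [c1] at this
      push_cast at this
      rw [o1, div_le_iff₀ (by norm_num)]
      calc _ ≤ _ := this
        _ = _ := by ring
    have l2 : ((1000000 * (g * (M - g) + M * (g' - g)) / ((M - g) * (M - g)) : ℕ) : ℝ) / 1000000 ≤
        G / (1 - G) + (G' - G) / (1 - G) ^ 2 := by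
      have := fl_le (1000000 * (g * (M - g) + M * (g' - g))) ((M - g) * (M - g))
      push_cast at this
      rw [c1, c3] at this
      rw [div_le_iff₀ (by norm_num)]
      refine this.trans (le_of_eq ?_)
      rw [hG, hG']
      have : (M : ℝ) - g ≠ 0 := by linarith
      have h5 : (1 - (g : ℝ) / M) ≠ 0 := by
        rw [← hG]
        linarith
      field_simp
    have u1 : G / (1 - G) ≤ ((1000000 * g / (M - g) + 1 : ℕ) : ℝ) / 1000000 := by
      have := le_fl (1000000 * g) (b := M - g) (by omega)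
      rw [c1] at this
      push_cast at this ⊢
      rw [o1, le_div_iff₀ (by norm_num)]
      calc _ = _ := by ring
        _ ≤ _ := this
    have u2 : G' / (1 - G') ≤ ((1000000 * g' / (M - g') + 1 : ℕ) : ℝ) / 1000000 := by
      have := le_fl (1000000 * g') (b := M - g') (by omega)
      rw [c2] at this
      push_cast at this ⊢
      rw [o2, le_div_iff₀ (by norm_num)]
      calc _ = _ := by ring
        _ ≤ _ := this
    have ht1' : 0 ≤ 1 - t := by linarith
    constructor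
    · have h3 := mul_le_mul_of_nonneg_left l1 ht1'
      have h4 := mul_le_mul_of_nonneg_left l2 ht0
      refine (add_le_add h3 h4).trans ?_
      have e1 : (1 - t) * (G / (1 - G)) + t * (G / (1 - G) + (G' - G) / (1 - G) ^ 2) =
          G / (1 - G) + (x - G) / (1 - G) ^ 2 := by rw [hx]; ring
      rw [e1]
      have h5 : (0 : ℝ) < 1 - G := by linarith
      have h6 : (0 : ℝ) < 1 - x := by linarith
      have e2 : x / (1 - x) - G / (1 - G) = (x - G) / ((1 - x) * (1 - G)) := by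
        field_simp
        ring
      have e3 : (x - G) / (1 - G) ^ 2 ≤ (x - G) / ((1 - x) * (1 - G)) := by
        refine div_le_div_of_nonneg_left (by linarith) (by positivity) ?_
        nlinarith
      linarith
    · have h3 := mul_le_mul_of_nonneg_left u1 ht1'
      have h4 := mul_le_mul_of_nonneg_left u2 ht0
      refine le_trans ?_ (add_le_add h3 h4)
      have h5 := inv_conv (hGG.trans hG'1) hG'1 ht0 ht1
      rw [← hx] at h5
      have e : ∀ z : ℝ, z < 1 → z / (1 - z) = (1 - z)⁻¹ - 1 := by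
        intro z hz
        have : 1 - z ≠ 0 := by linarith
        field_simp
        ring
      rw [e x hxl, e G (hGG.trans hG'1), e G' hG'1]
      linarith
  · rw [if_neg hA]
    by_cases hB : Nat.ble (um * (M - g)) (g * 1000) = true
    · rw [if_pos hB]
      rw [Nat.ble_eq] at hB
      have h1 : (um : ℝ) * (M - g) ≤ g * 1000 := by rw [← c1]; exact_mod_cast hB
      have h2 : (um : ℝ) / 1000 ≤ G / (1 - G) := by
        rw [o1, div_le_div_iff₀ (by norm_num) (by linarith)]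
        exact h1
      have hut : KZero.ut ((um : ℝ) / 1000) x = (um : ℝ) / 1000 := by
        unfold KZero.ut
        exact min_eq_right (h2.trans (odds_mono hx1 hxl))
      rw [hut]
      have e : ((1000 * um : ℕ) : ℝ) / 1000000 = (um : ℝ) / 1000 := by push_cast; ring
      constructor
      · show (1 - t) * (((1000 * um : ℕ) : ℝ) / 1000000) + t * (((1000 * um : ℕ) : ℝ) / 1000000) ≤ _
        rw [e]
        linarith
      · show _ ≤ (1 - t) * (((1000 * um : ℕ) : ℝ) / 1000000) + t * (((1000 * um : ℕ) : ℝ) / 1000000)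
        rw [e]
        linarith
    · rw [if_neg hB]
      rw [Nat.ble_eq, not_le] at hB
      have h1 : (g : ℝ) * 1000 < um * (M - g) := by rw [← c1]; exact_mod_cast hB
      have h2 : G / (1 - G) ≤ (um : ℝ) / 1000 := by
        rw [o1, div_le_div_iff₀ (by linarith) (by norm_num)]
        exact h1.le
      have l1 : ((1000000 * g / (M - g) : ℕ) : ℝ) / 1000000 ≤ G / (1 - G) := by
        have := fl_le (1000000 * g) (M - g)
        rw [c1] at this
        push_cast at this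
        rw [o1, div_le_iff₀ (by norm_num)]
        calc _ ≤ _ := this
          _ = _ := by ring
      have e : ((1000 * um : ℕ) : ℝ) / 1000000 = (um : ℝ) / 1000 := by push_cast; ring
      constructor
      · show (1 - t) * (((1000000 * g / (M - g) : ℕ) : ℝ) / 1000000) +
          t * (((1000000 * g / (M - g) : ℕ) : ℝ) / 1000000) ≤ _
        have h3 : G / (1 - G) ≤ KZero.ut ((um : ℝ) / 1000) x := by
          unfold KZero.ut
          exact le_min (odds_mono hx1 hxl) h2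
        linarith
      · show _ ≤ (1 - t) * (((1000 * um : ℕ) : ℝ) / 1000000) + t * (((1000 * um : ℕ) : ℝ) / 1000000)
        rw [e]
        have h3 : KZero.ut ((um : ℝ) / 1000) x ≤ (um : ℝ) / 1000 := by
          unfold KZero.ut
          exact min_le_right _ _
        linarith

/-- The bounds for `ss d um`. -/
theorem ss_real {x : Dg} (h : chkSS x = true) (h0 : 0 < x.um) (h1 : x.um ≤ 1000) :
    (x.ssl : ℝ) / 100000000 ≤ KZero.ss x.d ((x.um : ℝ) / 1000) ∧
    KZero.ss x.d ((x.um : ℝ) / 1000) ≤ (x.ssh : ℝ) / 100000000 := by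
  rw [chkSS, Bool.and_eq_true, Nat.ble_eq, Nat.ble_eq] at h
  have hu : (0 : ℝ) < x.um := by exact_mod_cast h0
  have hle : x.um * x.um ≤ 1000000 := by nlinarith
  have hle2 : (1000000 - x.um * x.um) ^ x.d ≤ 1000000 ^ x.d :=
    Nat.pow_le_pow_left (Nat.sub_le _ _) _
  have c1 : (((1000000 ^ x.d - (1000000 - x.um * x.um) ^ x.d : ℕ)) : ℝ) =
      1000000 ^ x.d - (1000000 - x.um * x.um) ^ x.d := by
    rw [Nat.cast_sub hle2]
    push_cast
    rw [Nat.cast_sub hle]
    push_cast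
    ring
  have hA : (0 : ℝ) < 1000000 ^ x.d := by positivity
  have hss : KZero.ss x.d ((x.um : ℝ) / 1000) =
      1000000 * (1000000 ^ x.d - (1000000 - x.um * x.um) ^ x.d) /
        (1000000 ^ x.d * (x.um * x.um)) := by
    unfold KZero.ss
    have e1 : (1 - ((x.um : ℝ) / 1000) ^ 2) = (1000000 - x.um * x.um) / 1000000 := by ring
    rw [e1, div_pow]
    field_simp
    ring
  rw [hss]
  have h2 : (x.ssl : ℝ) * (1000000 ^ x.d * (x.um * x.um)) ≤
      100000000 * 1000000 * (1000000 ^ x.d - (1000000 - x.um * x.um) ^ x.d) := by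
    rw [← c1]; exact_mod_cast h.1
  have h3 : 100000000 * 1000000 * (1000000 ^ x.d - (1000000 - x.um * x.um) ^ x.d) ≤
      (x.ssh : ℝ) * (1000000 ^ x.d * (x.um * x.um)) := by
    rw [← c1]; exact_mod_cast h.2
  constructor
  · rw [div_le_div_iff₀ (by norm_num) (by positivity)]
    linarith
  · rw [div_le_div_iff₀ (by positivity) (by norm_num)]
    linarith

/-- The row inequality at one point, in real numbers. -/
theorem row_real {B : Box} {x : Dg} {sn a b F P R e ul uh : ℕ} (hM : 0 < B.M) (hsd : 0 < B.sd)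
    (htf : 0 < B.tf) (he : F = 0 ∨ e < B.M) (heM : e ≤ B.M)
    (h : chkRow B x sn a b F P R e ul uh = true) :
    (a : ℝ) / 1000000 + (sn : ℝ) / B.sd * ((F : ℝ) / B.tf) ^ 2 * ((1 - (e : ℝ) / B.M)⁻¹) ^ x.d
      + (sn : ℝ) / B.sd * ((F : ℝ) / B.tf) ^ 2 * ((x.ssh : ℝ) / 100000000) *
          ((uh : ℝ) / 1000000) ^ 2
      + (sn : ℝ) / B.sd * x.d * (1 - (e : ℝ) / B.M) * ((P : ℝ) / B.tf)
      + (1 - (sn : ℝ) / B.sd) * x.d * ((R : ℝ) / B.tf) ≤
    (sn : ℝ) / B.sd * ((F : ℝ) / B.tf) ^ 2 + (b : ℝ) / 1000000 * ((e : ℝ) / B.M)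
      + (x.c1 : ℝ) / 1000000 * ((F : ℝ) / B.tf)
      + 2 * ((x.be : ℝ) / 1000000) * ((x.ssl : ℝ) / 100000000) * ((F : ℝ) / B.tf) *
          ((ul : ℝ) / 1000000) := by
  rw [chkRow, Nat.ble_eq] at h
  have hM' : (0 : ℝ) < B.M := by exact_mod_cast hM
  have hsd' : (0 : ℝ) < B.sd := by exact_mod_cast hsd
  have htf' : (0 : ℝ) < B.tf := by exact_mod_cast htf
  have cM : ((B.M - e : ℕ) : ℝ) = B.M - e := Nat.cast_sub heM
  have hR0 : ∀ X1 X2 X3 X4 X5 Y1 Y2 Y3 Y4 : ℕ, X1 + X2 + X3 + X4 + X5 ≤ Y1 + Y2 + Y3 + Y4 →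
      (X1 : ℝ) + X2 + X3 + X4 + X5 ≤ Y1 + Y2 + Y3 + Y4 := by
    intro X1 X2 X3 X4 X5 Y1 Y2 Y3 Y4 h
    exact_mod_cast h
  have hR := hR0 _ _ _ _ _ _ _ _ _ h
  have zz : ((ZZ : ℕ) : ℝ) = 1000000000000 := by norm_num [ZZ]
  have t2 : 1000000000000 * ((sn : ℝ) / B.sd * ((F : ℝ) / B.tf) ^ 2 *
      ((1 - (e : ℝ) / B.M)⁻¹) ^ x.d) ≤ ((sn * (F * F) * B.M ^ x.d * ZZ / (B.sd * (B.tf * B.tf) *
      (B.M - e) ^ x.d) + 1 : ℕ) : ℝ) := by
    rcases he with h0 | h0
    · rw [h0]
      simp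
    · have h1 := le_fl (sn * (F * F) * B.M ^ x.d * ZZ) (b := B.sd * (B.tf * B.tf) *
        (B.M - e) ^ x.d) (by have : 0 < B.M - e := by omega
                             positivity)
      refine le_trans (le_of_eq ?_) h1
      have h2 : (B.M : ℝ) - e ≠ 0 := by
        have : (e : ℝ) < B.M := by exact_mod_cast h0
        linarith
      have h3 : (1 - (e : ℝ) / B.M)⁻¹ = B.M / (B.M - e) := by
        rw [← inv_div]
        congr 1
        field_simp
      rw [h3]
      push_cast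
      rw [zz, cM, div_pow (B.M : ℝ)]
      have hW : ((B.M : ℝ) - e) ^ x.d ≠ 0 := pow_ne_zero _ h2
      generalize ((B.M : ℝ) - e) ^ x.d = W at hW ⊢
      generalize (B.M : ℝ) ^ x.d = V
      field_simp
  have t3 : 1000000000000 * ((sn : ℝ) / B.sd * ((F : ℝ) / B.tf) ^ 2 *
      ((x.ssh : ℝ) / 100000000) * ((uh : ℝ) / 1000000) ^ 2) ≤
      ((sn * (F * F) * x.ssh * (uh * uh) * ZZ /
          (B.sd * (B.tf * B.tf) * 100000000 * 1000000000000) + 1 : ℕ) : ℝ) := by
    refine le_trans (le_of_eq ?_) (le_fl _ (by positivity))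
    push_cast
    rw [zz]
    field_simp
    ring
  have t4 : 1000000000000 * ((sn : ℝ) / B.sd * x.d * (1 - (e : ℝ) / B.M) * ((P : ℝ) / B.tf)) ≤
      ((sn * x.d * (B.M - e) * P * ZZ / (B.sd * B.M * B.tf) + 1 : ℕ) : ℝ) := by
    refine le_trans (le_of_eq ?_) (le_fl _ (by positivity))
    push_cast
    rw [zz, cM]
    field_simp
  have t5 : 1000000000000 * ((1 - (sn : ℝ) / B.sd) * x.d * ((R : ℝ) / B.tf)) ≤
      (((B.sd - sn) * x.d * R * ZZ / (B.sd * B.tf) + 1 : ℕ) : ℝ) := by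
    refine le_trans ?_ (le_fl _ (by positivity))
    push_cast
    rw [zz, le_div_iff₀ (by positivity)]
    have h1 : (B.sd : ℝ) - sn ≤ ((B.sd - sn : ℕ) : ℝ) := by
      rw [sub_le_iff_le_add]
      exact_mod_cast (by omega : B.sd ≤ B.sd - sn + sn)
    have h2 : (0 : ℝ) ≤ (x.d : ℝ) * R * 1000000000000 := by positivity
    have h3 := mul_le_mul_of_nonneg_right h1 h2
    calc 1000000000000 * ((1 - (sn : ℝ) / B.sd) * x.d * ((R : ℝ) / B.tf)) * (B.sd * B.tf)
        = ((B.sd : ℝ) - sn) * ((x.d : ℝ) * R * 1000000000000) := by field_simp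
      _ ≤ _ := h3
      _ = _ := by ring
  have r1 : ((sn * (F * F) * ZZ / (B.sd * (B.tf * B.tf)) : ℕ) : ℝ) ≤
      1000000000000 * ((sn : ℝ) / B.sd * ((F : ℝ) / B.tf) ^ 2) := by
    refine (fl_le _ _).trans (le_of_eq ?_)
    push_cast
    rw [zz]
    field_simp
  have r2 : ((b * e * ZZ / (1000000 * B.M) : ℕ) : ℝ) ≤
      1000000000000 * ((b : ℝ) / 1000000 * ((e : ℝ) / B.M)) := by
    refine (fl_le _ _).trans (le_of_eq ?_)
    push_cast
    rw [zz]
    field_simp
  have r3 : ((x.c1 * F * ZZ / (1000000 * B.tf) : ℕ) : ℝ) ≤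
      1000000000000 * ((x.c1 : ℝ) / 1000000 * ((F : ℝ) / B.tf)) := by
    refine (fl_le _ _).trans (le_of_eq ?_)
    push_cast
    rw [zz]
    field_simp
  have r4 : ((2 * x.be * x.ssl * F * ul * ZZ / (1000000 * 100000000 * B.tf * 1000000) : ℕ) : ℝ) ≤
      1000000000000 * (2 * ((x.be : ℝ) / 1000000) * ((x.ssl : ℝ) / 100000000) *
        ((F : ℝ) / B.tf) * ((ul : ℝ) / 1000000)) := by
    refine (fl_le _ _).trans (le_of_eq ?_)
    push_cast
    rw [zz]
    field_simp
    ring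
  have t1 : 1000000000000 * ((a : ℝ) / 1000000) = ((a * 1000000 : ℕ) : ℝ) := by
    push_cast
    ring
  have hfin : 1000000000000 * ((a : ℝ) / 1000000
      + (sn : ℝ) / B.sd * ((F : ℝ) / B.tf) ^ 2 * ((1 - (e : ℝ) / B.M)⁻¹) ^ x.d
      + (sn : ℝ) / B.sd * ((F : ℝ) / B.tf) ^ 2 * ((x.ssh : ℝ) / 100000000) *
          ((uh : ℝ) / 1000000) ^ 2
      + (sn : ℝ) / B.sd * x.d * (1 - (e : ℝ) / B.M) * ((P : ℝ) / B.tf)
      + (1 - (sn : ℝ) / B.sd) * x.d * ((R : ℝ) / B.tf)) ≤
    1000000000000 * ((sn : ℝ) / B.sd * ((F : ℝ) / B.tf) ^ 2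
      + (b : ℝ) / 1000000 * ((e : ℝ) / B.M)
      + (x.c1 : ℝ) / 1000000 * ((F : ℝ) / B.tf)
      + 2 * ((x.be : ℝ) / 1000000) * ((x.ssl : ℝ) / 100000000) * ((F : ℝ) / B.tf) *
          ((ul : ℝ) / 1000000)) := by
    refine le_trans (le_of_eq ?_) (((add_le_add (add_le_add (add_le_add (add_le_add t1.le t2) t3)
      t4) t5).trans hR).trans ((add_le_add (add_le_add (add_le_add r1 r2) r3) r4).trans
      (le_of_eq ?_)))
    · ring
    · ring
  exact le_of_mul_le_mul_left hfin (by norm_num)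

end

end Pool.Agent.T6J.Mach
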