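import Pool.Agent.T6J.MachineSound

/-!
# The kernel-checked tables of Theorem B (MP_c6effb_co): soundness of the checker, second part
-/

set_option autoImplicit false
set_option linter.unusedVariables false

open Finset

namespace Pool.Agent.T6J.Mach

open Pool.Agent.T6A Pool.Agent.T6A.PolyBox

noncomputable section

/-! ### the final inequalities -/

theorem okR_spec : ∀ {n : ℕ} {a b c a' b' c' : ℤ} {p : P2}, okR n a b c a' b' c' p = true →
    ∀ {x y : ℝ}, (a : ℝ) ≤ c * x → (c : ℝ) * x ≤ b → (a' : ℝ) ≤ c' * y → (c' : ℝ) * y ≤ b' →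
    0 ≤ ev2 p x y := by
  intro n
  induction n with
  | zero => intro a b c a' b' c' p h x y h1 h2 h3 h4; exact ok2_spec h h1 h2 h3 h4
  | succ n ih =>
    intro a b c a' b' c' p h x y h1 h2 h3 h4
    rw [okR, Bool.or_eq_true, Bool.and_eq_true] at h
    rcases h with h | ⟨h5, h6⟩
    · exact ok2_spec h h1 h2 h3 h4
    · rcases le_total ((2 * (c' : ℝ)) * y) (a' + b') with h7 | h7
      · exact ih h5 h1 h2 (by push_cast; linarith) (by push_cast; linarith)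
      · exact ih h6 h1 h2 (by push_cast; linarith) (by push_cast; linarith)

theorem okB_spec {B : Box} {p : P2} (h : okB B p = true) (hq : 0 < B.qd) (hs : 0 < B.sd)
    {q s : ℝ} (h1 : (B.q0 : ℝ) / B.qd ≤ q) (h2 : q ≤ (B.q1 : ℝ) / B.qd)
    (h3 : (B.s0 : ℝ) / B.sd ≤ s) (h4 : s ≤ (B.s1 : ℝ) / B.sd) : 0 ≤ ev2 p q s := by
  have hq' : (0 : ℝ) < B.qd := by exact_mod_cast hq
  have hs' : (0 : ℝ) < B.sd := by exact_mod_cast hs
  rw [div_le_iff₀ hq'] at h1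
  rw [div_le_iff₀ hs'] at h3
  rw [le_div_iff₀ hq'] at h2
  rw [le_div_iff₀ hs'] at h4
  refine okR_spec h ?_ ?_ ?_ ?_
  · push_cast
    linarith
  · push_cast
    linarith
  · push_cast
    linarith
  · push_cast
    linarith

theorem ev2_LP (B : Box) (d : ℕ) (q s : ℝ) :
    ev2 (LP B d) q s = 1000000 * Ld ((B.eta : ℝ) / 1000000) ((B.sl : ℝ) / 1000000) d q s := by
  simp only [LP, ev2, ev1, Ld]
  push_cast
  ring

theorem ev2_AP (B : Box) (x : Dg) (q s : ℝ) :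
    ev2 (AP B x) q s = 1000000 * Ad ((x.aA : ℝ) / 1000000) ((x.bA : ℝ) / 1000000)
      ((B.eps : ℝ) / 1000000) q s := by
  simp only [AP, ev2, ev1, Ad]
  push_cast
  ring

theorem ev2_EP {B : Box} {x : Dg} (hs : 0 < B.sd) (h01 : B.s0 < B.s1)
    (hss : KZero.ss x.d ((x.um : ℝ) / 1000) ≤ (x.ssh : ℝ) / 100000000) (q s : ℝ) :
    ev2 (EP B x) q s ≤ 1000000 * ((B.s1 : ℝ) - B.s0) *
      Ed ((B.s0 : ℝ) / B.sd) ((B.s1 : ℝ) / B.sd) ((x.a0 : ℝ) / 1000000) ((x.b0 : ℝ) / 1000000)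
        ((x.a1 : ℝ) / 1000000) ((x.b1 : ℝ) / 1000000) ((x.be : ℝ) / 1000000) ((x.um : ℝ) / 1000)
        ((B.eps : ℝ) / 1000000) x.d q s := by
  have hs' : (0 : ℝ) < B.sd := by exact_mod_cast hs
  have hds : (0 : ℝ) < (B.s1 : ℝ) - B.s0 := by
    have : (B.s0 : ℝ) < B.s1 := by exact_mod_cast h01
    linarith
  have hce : 1000000 * (KZero.ss x.d ((x.um : ℝ) / 1000) * ((x.be : ℝ) / 1000000) ^ 2 +
      (B.eps : ℝ) / 1000000) ≤
      ((x.ssh * (x.be * x.be) / (100000000 * 1000000) + 1 + B.eps : ℕ) : ℝ) := by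
    have h1 := le_fl (x.ssh * (x.be * x.be)) (b := 100000000 * 1000000) (by norm_num)
    have h2 := mul_le_mul_of_nonneg_right hss (show (0 : ℝ) ≤ ((x.be : ℝ) / 1000000) ^ 2 by
      positivity)
    have e1 : ((x.ssh * (x.be * x.be) : ℕ) : ℝ) / ((100000000 * 1000000 : ℕ) : ℝ) =
        1000000 * ((x.ssh : ℝ) / 100000000 * ((x.be : ℝ) / 1000000) ^ 2) := by
      push_cast
      ring
    rw [e1] at h1
    rw [Nat.cast_add _ B.eps]
    linarith
  have e0 : ev2 (EP B x) q s =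
      ((x.a0 : ℝ) * ((B.s1 : ℝ) - B.s0) + ((x.a1 : ℝ) - x.a0) * (B.sd * s - B.s0)) * (1 + q - s)
      - ((x.b0 : ℝ) * ((B.s1 : ℝ) - B.s0) + ((x.b1 : ℝ) - x.b0) * (B.sd * s - B.s0)) * s
      - ((B.s1 : ℝ) - B.s0) *
        ((x.ssh * (x.be * x.be) / (100000000 * 1000000) + 1 + B.eps : ℕ) : ℝ) := by
    simp only [EP, ev2_add, ev2_mul, ev2_cst]
    simp only [ev2, ev1]
    generalize (x.ssh * (x.be * x.be) / (100000000 * 1000000) + 1 + B.eps : ℕ) = W
    push_cast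
    ring
  have e1 : ∀ u v : ℝ, ((B.s1 : ℝ) - B.s0) *
      (1000000 * itp ((B.s0 : ℝ) / B.sd) ((B.s1 : ℝ) / B.sd) (u / 1000000) (v / 1000000) s) =
      u * ((B.s1 : ℝ) - B.s0) + (v - u) * (B.sd * s - B.s0) := by
    intro u v
    unfold itp
    have h3 : ((B.s1 : ℝ) / B.sd - B.s0 / B.sd) = ((B.s1 : ℝ) - B.s0) / B.sd := by ring
    rw [h3]
    field_simp
  rw [e0, ← e1, ← e1]
  unfold Ed
  have h4 := mul_le_mul_of_nonneg_left hce hds.le
  linarith

theorem chkNum_spec {B : Box} {f0 N : ℕ} {x : Dg} (h : chkNum B f0 N x = true) :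
    x.cut < N ∧ x.c1 ≤ 10000000 ∧ x.be ≤ 10000000 ∧ 0 < x.um ∧ x.um ≤ 1000 ∧
      x.a0 ≤ 100000000 ∧ x.a1 ≤ 100000000 ∧ x.b0 ≤ 100000000 ∧ x.b1 ≤ 100000000 ∧
      x.aA ≤ 100000000 ∧ x.bA ≤ 100000000 ∧ 0 < x.lc ∧ x.lc ≤ 10000000 ∧
      2 * x.lc * f0 + B.eps * B.tf ≤ 1000000 * B.tf ∧ chkSS x = true := by
  simpa only [chkNum, Bool.and_eq_true, blt_iff, Nat.ble_eq] using h

theorem fin_of {B : Box} {f0 N : ℕ} {x : Dg} (h : chkNum B f0 N x = true)
    (hf : chkFin B x = true) (hq : 0 < B.qd) (hs : 0 < B.sd) (ht : 0 < B.tf)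
    (h01 : B.s0 < B.s1) :
    FinOK ((B.q0 : ℝ) / B.qd) ((B.q1 : ℝ) / B.qd) ((B.s0 : ℝ) / B.sd) ((B.s1 : ℝ) / B.sd)
      ((B.eta : ℝ) / 1000000) ((B.sl : ℝ) / 1000000) ((B.eps : ℝ) / 1000000)
      ((x.lc : ℝ) / 1000000) ((f0 : ℝ) / B.tf) x.d ((x.c1 : ℝ) / 1000000) ((x.be : ℝ) / 1000000)
      ((x.um : ℝ) / 1000) ((x.a0 : ℝ) / 1000000) ((x.b0 : ℝ) / 1000000) ((x.a1 : ℝ) / 1000000)
      ((x.b1 : ℝ) / 1000000) ((x.aA : ℝ) / 1000000) ((x.bA : ℝ) / 1000000) := by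
  obtain ⟨-, h1, h2, h3, h4, -, -, -, -, -, -, h5, h6, h7, h8⟩ := chkNum_spec h
  rw [chkFin, Bool.and_eq_true, Bool.and_eq_true, Bool.and_eq_true, Bool.and_eq_true] at hf
  obtain ⟨hA, hL, hE, hF1, hF2⟩ := hf
  have hss := (ss_real h8 h3 h4).2
  have ht' : (0 : ℝ) < B.tf := by exact_mod_cast ht
  have hds : (0 : ℝ) < (B.s1 : ℝ) - B.s0 := by
    have : (B.s0 : ℝ) < B.s1 := by exact_mod_cast h01
    linarith
  have hEP := ev2_EP hs h01 hss
  have hL1 : ∀ q s : ℝ, (B.q0 : ℝ) / B.qd ≤ q → q ≤ (B.q1 : ℝ) / B.qd → (B.s0 : ℝ) / B.sd ≤ s →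
      s ≤ (B.s1 : ℝ) / B.sd →
      Ld ((B.eta : ℝ) / 1000000) ((B.sl : ℝ) / 1000000) x.d q s < 1 := by
    intro q s g1 g2 g3 g4
    have h := okB_spec hL hq hs g1 g2 g3 g4
    rw [ev2_add, ev2_cst, ev2_mul, ev2_cst, ev2_LP] at h
    push_cast at h
    linarith
  constructor
  · constructor
    · have : (0 : ℝ) < x.lc := by exact_mod_cast h5
      positivity
    · have : (x.lc : ℝ) ≤ 10000000 := by exact_mod_cast h6
      linarith
  · have h9 : 2 * (x.lc : ℝ) * f0 + B.eps * B.tf ≤ 1000000 * B.tf := by exact_mod_cast h7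
    have e : 2 * ((x.lc : ℝ) / 1000000) * ((f0 : ℝ) / B.tf) =
        (2 * (x.lc : ℝ) * f0) / (1000000 * B.tf) := by field_simp
    rw [e, div_le_iff₀ (by positivity)]
    have e2 : (1 - (B.eps : ℝ) / 1000000) * (1000000 * B.tf) = 1000000 * B.tf - B.eps * B.tf := by
      ring
    rw [e2]
    linarith
  · intro q s g1 g2 g3 g4
    have h := okB_spec hA hq hs g1 g2 g3 g4
    rw [ev2_AP] at h
    linarith
  · exact hL1
  · intro q s g1 g2 g3 g4
    have h := okB_spec hF1 hq hs g1 g2 g3 g4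
    have h9 := hL1 q s g1 g2 g3 g4
    have h10 := hEP q s
    simp only [F1P, ev2_add, ev2_mul, ev2_cst, ev2_LP] at h
    push_cast at h
    generalize Ld ((B.eta : ℝ) / 1000000) ((B.sl : ℝ) / 1000000) x.d q s = L at *
    generalize Ed _ _ _ _ _ _ _ _ _ _ _ _ = E at *
    generalize ev2 (EP B x) q s = W at *
    have h11 : W * (1 - L) ≤ 1000000 * ((B.s1 : ℝ) - B.s0) * E * (1 - L) :=
      mul_le_mul_of_nonneg_right h10 (by linarith)
    have h12 : 0 ≤ ((B.s1 : ℝ) - B.s0) * (4 * E * (1 - L) - ((x.c1 : ℝ) / 1000000) ^ 2 * L) := by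
      have e3 : 1000000000000000000 * (((B.s1 : ℝ) - B.s0) *
          (4 * E * (1 - L) - ((x.c1 : ℝ) / 1000000) ^ 2 * L)) =
          4000000000000 * (1000000 * ((B.s1 : ℝ) - B.s0) * E * (1 - L))
          - (x.c1 : ℝ) * x.c1 * ((B.s1 : ℝ) - B.s0) * (1000000 * L) := by ring
      linarith
    have h13 := nonneg_of_mul_nonneg_right h12 hds
    linarith
  · intro q s g1 g2 g3 g4
    have h := okB_spec hE hq hs g1 g2 g3 g4
    have h10 := hEP q s
    have h14 := h.trans h10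
    exact nonneg_of_mul_nonneg_right h14 (by linarith)
  · intro q s g1 g2 g3 g4
    have h := okB_spec hF2 hq hs g1 g2 g3 g4
    have h10 := hEP q s
    simp only [F2P, ev2_add, ev2_mul, ev2_cst, ev2_LP, ev2_AP] at h
    push_cast at h
    generalize Ld ((B.eta : ℝ) / 1000000) ((B.sl : ℝ) / 1000000) x.d q s = L at *
    generalize Ad ((x.aA : ℝ) / 1000000) ((x.bA : ℝ) / 1000000) ((B.eps : ℝ) / 1000000) q s = A at *
    generalize Ed _ _ _ _ _ _ _ _ _ _ _ _ = E at *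
    generalize ev2 (EP B x) q s = W at *
    have h11 : (x.lc : ℝ) * x.lc * 1000000 * W ≤
        (x.lc : ℝ) * x.lc * 1000000 * (1000000 * ((B.s1 : ℝ) - B.s0) * E) :=
      mul_le_mul_of_nonneg_left h10 (by positivity)
    have h12 : 0 ≤ ((B.s1 : ℝ) - B.s0) * (2 * ((x.lc : ℝ) / 1000000) * A -
        ((x.lc : ℝ) / 1000000) ^ 2 * (A ^ 2 + (x.c1 : ℝ) / 1000000 * A - E) - L) := by
      have e3 : 1000000000000000000000000 * (((B.s1 : ℝ) - B.s0) *
          (2 * ((x.lc : ℝ) / 1000000) * A -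
        ((x.lc : ℝ) / 1000000) ^ 2 * (A ^ 2 + (x.c1 : ℝ) / 1000000 * A - E) - L)) =
          2 * (x.lc : ℝ) * 1000000000000 * ((B.s1 : ℝ) - B.s0) * (1000000 * A)
          - (x.lc : ℝ) * x.lc * ((B.s1 : ℝ) - B.s0) * (1000000 * A * (1000000 * A))
          - (x.lc : ℝ) * x.lc * ((B.s1 : ℝ) - B.s0) * x.c1 * (1000000 * A)
          + (x.lc : ℝ) * x.lc * 1000000 * (1000000 * ((B.s1 : ℝ) - B.s0) * E)
          - 1000000000000000000 * ((B.s1 : ℝ) - B.s0) * (1000000 * L) := by ring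
      linarith
    have h13 := nonneg_of_mul_nonneg_right h12 hds
    linarith

/-! ### the degrees -/

theorem degs_spec {B : Box} {f0 N : ℕ} : ∀ {l : List Dg} {d0 : ℕ}, chkDegs B f0 N l d0 = true →
    ∀ d, d0 ≤ d → d < B.dmax → ∃ x : Dg, x.d = d ∧ chkDeg B f0 N x = true := by
  intro l
  induction l with
  | nil =>
    intro d0 h d h1 h2
    rw [chkDegs, beq_iff] at h
    omega
  | cons x l ih =>
    intro d0 h d h1 h2
    rw [chkDegs, Bool.and_eq_true, Bool.and_eq_true, beq_iff] at h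
    obtain ⟨h3, h4, h5⟩ := h
    rcases Nat.lt_or_eq_of_le h1 with h6 | h6
    · exact ih h5 d h6 h2
    · exact ⟨x, by omega, h4⟩

/-! ### the functions -/

/-- a cell with zeros -/
def z0 : Cl := ⟨0, 0, 0, 0, 0, 0, 0, 0⟩

/-- the grid -/
def gF (B : Box) (i : ℕ) : ℝ := (((B.cells.map Cl.g).getD i B.M : ℕ) : ℝ) / B.M

/-- the index of the cell of `x` -/
def ix (B : Box) (x : ℝ) : ℕ := cell B.cells.length (gF B) x

/-- the cell of `x` -/
def cx (B : Box) (x : ℝ) : Cl := B.cells.getD (ix B x) z0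

theorem grid_of {B : Box} (hM : 0 < B.M) (h1 : 1 < B.cells.length)
    (h : chkChain B.M B.cells 0 = true) : Grid B.cells.length (gF B) := by
  have hM' : (0 : ℝ) < B.M := by exact_mod_cast hM
  refine ⟨by omega, ?_, ?_, ?_⟩
  · unfold gF
    rw [chain_head h]
    simp
  · unfold gF
    rw [List.getD_eq_default _ _ (by simp)]
    exact div_self hM'.ne'
  · intro i hi
    obtain ⟨h2, h3⟩ := chain_spec h i hi
    unfold gF
    rw [h2]
    have h4 : (B.cells.map Cl.g).getD i B.M = (B.cells[i]'hi).g := by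
      rw [List.getD_eq_getElem _ _ (by simpa using hi)]
      simp
    rw [h4]
    exact div_lt_div_of_pos_right (by exact_mod_cast h3) hM'

theorem gF_eq {B : Box} {i : ℕ} (hi : i < B.cells.length) :
    gF B i = ((B.cells[i]'hi).g : ℝ) / B.M := by
  unfold gF
  rw [List.getD_eq_getElem _ _ (by simpa using hi)]
  simp

theorem gF_succ {B : Box} (h : chkChain B.M B.cells 0 = true) {i : ℕ}
    (hi : i < B.cells.length) : gF B (i + 1) = ((B.cells[i]'hi).g' : ℝ) / B.M := by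
  unfold gF
  rw [(chain_spec h i hi).1]

theorem cx_eq {B : Box} {x : ℝ} (hi : ix B x < B.cells.length) :
    cx B x = B.cells[ix B x]'hi := by
  unfold cx
  rw [List.getD_eq_getElem _ _ hi]

theorem cx_le {B : Box} (hM : 0 < B.M) (h1 : 1 < B.cells.length)
    (h : chkChain B.M B.cells 0 = true) {x : ℝ} (hx : 0 ≤ x) (hx1 : x ≤ 1) :
    ((cx B x).g : ℝ) / B.M ≤ x ∧ x ≤ ((cx B x).g' : ℝ) / B.M := by
  have hg := grid_of hM h1 h
  have hi : ix B x < B.cells.length := hg.cell_lt x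
  rw [cx_eq hi, ← gF_eq hi, ← gF_succ h hi]
  exact ⟨hg.cell_le hx, hg.le_cell hx1⟩

theorem cx_cell {B : Box} {f0 : ℕ} (hM : 0 < B.M) (h1 : 1 < B.cells.length)
    (h : chkChain B.M B.cells 0 = true) (hc : B.cells.all (chkCell B f0) = true) (x : ℝ) :
    chkCell B f0 (cx B x) = true := by
  have hi : ix B x < B.cells.length := (grid_of hM h1 h).cell_lt x
  rw [List.all_eq_true] at hc
  rw [cx_eq hi]
  exact hc _ (List.getElem_mem hi)

theorem cx_gg {B : Box} (hM : 0 < B.M) (h1 : 1 < B.cells.length)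
    (h : chkChain B.M B.cells 0 = true) (x : ℝ) :
    (cx B x).g < (cx B x).g' ∧ (cx B x).g' ≤ B.M := by
  have hi : ix B x < B.cells.length := (grid_of hM h1 h).cell_lt x
  rw [cx_eq hi]
  exact ⟨(chain_spec h _ hi).2, (chain_le h).2 _ hi⟩

theorem chkCell_spec {B : Box} {f0 : ℕ} {c : Cl} (h : chkCell B f0 c = true) :
    c.f ≤ f0 ∧ c.p ≤ 10 * B.tf ∧ c.r ≤ 10 * B.tf ∧
      (c.f = 0 ∨ 1000000 * B.M ≤ c.u * (B.M - c.g')) ∧
      (c.pi = 0 ∨ (c.pi * 1000000 + B.sd * B.M * B.eps) * (B.M ^ B.k * B.M) ≤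
        B.sd * B.M * ((B.M - c.g') ^ B.k * (1000000 * B.M - (B.D - B.k * 1000000) * c.g'))) ∧
      B.s1 * (B.M - c.g) + B.s1 * B.M ≤ c.be + B.sd * B.M := by
  simpa only [chkCell, Bool.and_eq_true, Bool.or_eq_true, beq_iff, Nat.ble_eq] using h

/-- The list probability. -/
theorem pi_real {B : Box} {c : Cl} (hM : 0 < B.M) (hg : c.g' ≤ B.M)
    (hk : B.k * 1000000 ≤ B.D) (hk1 : B.D ≤ B.k * 1000000 + 1000000)
    (h : c.pi = 0 ∨ (c.pi * 1000000 + B.sd * B.M * B.eps) * (B.M ^ B.k * B.M) ≤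
        B.sd * B.M * ((B.M - c.g') ^ B.k * (1000000 * B.M - (B.D - B.k * 1000000) * c.g')))
    {y : ℝ} (hy0 : 0 ≤ y) (hy : y ≤ (c.g' : ℝ) / B.M) :
    c.pi = 0 ∨ (c.pi : ℝ) ≤ (B.sd : ℝ) * B.M * (pl B.k ((B.D : ℝ) / 1000000) y -
      (B.eps : ℝ) / 1000000) := by
  have hM' : (0 : ℝ) < B.M := by exact_mod_cast hM
  rcases h with h | h
  · exact Or.inl h
  · right
    have c1 : ((B.M - c.g' : ℕ) : ℝ) = B.M - c.g' := Nat.cast_sub hg
    have h0 : (B.D - B.k * 1000000) * c.g' ≤ 1000000 * B.M :=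
      Nat.mul_le_mul (by omega) hg
    have c2 : ((1000000 * B.M - (B.D - B.k * 1000000) * c.g' : ℕ) : ℝ) =
        1000000 * B.M - ((B.D : ℝ) - B.k * 1000000) * c.g' := by
      rw [Nat.cast_sub h0]
      push_cast
      rw [Nat.cast_sub hk]
      push_cast
      ring
    have h1 : ((c.pi : ℝ) * 1000000 + B.sd * B.M * B.eps) * (B.M ^ B.k * B.M) ≤
        B.sd * B.M * ((B.M - c.g') ^ B.k *
          (1000000 * B.M - ((B.D : ℝ) - B.k * 1000000) * c.g')) := by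
      rw [← c1, ← c2]
      exact_mod_cast h
    have hk' : (B.k : ℝ) ≤ (B.D : ℝ) / 1000000 := by
      rw [le_div_iff₀ (by norm_num)]
      exact_mod_cast hk
    have hk1' : (B.D : ℝ) / 1000000 ≤ B.k + 1 := by
      rw [div_le_iff₀ (by norm_num), add_mul, one_mul]
      exact_mod_cast hk1
    have hg1 : (c.g' : ℝ) / B.M ≤ 1 := by
      rw [div_le_one hM']
      exact_mod_cast hg
    have h2 := pl_anti hk' hk1' hy hg1 hy0
    have h3 : (c.pi : ℝ) * 1000000 + B.sd * B.M * B.eps ≤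
        B.sd * B.M * (1000000 * pl B.k ((B.D : ℝ) / 1000000) ((c.g' : ℝ) / B.M)) := by
      have hpos : (0 : ℝ) < B.M ^ B.k * B.M := by positivity
      refine le_of_mul_le_mul_right (h1.trans (le_of_eq ?_)) hpos
      unfold pl
      have e1 : (1 - (c.g' : ℝ) / B.M) = (B.M - c.g') / B.M := by field_simp
      rw [e1, div_pow]
      have e2 : (1 - ((B.D : ℝ) / 1000000 - B.k) * ((c.g' : ℝ) / B.M)) * (1000000 * B.M) =
          1000000 * B.M - ((B.D : ℝ) - B.k * 1000000) * c.g' := by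
        field_simp
      rw [← e2]
      field_simp
    have h4 : (0 : ℝ) ≤ (B.sd : ℝ) * B.M := by positivity
    have h5 := mul_le_mul_of_nonneg_left h2 h4
    linarith

/-- The odds of the list. -/
theorem be_real {B : Box} {c : Cl} (hM : 0 < B.M) (hsd : 0 < B.sd) (hg : c.g ≤ B.M)
    (h : B.s1 * (B.M - c.g) + B.s1 * B.M ≤ c.be + B.sd * B.M) {x : ℝ}
    (hx : (c.g : ℝ) / B.M ≤ x) :
    (B.sd : ℝ) * B.M * ((B.s1 : ℝ) / B.sd * (1 - x) - (1 - (B.s1 : ℝ) / B.sd)) ≤ c.be := by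
  have hM' : (0 : ℝ) < B.M := by exact_mod_cast hM
  have hsd' : (0 : ℝ) < B.sd := by exact_mod_cast hsd
  have c1 : ((B.M - c.g : ℕ) : ℝ) = B.M - c.g := Nat.cast_sub hg
  have h1 : (B.s1 : ℝ) * (B.M - c.g) + B.s1 * B.M ≤ c.be + B.sd * B.M := by
    rw [← c1]
    exact_mod_cast h
  rw [div_le_iff₀ hM'] at hx
  have h2 := mul_le_mul_of_nonneg_left hx (Nat.cast_nonneg B.s1 : (0 : ℝ) ≤ B.s1)
  have e : (B.sd : ℝ) * B.M * ((B.s1 : ℝ) / B.sd * (1 - x) - (1 - (B.s1 : ℝ) / B.sd)) =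
      B.s1 * B.M - B.s1 * (x * B.M) - B.sd * B.M + B.s1 * B.M := by
    field_simp
    ring
  rw [e]
  linarith

end

end Pool.Agent.T6J.Mach
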