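import Pool.Agent.T6J.StP
import Pool.Agent.T6J.JRow

/-!
# Auxiliary facts for the assembly of the certificate (MP_c6effb_co, Theorem B, helper89)

`mb_le_mJ`: the lower bound `P.mb` of a box is below the factor `mJ`. `mb_le`: the same with the average
of the list probabilities. `sum_d_le`: the average degree. `exists_freq`: some degree `δ ≤ 2 q + ε` is
frequent. `box_of`: the box of `(tot - 1, s)`. `rare_lt`: few vertices of degree below `dmin`.
-/

set_option autoImplicit false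

open Finset

namespace Pool.Agent.T6J.P

open Pool.Agent.T6A

noncomputable section

open Classical

theorem mb_le_one {s0 s1 ε D x y : ℝ} {k : ℕ} : mb s0 s1 ε k D x y ≤ 1 := by
  unfold mb
  split_ifs with h
  · exact le_rfl
  · push Not at h
    have h0 := le_max_left 0 (pl k D y - ε)
    exact div_le_one_of_le₀ (by linarith [h.2]) (by linarith [h.2])

theorem mb_nonneg {s0 s1 ε D x y : ℝ} {k : ℕ} : 0 ≤ mb s0 s1 ε k D x y := by
  unfold mb
  split_ifs with h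
  · exact zero_le_one
  · push Not at h
    have h0 := le_max_left 0 (pl k D y - ε)
    exact div_nonneg h0 (by linarith [h.2])

theorem mJ_nonneg {s n π : ℝ} : 0 ≤ mJ s n π := by
  unfold mJ
  split_ifs with h
  · exact zero_le_one
  · push Not at h
    have h0 := le_max_left 0 π
    exact div_nonneg h0 (by linarith [h.2])

theorem mJ_le_one {s n π : ℝ} : mJ s n π ≤ 1 := by
  unfold mJ
  split_ifs with h
  · exact le_rfl
  · push Not at h
    have h0 := le_max_left 0 π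
    exact div_le_one_of_le₀ (by linarith [h.2]) (by linarith [h.2])

/-- The bound of the box is below the factor. -/
theorem mb_le_mJ {s0 s1 ε s x π D y : ℝ} {k : ℕ} (hs0 : s0 ≤ s) (hs1 : s ≤ s1) (hx : x ≤ 2)
    (hπ : pl k D y - ε ≤ π) : mb s0 s1 ε k D x y ≤ mJ s x π := by
  by_cases h : 1 - s ≤ π ∨ s * (1 - x) ≤ 1 - s
  · have h1 : mJ s x π = 1 := by
      unfold mJ
      rw [if_pos h]
    rw [h1]
    exact mb_le_one
  have h1 : mJ s x π = max 0 π / (max 0 π + s * (1 - x) - (1 - s)) := by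
    unfold mJ
    rw [if_neg h]
  push Not at h
  obtain ⟨h2, h3⟩ := h
  have hβ : s * (1 - x) - (1 - s) ≤ s1 * (1 - x) - (1 - s1) := by
    have := mul_nonneg (sub_nonneg.2 hs1) (sub_nonneg.2 hx)
    nlinarith
  have h4 : mb s0 s1 ε k D x y =
      max 0 (pl k D y - ε) / (max 0 (pl k D y - ε) + s1 * (1 - x) - (1 - s1)) := by
    unfold mb
    rw [if_neg]
    rintro (h5 | h5) <;> linarith
  rw [h1, h4]
  have h5 := le_max_left 0 (pl k D y - ε)
  have h6 := le_max_left 0 π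
  have h7 : max 0 (pl k D y - ε) ≤ max 0 π := max_le_max le_rfl hπ
  rw [div_le_div_iff₀ (by linarith) (by linarith)]
  have h8 := mul_le_mul h7 hβ (by linarith) h6
  nlinarith

variable {V ι : Type} [Fintype V] [Fintype ι]

/-- The bound of the box is below the factor of the J row. -/
theorem mb_le (X : World ι) (L : Low V ι) {s0 s1 ε e₀ D x y : ℝ} {k' : ℕ}
    (hc : 0 < Fintype.card V) (hD : ∑ v, (L.d v : ℝ) ≤ D * Fintype.card V) (hs0 : s0 ≤ X.s)
    (hs1 : X.s ≤ s1) (he : e₀ ≤ ε) (hx : x ≤ 1) (hy0 : 0 ≤ y) (hy : y ≤ 1) :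
    mb s0 s1 ε k' D x y ≤ mJ X.s x ((∑ v, (1 - y) ^ L.d v) / Fintype.card V - e₀) := by
  have h1 : pl k' D y ≤ (∑ v, (1 - y) ^ L.d v) / Fintype.card V := avP_ge L k' hc hD hy0 hy
  exact mb_le_mJ hs0 hs1 (by linarith) (by linarith)

/-- The average degree. -/
theorem sum_d_le {X : World ι} {L : Low V ι} {Bd : ι → ι → Prop} {k Q : ℝ} {C K : ℕ}
    {e ε' ε q1 D : ℝ} (hW : WorldOK X L Bd k Q C K e ε') (he0 : 0 ≤ e) (he1 : e ≤ 1)
    (h4 : X.tot ≤ 4) (hq : X.tot - 1 ≤ q1) (hD : 2 * q1 + ε ≤ D) (hε : 0 ≤ ε)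
    (he : e * (8 + ε) ≤ ε) : ∑ v, (L.d v : ℝ) ≤ D * Fintype.card V := by
  have h1 : ∑ v, (L.d v : ℝ) ≤ ∑ v, ((L.d v : ℝ) + 2 * L.j v) :=
    sum_le_sum fun v _ => by
      have : (0 : ℝ) ≤ L.j v := Nat.cast_nonneg _
      linarith
  refine h1.trans (hW.deg.trans ?_)
  have hk := hW.k0
  have hc := hW.cV'
  by_cases hq0 : X.tot - 1 + e ≤ 0
  · have h5 : 2 * (X.tot - 1 + e) * k ≤ 0 := by nlinarith
    by_cases hD0 : 0 ≤ D
    · exact h5.trans (mul_nonneg hD0 (Nat.cast_nonneg _))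
    · have h6 := hW.cV
      have h7 : 2 * (X.tot - 1 + e) ≤ D * (1 - e) := by nlinarith
      nlinarith
  · have hD0 : 0 ≤ D := by nlinarith
    have h7 : 2 * (X.tot - 1 + e) ≤ D * (1 - e) := by nlinarith
    have h8 := mul_le_mul_of_nonneg_left hc hD0
    have h9 := mul_le_mul_of_nonneg_right h7 hk.le
    nlinarith

omit [Fintype ι] in
/-- The number of vertices outside `E` whose degree is below `n`, if every class below `n` is rare. -/
theorem rare_class (L : Low V ι) {k e : ℝ} (hj : ∀ v, L.j v = 0) (n : ℕ)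
    (h : ∀ δ < n, (#{v | v ∉ L.E ∧ L.d v + L.j v = δ} : ℝ) ≤ e * k) :
    (#{v | v ∉ L.E ∧ L.d v < n} : ℝ) ≤ n * (e * k) := by
  have h1 : ({v | v ∉ L.E ∧ L.d v < n} : Finset V) ⊆
      (range n).biUnion fun δ => {v | v ∉ L.E ∧ L.d v + L.j v = δ} := by
    intro v hv
    simp only [mem_filter, mem_univ, true_and] at hv
    simp only [mem_biUnion, mem_range, mem_filter, mem_univ, true_and]
    exact ⟨L.d v, hv.2, hv.1, by rw [hj v, add_zero]⟩
  have h2 : (#{v | v ∉ L.E ∧ L.d v < n} : ℝ) ≤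
      ∑ δ ∈ range n, (#{v | v ∉ L.E ∧ L.d v + L.j v = δ} : ℝ) := by
    have := (card_le_card h1).trans card_biUnion_le
    exact_mod_cast this
  refine h2.trans ?_
  calc ∑ δ ∈ range n, (#{v | v ∉ L.E ∧ L.d v + L.j v = δ} : ℝ) ≤ ∑ _δ ∈ range n, e * k :=
        sum_le_sum fun δ hδ => h δ (mem_range.1 hδ)
    _ = n * (e * k) := by rw [sum_const, card_range, nsmul_eq_mul]

/-- Few vertices have a degree below `dmin`. -/
theorem rare_lt {X : World ι} {L : Low V ι} {Bd : ι → ι → Prop} {k Q : ℝ} {C K : ℕ}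
    {e ε' ε : ℝ} {dmin : ℕ} (hW : WorldOK X L Bd k Q C K e ε') (hT : ThrW X L k e)
    (hj : ∀ v, L.j v = 0) (he0 : 0 < e) (h4 : X.tot ≤ 4) (hs : 1 / 2 ≤ X.s)
    (he1 : 200 * e ≤ 1) (heε : 200 * e ≤ ε) (hd : (dmin : ℝ) * X.s + ε ≤ X.tot) :
    (#{v | v ∉ L.E ∧ L.d v < dmin} : ℝ) ≤ 8 * (e * k) := by
  have hk := hW.k0
  have hd8 : (dmin : ℝ) ≤ 8 := by
    by_contra h
    rw [not_le] at h
    nlinarith
  have hek : 0 ≤ e * k := mul_nonneg he0.le hk.le
  refine (rare_class L hj dmin ?_).trans (mul_le_mul_of_nonneg_right hd8 hek)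
  intro δ hδ
  by_contra h
  rw [not_le] at h
  have h1 := hT δ h.le
  have h2 : ((1 + δ : ℕ) : ℝ) ≤ dmin := by exact_mod_cast (by omega : 1 + δ ≤ dmin)
  push_cast at h2
  have h3 : (1 + (δ : ℝ)) * (X.s + e) ≤ dmin * (X.s + e) :=
    mul_le_mul_of_nonneg_right h2 (by linarith)
  have h5 : (dmin : ℝ) * e ≤ 8 * e := mul_le_mul_of_nonneg_right hd8 he0.le
  have h6 : e * X.tot ≤ e * 4 := mul_le_mul_of_nonneg_left h4 he0.le
  nlinarith

/-- Some degree `δ ≤ 2 q + ε` is frequent. -/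
theorem exists_freq {X : World ι} {L : Low V ι} {Bd : ι → ι → Prop} {k Q : ℝ} {C K : ℕ}
    {e ε' ε : ℝ} (hW : WorldOK X L Bd k Q C K e ε') (hT : ThrW X L k e) (hj : ∀ v, L.j v = 0)
    (he0 : 0 < e) (h1 : 1 ≤ X.tot) (h4 : X.tot ≤ 4) (he1 : 200 * e ≤ 1)
    (heε : 200 * e ≤ ε) :
    ∃ δ : ℕ, (δ : ℝ) ≤ 2 * (X.tot - 1) + ε ∧ 1 + (X.tot - 1) ≤ (1 + δ) * (X.s + ε) := by
  have hk := hW.k0
  obtain ⟨ε1, hε1⟩ : ∃ x, x = min ε 1 := ⟨_, rfl⟩
  have h2 : ε1 ≤ ε := hε1 ▸ min_le_left _ _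
  have h3 : ε1 ≤ 1 := hε1 ▸ min_le_right _ _
  have h5 : 200 * e ≤ ε1 := hε1 ▸ le_min heε he1
  by_contra hno
  push Not at hno
  obtain ⟨M, hM⟩ : ∃ x, x = 2 * (X.tot - 1) + ε1 := ⟨_, rfl⟩
  have hM0 : 0 ≤ M := by linarith
  have hM7 : M ≤ 7 := by linarith
  have hek : 0 ≤ e * k := mul_nonneg he0.le hk.le
  have hT1 : ⌊M⌋₊ + 1 ≤ 8 := by
    have : ⌊M⌋₊ < 8 := (Nat.floor_lt hM0).2 (by push_cast; linarith)
    omega
  have hrare := rare_class (k := k) (e := e) L hj (⌊M⌋₊ + 1) (fun δ hδ => by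
    by_contra h
    rw [not_le] at h
    have h6 := hT δ h.le
    have h7 : (δ : ℝ) ≤ M := (Nat.le_floor_iff hM0).1 (by omega)
    have h8 := hno δ (by linarith)
    have hδ0 : (0 : ℝ) ≤ δ := Nat.cast_nonneg δ
    have h9 : (1 + (δ : ℝ)) * (X.s + ε1) ≤ (1 + δ) * (X.s + ε) :=
      mul_le_mul_of_nonneg_left (by linarith) (by linarith)
    have h10 : (δ : ℝ) * e ≤ 7 * e := mul_le_mul_of_nonneg_right (by linarith) he0.le
    have h11 : e * X.tot ≤ e * 4 := mul_le_mul_of_nonneg_left h4 he0.le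
    have h12 : (δ : ℝ) * e ≤ δ * ε1 := mul_le_mul_of_nonneg_left (by linarith) hδ0
    nlinarith)
  have h8 : ((⌊M⌋₊ + 1 : ℕ) : ℝ) ≤ 8 := by exact_mod_cast hT1
  have hrare' : (#{v | v ∉ L.E ∧ L.d v < ⌊M⌋₊ + 1} : ℝ) ≤ 8 * (e * k) :=
    hrare.trans (mul_le_mul_of_nonneg_right h8 hek)
  have hsum : ∑ v, (M - (L.d v : ℝ)) ≤ ∑ v, ((if v ∈ L.E then M else 0) +
      (if v ∉ L.E ∧ L.d v < ⌊M⌋₊ + 1 then M else 0)) := by
    refine sum_le_sum fun v _ => ?_
    have hd0 : (0 : ℝ) ≤ L.d v := Nat.cast_nonneg _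
    by_cases h6 : v ∈ L.E
    · simp only [h6, if_true, not_true_eq_false, false_and, if_false]
      linarith
    by_cases h7 : L.d v < ⌊M⌋₊ + 1
    · simp only [h6, h7, if_false, not_false_eq_true, true_and, if_true]
      linarith
    · simp only [h6, h7, if_false, and_false]
      have h9 : M < L.d v := (Nat.floor_lt hM0).1 (by omega)
      linarith
  rw [sum_sub_distrib, sum_const, card_univ, nsmul_eq_mul, sum_add_distrib, ← sum_filter,
    ← sum_filter, sum_const, sum_const, nsmul_eq_mul, nsmul_eq_mul] at hsum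
  have hE : (#({v | v ∈ L.E} : Finset V) : ℝ) ≤ e * k := by
    have : ({v | v ∈ L.E} : Finset V) = L.E := by
      ext v
      simp
    rw [this]
    exact hW.Ec
  have hdeg : ∑ v, (L.d v : ℝ) ≤ 2 * (X.tot - 1 + e) * k := by
    refine le_trans (sum_le_sum fun v _ => ?_) hW.deg
    have : (0 : ℝ) ≤ L.j v := Nat.cast_nonneg _
    linarith
  have hc := hW.cV'
  have h9 := mul_le_mul_of_nonneg_right hE hM0
  have h10 := mul_le_mul_of_nonneg_right hrare' hM0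
  have h11 := mul_le_mul_of_nonneg_right hc hM0
  have h12 : (1 - e) * k * M - 2 * (X.tot - 1 + e) * k ≤ e * k * M + 8 * (e * k) * M := by
    linarith
  have h13 : M - 2 * (X.tot - 1) ≤ 2 * e + 10 * e * M := by
    refine le_of_mul_le_mul_right ?_ hk
    nlinarith
  have h14 : 10 * e * M ≤ 10 * e * 7 := mul_le_mul_of_nonneg_left hM7 (by linarith)
  linarith

/-- **The box of `(tot - 1, s)`.** -/
theorem box_of {Q : ℝ} (hC : CoverJ Q) : ∃ η ε : ℝ, 0 < η ∧ 0 < ε ∧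
    ∀ (V ι : Type) [Fintype V] [Fintype ι] (X : World ι) (L : Low V ι) (Bd : ι → ι → Prop)
      (k e ε' e₀ : ℝ) (C K : ℕ), 0 < e → 200 * e ≤ 1 → 200 * e ≤ ε → e₀ ≤ ε →
      WorldOK X L Bd k (7 / 5) C K e ε' → ThrW X L k e → (∀ v, L.j v = 0) →
      X.tot ≤ 1 + Q + e₀ → X.tot ≤ 4 → X.s < 1 + 3 * e →
      ∃ (q0 q1 s0 s1 : ℝ) (dmin dmax : ℕ), q0 ≤ X.tot - 1 ∧ X.tot - 1 ≤ q1 ∧ s0 ≤ X.s ∧
        X.s ≤ s1 ∧ BoxCert η ε q0 q1 s0 s1 dmin dmax := by
  obtain ⟨η, ε, hη, hε, h⟩ := hC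
  refine ⟨η, ε, hη, hε, ?_⟩
  intro V ι _ _ X L Bd k e ε' e₀ C K he0 he1 heε he₀ hW hT hj hQ h4 hs
  have h1 := hW.tot1
  exact h (X.tot - 1) X.s (by linarith) (by linarith) (by linarith)
    (exists_freq hW hT hj he0 (by linarith) h4 he1 heε)

end

end Pool.Agent.T6J.P
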