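import Mathlib

/-!
# The row inequality of a set which is not good (MP_c6effb_co, Theorem B)

`J` = a set of clusters with weights `w`, `n` = the measure of the neighbourhood in `A`, `a` = the
average probability that the cluster is in the list (decreasing in `n`), `T` = the wanted value. If `J`
is not good (`hbad`) and has weight at most `T + β` then `∑ c ∈ J, w c * mJ T β (a c) ≤ T`.
-/

set_option autoImplicit false

open Finset

namespace Pool.Agent.T6J.RA

noncomputable section

open Classical in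
/-- the multiplier: `1` if `a ≥ T`, otherwise `a / (a + β)` -/
def mJ (T β a : ℝ) : ℝ := if T ≤ a then 1 else a / (a + β)

theorem mJ_le_one {T β a : ℝ} (hβ : 0 ≤ β) (ha : 0 ≤ a) : mJ T β a ≤ 1 := by
  unfold mJ
  split_ifs
  · exact le_rfl
  · exact div_le_one_of_le₀ (by linarith) (by linarith)

theorem mJ_nonneg {T β a : ℝ} (hβ : 0 ≤ β) (ha : 0 ≤ a) : 0 ≤ mJ T β a := by
  unfold mJ
  split_ifs
  · exact zero_le_one
  · exact div_nonneg ha (by linarith)

/-- The multiplier is increasing in `a`. -/
theorem mJ_mono {T β a a' : ℝ} (hβ : 0 ≤ β) (ha : 0 ≤ a) (h : a ≤ a') :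
    mJ T β a ≤ mJ T β a' := by
  unfold mJ
  split_ifs with h1 h2 h2
  · exact le_rfl
  · exact absurd (h1.trans h) h2
  · exact div_le_one_of_le₀ (by linarith) (by linarith)
  · rcases eq_or_lt_of_le (show 0 ≤ a + β by linarith) with h3 | h3
    · rw [← h3, div_zero]
      exact div_nonneg (ha.trans h) (by linarith)
    · rw [div_le_div_iff₀ h3 (by linarith)]
      have : a * β ≤ a' * β := mul_le_mul_of_nonneg_right h hβ
      nlinarith

/-- The multiplier is decreasing in `β`. -/
theorem mJ_anti {T β β' a : ℝ} (hβ : 0 ≤ β) (ha : 0 ≤ a) (h : β ≤ β') :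
    mJ T β' a ≤ mJ T β a := by
  unfold mJ
  split_ifs with h1
  · exact le_rfl
  · rcases eq_or_lt_of_le ha with h2 | h2
    · rw [← h2]; simp
    · exact div_le_div_of_nonneg_left ha (by linarith) (by linarith)

open Classical in
/-- **The row inequality.** -/
theorem row_abs {ι : Type*} (J : Finset ι) (w n a : ι → ℝ) {T β : ℝ} (hβ : 0 ≤ β)
    (hw : ∀ c ∈ J, 0 ≤ w c) (ha : ∀ c ∈ J, 0 ≤ a c)
    (hanti : ∀ c ∈ J, ∀ c' ∈ J, n c ≤ n c' → a c' ≤ a c) (hJ : ∑ c ∈ J, w c ≤ T + β)
    (hbad : ∑ c ∈ J, w c ≤ T ∨ ∃ y ∈ J, a y + ∑ c ∈ J with n c < n y, w c < T) :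
    ∑ c ∈ J, w c * mJ T β (a c) ≤ T := by
  rcases hbad with h | ⟨y, hy, h⟩
  · refine le_trans (sum_le_sum fun c hc => ?_) h
    exact mul_le_of_le_one_right (hw c hc) (mJ_le_one hβ (ha c hc))
  · set x := ∑ c ∈ J with n c < n y, w c with hx
    have hx0 : 0 ≤ x := sum_nonneg fun c hc => hw c (mem_filter.1 hc).1
    have hay := ha y hy
    have hT : a y < T := by linarith
    have hm : mJ T β (a y) = a y / (a y + β) := if_neg (not_le.2 hT)
    have hsplit : ∑ c ∈ J, w c * mJ T β (a c) =
        ∑ c ∈ J with n c < n y, w c * mJ T β (a c) +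
          ∑ c ∈ J with ¬ n c < n y, w c * mJ T β (a c) :=
      (sum_filter_add_sum_filter_not J _ _).symm
    have hw2 : ∑ c ∈ J with n c < n y, w c + ∑ c ∈ J with ¬ n c < n y, w c = ∑ c ∈ J, w c :=
      sum_filter_add_sum_filter_not J _ _
    have h1 : ∑ c ∈ J with n c < n y, w c * mJ T β (a c) ≤ x := by
      rw [hx]
      refine sum_le_sum fun c hc => ?_
      have hcJ := (mem_filter.1 hc).1
      exact mul_le_of_le_one_right (hw c hcJ) (mJ_le_one hβ (ha c hcJ))
    have h2 : ∑ c ∈ J with ¬ n c < n y, w c * mJ T β (a c) ≤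
        (∑ c ∈ J with ¬ n c < n y, w c) * (a y / (a y + β)) := by
      rw [sum_mul]
      refine sum_le_sum fun c hc => ?_
      rw [mem_filter, not_lt] at hc
      refine mul_le_mul_of_nonneg_left ?_ (hw c hc.1)
      rw [← hm]
      exact mJ_mono hβ (ha c hc.1) (hanti y hy c hc.1 hc.2)
    rcases eq_or_lt_of_le (show 0 ≤ a y + β by linarith) with h3 | h3
    · -- `a y = 0` and `β = 0`
      have h4 : a y / (a y + β) = 0 := by rw [← h3, div_zero]
      rw [h4, mul_zero] at h2
      linarith
    · have h5 : 0 ≤ a y / (a y + β) := div_nonneg hay h3.le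
      have h6 : (∑ c ∈ J with ¬ n c < n y, w c) * (a y / (a y + β)) ≤
          (T + β - x) * (a y / (a y + β)) :=
        mul_le_mul_of_nonneg_right (by linarith) h5
      have h7 : x + (T + β - x) * (a y / (a y + β)) ≤ T := by
        have e1 : T - (x + (T + β - x) * (a y / (a y + β))) =
            ((T - x - a y) * β) / (a y + β) := by
          field_simp
          ring
        have h8 : 0 ≤ ((T - x - a y) * β) / (a y + β) :=
          div_nonneg (mul_nonneg (by linarith) hβ) h3.le
        linarith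
      linarith

end

end Pool.Agent.T6J.RA
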