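import Pool.Agent.T6A.WorldMu2

/-!
# Step functions on a grid of cells (MP_c6effb_co, Theorem B)

`0 = g 0 < g 1 < … < g N = 1` is a grid, `cell N g x` the index `i < N` of the cell `[g i, g (i + 1))` of `x` (the last cell
is `[g (N - 1), 1]`), `stp N g f x = f (cell N g x)` the step function with the values `f i`.
-/

set_option autoImplicit false

open Finset

namespace Pool.Agent.T6J

open Pool.Agent.T6A

noncomputable section

open Classical

/-- The index of the cell of `x`. -/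
def cell (N : ℕ) (g : ℕ → ℝ) (x : ℝ) : ℕ := Nat.findGreatest (fun i => g i ≤ x) (N - 1)

/-- The step function with the values `f i`. -/
def stp (N : ℕ) (g : ℕ → ℝ) (f : ℕ → ℝ) (x : ℝ) : ℝ := f (cell N g x)

/-- A grid of `[0, 1]`. -/
structure Grid (N : ℕ) (g : ℕ → ℝ) : Prop where
  pos : 0 < N
  zero : g 0 = 0
  one : g N = 1
  mono : ∀ i < N, g i < g (i + 1)

section cells

variable {N : ℕ} {g : ℕ → ℝ}

theorem Grid.lt (h : Grid N g) {i j : ℕ} (hij : i < j) (hj : j ≤ N) : g i < g j := by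
  induction j with
  | zero => omega
  | succ j ih =>
    rcases Nat.lt_succ_iff_lt_or_eq.1 hij with h1 | h1
    · exact (ih h1 (by omega)).trans (h.mono j (by omega))
    · rw [h1]
      exact h.mono j (by omega)

theorem Grid.le (h : Grid N g) {i j : ℕ} (hij : i ≤ j) (hj : j ≤ N) : g i ≤ g j := by
  rcases Nat.lt_or_eq_of_le hij with h1 | h1
  · exact (h.lt h1 hj).le
  · rw [h1]

theorem Grid.nonneg (h : Grid N g) {i : ℕ} (hi : i ≤ N) : 0 ≤ g i := by
  rw [← h.zero]
  exact h.le (Nat.zero_le i) hi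

theorem Grid.le_one (h : Grid N g) {i : ℕ} (hi : i ≤ N) : g i ≤ 1 := by
  rw [← h.one]
  exact h.le hi le_rfl

theorem Grid.cell_lt (h : Grid N g) (x : ℝ) : cell N g x < N := by
  have h1 : cell N g x ≤ N - 1 := Nat.findGreatest_le _
  have h2 := h.pos
  omega

/-- The left end of the cell. -/
theorem Grid.cell_le (h : Grid N g) {x : ℝ} (hx : 0 ≤ x) : g (cell N g x) ≤ x := by
  have h1 : g 0 ≤ x := by rw [h.zero]; exact hx
  exact Nat.findGreatest_spec (P := fun i => g i ≤ x) (Nat.zero_le (N - 1)) h1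

/-- The right end of the cell. -/
theorem Grid.lt_cell (_h : Grid N g) {x : ℝ} (hc : cell N g x + 1 < N) :
    x < g (cell N g x + 1) := by
  by_contra hh
  rw [not_lt] at hh
  have h1 := Nat.le_findGreatest (P := fun i => g i ≤ x) (n := N - 1) (m := cell N g x + 1)
    (by omega) hh
  have h2 : cell N g x = Nat.findGreatest (fun i => g i ≤ x) (N - 1) := rfl
  omega

theorem Grid.le_cell (h : Grid N g) {x : ℝ} (hx : x ≤ 1) : x ≤ g (cell N g x + 1) := by
  rcases Nat.lt_or_ge (cell N g x + 1) N with h1 | h1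
  · exact (h.lt_cell h1).le
  · have h2 := h.cell_lt x
    have h3 : cell N g x + 1 = N := by omega
    rw [h3, h.one]
    exact hx

/-- The cell is determined by its ends. -/
theorem Grid.cell_eq (h : Grid N g) {x : ℝ} {i : ℕ} (hi : i < N) (h1 : g i ≤ x)
    (h2 : i + 1 < N → x < g (i + 1)) : cell N g x = i := by
  have h3 : i ≤ cell N g x :=
    Nat.le_findGreatest (P := fun i => g i ≤ x) (by omega) h1
  rcases Nat.lt_or_eq_of_le h3 with h4 | h4
  · exfalso
    have h5 := h.cell_lt x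
    have h6 := h2 (by omega)
    have h7 := h.le (i := i + 1) (j := cell N g x) (by omega) (by omega)
    have hx : 0 ≤ x := (h.nonneg hi.le).trans h1
    exact absurd (h6.trans_le (h7.trans (h.cell_le hx))) (lt_irrefl _)
  · exact h4.symm

/-- The cells are ordered. -/
theorem Grid.cell_mono (h : Grid N g) {x y : ℝ} (hx : 0 ≤ x) (hxy : x ≤ y) :
    cell N g x ≤ cell N g y := by
  refine Nat.le_findGreatest (P := fun i => g i ≤ y) ?_ ((h.cell_le hx).trans hxy)
  have := h.cell_lt x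
  omega

/-- **The lemma**: one index for all step functions. -/
theorem Grid.exists_cell (h : Grid N g) {x : ℝ} (h0 : 0 ≤ x) (h1 : x ≤ 1) :
    ∃ i < N, g i ≤ x ∧ x ≤ g (i + 1) ∧ (i + 1 < N → x < g (i + 1)) ∧
      cell N g x = i ∧ ∀ f : ℕ → ℝ, stp N g f x = f i :=
  ⟨cell N g x, h.cell_lt x, h.cell_le h0, h.le_cell h1, h.lt_cell, rfl, fun _ => rfl⟩

theorem stp_add (f f' : ℕ → ℝ) (x : ℝ) :
    stp N g (fun i => f i + f' i) x = stp N g f x + stp N g f' x := rfl

theorem stp_mul (f f' : ℕ → ℝ) (x : ℝ) :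
    stp N g (fun i => f i * f' i) x = stp N g f x * stp N g f' x := rfl

/-- A property of all values. -/
theorem Grid.stp_all (h : Grid N g) {f : ℕ → ℝ} {Q : ℝ → Prop} (hf : ∀ i < N, Q (f i)) (x : ℝ) :
    Q (stp N g f x) := hf _ (h.cell_lt x)

theorem Grid.stp_nonneg (h : Grid N g) {f : ℕ → ℝ} (hf : ∀ i < N, 0 ≤ f i) (x : ℝ) :
    0 ≤ stp N g f x := hf _ (h.cell_lt x)

theorem Grid.stp_le (h : Grid N g) {f : ℕ → ℝ} {M : ℝ} (hf : ∀ i < N, f i ≤ M) (x : ℝ) :
    stp N g f x ≤ M := hf _ (h.cell_lt x)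

theorem Grid.le_stp (h : Grid N g) {f : ℕ → ℝ} {M : ℝ} (hf : ∀ i < N, M ≤ f i) (x : ℝ) :
    M ≤ stp N g f x := hf _ (h.cell_lt x)

/-- `α - β n ≤ f (n)`: it suffices that it holds at the left ends. -/
theorem Grid.line_le (h : Grid N g) {f : ℕ → ℝ} {α β : ℝ} (hβ : 0 ≤ β)
    (hf : ∀ i < N, α - β * g i ≤ f i) {x : ℝ} (hx : 0 ≤ x) : α - β * x ≤ stp N g f x := by
  have h1 := hf _ (h.cell_lt x)
  have h2 := mul_le_mul_of_nonneg_left (h.cell_le hx) hβ
  show α - β * x ≤ f (cell N g x)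
  linarith

/-- `α + β n ≤ f (n)`: it suffices that it holds at the right ends. -/
theorem Grid.line_le' (h : Grid N g) {f : ℕ → ℝ} {α β : ℝ} (hβ : 0 ≤ β)
    (hf : ∀ i < N, α + β * g (i + 1) ≤ f i) {x : ℝ} (hx : x ≤ 1) : α + β * x ≤ stp N g f x := by
  have h1 := hf _ (h.cell_lt x)
  have h2 := mul_le_mul_of_nonneg_left (h.le_cell hx) hβ
  show α + β * x ≤ f (cell N g x)
  linarith

/-- `f (n) ≤ α - β n`: it suffices that it holds at the right ends. -/
theorem Grid.le_line (h : Grid N g) {f : ℕ → ℝ} {α β : ℝ} (hβ : 0 ≤ β)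
    (hf : ∀ i < N, f i ≤ α - β * g (i + 1)) {x : ℝ} (hx : x ≤ 1) :
    stp N g f x ≤ α - β * x := by
  have h1 := hf _ (h.cell_lt x)
  have h2 := mul_le_mul_of_nonneg_left (h.le_cell hx) hβ
  show f (cell N g x) ≤ α - β * x
  linarith

/-- `f (n) ≤ α + β n`: it suffices that it holds at the left ends. -/
theorem Grid.le_line' (h : Grid N g) {f : ℕ → ℝ} {α β : ℝ} (hβ : 0 ≤ β)
    (hf : ∀ i < N, f i ≤ α + β * g i) {x : ℝ} (hx : 0 ≤ x) : stp N g f x ≤ α + β * x := by
  have h1 := hf _ (h.cell_lt x)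
  have h2 := mul_le_mul_of_nonneg_left (h.cell_le hx) hβ
  show f (cell N g x) ≤ α + β * x
  linarith

/-- If `f` vanishes from the index `j` on, the step function vanishes for `x ≥ g j`. -/
theorem Grid.stp_zero (h : Grid N g) {f : ℕ → ℝ} {j : ℕ} (hj : j < N)
    (hf : ∀ i < N, j ≤ i → f i = 0) {x : ℝ} (hx : g j ≤ x) : stp N g f x = 0 :=
  hf _ (h.cell_lt x) (Nat.le_findGreatest (P := fun i => g i ≤ x) (by omega) hx)

end cells

/-! ### The cells of a world -/

section world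

variable {ι : Type} [Fintype ι]

/-- The cell of the cluster `b`: the cell of `n_b`. -/
def cl (X : World ι) (N : ℕ) (g : ℕ → ℝ) (b : ι) : ℕ := cell N g (nb X.F X.mu b)

variable {N : ℕ} {g : ℕ → ℝ}

theorem Grid.cl_lt (h : Grid N g) (X : World ι) (b : ι) : cl X N g b < N := h.cell_lt _

theorem Grid.cl_le (h : Grid N g) (X : World ι) (b : ι) : g (cl X N g b) ≤ nb X.F X.mu b :=
  h.cell_le (nb_nonneg X.mu_nonneg b)

theorem Grid.le_cl (h : Grid N g) (X : World ι) (hA : 0 < X.sA) (b : ι) :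
    nb X.F X.mu b ≤ g (cl X N g b + 1) := h.le_cell (nb_le_one X.mu_nonneg (X.mu_sum hA) b)

theorem stp_cl (X : World ι) (f : ℕ → ℝ) (b : ι) :
    stp N g f (nb X.F X.mu b) = f (cl X N g b) := rfl

theorem prf_stp (X : World ι) (B : Finset ι) (f : ℕ → ℝ) (b : ι) :
    prf X.F X.mu B (stp N g f) b = if b ∈ B then f (cl X N g b) else 0 := rfl

/-- Adjacent clusters: `n_b + n_c ≤ 1`. -/
theorem nb_adj (X : World ι) (hA : 0 < X.sA) {b c : ι} (hbc : X.F.Adj b c) :
    nb X.F X.mu b + nb X.F X.mu c ≤ 1 := by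
  have h1 := fr_pair_nonneg (F := X.F) X.mu_nonneg (X.mu_sum hA) b c
  rw [cod_eq_zero X.tri hbc] at h1
  linarith

/-- Adjacent clusters lie in cells with `g i + g j ≤ 1`. -/
theorem Grid.cl_adj (h : Grid N g) (X : World ι) (hA : 0 < X.sA) {b c : ι}
    (hbc : X.F.Adj b c) : g (cl X N g b) + g (cl X N g c) ≤ 1 := by
  have h1 := h.cl_le X b
  have h2 := h.cl_le X c
  have h3 := nb_adj X hA hbc
  linarith

/-- The weight of the clusters of `B` in the cell `i`. -/
def wc (X : World ι) (N : ℕ) (g : ℕ → ℝ) (B : Finset ι) (i : ℕ) : ℝ :=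
  ∑ b ∈ B.filter (fun b => cl X N g b = i), X.w b

theorem wc_nonneg (X : World ι) (B : Finset ι) (i : ℕ) : 0 ≤ wc X N g B i :=
  sum_nonneg fun b _ => (X.pos b).le

/-- **Sums by cells**. -/
theorem Grid.sum_cells (h : Grid N g) (X : World ι) (B : Finset ι) (f : ℕ → ℝ) :
    ∑ b ∈ B, X.w b * stp N g f (nb X.F X.mu b) = ∑ i ∈ range N, wc X N g B i * f i := by
  have h1 : ∀ b ∈ B, cl X N g b ∈ range N := fun b _ => mem_range.2 (h.cl_lt X b)
  rw [← sum_fiberwise_of_maps_to h1]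
  refine sum_congr rfl fun i _ => ?_
  unfold wc
  rw [sum_mul]
  refine sum_congr rfl fun b hb => ?_
  rw [stp_cl, (mem_filter.1 hb).2]

theorem Grid.sum_wc (h : Grid N g) (X : World ι) (B : Finset ι) :
    ∑ i ∈ range N, wc X N g B i = ∑ b ∈ B, X.w b := by
  have h1 := h.sum_cells X B (fun _ => 1)
  simp only [mul_one] at h1
  rw [← h1]
  exact sum_congr rfl fun b _ => by rw [stp_cl, mul_one]

/-- The masses of the cells satisfy the moment inequality `∑ g i W i ≤ s`. -/
theorem Grid.sum_wc_g (h : Grid N g) (X : World ι) (hA : 0 < X.sA) (B : Finset ι) :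
    ∑ i ∈ range N, wc X N g B i * g i ≤ X.s := by
  rw [← h.sum_cells X B g]
  refine le_trans (sum_le_sum fun b _ => ?_) (X.sum_n_le hA B)
  exact mul_le_mul_of_nonneg_left (h.cl_le X b) (X.pos b).le

/-- The sum of a step profile with the cut weights. -/
theorem Grid.sum_prf (h : Grid N g) (X : World ι) {θ : ℝ} {B : Finset ι}
    (hB : Disjoint B X.A) {f : ℕ → ℝ} {j : ℕ} (hj : j < N) (hθ : g j ≤ θ)
    (hf : ∀ i < N, j ≤ i → f i = 0) :
    ∑ b, X.wT θ b * prf X.F X.mu B (stp N g f) b = ∑ i ∈ range N, wc X N g B i * f i := by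
  have h1 : ∑ b, X.wT θ b * prf X.F X.mu B (stp N g f) b
      = ∑ b ∈ B, X.wT θ b * prf X.F X.mu B (stp N g f) b := by
    refine (sum_subset (subset_univ B) fun b _ hb => ?_).symm
    rw [prf, if_neg hb, mul_zero]
  rw [h1, X.sum_wT hB, ← h.sum_cells X B f]
  · refine sum_congr rfl fun b hb => ?_
    rw [prf, if_pos hb]
  · intro b hb hn
    rw [prf, if_pos hb]
    exact h.stp_zero hj hf (hθ.trans hn.le)

end world

end

end Pool.Agent.T6J
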