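import Pool.Agent.T6A.WorldMu2
import Pool.Agent.T6A.MathStmt
import Pool.Agent.T6A.Thr3
import Pool.Agent.T6A.KZero
import Pool.Agent.T6J.Step

/-!
# Theorem B (bounded degree, all `m`): statements of the certificate (MP_c6effb_co)

Range `7 / 5 ≤ q ≤ Q` (`q = tot - 1`), no giants (`j = 0`, `E = ∅`), row bounds `σ y` and the J rows.
A certificate = finitely many boxes `[q0, q1] × [s0, s1]` in the `(q, s)` plane, in each box step functions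
`f, p, r` on a grid of cells of `[0, 1]` (common for all degrees) and, for every degree `d`, a few numbers.
`s` = sigma, `1 - s` = tau. Values of a step function on the cell `[g i, g (i+1)]`: index `i`.
-/

set_option autoImplicit false

open Finset

namespace Pool.Agent.T6J

open Pool.Agent.T6A

noncomputable section

/-- Lower bound for the average of `(1 - n) ^ (d v)` for average degree at most `D`, `k ≤ D ≤ k + 1`. -/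
def pl (k : ℕ) (D x : ℝ) : ℝ := (1 - x) ^ k * (1 - (D - k) * x)

open Classical in
/-- The factor of the J row (helper26): row of a cluster with `n_b = n`, average list probability `π` of
the other cluster. -/
def mJ (s n π : ℝ) : ℝ :=
  if 1 - s ≤ π ∨ s * (1 - n) ≤ 1 - s then 1 else max 0 π / (max 0 π + s * (1 - n) - (1 - s))

open Classical in
/-- Lower bound for `mJ` for `n` in the cell `i`, the other cluster in the cell `j`, `s` in `[s0, s1]`;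
`ε` = tolerance of the list probability. -/
def mb (s0 s1 ε : ℝ) (k : ℕ) (D : ℝ) (g : ℕ → ℝ) (i j : ℕ) : ℝ :=
  if 1 - s0 ≤ pl k D (g (j + 1)) - ε ∨ s1 * (1 - g i) ≤ 1 - s1 then 1 else
    max 0 (pl k D (g (j + 1)) - ε) /
      (max 0 (pl k D (g (j + 1)) - ε) + s1 * (1 - g i) - (1 - s1))

/-- The common data of a box: `D = 2 q1` (with tolerance), `k ≤ D ≤ k + 1`. -/
structure BoxOK (s0 s1 ε : ℝ) (k : ℕ) (D : ℝ) (N : ℕ) (g f p r : ℕ → ℝ) : Prop where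
  grid : Grid N g
  N1 : 1 < N
  s01 : 1 / 2 ≤ s0 ∧ s0 < s1 ∧ s1 ≤ 2
  hiS : s1 < 1 ∨ ∀ i, r i = 0
  kD : (k : ℝ) ≤ D ∧ D ≤ k + 1
  f0 : ∀ i, 0 ≤ f i ∧ f i ≤ 10
  p0 : ∀ i, 0 ≤ p i ∧ p i ≤ 10
  r0 : ∀ i, 0 ≤ r i ∧ r i ≤ 10
  last : f (N - 1) = 0
  gl : g (N - 1) ≤ 24 / 25
  pair : ∀ i j, i < N → j < N → 0 < f i → 0 < f j → g i + g j ≤ 1 →
    f i * f j * (1 / (1 - g (i + 1)) + 1 / (1 - g (j + 1))) ≤
      p i + p j + r i * mb s0 s1 ε k D g i j + r j * mb s0 s1 ε k D g j i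

/-- The profile of the degree `d`: cut at the cell `cut`. -/
def fc (f : ℕ → ℝ) (cut i : ℕ) : ℝ := if i < cut then f i else 0

/-- The pointwise expression of the degree `d` at `x = n_b`, values `f, p, r` of the step functions. -/
def rowX (f p r : ℝ) (d : ℕ) (s c1 be um x : ℝ) : ℝ :=
  c1 * f + 2 * be * KZero.ss d um * f * KZero.ut um x
    - s * (f ^ 2 * (((1 - x)⁻¹) ^ d - 1 + KZero.ss d um * KZero.ut um x ^ 2) + d * (1 - x) * p)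
    - (1 - s) * (d * r)

/-- The data of the degree `d` in a box: lines at `s0`, `s1` and for the mass. -/
structure VtxOKJ (s0 s1 : ℝ) (N : ℕ) (g f p r : ℕ → ℝ) (d cut : ℕ)
    (c1 be um a0 b0 a1 b1 aA bA : ℝ) : Prop where
  cutN : cut < N
  c10 : 0 ≤ c1 ∧ c1 ≤ 10
  be0 : 0 ≤ be ∧ be ≤ 10
  um0 : 0 < um ∧ um ≤ 1
  a0' : (0 ≤ a0 ∧ a0 ≤ 100) ∧ (0 ≤ a1 ∧ a1 ≤ 100) ∧ 0 ≤ aA ∧ aA ≤ 100
  b0' : (0 ≤ b0 ∧ b0 ≤ 100) ∧ (0 ≤ b1 ∧ b1 ≤ 100) ∧ 0 ≤ bA ∧ bA ≤ 100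
  row0 : ∀ i, i < N → ∀ x, g i ≤ x → x ≤ g (i + 1) →
    a0 - b0 * x ≤ rowX (fc f cut i) (p i) (r i) d s0 c1 be um x
  row1 : ∀ i, i < N → ∀ x, g i ≤ x → x ≤ g (i + 1) →
    a1 - b1 * x ≤ rowX (fc f cut i) (p i) (r i) d s1 c1 be um x
  mass : ∀ i, i < N → aA - bA * g i ≤ fc f cut i

/-- Linear interpolation in `s`. -/
def itp (s0 s1 x0 x1 s : ℝ) : ℝ := x0 + (x1 - x0) * ((s - s0) / (s1 - s0))

/-- The line. -/
def Ld (η sl : ℝ) (d : ℕ) (q s : ℝ) : ℝ := 1 - s + η - sl * (d - 2 * q)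

/-- Lower bound for the linear functional, minus the constant of the tangent. -/
def Ed (s0 s1 a0 b0 a1 b1 be um ε : ℝ) (d : ℕ) (q s : ℝ) : ℝ :=
  itp s0 s1 a0 a1 s * (1 + q - s) - itp s0 s1 b0 b1 s * s - KZero.ss d um * be ^ 2 - ε

/-- Lower bound for the mass. -/
def Ad (aA bA ε : ℝ) (q s : ℝ) : ℝ := aA * (1 + q - s) - bA * s - ε

/-- The final inequalities of the degree `d` in the box (`lc` = largest allowed rate factor). -/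
structure FinOK (q0 q1 s0 s1 η sl ε lc f0 : ℝ) (d : ℕ) (c1 be um a0 b0 a1 b1 aA bA : ℝ) : Prop where
  lc0 : 0 < lc ∧ lc ≤ 10
  load : 2 * lc * f0 ≤ 1 - ε
  A0 : ∀ q s : ℝ, q0 ≤ q → q ≤ q1 → s0 ≤ s → s ≤ s1 → 0 ≤ Ad aA bA ε q s
  L1 : ∀ q s : ℝ, q0 ≤ q → q ≤ q1 → s0 ≤ s → s ≤ s1 → Ld η sl d q s < 1
  F1 : ∀ q s : ℝ, q0 ≤ q → q ≤ q1 → s0 ≤ s → s ≤ s1 →
    c1 ^ 2 * Ld η sl d q s ≤ 4 * Ed s0 s1 a0 b0 a1 b1 be um ε d q s * (1 - Ld η sl d q s)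
  E0 : ∀ q s : ℝ, q0 ≤ q → q ≤ q1 → s0 ≤ s → s ≤ s1 → 0 ≤ Ed s0 s1 a0 b0 a1 b1 be um ε d q s
  F2 : ∀ q s : ℝ, q0 ≤ q → q ≤ q1 → s0 ≤ s → s ≤ s1 →
    Ld η sl d q s ≤ 2 * lc * Ad aA bA ε q s - lc ^ 2 * (Ad aA bA ε q s ^ 2
      + c1 * Ad aA bA ε q s - Ed s0 s1 a0 b0 a1 b1 be um ε d q s)

/-- A complete certificate for one box: `dmin` = least degree which can be frequent, `dmax` = the line is
not positive from here on. -/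
def BoxCert (η ε q0 q1 s0 s1 : ℝ) (dmin dmax : ℕ) : Prop :=
  ∃ (k N : ℕ) (D : ℝ) (g f p r : ℕ → ℝ) (sl : ℝ), 2 * q1 + ε ≤ D ∧ 0 ≤ sl ∧ sl ≤ 1 ∧
    BoxOK s0 s1 ε k D N g f p r ∧
    (∀ q s : ℝ, q0 ≤ q → q ≤ q1 → s0 ≤ s → s ≤ s1 → Ld η sl dmax q s ≤ 0) ∧
    (∀ q s : ℝ, q0 ≤ q → q ≤ q1 → s0 ≤ s → s ≤ s1 → (dmin : ℝ) * s + ε ≤ 1 + q) ∧ dmax ≤ 20 ∧
    ∀ d : ℕ, dmin ≤ d → d < dmax → ∃ (cut : ℕ) (c1 be um a0 b0 a1 b1 aA bA lc : ℝ),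
      VtxOKJ s0 s1 N g f p r d cut c1 be um a0 b0 a1 b1 aA bA ∧
      FinOK q0 q1 s0 s1 η sl ε lc (f 0) d c1 be um a0 b0 a1 b1 aA bA ∧ ∀ i, f i ≤ f 0

/-- The finite list of boxes covers the region: `q` in `[7/5 - ε, Q + ε]` (`Q = 9/4` or `5/2`), `s` at least the
threshold of the least frequent degree `δ ≤ 2 q + ε`, `s ≤ 1 + ε`. -/
def CoverJ (Q : ℝ) : Prop := ∃ η ε : ℝ, 0 < η ∧ 0 < ε ∧ ∀ q s : ℝ, 7 / 5 - ε ≤ q → q ≤ Q + ε →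
  s ≤ 1 + ε → (∃ δ : ℕ, (δ : ℝ) ≤ 2 * q + ε ∧ 1 + q ≤ (1 + δ) * (s + ε)) →
    ∃ (q0 q1 s0 s1 : ℝ) (dmin dmax : ℕ), q0 ≤ q ∧ q ≤ q1 ∧ s0 ≤ s ∧ s ≤ s1 ∧
      BoxCert η ε q0 q1 s0 s1 dmin dmax

open Classical in
/-- The J rows. -/
def BadRow {V ι : Type} [Fintype V] [Fintype ι] (X : World ι) (L : Low V ι) (e : ℝ) : Prop :=
  ∀ b, b ∉ X.A → ∑ c, (if X.F.Adj b c ∧ c ∉ X.A then X.w c *
    mJ X.s (nb X.F X.mu b) ((∑ v, (1 - nb X.F X.mu c) ^ L.d v) / Fintype.card V - e) else 0)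
    ≤ 1 - X.s + e

/-- CERT for the range `7 / 5 ≤ q ≤ Q` without giants, with the J rows (`E` may be nonempty). -/
def CertStmtJ (Q : ℝ) : Prop := ∃ e₀ : ℝ, 0 < e₀ ∧ e₀ ≤ 1 / 8 ∧ ∀ e : ℝ, 0 < e → e ≤ e₀ → ∀ K : ℕ,
  ∃ R η ε : ℝ, 0 < η ∧ 0 < ε ∧ ∀ (V ι : Type) [Fintype V] [Fintype ι] (C : ℕ) (X : World ι)
    (L : Low V ι) (Bd : ι → ι → Prop) (k : ℝ), WorldOK X L Bd k (7 / 5) C K e ε → ThrW X L k e →
    (∀ v, L.j v = 0) → X.tot ≤ 1 + Q + e₀ → X.s < 1 + 3 * e → (X.s < 1 → BadRow X L e₀) →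
    ∃ r : V → ι → ℝ, RateOK X L k e R η r

open Classical in
/-- The profile of a vertex with list `B`. -/
def hJ {ι : Type} [Fintype ι] (X : World ι) (B : Finset ι) (N : ℕ) (g f : ℕ → ℝ) (cut : ℕ) (b : ι) : ℝ :=
  if b ∈ B then fc f cut (cell N g (nb X.F X.mu b)) else 0

open Classical in
/-- The value of a vertex of degree `d` with list `B` and rate factor `lam` (the summand of
`sum_pairJ_ge` of `ExpectJ.lean` for `w = X.wT (24/25)`). -/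
def valJ {ι : Type} [Fintype ι] (X : World ι) (B : Finset ι) (N : ℕ) (g f p r : ℕ → ℝ) (cut d : ℕ)
    (um sg tau lam : ℝ) : ℝ :=
  2 * (∑ b, X.wT (24 / 25) b * (lam * hJ X B N g f cut b))
    - (∑ b, X.wT (24 / 25) b * (lam * hJ X B N g f cut b)) ^ 2
    + KZero.ss d um * (∑ b, X.wT (24 / 25) b * (lam * hJ X B N g f cut b)
        * KZero.ut um (nb X.F X.mu b)) ^ 2
    - sg * (∑ b, X.wT (24 / 25) b * (lam * hJ X B N g f cut b) ^ 2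
        * (((1 - nb X.F X.mu b)⁻¹) ^ d - 1 + KZero.ss d um * KZero.ut um (nb X.F X.mu b) ^ 2))
    - d * lam ^ 2 * (∑ b, X.wT (24 / 25) b * (sg * (1 - nb X.F X.mu b)
        * p (cell N g (nb X.F X.mu b)) + tau * r (cell N g (nb X.F X.mu b))))

/-- VTX: one vertex. PROOF. `e` small (all quantities are bounded: `f, p, r ≤ 10`, `d ≤ 20`, `n ≤ 24/25` on the
support of `wT`, `w(B) ≤ 4`). With `A = ∑ w hJ`, `U = ∑ w hJ ut`: `ss U² ≥ ss (2 be U - be²)`, so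
`valJ ≥ 2 lam A - lam² (A² + ss be² + Y)`, `Y = ∑ w (sg hJ² (..) + d (sg (1-n) p + tau r)) - 2 be ss U`. Pointwise (interpolate
`row0`, `row1` in `s`, `x = n_b`) and summed over `b ∈ B`
(`World.fun_ge`, `World.sum_n_le`; the clusters outside `B` have weight at most `2 e`): `Y ≤ c1 A - (itp a W - itp b s) + small`, so
`A² + ss be² + Y ≤ A² + c1 A - Ed + small`; `A ≥ Ad` by `mass`; `S_VFIN` with `FinOK`. -/
def S_VTX : Prop := ∀ ε η : ℝ, 0 < ε → 0 < η → ∃ e₀ : ℝ, 0 < e₀ ∧ ∀ (V ι : Type) [Fintype V]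
  [Fintype ι] (X : World ι) (L : Low V ι) (Bd : ι → ι → Prop) (k e ε' : ℝ) (C K : ℕ), 0 < e → e ≤ e₀ →
  WorldOK X L Bd k (7 / 5) C K e ε' → X.tot ≤ 4 →
  ∀ (q0 q1 s0 s1 sl D lc : ℝ) (k' N d cut : ℕ) (g f p r : ℕ → ℝ) (c1 be um a0 b0 a1 b1 aA bA : ℝ),
  q0 ≤ X.tot - 1 → X.tot - 1 ≤ q1 → s0 ≤ X.s → X.s ≤ s1 → d ≤ 20 → (∀ i, f i ≤ f 0) →
  BoxOK s0 s1 ε k' D N g f p r → VtxOKJ s0 s1 N g f p r d cut c1 be um a0 b0 a1 b1 aA bA →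
  FinOK q0 q1 s0 s1 η sl ε lc (f 0) d c1 be um a0 b0 a1 b1 aA bA →
  ∀ v, v ∉ L.E → L.j v = 0 → ∃ lam : ℝ, 0 ≤ lam ∧ lam ≤ lc ∧
    Ld η sl d (X.tot - 1) X.s - η / 2 ≤
      valJ X (L.Bv v) N g f p r cut d um (X.s + 25 * e) (1 - X.s + e₀) lam

/-- Assembly of the certificate (ASM). PROOF. `CoverJ` gives the box of `(tot - 1, s)` (threshold: some degree
`δ ≤ 2 q + ε` is frequent, otherwise nearly all degrees are larger than `2 q`; `ThrW`). Rates: `rate X.F L.G X.mu (X.wT (24/25)) (lam_v hJ_v)`,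
`lam_v` from VTX for `v ∉ E`, `dmin ≤ d v < dmax`, otherwise `lam_v = 0`. `sum_pairJ_ge` (`ExpectJ.lean`) with `m b c = mJ ..`, rows from
`BadRow` (J), `rowT_le'` (κ = 25), pair inequality from `BoxOK.pair`, `nb_b + nb_c ≤ 1` for adjacent clusters, and `mb ≤ mJ` (`pl` is below the
average: `avP_ge` of `JRow.lean`). Sum of the lines: `∑ Ld ≥ card V (1 - s + η) - small k`; the vertices with `d v < dmin` are at most `2 e k` (`ThrW`),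
those of `E` at most `e k`. -/
def S_ASM : Prop := ∀ Q : ℝ, Q ≤ 5 / 2 → CoverJ Q → CertStmtJ Q

/-- The one-variable lemma (VFIN). PROOF. If `L ≤ 0` take `lam = 0`. Let `DD = A ^ 2 + c1 A - E`. If `0 < DD` and `A ≤ lc DD`
take `lam = A / DD`: `2 lam A - lam ^ 2 DD = A ^ 2 / DD`, and `L DD ≤ A ^ 2` follows from `F1` (the quadratic
`(1 - L) A ^ 2 - L c1 A + L E` has nonpositive discriminant). Otherwise `lc DD ≤ A`: take `lam = lc`, value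
`psi(A) = 2 lc A - lc ^ 2 DD ≥ lc A`. If `lc A ≥ L` done. If `lc A < L`: `psi` is concave, `psi(A0) ≥ L` (`F2`) and
`psi(L / lc) - L = L (1 - L) - c1 lc L + lc ^ 2 E ≥ 0` by `F1`, and `A0 ≤ A ≤ L / lc`. -/
def S_VFIN : Prop := ∀ L c1 E lc A0 A : ℝ, 0 ≤ c1 → 0 < lc → L < 1 → 0 ≤ E → 0 ≤ A0 → A0 ≤ A →
  c1 ^ 2 * L ≤ 4 * E * (1 - L) →
  L ≤ 2 * lc * A0 - lc ^ 2 * (A0 ^ 2 + c1 * A0 - E) →
  ∃ lam : ℝ, 0 ≤ lam ∧ lam ≤ lc ∧ L ≤ 2 * lam * A - lam ^ 2 * (A ^ 2 + c1 * A - E)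

end

end Pool.Agent.T6J
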