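import Pool.Agent.T6J.Tab00
import Pool.Agent.T6J.Tab01
import Pool.Agent.T6J.Tab02
import Pool.Agent.T6J.Tab03
import Pool.Agent.T6J.Tab04
import Pool.Agent.T6J.Tab05
import Pool.Agent.T6J.Tab06
import Pool.Agent.T6J.Tab07
import Pool.Agent.T6J.Tab08
import Pool.Agent.T6J.Tab09
import Pool.Agent.T6J.Tab10
import Pool.Agent.T6J.Tab11
import Pool.Agent.T6J.CoverP
import Pool.Agent.T6J.MachineSound3

/-!
# Theorem B: the certified boxes cover the region (MP_c6effb_co, helper78)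

`coverJ52 : P.CoverJ (5 / 2)`: every `q` in `[7/5, 5/2]` and every `s` above the threshold lies in one of
the 94 boxes of the files `Tab00` to `Tab11` (helper66), each certified by the kernel (`chkBox`).
-/

set_option autoImplicit false
set_option maxRecDepth 100000

namespace Pool.Agent.T6J.Mach

/-- A box which passes the check, with the common denominators. -/
def Good (B : Box) : Prop :=
  chkBox B = true ∧ B.eta = 100 ∧ B.eps = 1 ∧ B.qd = 10000 ∧ B.sd = 10000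

/-- The boxes of the file `Tab00`. -/
def L00 : List Box := [bx000, bx001, bx002, bx003, bx004, bx005, bx006, bx007]

theorem good00 : ∀ B ∈ L00, Good B := by
  intro B hB
  simp only [L00, List.mem_cons, List.not_mem_nil, or_false] at hB
  rcases hB with rfl | rfl | rfl | rfl | rfl | rfl | rfl | rfl
  exacts [⟨bx000_ok, rfl, rfl, rfl, rfl⟩,
    ⟨bx001_ok, rfl, rfl, rfl, rfl⟩,
    ⟨bx002_ok, rfl, rfl, rfl, rfl⟩,
    ⟨bx003_ok, rfl, rfl, rfl, rfl⟩,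
    ⟨bx004_ok, rfl, rfl, rfl, rfl⟩,
    ⟨bx005_ok, rfl, rfl, rfl, rfl⟩,
    ⟨bx006_ok, rfl, rfl, rfl, rfl⟩,
    ⟨bx007_ok, rfl, rfl, rfl, rfl⟩]

/-- The boxes of the file `Tab01`. -/
def L01 : List Box := [bx008, bx009, bx010, bx011, bx012, bx013, bx014, bx015]

theorem good01 : ∀ B ∈ L01, Good B := by
  intro B hB
  simp only [L01, List.mem_cons, List.not_mem_nil, or_false] at hB
  rcases hB with rfl | rfl | rfl | rfl | rfl | rfl | rfl | rfl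
  exacts [⟨bx008_ok, rfl, rfl, rfl, rfl⟩,
    ⟨bx009_ok, rfl, rfl, rfl, rfl⟩,
    ⟨bx010_ok, rfl, rfl, rfl, rfl⟩,
    ⟨bx011_ok, rfl, rfl, rfl, rfl⟩,
    ⟨bx012_ok, rfl, rfl, rfl, rfl⟩,
    ⟨bx013_ok, rfl, rfl, rfl, rfl⟩,
    ⟨bx014_ok, rfl, rfl, rfl, rfl⟩,
    ⟨bx015_ok, rfl, rfl, rfl, rfl⟩]

/-- The boxes of the file `Tab02`. -/
def L02 : List Box := [bx016, bx017, bx018, bx019, bx020, bx021, bx022, bx023]

theorem good02 : ∀ B ∈ L02, Good B := by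
  intro B hB
  simp only [L02, List.mem_cons, List.not_mem_nil, or_false] at hB
  rcases hB with rfl | rfl | rfl | rfl | rfl | rfl | rfl | rfl
  exacts [⟨bx016_ok, rfl, rfl, rfl, rfl⟩,
    ⟨bx017_ok, rfl, rfl, rfl, rfl⟩,
    ⟨bx018_ok, rfl, rfl, rfl, rfl⟩,
    ⟨bx019_ok, rfl, rfl, rfl, rfl⟩,
    ⟨bx020_ok, rfl, rfl, rfl, rfl⟩,
    ⟨bx021_ok, rfl, rfl, rfl, rfl⟩,
    ⟨bx022_ok, rfl, rfl, rfl, rfl⟩,
    ⟨bx023_ok, rfl, rfl, rfl, rfl⟩]

/-- The boxes of the file `Tab03`. -/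
def L03 : List Box := [bx024, bx025, bx026, bx027, bx028, bx029, bx030, bx031]

theorem good03 : ∀ B ∈ L03, Good B := by
  intro B hB
  simp only [L03, List.mem_cons, List.not_mem_nil, or_false] at hB
  rcases hB with rfl | rfl | rfl | rfl | rfl | rfl | rfl | rfl
  exacts [⟨bx024_ok, rfl, rfl, rfl, rfl⟩,
    ⟨bx025_ok, rfl, rfl, rfl, rfl⟩,
    ⟨bx026_ok, rfl, rfl, rfl, rfl⟩,
    ⟨bx027_ok, rfl, rfl, rfl, rfl⟩,
    ⟨bx028_ok, rfl, rfl, rfl, rfl⟩,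
    ⟨bx029_ok, rfl, rfl, rfl, rfl⟩,
    ⟨bx030_ok, rfl, rfl, rfl, rfl⟩,
    ⟨bx031_ok, rfl, rfl, rfl, rfl⟩]

/-- The boxes of the file `Tab04`. -/
def L04 : List Box := [bx032, bx033, bx034, bx035, bx036, bx037, bx038, bx039]

theorem good04 : ∀ B ∈ L04, Good B := by
  intro B hB
  simp only [L04, List.mem_cons, List.not_mem_nil, or_false] at hB
  rcases hB with rfl | rfl | rfl | rfl | rfl | rfl | rfl | rfl
  exacts [⟨bx032_ok, rfl, rfl, rfl, rfl⟩,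
    ⟨bx033_ok, rfl, rfl, rfl, rfl⟩,
    ⟨bx034_ok, rfl, rfl, rfl, rfl⟩,
    ⟨bx035_ok, rfl, rfl, rfl, rfl⟩,
    ⟨bx036_ok, rfl, rfl, rfl, rfl⟩,
    ⟨bx037_ok, rfl, rfl, rfl, rfl⟩,
    ⟨bx038_ok, rfl, rfl, rfl, rfl⟩,
    ⟨bx039_ok, rfl, rfl, rfl, rfl⟩]

/-- The boxes of the file `Tab05`. -/
def L05 : List Box := [bx040, bx041, bx042, bx043, bx044, bx045, bx046, bx047]

theorem good05 : ∀ B ∈ L05, Good B := by
  intro B hB
  simp only [L05, List.mem_cons, List.not_mem_nil, or_false] at hB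
  rcases hB with rfl | rfl | rfl | rfl | rfl | rfl | rfl | rfl
  exacts [⟨bx040_ok, rfl, rfl, rfl, rfl⟩,
    ⟨bx041_ok, rfl, rfl, rfl, rfl⟩,
    ⟨bx042_ok, rfl, rfl, rfl, rfl⟩,
    ⟨bx043_ok, rfl, rfl, rfl, rfl⟩,
    ⟨bx044_ok, rfl, rfl, rfl, rfl⟩,
    ⟨bx045_ok, rfl, rfl, rfl, rfl⟩,
    ⟨bx046_ok, rfl, rfl, rfl, rfl⟩,
    ⟨bx047_ok, rfl, rfl, rfl, rfl⟩]

/-- The boxes of the file `Tab06`. -/
def L06 : List Box := [bx048, bx049, bx050, bx051, bx052, bx053, bx054, bx055]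

theorem good06 : ∀ B ∈ L06, Good B := by
  intro B hB
  simp only [L06, List.mem_cons, List.not_mem_nil, or_false] at hB
  rcases hB with rfl | rfl | rfl | rfl | rfl | rfl | rfl | rfl
  exacts [⟨bx048_ok, rfl, rfl, rfl, rfl⟩,
    ⟨bx049_ok, rfl, rfl, rfl, rfl⟩,
    ⟨bx050_ok, rfl, rfl, rfl, rfl⟩,
    ⟨bx051_ok, rfl, rfl, rfl, rfl⟩,
    ⟨bx052_ok, rfl, rfl, rfl, rfl⟩,
    ⟨bx053_ok, rfl, rfl, rfl, rfl⟩,
    ⟨bx054_ok, rfl, rfl, rfl, rfl⟩,
    ⟨bx055_ok, rfl, rfl, rfl, rfl⟩]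

/-- The boxes of the file `Tab07`. -/
def L07 : List Box := [bx056, bx057, bx058, bx059, bx060, bx061, bx062, bx063]

theorem good07 : ∀ B ∈ L07, Good B := by
  intro B hB
  simp only [L07, List.mem_cons, List.not_mem_nil, or_false] at hB
  rcases hB with rfl | rfl | rfl | rfl | rfl | rfl | rfl | rfl
  exacts [⟨bx056_ok, rfl, rfl, rfl, rfl⟩,
    ⟨bx057_ok, rfl, rfl, rfl, rfl⟩,
    ⟨bx058_ok, rfl, rfl, rfl, rfl⟩,
    ⟨bx059_ok, rfl, rfl, rfl, rfl⟩,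
    ⟨bx060_ok, rfl, rfl, rfl, rfl⟩,
    ⟨bx061_ok, rfl, rfl, rfl, rfl⟩,
    ⟨bx062_ok, rfl, rfl, rfl, rfl⟩,
    ⟨bx063_ok, rfl, rfl, rfl, rfl⟩]

/-- The boxes of the file `Tab08`. -/
def L08 : List Box := [bx064, bx065, bx066, bx067, bx068, bx069, bx070, bx071]

theorem good08 : ∀ B ∈ L08, Good B := by
  intro B hB
  simp only [L08, List.mem_cons, List.not_mem_nil, or_false] at hB
  rcases hB with rfl | rfl | rfl | rfl | rfl | rfl | rfl | rfl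
  exacts [⟨bx064_ok, rfl, rfl, rfl, rfl⟩,
    ⟨bx065_ok, rfl, rfl, rfl, rfl⟩,
    ⟨bx066_ok, rfl, rfl, rfl, rfl⟩,
    ⟨bx067_ok, rfl, rfl, rfl, rfl⟩,
    ⟨bx068_ok, rfl, rfl, rfl, rfl⟩,
    ⟨bx069_ok, rfl, rfl, rfl, rfl⟩,
    ⟨bx070_ok, rfl, rfl, rfl, rfl⟩,
    ⟨bx071_ok, rfl, rfl, rfl, rfl⟩]

/-- The boxes of the file `Tab09`. -/
def L09 : List Box := [bx072, bx073, bx074, bx075, bx076, bx077, bx078, bx079]

theorem good09 : ∀ B ∈ L09, Good B := by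
  intro B hB
  simp only [L09, List.mem_cons, List.not_mem_nil, or_false] at hB
  rcases hB with rfl | rfl | rfl | rfl | rfl | rfl | rfl | rfl
  exacts [⟨bx072_ok, rfl, rfl, rfl, rfl⟩,
    ⟨bx073_ok, rfl, rfl, rfl, rfl⟩,
    ⟨bx074_ok, rfl, rfl, rfl, rfl⟩,
    ⟨bx075_ok, rfl, rfl, rfl, rfl⟩,
    ⟨bx076_ok, rfl, rfl, rfl, rfl⟩,
    ⟨bx077_ok, rfl, rfl, rfl, rfl⟩,
    ⟨bx078_ok, rfl, rfl, rfl, rfl⟩,
    ⟨bx079_ok, rfl, rfl, rfl, rfl⟩]

/-- The boxes of the file `Tab10`. -/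
def L10 : List Box := [bx080, bx081, bx082, bx083, bx084, bx085, bx086, bx087]

theorem good10 : ∀ B ∈ L10, Good B := by
  intro B hB
  simp only [L10, List.mem_cons, List.not_mem_nil, or_false] at hB
  rcases hB with rfl | rfl | rfl | rfl | rfl | rfl | rfl | rfl
  exacts [⟨bx080_ok, rfl, rfl, rfl, rfl⟩,
    ⟨bx081_ok, rfl, rfl, rfl, rfl⟩,
    ⟨bx082_ok, rfl, rfl, rfl, rfl⟩,
    ⟨bx083_ok, rfl, rfl, rfl, rfl⟩,
    ⟨bx084_ok, rfl, rfl, rfl, rfl⟩,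
    ⟨bx085_ok, rfl, rfl, rfl, rfl⟩,
    ⟨bx086_ok, rfl, rfl, rfl, rfl⟩,
    ⟨bx087_ok, rfl, rfl, rfl, rfl⟩]

/-- The boxes of the file `Tab11`. -/
def L11 : List Box := [bx088, bx089, bx090, bx091, bx092, bx093]

theorem good11 : ∀ B ∈ L11, Good B := by
  intro B hB
  simp only [L11, List.mem_cons, List.not_mem_nil, or_false] at hB
  rcases hB with rfl | rfl | rfl | rfl | rfl | rfl
  exacts [⟨bx088_ok, rfl, rfl, rfl, rfl⟩,
    ⟨bx089_ok, rfl, rfl, rfl, rfl⟩,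
    ⟨bx090_ok, rfl, rfl, rfl, rfl⟩,
    ⟨bx091_ok, rfl, rfl, rfl, rfl⟩,
    ⟨bx092_ok, rfl, rfl, rfl, rfl⟩,
    ⟨bx093_ok, rfl, rfl, rfl, rfl⟩]

/-- All boxes. -/
def boxes : List Box :=
  L00 ++ (L01 ++ (L02 ++ (L03 ++ (L04 ++ (L05 ++ (L06 ++ (L07 ++ (L08 ++ (L09 ++ (L10 ++ (L11)))))))))))

theorem good : ∀ B ∈ boxes, Good B := by
  intro B hB
  simp only [boxes, List.mem_append] at hB
  rcases hB with h | h | h | h | h | h | h | h | h | h | h | h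
  exacts [good00 B h, good01 B h, good02 B h, good03 B h, good04 B h, good05 B h,
    good06 B h, good07 B h, good08 B h, good09 B h, good10 B h, good11 B h]

/-- The rectangle of a box. -/
def toBx (B : Box) : Bx := ⟨B.q0, B.q1, B.s0, B.s1⟩

/-- The columns: right ends and the largest degree below `2 q`. -/
def cols : List (ℕ × ℕ) :=
  [(1420000, 2), (1450000, 2), (1499900, 2), (1520000, 3), (1560000, 3), (1620000, 3), (1720000, 3),
    (1840000, 3), (1999900, 3), (2030000, 4), (2080000, 4), (2180000, 4), (2320000, 4), (2499900, 4),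
    (2500100, 5)]

theorem cover_ok : colsOK 1000000 1 2500001 1000001 30
    ((boxes.map toBx).map fun x => ⟨100 * x.A, 100 * x.B, 100 * x.U, 100 * x.V⟩) 1399900 cols =
      true := by
  decide +kernel

/-- **The certified boxes cover the region up to `q = 5 / 2`.** -/
theorem coverJ52 : P.CoverJ (5 / 2) := by
  refine P.coverJ_of' (η := ((100 : ℕ) : ℝ) / 1000000) (ε := ((1 : ℕ) : ℝ) / 1000000)
    (M := 1000000) (Mq := 10000) (Ms := 10000) (cq := 100) (cs := 100) (e := 1) (Qn := 2500001)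
    (top := 1000001) (fuel := 30) (a := 1399900) (L := boxes.map toBx) (cols := cols)
    (by norm_num) (by norm_num) (by norm_num) (by norm_num) (by norm_num) (by norm_num)
    (by norm_num) (by norm_num) (by norm_num) cover_ok ?_
  intro x hx
  obtain ⟨B, hB, rfl⟩ := List.mem_map.1 hx
  obtain ⟨h, h1, h2, h3, h4⟩ := good B hB
  have h5 := boxCert_of_chk h
  rw [h1, h2, h3, h4] at h5
  exact ⟨_, _, h5⟩

end Pool.Agent.T6J.Mach
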