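import Pool.Agent.T6J.TabI00
import Pool.Agent.T6J.TabI01
import Pool.Agent.T6J.TabI02
import Pool.Agent.T6J.TabI03
import Pool.Agent.T6J.TabCoverH

/-!
# The certificate for all degrees up to `q = 2.9998`: the cover (MP_c6effb_co, helper78)

`coverH29998 : H.CoverH (14999 / 5000)`: the 103 boxes of `TabCoverH.lean` and the 28 boxes of the files `TabI00` to
`TabI03` (table of helper9, machine and data files of helper66), each certified by the kernel (`chkBoxH`).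
-/

set_option autoImplicit false
set_option maxRecDepth 100000

namespace Pool.Agent.T6J.Mach.CH

/-- The boxes of the file `TabI00`. -/
def K00 : List BoxH := [bi000, bi001, bi002, bi003, bi004, bi005, bi006]

theorem goodK00 : ∀ B ∈ K00, Good B := by
  intro B hB
  simp only [K00, List.mem_cons, List.not_mem_nil, or_false] at hB
  rcases hB with rfl | rfl | rfl | rfl | rfl | rfl | rfl
  exacts [⟨bi000_ok, rfl, rfl, rfl, rfl⟩,
    ⟨bi001_ok, rfl, rfl, rfl, rfl⟩,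
    ⟨bi002_ok, rfl, rfl, rfl, rfl⟩,
    ⟨bi003_ok, rfl, rfl, rfl, rfl⟩,
    ⟨bi004_ok, rfl, rfl, rfl, rfl⟩,
    ⟨bi005_ok, rfl, rfl, rfl, rfl⟩,
    ⟨bi006_ok, rfl, rfl, rfl, rfl⟩]

/-- The boxes of the file `TabI01`. -/
def K01 : List BoxH := [bi007, bi008, bi009, bi010, bi011, bi012, bi013]

theorem goodK01 : ∀ B ∈ K01, Good B := by
  intro B hB
  simp only [K01, List.mem_cons, List.not_mem_nil, or_false] at hB
  rcases hB with rfl | rfl | rfl | rfl | rfl | rfl | rfl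
  exacts [⟨bi007_ok, rfl, rfl, rfl, rfl⟩,
    ⟨bi008_ok, rfl, rfl, rfl, rfl⟩,
    ⟨bi009_ok, rfl, rfl, rfl, rfl⟩,
    ⟨bi010_ok, rfl, rfl, rfl, rfl⟩,
    ⟨bi011_ok, rfl, rfl, rfl, rfl⟩,
    ⟨bi012_ok, rfl, rfl, rfl, rfl⟩,
    ⟨bi013_ok, rfl, rfl, rfl, rfl⟩]

/-- The boxes of the file `TabI02`. -/
def K02 : List BoxH := [bi014, bi015, bi016, bi017, bi018, bi019, bi020]

theorem goodK02 : ∀ B ∈ K02, Good B := by
  intro B hB
  simp only [K02, List.mem_cons, List.not_mem_nil, or_false] at hB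
  rcases hB with rfl | rfl | rfl | rfl | rfl | rfl | rfl
  exacts [⟨bi014_ok, rfl, rfl, rfl, rfl⟩,
    ⟨bi015_ok, rfl, rfl, rfl, rfl⟩,
    ⟨bi016_ok, rfl, rfl, rfl, rfl⟩,
    ⟨bi017_ok, rfl, rfl, rfl, rfl⟩,
    ⟨bi018_ok, rfl, rfl, rfl, rfl⟩,
    ⟨bi019_ok, rfl, rfl, rfl, rfl⟩,
    ⟨bi020_ok, rfl, rfl, rfl, rfl⟩]

/-- The boxes of the file `TabI03`. -/
def K03 : List BoxH := [bi021, bi022, bi023, bi024, bi025, bi026, bi027]

theorem goodK03 : ∀ B ∈ K03, Good B := by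
  intro B hB
  simp only [K03, List.mem_cons, List.not_mem_nil, or_false] at hB
  rcases hB with rfl | rfl | rfl | rfl | rfl | rfl | rfl
  exacts [⟨bi021_ok, rfl, rfl, rfl, rfl⟩,
    ⟨bi022_ok, rfl, rfl, rfl, rfl⟩,
    ⟨bi023_ok, rfl, rfl, rfl, rfl⟩,
    ⟨bi024_ok, rfl, rfl, rfl, rfl⟩,
    ⟨bi025_ok, rfl, rfl, rfl, rfl⟩,
    ⟨bi026_ok, rfl, rfl, rfl, rfl⟩,
    ⟨bi027_ok, rfl, rfl, rfl, rfl⟩]

/-- All boxes. -/
def boxes3 : List BoxH :=
  boxes ++ (K00 ++ (K01 ++ (K02 ++ (K03))))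

theorem good3 : ∀ B ∈ boxes3, Good B := by
  intro B hB
  simp only [boxes3, List.mem_append] at hB
  rcases hB with h | h | h | h | h
  exacts [good B h, goodK00 B h, goodK01 B h, goodK02 B h, goodK03 B h]

/-- The columns: right ends and the largest degree below `2 q`. -/
def cols3 : List (ℕ × ℕ) :=
  cols ++ [(2560000, 5), (2660000, 5), (2800000, 5), (2999900, 5)]

theorem cover_ok3 : colsOK 1000000 1 2999801 1000001 30
    ((boxes3.map toBx).map fun x => ⟨100 * x.A, 100 * x.B, 100 * x.U, 100 * x.V⟩) 1399900 cols3 =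
      true := by
  decide +kernel

/-- **The certified boxes cover the region up to `q = 2.9998`.** -/
theorem coverH29998 : H.CoverH (14999 / 5000) := by
  refine H.coverH_of' (dh := 1 / 1000) (η := ((100 : ℕ) : ℝ) / 1000000)
    (ε := ((1 : ℕ) : ℝ) / 1000000) (M := 1000000) (Mq := 10000) (Ms := 10000) (cq := 100)
    (cs := 100) (e := 1) (Qn := 2999801) (top := 1000001) (fuel := 30) (a := 1399900)
    (L := boxes3.map toBx) (cols := cols3) (by norm_num) (by norm_num) (by norm_num) (by norm_num)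
    (by norm_num) (by norm_num) (by norm_num) (by norm_num) (by norm_num) (by norm_num)
    cover_ok3 ?_
  intro x hx
  obtain ⟨B, hB, rfl⟩ := List.mem_map.1 hx
  obtain ⟨h, h1, h2, h3, h4⟩ := good3 B hB
  have h5 := boxCertH_of_chk h
  rw [h1, h2, h3, h4] at h5
  exact ⟨_, _, h5⟩

/-- A smaller range. -/
theorem coverH_mono {Q Q' : ℝ} (h : Q' ≤ Q) (hC : H.CoverH Q) : H.CoverH Q' := by
  obtain ⟨dh, η, ε, h1, h2, h3, h4⟩ := hC
  exact ⟨dh, η, ε, h1, h2, h3, fun q s g1 g2 g3 g4 => h4 q s g1 (g2.trans (by linarith)) g3 g4⟩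

/-- The range `q ≤ 2.99905` of helper18. -/
theorem coverH299905 : H.CoverH (59981 / 20000) := coverH_mono (by norm_num) coverH29998

end Pool.Agent.T6J.Mach.CH
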