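import Mathlib

/-!
# The one-variable lemma of the certificate (MP_c6effb_co, Theorem B): `S_VFIN` of `St.lean`
-/

set_option autoImplicit false

namespace Pool.Agent.T6J

/-- A quadratic with nonpositive discriminant is nonnegative. -/
theorem quad_nonneg {L c1 E : ℝ} (hL : 0 < L) (hL1 : L < 1) (h : c1 ^ 2 * L ≤ 4 * E * (1 - L))
    (A : ℝ) : 0 ≤ (1 - L) * A ^ 2 - L * c1 * A + L * E := by
  have h1 : 0 < 1 - L := by linarith
  have h2 : 0 ≤ L * (4 * E * (1 - L) - c1 ^ 2 * L) := mul_nonneg hL.le (by linarith)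
  have h3 : 0 ≤ (1 - L) * ((1 - L) * A ^ 2 - L * c1 * A + L * E) := by
    have e1 : (1 - L) * ((1 - L) * A ^ 2 - L * c1 * A + L * E) =
        ((1 - L) * A - L * c1 / 2) ^ 2 + L * (4 * E * (1 - L) - c1 ^ 2 * L) / 4 := by ring
    rw [e1]
    positivity
  exact nonneg_of_mul_nonneg_right h3 h1

theorem quad_nonneg' {L c1 E : ℝ} (hL : 0 < L) (hL1 : L < 1) (h : c1 ^ 2 * L ≤ 4 * E * (1 - L))
    (x : ℝ) : 0 ≤ L * (1 - L) - c1 * L * x + E * x ^ 2 := by
  have h1 : 0 < 1 - L := by linarith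
  have h2 : 0 ≤ L * (4 * E * (1 - L) - c1 ^ 2 * L) := mul_nonneg hL.le (by linarith)
  have h3 : 0 ≤ (4 * L * (1 - L)) * (L * (1 - L) - c1 * L * x + E * x ^ 2) := by
    have e1 : (4 * L * (1 - L)) * (L * (1 - L) - c1 * L * x + E * x ^ 2) =
        (2 * L * (1 - L) - c1 * L * x) ^ 2 + L * (4 * E * (1 - L) - c1 ^ 2 * L) * x ^ 2 := by ring
    rw [e1]
    positivity
  exact nonneg_of_mul_nonneg_right h3 (by positivity)

/-- **The one-variable lemma.** -/
theorem vfin : ∀ L c1 E lc A0 A : ℝ, 0 ≤ c1 → 0 < lc → L < 1 → 0 ≤ E → 0 ≤ A0 → A0 ≤ A →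
    c1 ^ 2 * L ≤ 4 * E * (1 - L) →
    L ≤ 2 * lc * A0 - lc ^ 2 * (A0 ^ 2 + c1 * A0 - E) →
    ∃ lam : ℝ, 0 ≤ lam ∧ lam ≤ lc ∧ L ≤ 2 * lam * A - lam ^ 2 * (A ^ 2 + c1 * A - E) := by
  intro L c1 E lc A0 A hc hlc hL1 hE hA0 hA h1 h2
  rcases le_or_gt L 0 with hL | hL
  · exact ⟨0, le_rfl, hlc.le, by linarith⟩
  have hA' : 0 ≤ A := hA0.trans hA
  set DD := A ^ 2 + c1 * A - E with hDD
  by_cases hD : 0 < DD ∧ A ≤ lc * DD
  · obtain ⟨hD0, hD1⟩ := hD
    refine ⟨A / DD, div_nonneg hA' hD0.le, (div_le_iff₀ hD0).2 hD1, ?_⟩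
    have h3 := quad_nonneg hL hL1 h1 A
    have h4 : L * DD ≤ A ^ 2 := by
      rw [hDD]
      nlinarith
    have e1 : 2 * (A / DD) * A - (A / DD) ^ 2 * DD = A ^ 2 / DD := by
      field_simp
      ring
    rw [e1, le_div_iff₀ hD0]
    exact h4
  · have h3 : lc * DD ≤ A := by
      by_contra hh
      rw [not_le] at hh
      apply hD
      refine ⟨?_, hh.le⟩
      by_contra h0
      rw [not_lt] at h0
      have := mul_nonpos_of_nonneg_of_nonpos hlc.le h0
      linarith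
    refine ⟨lc, hlc.le, le_rfl, ?_⟩
    have h4 : lc ^ 2 * DD ≤ lc * A := by
      have := mul_le_mul_of_nonneg_left h3 hlc.le
      nlinarith
    rcases le_or_gt L (lc * A) with h5 | h5
    · linarith
    · -- concavity on `[A0, L / lc]`
      set x1 := L / lc with hx1
      have e1 : lc * x1 = L := by
        rw [hx1]
        field_simp
      have h6 : A < x1 := by
        rw [hx1, lt_div_iff₀ hlc]
        linarith
      have h7 := quad_nonneg' hL hL1 h1 lc
      have h8 : L ≤ 2 * lc * x1 - lc ^ 2 * (x1 ^ 2 + c1 * x1 - E) := by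
        have e2 : 2 * lc * x1 - lc ^ 2 * (x1 ^ 2 + c1 * x1 - E) =
            2 * (lc * x1) - ((lc * x1) ^ 2 + c1 * lc * (lc * x1) - lc ^ 2 * E) := by ring
        rw [e2, e1]
        nlinarith
      have h9 : 0 < x1 - A0 := by linarith
      have h10 : (x1 - A0) * L ≤ (x1 - A0) * (2 * lc * A - lc ^ 2 * DD) := by
        have e3 : (x1 - A0) * (2 * lc * A - lc ^ 2 * DD) =
            (x1 - A) * (2 * lc * A0 - lc ^ 2 * (A0 ^ 2 + c1 * A0 - E)) +
              (A - A0) * (2 * lc * x1 - lc ^ 2 * (x1 ^ 2 + c1 * x1 - E)) +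
              lc ^ 2 * ((x1 - A) * (A - A0) * (x1 - A0)) := by
          rw [hDD]
          ring
        rw [e3]
        have h11 : (x1 - A) * L ≤ (x1 - A) * (2 * lc * A0 - lc ^ 2 * (A0 ^ 2 + c1 * A0 - E)) :=
          mul_le_mul_of_nonneg_left h2 (by linarith)
        have h12 : (A - A0) * L ≤ (A - A0) * (2 * lc * x1 - lc ^ 2 * (x1 ^ 2 + c1 * x1 - E)) :=
          mul_le_mul_of_nonneg_left h8 (by linarith)
        have h13 : 0 ≤ lc ^ 2 * ((x1 - A) * (A - A0) * (x1 - A0)) := by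
          have a1 : 0 ≤ x1 - A := by linarith
          have a2 : 0 ≤ A - A0 := by linarith
          positivity
        nlinarith
      exact le_of_mul_le_mul_left h10 h9

end Pool.Agent.T6J
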