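import Pool.Agent.T6A.WorldMu2
import Pool.Agent.T6A.KZero

/-!
# One vertex of the certificate, in terms of clusters (MP_c6effb_co, Theorem B)

`h b`, `p b`, `r b` = the values of the profile and of the two dual functions at the cluster `b` (any
representation: step functions, piecewise linear functions). `vtx_core` turns pointwise rows, summed
over the clusters, and the one-variable lemma into a lower bound for the value `valC` of a vertex.
-/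

set_option autoImplicit false

open Finset

namespace Pool.Agent.T6J

open Pool.Agent.T6A

noncomputable section

open Classical

variable {ι : Type} [Fintype ι]

/-- The pointwise expression at `n`. -/
def exC (s c1 be : ℝ) (d : ℕ) (um n h p r : ℝ) : ℝ :=
  c1 * h + 2 * be * KZero.ss d um * h * KZero.ut um n
    - s * (h ^ 2 * (((1 - n)⁻¹) ^ d - 1 + KZero.ss d um * KZero.ut um n ^ 2) + d * (1 - n) * p)
    - (1 - s) * (d * r)

/-- The value of a vertex (`valJ` of `St.lean` in terms of clusters). -/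
def valC (X : World ι) (h p r : ι → ℝ) (d : ℕ) (um sg tau lam : ℝ) : ℝ :=
  2 * (∑ b, X.wT (24 / 25) b * (lam * h b))
    - (∑ b, X.wT (24 / 25) b * (lam * h b)) ^ 2
    + KZero.ss d um * (∑ b, X.wT (24 / 25) b * (lam * h b) * KZero.ut um (nb X.F X.mu b)) ^ 2
    - sg * (∑ b, X.wT (24 / 25) b * (lam * h b) ^ 2
        * (((1 - nb X.F X.mu b)⁻¹) ^ d - 1 + KZero.ss d um * KZero.ut um (nb X.F X.mu b) ^ 2))
    - d * lam ^ 2 * (∑ b, X.wT (24 / 25) b * (sg * (1 - nb X.F X.mu b) * p b + tau * r b))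

/-- The weight of the list. -/
theorem wB_ge (X : World ι) {B : Finset ι} {e : ℝ}
    (hBw : ∑ i ∈ univ.filter (fun i => i ∉ X.A ∧ i ∉ B), X.w i ≤ e) :
    X.tot - X.s - e ≤ ∑ b ∈ B, X.w b := by
  have h1 : X.tot ≤ X.sA + ∑ b ∈ B, X.w b
      + ∑ i ∈ univ.filter (fun i => i ∉ X.A ∧ i ∉ B), X.w i := by
    unfold World.tot World.sA
    rw [sum_filter, ← sum_ite_mem_eq X.A, ← sum_ite_mem_eq B,
      ← sum_add_distrib, ← sum_add_distrib]
    refine sum_le_sum fun b _ => ?_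
    have := (X.pos b).le
    by_cases ha : b ∈ X.A <;> by_cases hb : b ∈ B <;> simp [ha, hb, this]
  have h2 := X.sA_le
  linarith

/-- **The sum of the rows**. -/
theorem row_sum (X : World ι) (hA : 0 < X.sA) {B : Finset ι} (hB : Disjoint B X.A) {e : ℝ}
    (hBw : ∑ i ∈ univ.filter (fun i => i ∉ X.A ∧ i ∉ B), X.w i ≤ e) {x : ι → ℝ} {a β M : ℝ}
    (ha : 0 ≤ a) (hβ : 0 ≤ β) (hM : 0 ≤ M)
    (hrow : ∀ b ∈ B, nb X.F X.mu b ≤ 24 / 25 → a - β * nb X.F X.mu b ≤ x b)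
    (hbey : ∀ b ∈ B, 24 / 25 < nb X.F X.mu b → a - β * nb X.F X.mu b ≤ 0)
    (hout : ∀ b, b ∉ X.A → b ∉ B → -M ≤ x b) :
    a * (X.tot - X.s - e) - β * X.s - M * e ≤ ∑ b, X.wT (24 / 25) b * x b := by
  have h1 : ∀ b, (if b ∈ B then X.w b * (a - β * nb X.F X.mu b) else 0)
      + (if b ∉ X.A ∧ b ∉ B then -(M * X.w b) else 0) ≤ X.wT (24 / 25) b * x b := by
    intro b
    have hw := (X.pos b).le
    by_cases hb : b ∈ B
    · have hbA : b ∉ X.A := fun hh => disjoint_left.1 hB hb hh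
      rw [if_pos hb, if_neg (fun hh => hh.2 hb), add_zero]
      rcases le_or_gt (nb X.F X.mu b) (24 / 25) with h2 | h2
      · rw [X.wT_of hbA h2]
        exact mul_le_mul_of_nonneg_left (hrow b hb h2) hw
      · have h3 : X.wT (24 / 25) b = 0 := by
          unfold World.wT
          rw [if_neg fun hh => absurd hh.2 (not_le.2 h2)]
        rw [h3, zero_mul]
        exact mul_nonpos_of_nonneg_of_nonpos hw (hbey b hb h2)
    · rw [if_neg hb, zero_add]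
      by_cases hbA : b ∈ X.A
      · have h3 : X.wT (24 / 25) b = 0 := by
          unfold World.wT
          rw [if_neg fun hh => hh.1 hbA]
        rw [if_neg fun hh => hh.1 hbA, h3, zero_mul]
      · rw [if_pos ⟨hbA, hb⟩]
        have h4 := hout b hbA hb
        have h5 := X.wT_nonneg (24 / 25) b
        have h6 := X.wT_le (24 / 25) b
        have h7 : X.wT (24 / 25) b * (-M) ≤ X.wT (24 / 25) b * x b :=
          mul_le_mul_of_nonneg_left h4 h5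
        have h8 : X.wT (24 / 25) b * M ≤ X.w b * M := mul_le_mul_of_nonneg_right h6 hM
        linarith
  have h2 := sum_le_sum fun b (_ : b ∈ univ) => h1 b
  refine le_trans ?_ h2
  rw [sum_add_distrib, sum_ite_mem_eq B, ← sum_filter, sum_neg_distrib, ← mul_sum]
  have h3 : ∑ b ∈ B, X.w b * (a - β * nb X.F X.mu b)
      = a * ∑ b ∈ B, X.w b - β * ∑ b ∈ B, X.w b * nb X.F X.mu b := by
    rw [mul_sum, mul_sum, ← sum_sub_distrib]
    exact sum_congr rfl fun b _ => by ring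
  have h4 := mul_le_mul_of_nonneg_left (wB_ge X hBw) ha
  have h5 := mul_le_mul_of_nonneg_left (X.sum_n_le hA B) hβ
  have h6 := mul_le_mul_of_nonneg_left hBw hM
  rw [h3]
  linarith

/-- Upper bound of a sum with the cut weights. -/
theorem wT_sum_le (X : World ι) {x : ι → ℝ} {M T : ℝ} (hM : 0 ≤ M) (hT : X.tot ≤ T)
    (hx : ∀ b, 0 < X.wT (24 / 25) b → x b ≤ M) : ∑ b, X.wT (24 / 25) b * x b ≤ M * T := by
  have h1 : ∑ b, X.wT (24 / 25) b * x b ≤ ∑ b, M * X.w b := by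
    refine sum_le_sum fun b _ => ?_
    rcases (X.wT_nonneg (24 / 25) b).eq_or_lt with h | h
    · rw [← h, zero_mul]
      exact mul_nonneg hM (X.pos b).le
    · calc X.wT (24 / 25) b * x b ≤ X.wT (24 / 25) b * M :=
            mul_le_mul_of_nonneg_left (hx b h) h.le
        _ ≤ X.w b * M := mul_le_mul_of_nonneg_right (X.wT_le _ b) hM
        _ = M * X.w b := mul_comm _ _
  refine h1.trans ?_
  rw [← mul_sum]
  exact mul_le_mul_of_nonneg_left hT hM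

/-- `∑ w h` -/
def sA (X : World ι) (h : ι → ℝ) : ℝ := ∑ b, X.wT (24 / 25) b * h b

/-- `∑ w h ut` -/
def sU (X : World ι) (um : ℝ) (h : ι → ℝ) : ℝ :=
  ∑ b, X.wT (24 / 25) b * (h b * KZero.ut um (nb X.F X.mu b))

/-- `∑ w h² (y^(-d) - 1 + ss ut²)` -/
def sR (X : World ι) (d : ℕ) (um : ℝ) (h : ι → ℝ) : ℝ :=
  ∑ b, X.wT (24 / 25) b * (h b ^ 2 * (((1 - nb X.F X.mu b)⁻¹) ^ d - 1
    + KZero.ss d um * KZero.ut um (nb X.F X.mu b) ^ 2))

/-- `∑ w y p` -/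
def sP (X : World ι) (p : ι → ℝ) : ℝ := ∑ b, X.wT (24 / 25) b * ((1 - nb X.F X.mu b) * p b)

theorem valC_eq (X : World ι) (h p r : ι → ℝ) (d : ℕ) (um sg tau lam : ℝ) :
    valC X h p r d um sg tau lam = 2 * lam * sA X h - lam ^ 2 * (sA X h ^ 2
      - KZero.ss d um * sU X um h ^ 2 + sg * sR X d um h + d * (sg * sP X p + tau * sA X r)) := by
  unfold valC
  have e1 : ∑ b, X.wT (24 / 25) b * (lam * h b) = lam * sA X h := by
    unfold sA
    rw [mul_sum]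
    exact sum_congr rfl fun b _ => by ring
  have e2 : ∑ b, X.wT (24 / 25) b * (lam * h b) * KZero.ut um (nb X.F X.mu b)
      = lam * sU X um h := by
    unfold sU
    rw [mul_sum]
    exact sum_congr rfl fun b _ => by ring
  have e3 : ∑ b, X.wT (24 / 25) b * (lam * h b) ^ 2
      * (((1 - nb X.F X.mu b)⁻¹) ^ d - 1 + KZero.ss d um * KZero.ut um (nb X.F X.mu b) ^ 2)
      = lam ^ 2 * sR X d um h := by
    unfold sR
    rw [mul_sum]
    exact sum_congr rfl fun b _ => by ring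
  have e4 : ∑ b, X.wT (24 / 25) b * (sg * (1 - nb X.F X.mu b) * p b + tau * r b)
      = sg * sP X p + tau * sA X r := by
    unfold sP sA
    rw [mul_sum, mul_sum, ← sum_add_distrib]
    exact sum_congr rfl fun b _ => by ring
  rw [e1, e2, e3, e4]
  ring

theorem sum_exC (X : World ι) (h p r : ι → ℝ) (s c1 be um : ℝ) (d : ℕ) :
    ∑ b, X.wT (24 / 25) b * exC s c1 be d um (nb X.F X.mu b) (h b) (p b) (r b)
      = c1 * sA X h + 2 * be * KZero.ss d um * sU X um h - s * (sR X d um h + d * sP X p)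
        - (1 - s) * (d * sA X r) := by
  unfold sA sU sR sP
  simp only [mul_sum, ← sum_add_distrib, ← sum_sub_distrib]
  refine sum_congr rfl fun b _ => ?_
  unfold exC
  ring

theorem exC_ge_out {s c1 be um n p r : ℝ} {d : ℕ} (hd : d ≤ 20) (hn0 : 0 ≤ n) (hn1 : n ≤ 1)
    (hp : 0 ≤ p ∧ p ≤ 10) (hr : 0 ≤ r ∧ r ≤ 10) (hs0 : 0 ≤ s) (hs2 : s ≤ 2) :
    -1000 ≤ exC s c1 be d um n 0 p r := by
  have hd20 : (d : ℝ) ≤ 20 := by exact_mod_cast hd
  have hd0 : (0 : ℝ) ≤ d := Nat.cast_nonneg d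
  obtain ⟨p1, p2⟩ := hp
  obtain ⟨r1, r2⟩ := hr
  have k1 : (1 - n) * p ≤ 10 := by nlinarith
  have k1' : 0 ≤ (1 - n) * p := mul_nonneg (by linarith) p1
  have k2 : (d : ℝ) * ((1 - n) * p) ≤ 20 * 10 := mul_le_mul hd20 k1 k1' (by norm_num)
  have k2' : 0 ≤ (d : ℝ) * ((1 - n) * p) := mul_nonneg hd0 k1'
  have k3 : s * ((d : ℝ) * ((1 - n) * p)) ≤ 2 * (20 * 10) := mul_le_mul hs2 k2 k2' (by norm_num)
  have k4 : (d : ℝ) * r ≤ 20 * 10 := mul_le_mul hd20 r2 r1 (by norm_num)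
  have k4' : 0 ≤ (d : ℝ) * r := mul_nonneg hd0 r1
  have k5 : (1 - s) * ((d : ℝ) * r) ≤ 200 := by
    have := mul_nonneg hs0 k4'
    linarith
  have e1 : exC s c1 be d um n 0 p r = -(s * ((d : ℝ) * ((1 - n) * p))) - (1 - s) * ((d : ℝ) * r) := by
    unfold exC
    ring
  rw [e1]
  linarith

theorem sR_le (X : World ι) (hT : X.tot ≤ 4) {h : ι → ℝ} (hh : ∀ b, 0 ≤ h b ∧ h b ≤ 10) {d : ℕ}
    (hd : d ≤ 20) {um : ℝ} (hu : 0 < um) (hu1 : um ≤ 1) :
    sR X d um h ≤ 100 * (25 ^ 20 + 20) * 4 := by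
  have hss20 : KZero.ss d um ≤ 20 := (KZero.ss_le d hu hu1).trans (by exact_mod_cast hd)
  refine wT_sum_le X (by norm_num) hT fun b hb => ?_
  obtain ⟨-, hn⟩ := X.of_wT_pos hb
  have hn0 := nb_nonneg (F := X.F) X.mu_nonneg b
  obtain ⟨n, hnn⟩ : ∃ n, n = nb X.F X.mu b := ⟨_, rfl⟩
  rw [← hnn] at hn hn0 ⊢
  obtain ⟨h1, h2⟩ := hh b
  have k1 : h b ^ 2 ≤ 100 := by nlinarith
  have k2 : ((1 - n)⁻¹) ^ d ≤ 25 ^ 20 := by
    have k3 : (1 - n)⁻¹ ≤ 25 := by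
      rw [inv_le_comm₀ (by linarith) (by norm_num)]
      linarith
    calc ((1 - n)⁻¹) ^ d ≤ 25 ^ d := pow_le_pow_left₀ (inv_nonneg.2 (by linarith)) k3 d
      _ ≤ 25 ^ 20 := pow_le_pow_right₀ (by norm_num) hd
  have k4 : KZero.ut um n ^ 2 ≤ 1 := by
    have k5 := KZero.ut_nonneg (um := um) hu (by linarith : n < 1) hn0
    have k6 := (KZero.ut_le um n).trans hu1
    nlinarith
  have k7 : KZero.ss d um * KZero.ut um n ^ 2 ≤ 20 * 1 :=
    mul_le_mul hss20 k4 (sq_nonneg _) (by norm_num)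
  have k8 : 0 ≤ h b ^ 2 := sq_nonneg _
  have k9 : ((1 - n)⁻¹) ^ d - 1 + KZero.ss d um * KZero.ut um n ^ 2 ≤ 25 ^ 20 + 20 := by linarith
  exact (mul_le_mul_of_nonneg_left k9 k8).trans (mul_le_mul_of_nonneg_right k1 (by norm_num))

theorem sP_le (X : World ι) (hT : X.tot ≤ 4) {p : ι → ℝ} (hp : ∀ b, 0 ≤ p b ∧ p b ≤ 10) :
    sP X p ≤ 10 * 4 := by
  refine wT_sum_le X (by norm_num) hT fun b _ => ?_
  have hn0 := nb_nonneg (F := X.F) X.mu_nonneg b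
  obtain ⟨p1, p2⟩ := hp b
  nlinarith

/-- The statement of the one-variable lemma (`S_VFIN`). -/
def VFin : Prop := ∀ L c1 E lc A0 A : ℝ, 0 ≤ c1 → 0 < lc → L < 1 → 0 ≤ E → 0 ≤ A0 → A0 ≤ A →
  c1 ^ 2 * L ≤ 4 * E * (1 - L) →
  L ≤ 2 * lc * A0 - lc ^ 2 * (A0 ^ 2 + c1 * A0 - E) →
  ∃ lam : ℝ, 0 ≤ lam ∧ lam ≤ lc ∧ L ≤ 2 * lam * A - lam ^ 2 * (A ^ 2 + c1 * A - E)

/-- The constant of the small terms. -/
def CV : ℝ := 25 * (100 * (25 ^ 20 + 20) * 4) + 25 * 800 + 800 + 1000 + 1000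

/-- The arithmetic of the small terms. -/
theorem small_terms {A U R P Q s ss c1 be a β W E e e₀ ε : ℝ} {d : ℝ} (he : 0 ≤ e) (he0 : e ≤ e₀)
    (hε : CV * e₀ ≤ ε) (hss : 0 ≤ ss) (ha : 0 ≤ a ∧ a ≤ 1000)
    (hR : R ≤ 100 * (25 ^ 20 + 20) * 4) (hP : d * P ≤ 800) (hQ : d * Q ≤ 800)
    (hrow : a * (W - e) - β * s - 1000 * e ≤
      c1 * A + 2 * be * ss * U - s * (R + d * P) - (1 - s) * (d * Q))
    (hE : E + ss * be ^ 2 + ε ≤ a * W - β * s) :
    A ^ 2 - ss * U ^ 2 + (s + 25 * e) * R + d * ((s + 25 * e) * P + (1 - s + e₀) * Q)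
      ≤ A ^ 2 + c1 * A - E := by
  have he0' : 0 ≤ e₀ := he.trans he0
  have hU : ss * (2 * be * U - be ^ 2) ≤ ss * U ^ 2 :=
    mul_le_mul_of_nonneg_left (by nlinarith [sq_nonneg (U - be)]) hss
  have j1 : e * R ≤ e₀ * (100 * (25 ^ 20 + 20) * 4) :=
    (mul_le_mul_of_nonneg_left hR he).trans (mul_le_mul_of_nonneg_right he0 (by norm_num))
  have j2 : e * (d * P) ≤ e₀ * 800 :=
    (mul_le_mul_of_nonneg_left hP he).trans (mul_le_mul_of_nonneg_right he0 (by norm_num))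
  have j3 : e₀ * (d * Q) ≤ e₀ * 800 := mul_le_mul_of_nonneg_left hQ he0'
  have j4 : a * e ≤ 1000 * e₀ := mul_le_mul ha.2 he0 he (by norm_num)
  have e1 : ss * (2 * be * U - be ^ 2) = 2 * be * ss * U - ss * be ^ 2 := by ring
  have e2 : (s + 25 * e) * R + d * ((s + 25 * e) * P + (1 - s + e₀) * Q)
      = (s * (R + d * P) + (1 - s) * (d * Q)) + 25 * (e * R) + 25 * (e * (d * P))
        + e₀ * (d * Q) := by ring
  have e3 : a * (W - e) = a * W - a * e := by ring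
  have e4 : CV * e₀ = 25 * (e₀ * (100 * (25 ^ 20 + 20) * 4)) + 25 * (e₀ * 800) + e₀ * 800
      + 1000 * e₀ + 1000 * e₀ := by
    unfold CV
    ring
  rw [e1] at hU
  rw [e3] at hrow
  rw [e4] at hε
  have e5 : A ^ 2 - ss * U ^ 2 + (s + 25 * e) * R + d * ((s + 25 * e) * P + (1 - s + e₀) * Q)
      = A ^ 2 - ss * U ^ 2 + ((s + 25 * e) * R + d * ((s + 25 * e) * P + (1 - s + e₀) * Q)) := by
    ring
  rw [e5, e2]
  linarith

/-- **One vertex.** -/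
theorem vtx_core (hV : VFin) (X : World ι) (hA : 0 < X.sA) (hT : X.tot ≤ 4) {B : Finset ι}
    (hB : Disjoint B X.A) {e e₀ ε : ℝ} (he : 0 ≤ e) (he0 : e ≤ e₀) (hε : CV * e₀ ≤ ε)
    (hBw : ∑ i ∈ univ.filter (fun i => i ∉ X.A ∧ i ∉ B), X.w i ≤ e) {h p r : ι → ℝ}
    (hh : ∀ b, 0 ≤ h b ∧ h b ≤ 10) (hp : ∀ b, 0 ≤ p b ∧ p b ≤ 10) (hr : ∀ b, 0 ≤ r b ∧ r b ≤ 10)
    (hhB : ∀ b, b ∉ B → h b = 0) {d : ℕ} (hd : d ≤ 20) {c1 be um : ℝ} (hc : 0 ≤ c1)
    (hu : 0 < um) (hu1 : um ≤ 1) {a β aA βA : ℝ} (ha : 0 ≤ a ∧ a ≤ 1000)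
    (hβ : 0 ≤ β) (haA : 0 ≤ aA ∧ aA ≤ 1000) (hβA : 0 ≤ βA) (hs2 : X.s ≤ 2)
    (hrow : ∀ b ∈ B, nb X.F X.mu b ≤ 24 / 25 →
      a - β * nb X.F X.mu b ≤ exC X.s c1 be d um (nb X.F X.mu b) (h b) (p b) (r b))
    (hbey : ∀ b ∈ B, 24 / 25 < nb X.F X.mu b → a - β * nb X.F X.mu b ≤ 0)
    (hmass : ∀ b ∈ B, nb X.F X.mu b ≤ 24 / 25 → aA - βA * nb X.F X.mu b ≤ h b)
    (hmbey : ∀ b ∈ B, 24 / 25 < nb X.F X.mu b → aA - βA * nb X.F X.mu b ≤ 0)
    {L E lc A0 : ℝ} (hlc : 0 < lc) (hL : L < 1) (hE0 : 0 ≤ E) (hA0 : 0 ≤ A0)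
    (hE : E + KZero.ss d um * be ^ 2 + ε ≤ a * (X.tot - X.s) - β * X.s)
    (hA00 : A0 + ε ≤ aA * (X.tot - X.s) - βA * X.s)
    (hF1 : c1 ^ 2 * L ≤ 4 * E * (1 - L))
    (hF2 : L ≤ 2 * lc * A0 - lc ^ 2 * (A0 ^ 2 + c1 * A0 - E)) :
    ∃ lam : ℝ, 0 ≤ lam ∧ lam ≤ lc ∧ L ≤ valC X h p r d um (X.s + 25 * e) (1 - X.s + e₀) lam := by
  have he0' : 0 ≤ e₀ := he.trans he0
  have hs0 : 0 ≤ X.s := hA.le.trans X.sA_le
  have hd20 : (d : ℝ) ≤ 20 := by exact_mod_cast hd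
  have hd0 : (0 : ℝ) ≤ d := Nat.cast_nonneg d
  have hrowsum := row_sum X hA hB hBw (x := fun b =>
    exC X.s c1 be d um (nb X.F X.mu b) (h b) (p b) (r b)) (a := a) (β := β) (M := 1000)
    ha.1 hβ (by norm_num) hrow hbey (fun b _ hbB => by
      show -1000 ≤ exC X.s c1 be d um (nb X.F X.mu b) (h b) (p b) (r b)
      rw [hhB b hbB]
      exact exC_ge_out hd (nb_nonneg X.mu_nonneg b) (nb_le_one X.mu_nonneg (X.mu_sum hA) b)
        (hp b) (hr b) hs0 hs2)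
  rw [sum_exC] at hrowsum
  have hmasssum := row_sum X hA hB hBw (x := h) (a := aA) (β := βA) (M := 0)
    haA.1 hβA le_rfl hmass hmbey (fun b _ hbB => by rw [hhB b hbB, neg_zero])
  have hP0 : (d : ℝ) * sP X p ≤ 800 := by
    have h1 := sP_le X hT hp
    nlinarith
  have hQ1 : sA X r ≤ 10 * 4 := wT_sum_le X (by norm_num) hT fun b _ => (hr b).2
  have hQ0 : (d : ℝ) * sA X r ≤ 800 := by nlinarith
  have hcmp := small_terms he he0 hε (KZero.ss_nonneg d hu hu1) ha (sR_le X hT hh hd hu hu1)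
    hP0 hQ0 hrowsum hE
  have hAge : A0 ≤ sA X h := by
    have j4 : aA * e ≤ 1000 * e₀ := mul_le_mul haA.2 he0 he (by norm_num)
    have j5 : 1000 * e₀ ≤ CV * e₀ := mul_le_mul_of_nonneg_right (by unfold CV; norm_num) he0'
    have j6 : aA * (X.tot - X.s - e) - βA * X.s - 0 * e ≤ sA X h := hmasssum
    have e1 : aA * (X.tot - X.s - e) = aA * (X.tot - X.s) - aA * e := by ring
    rw [e1] at j6
    linarith
  obtain ⟨lam, l0, l1, l2⟩ := hV L c1 E lc A0 (sA X h) hc hlc hL hE0 hA0 hAge hF1 hF2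
  refine ⟨lam, l0, l1, ?_⟩
  rw [valC_eq]
  have := mul_le_mul_of_nonneg_left hcmp (sq_nonneg lam)
  linarith

end

end Pool.Agent.T6J
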