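import Pool.Agent.T6J.StP
import Pool.Agent.T6J.VtxCore
import Pool.Agent.T6J.VFin

/-!
# One vertex of the certificate: `S_VTX` of `StP.lean` (MP_c6effb_co, Theorem B)
-/

set_option autoImplicit false

open Finset

namespace Pool.Agent.T6J

open Pool.Agent.T6A

noncomputable section

open Classical

/-- `rowX` is `exC`. -/
theorem rowX_eq (f p r : ℝ) (d : ℕ) (s c1 be um x : ℝ) :
    rowX f p r d s c1 be um x = exC s c1 be d um x f p r := rfl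

/-- The row inequality, interpolated in `s`. -/
theorem row_itp {f p r : ℝ} {d : ℕ} {s0 s1 s c1 be um x a0 b0 a1 b1 : ℝ} (h01 : s0 < s1)
    (h0 : s0 ≤ s) (h1 : s ≤ s1) (r0 : a0 - b0 * x ≤ rowX f p r d s0 c1 be um x)
    (r1 : a1 - b1 * x ≤ rowX f p r d s1 c1 be um x) :
    itp s0 s1 a0 a1 s - itp s0 s1 b0 b1 s * x ≤ exC s c1 be d um x f p r := by
  have h2 : 0 < s1 - s0 := by linarith
  obtain ⟨t, ht⟩ : ∃ t, t = (s - s0) / (s1 - s0) := ⟨_, rfl⟩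
  have t0 : 0 ≤ t := by rw [ht]; exact div_nonneg (by linarith) h2.le
  have t1 : t ≤ 1 := by rw [ht, div_le_one h2]; linarith
  have hs : s = s0 + (s1 - s0) * t := by
    rw [ht]
    field_simp
    ring
  unfold itp
  rw [← ht]
  have e1 : exC s c1 be d um x f p r =
      (1 - t) * rowX f p r d s0 c1 be um x + t * rowX f p r d s1 c1 be um x := by
    rw [rowX_eq, rowX_eq, hs]
    unfold exC
    ring
  rw [e1]
  have k0 := mul_le_mul_of_nonneg_left r0 (by linarith : 0 ≤ 1 - t)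
  have k1 := mul_le_mul_of_nonneg_left r1 t0
  linarith

theorem itp_mem {s0 s1 s x0 x1 M : ℝ} (h01 : s0 < s1) (h0 : s0 ≤ s) (h1 : s ≤ s1)
    (hx0 : 0 ≤ x0 ∧ x0 ≤ M) (hx1 : 0 ≤ x1 ∧ x1 ≤ M) :
    0 ≤ itp s0 s1 x0 x1 s ∧ itp s0 s1 x0 x1 s ≤ M := by
  have h2 : 0 < s1 - s0 := by linarith
  obtain ⟨t, ht⟩ : ∃ t, t = (s - s0) / (s1 - s0) := ⟨_, rfl⟩
  have t0 : 0 ≤ t := by rw [ht]; exact div_nonneg (by linarith) h2.le
  have t1 : t ≤ 1 := by rw [ht, div_le_one h2]; linarith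
  unfold itp
  rw [← ht]
  have k1 := mul_nonneg t0 hx1.1
  have k2 := mul_nonneg (by linarith : 0 ≤ 1 - t) hx0.1
  have k3 := mul_le_mul_of_nonneg_left hx1.2 t0
  have k4 := mul_le_mul_of_nonneg_left hx0.2 (by linarith : 0 ≤ 1 - t)
  constructor <;> linarith

/-- Beyond the support of the profile the line is not positive. -/
theorem exC_nonpos {s c1 be um x p r : ℝ} {d : ℕ} (hs : 0 ≤ s) (hx : x ≤ 1) (hp : 0 ≤ p)
    (hr : s ≤ 1 ∧ 0 ≤ r ∨ r = 0) : exC s c1 be d um x 0 p r ≤ 0 := by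
  have hd0 : (0 : ℝ) ≤ d := Nat.cast_nonneg d
  have k1 : 0 ≤ s * (d * ((1 - x) * p)) :=
    mul_nonneg hs (mul_nonneg hd0 (mul_nonneg (by linarith) hp))
  have k2 : 0 ≤ (1 - s) * (d * r) := by
    rcases hr with ⟨h1, h2⟩ | h
    · exact mul_nonneg (by linarith) (mul_nonneg hd0 h2)
    · rw [h, mul_zero, mul_zero]
  have e1 : exC s c1 be d um x 0 p r = -(s * (d * ((1 - x) * p))) - (1 - s) * (d * r) := by
    unfold exC
    ring
  rw [e1]
  linarith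

namespace P

theorem fc_nonneg {f : ℝ → ℝ} (hf : ∀ x, 0 ≤ f x) (cut x : ℝ) : 0 ≤ fc f cut x := by
  unfold fc
  split_ifs
  · exact hf x
  · exact le_rfl

theorem fc_le {f : ℝ → ℝ} {M : ℝ} (hf : ∀ x, f x ≤ M) (hM : 0 ≤ M) (cut x : ℝ) :
    fc f cut x ≤ M := by
  unfold fc
  split_ifs
  · exact hf x
  · exact hM

theorem fc_zero {f : ℝ → ℝ} {x : ℝ} (h : f x = 0) (cut : ℝ) : fc f cut x = 0 := by
  unfold fc
  split_ifs
  · exact h
  · rfl

theorem valJ_eq {ι : Type} [Fintype ι] (X : World ι) (B : Finset ι) (f p r : ℝ → ℝ) (cut : ℝ)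
    (d : ℕ) (um sg tau lam : ℝ) : valJ X B f p r cut d um sg tau lam =
      valC X (hJ X B f cut) (fun b => p (nb X.F X.mu b)) (fun b => r (nb X.F X.mu b)) d um sg tau
        lam := rfl

/-- **Module VTX.** -/
theorem vtx_of (hV : S_VFIN) : S_VTX := by
  intro ε η hε hη
  have hCV : 0 < CV := by unfold CV; norm_num
  refine ⟨min (ε / CV) (1 / 8), lt_min (div_pos hε hCV) (by norm_num), ?_⟩
  intro V ι _ _ X L Bd k e ε' C K he hee HW hT q0 q1 s0 s1 sl D lc f0 cut k' d f p r c1 be um a0 b0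
    a1 b1 aA bA hq0 hq1 hs0 hs1 hd HB HVt HF v hvE hvj
  set e₀ := min (ε / CV) (1 / 8) with he₀
  have hee8 : e ≤ 1 / 8 := hee.trans (min_le_right _ _)
  have hA : 0 < X.sA := HW.sA_pos hee8
  have hεe : CV * e₀ ≤ ε := by
    have := min_le_left (ε / CV) (1 / 8)
    calc CV * e₀ ≤ CV * (ε / CV) := mul_le_mul_of_nonneg_left this hCV.le
      _ = ε := by field_simp
  have hBw := HW.Bvw v hvE
  rw [if_pos hvj, zero_add] at hBw
  obtain ⟨h12, h01, hs12⟩ := HB.s01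
  have hf0 : ∀ x, 0 ≤ f x := fun x => (HB.f0 x).1
  have hf1 : ∀ x, f x ≤ 10 := fun x => (HB.f0 x).2.trans HB.f0'
  have hsn : 0 ≤ X.s := by linarith
  have hrow : ∀ x, 0 ≤ x → x ≤ 1 → itp s0 s1 a0 a1 X.s - itp s0 s1 b0 b1 X.s * x ≤
      exC X.s c1 be d um x (fc f cut x) (p x) (r x) := fun x x0 x1 =>
    row_itp h01 hs0 hs1 (HVt.row0 x x0 x1) (HVt.row1 x x0 x1)
  have ha := itp_mem h01 hs0 hs1 HVt.a0'.1 HVt.a0'.2.1
  have hb := itp_mem h01 hs0 hs1 HVt.b0'.1 HVt.b0'.2.1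
  have hn0 : ∀ b, 0 ≤ nb X.F X.mu b := fun b => nb_nonneg X.mu_nonneg b
  have hn1 : ∀ b, nb X.F X.mu b ≤ 1 := fun b => nb_le_one X.mu_nonneg (X.mu_sum hA) b
  have hhJ : ∀ b ∈ L.Bv v, hJ X (L.Bv v) f cut b = fc f cut (nb X.F X.mu b) := by
    intro b hb'
    unfold hJ
    rw [if_pos hb']
  obtain ⟨lam, l0, l1, l2⟩ := vtx_core hV X hA hT (HW.BvA v) he.le hee hεe hBw
    (h := hJ X (L.Bv v) f cut) (p := fun b => p (nb X.F X.mu b)) (r := fun b => r (nb X.F X.mu b))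
    (fun b => by
      unfold hJ
      split_ifs
      · exact ⟨fc_nonneg hf0 cut _, fc_le hf1 (by norm_num) cut _⟩
      · exact ⟨le_rfl, by norm_num⟩)
    (fun b => HB.p0 _) (fun b => HB.r0 _)
    (fun b hb' => by unfold hJ; rw [if_neg hb']) hd HVt.c10.1 (be := be) HVt.um0.1 HVt.um0.2
    (a := itp s0 s1 a0 a1 X.s) (β := itp s0 s1 b0 b1 X.s) (aA := aA) (βA := bA) ha hb.1
    ⟨HVt.a0'.2.2.1, HVt.a0'.2.2.2.trans (by norm_num)⟩ HVt.b0'.2.2.1 (hs1.trans hs12)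
    (fun b hb' _ => by
      rw [hhJ b hb']
      exact hrow _ (hn0 b) (hn1 b))
    (fun b _ hbey => by
      refine (hrow _ (hn0 b) (hn1 b)).trans ?_
      rw [fc_zero (HB.supp _ hbey)]
      refine exC_nonpos hsn (hn1 b) (HB.p0 _).1 ?_
      rcases HB.hiS with h | h
      · exact Or.inl ⟨by linarith, (HB.r0 _).1⟩
      · exact Or.inr (h _))
    (fun b hb' _ => by
      rw [hhJ b hb']
      exact HVt.mass _ (hn0 b) (hn1 b))
    (fun b _ hbey => by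
      refine (HVt.mass _ (hn0 b) (hn1 b)).trans ?_
      rw [fc_zero (HB.supp _ hbey)])
    (L := Ld η sl d (X.tot - 1) X.s) (E := Ed s0 s1 a0 b0 a1 b1 be um ε d (X.tot - 1) X.s)
    (lc := lc) (A0 := Ad aA bA ε (X.tot - 1) X.s) HF.lc0.1
    (HF.L1 _ _ hq0 hq1 hs0 hs1) (HF.E0 _ _ hq0 hq1 hs0 hs1) (HF.A0 _ _ hq0 hq1 hs0 hs1)
    (by unfold Ed; linarith) (by unfold Ad; linarith)
    (HF.F1 _ _ hq0 hq1 hs0 hs1) (HF.F2 _ _ hq0 hq1 hs0 hs1)
  refine ⟨lam, l0, l1, ?_⟩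
  rw [valJ_eq]
  linarith

theorem vtx : S_VTX := vtx_of vfin

end P

end

end Pool.Agent.T6J
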