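import Pool.Agent.T6J.AsmH
import Pool.Agent.T6J.Vtx
import Pool.Agent.T6J.StH

/-!
# The vertices of the certificate with hubs (MP_c6effb_co, version 4)

The value `EH.valH` of a vertex with exponent `E` and `d ≤ E` killers, full list (all clusters outside
`A`), from the rows of the degree `E` (`P.VtxOKJ`) and the final inequalities (`FinOK`; any `η`).
`vtx_data` gives the profiles, the rate factors and the numbers `um` for `EH.asmH` from the clauses of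
`H.BoxCertH`.
-/

set_option autoImplicit false

open Finset

namespace Pool.Agent.T6J

open Pool.Agent.T6A

noncomputable section

open Classical

namespace P4

/-- The part of `P.BoxOK` which the vertices use. -/
structure FunOK (s0 s1 : ℝ) (f p r : ℝ → ℝ) (f0 : ℝ) : Prop where
  s01 : 1 / 2 ≤ s0 ∧ s0 < s1 ∧ s1 ≤ 2
  hiS : s1 < 1 ∨ ∀ x, r x = 0
  f0' : f0 ≤ 10
  f0 : ∀ x, 0 ≤ f x ∧ f x ≤ f0
  p0 : ∀ x, 0 ≤ p x ∧ p x ≤ 10
  r0 : ∀ x, 0 ≤ r x ∧ r x ≤ 10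
  supp : ∀ x, 24 / 25 < x → f x = 0

theorem funOK {s0 s1 ε : ℝ} {k : ℕ} {D : ℝ} {f p r : ℝ → ℝ}
    {f0 : ℝ} (hB : P.BoxOK s0 s1 ε k D f p r f0) : FunOK s0 s1 f p r f0 :=
  ⟨hB.s01, hB.hiS, hB.f0', hB.f0, hB.p0, hB.r0, hB.supp⟩

theorem funOKH {dh s0 s1 ε : ℝ} {k : ℕ} {D : ℝ} {f p r : ℝ → ℝ}
    {f0 : ℝ} (hB : H.BoxOKH dh s0 s1 ε k D f p r f0) : FunOK s0 s1 f p r f0 :=
  ⟨hB.s01, hB.hiS, hB.f0', hB.f0, hB.p0, hB.r0, hB.supp⟩

/-- The sums see only the clusters of positive cut weight. -/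
theorem valH_congr {ι : Type} [Fintype ι] (X : World ι) {h h' p r : ι → ℝ}
    (hh : ∀ b, 0 < X.wT (24 / 25) b → h b = h' b) (e d : ℕ) (um lam σ τ' : ℝ) :
    EH.valH X (X.wT (24 / 25)) h p r e d um lam σ τ' =
      EH.valH X (X.wT (24 / 25)) h' p r e d um lam σ τ' := by
  have key : ∀ (G : ℝ → ι → ℝ), ∑ b, X.wT (24 / 25) b * G (h b) b
      = ∑ b, X.wT (24 / 25) b * G (h' b) b := by
    intro G
    refine sum_congr rfl fun b _ => ?_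
    rcases (X.wT_nonneg (24 / 25) b).eq_or_lt with h0 | h0
    · rw [← h0, zero_mul, zero_mul]
    · rw [hh b h0]
  unfold EH.valH
  have k1 := key fun x _ => lam * x
  have k2 : ∑ b, X.wT (24 / 25) b * (lam * h b) * KZero.ut um (nb X.F X.mu b)
      = ∑ b, X.wT (24 / 25) b * (lam * h' b) * KZero.ut um (nb X.F X.mu b) := by
    have := key fun x b => lam * x * KZero.ut um (nb X.F X.mu b)
    simpa only [mul_assoc] using this
  have k3 : ∑ b, X.wT (24 / 25) b * (lam * h b) ^ 2 * (((1 - nb X.F X.mu b)⁻¹) ^ e - 1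
        + KZero.ss e um * KZero.ut um (nb X.F X.mu b) ^ 2)
      = ∑ b, X.wT (24 / 25) b * (lam * h' b) ^ 2 * (((1 - nb X.F X.mu b)⁻¹) ^ e - 1
        + KZero.ss e um * KZero.ut um (nb X.F X.mu b) ^ 2) := by
    have := key fun x b => (lam * x) ^ 2 * (((1 - nb X.F X.mu b)⁻¹) ^ e - 1
        + KZero.ss e um * KZero.ut um (nb X.F X.mu b) ^ 2)
    simpa only [mul_assoc] using this
  rw [k1, k2, k3]

/-- Fewer killers: the value is larger. -/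
theorem valC_le_valH {ι : Type} [Fintype ι] (X : World ι) {h p r : ι → ℝ}
    (hp : ∀ b, 0 ≤ p b) (hr : ∀ b, 0 ≤ r b) (hn : ∀ b, nb X.F X.mu b ≤ 1) {e d : ℕ} (hde : d ≤ e)
    (um lam : ℝ) {σ τ' : ℝ} (hσ : 0 ≤ σ) (hτ : 0 ≤ τ') :
    valC X h p r e um σ τ' lam ≤ EH.valH X (X.wT (24 / 25)) h p r e d um lam σ τ' := by
  unfold valC EH.valH
  have h1 : 0 ≤ ∑ b, X.wT (24 / 25) b * (σ * (1 - nb X.F X.mu b) * p b + τ' * r b) := by
    refine sum_nonneg fun b _ => mul_nonneg (X.wT_nonneg _ b) (add_nonneg ?_ ?_)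
    · exact mul_nonneg (mul_nonneg hσ (by linarith [hn b])) (hp b)
    · exact mul_nonneg hτ (hr b)
  have h2 : (d : ℝ) ≤ e := by exact_mod_cast hde
  have h3 : (d : ℝ) * lam ^ 2 * ∑ b, X.wT (24 / 25) b
      * (σ * (1 - nb X.F X.mu b) * p b + τ' * r b) ≤
      (e : ℝ) * lam ^ 2 * ∑ b, X.wT (24 / 25) b
      * (σ * (1 - nb X.F X.mu b) * p b + τ' * r b) :=
    mul_le_mul_of_nonneg_right (mul_le_mul_of_nonneg_right h2 (sq_nonneg lam)) h1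
  linarith

/-- The tolerance. -/
def eT (ε : ℝ) : ℝ := min (ε / CV) (1 / 8)

theorem CV_pos : 0 < CV := by unfold CV; norm_num

theorem eT_pos {ε : ℝ} (hε : 0 < ε) : 0 < eT ε := lt_min (div_pos hε CV_pos) (by norm_num)

theorem eT_le {ε : ℝ} (hε : 0 ≤ ε) : eT ε ≤ ε := by
  have h1 : ε / CV ≤ ε := by
    refine div_le_self hε ?_
    unfold CV
    norm_num
  exact (min_le_left _ _).trans h1

/-- **One vertex**: exponent `E`, `d ≤ E` killers, full list, any `η`. -/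
theorem vtxH {ι : Type} [Fintype ι] (X : World ι) (hA : 0 < X.sA) (hT : X.tot ≤ 4)
    {ε η e : ℝ} (hε : 0 < ε) (he : 0 ≤ e) (hee : e ≤ eT ε)
    {q0 q1 s0 s1 sl lc f0 f0' cut : ℝ} {E d : ℕ} {f p r : ℝ → ℝ} {c1 be um a0 b0 a1 b1 aA bA : ℝ}
    (hq0 : q0 ≤ X.tot - 1) (hq1 : X.tot - 1 ≤ q1) (hs0 : s0 ≤ X.s) (hs1 : X.s ≤ s1) (hE : E ≤ 20)
    (hd : d ≤ E) (HB : FunOK s0 s1 f p r f0)
    (HVt : P.VtxOKJ s0 s1 f p r E cut c1 be um a0 b0 a1 b1 aA bA)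
    (HF : FinOK q0 q1 s0 s1 η sl ε lc f0' E c1 be um a0 b0 a1 b1 aA bA)
    (hτ : 0 ≤ 1 - X.s + eT ε) :
    ∃ lam : ℝ, 0 ≤ lam ∧ lam ≤ lc ∧ Ld η sl E (X.tot - 1) X.s ≤
      EH.valH X (X.wT (24 / 25)) (fun b => P.fc f cut (nb X.F X.mu b))
        (fun b => p (nb X.F X.mu b)) (fun b => r (nb X.F X.mu b)) E d um lam
        (X.s + 25 * e) (1 - X.s + eT ε) := by
  obtain ⟨h12, h01, hs12⟩ := HB.s01
  have hεe : CV * eT ε ≤ ε := by
    have := min_le_left (ε / CV) (1 / 8)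
    calc CV * eT ε ≤ CV * (ε / CV) := mul_le_mul_of_nonneg_left this CV_pos.le
      _ = ε := by have := CV_pos; field_simp
  have hf0 : ∀ x, 0 ≤ f x := fun x => (HB.f0 x).1
  have hf1 : ∀ x, f x ≤ 10 := fun x => (HB.f0 x).2.trans HB.f0'
  have hsn : 0 ≤ X.s := by linarith
  have hrow : ∀ x, 0 ≤ x → x ≤ 1 → itp s0 s1 a0 a1 X.s - itp s0 s1 b0 b1 X.s * x ≤
      exC X.s c1 be E um x (P.fc f cut x) (p x) (r x) := fun x x0 x1 =>
    row_itp h01 hs0 hs1 (HVt.row0 x x0 x1) (HVt.row1 x x0 x1)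
  have ha := itp_mem h01 hs0 hs1 HVt.a0'.1 HVt.a0'.2.1
  have hb := itp_mem h01 hs0 hs1 HVt.b0'.1 HVt.b0'.2.1
  have hn0 : ∀ b, 0 ≤ nb X.F X.mu b := fun b => nb_nonneg X.mu_nonneg b
  have hn1 : ∀ b, nb X.F X.mu b ≤ 1 := fun b => nb_le_one X.mu_nonneg (X.mu_sum hA) b
  obtain ⟨B, hBdef⟩ : ∃ B : Finset ι, B = univ.filter fun b => b ∉ X.A := ⟨_, rfl⟩
  have hmB : ∀ b, b ∈ B ↔ b ∉ X.A := fun b => by rw [hBdef]; simp
  have hBA : Disjoint B X.A := disjoint_left.2 fun b hb' hbA => (hmB b).1 hb' hbA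
  have hBw : ∑ i ∈ univ.filter (fun i => i ∉ X.A ∧ i ∉ B), X.w i ≤ e := by
    have h1 : univ.filter (fun i => i ∉ X.A ∧ i ∉ B) = ∅ := by
      rw [filter_eq_empty_iff]
      rintro i - ⟨h2, h3⟩
      exact h3 ((hmB i).2 h2)
    rw [h1, sum_empty]
    exact he
  have hhJ : ∀ b ∈ B, P.hJ X B f cut b = P.fc f cut (nb X.F X.mu b) := by
    intro b hb'
    unfold P.hJ
    rw [if_pos hb']
  obtain ⟨lam, l0, l1, l2⟩ := vtx_core vfin X hA hT hBA he hee hεe hBw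
    (h := P.hJ X B f cut) (p := fun b => p (nb X.F X.mu b)) (r := fun b => r (nb X.F X.mu b))
    (fun b => by
      unfold P.hJ
      split_ifs
      · exact ⟨P.fc_nonneg hf0 cut _, P.fc_le hf1 (by norm_num) cut _⟩
      · exact ⟨le_rfl, by norm_num⟩)
    (fun b => HB.p0 _) (fun b => HB.r0 _)
    (fun b hb' => by unfold P.hJ; rw [if_neg hb']) hE HVt.c10.1 (be := be) HVt.um0.1 HVt.um0.2
    (a := itp s0 s1 a0 a1 X.s) (β := itp s0 s1 b0 b1 X.s) (aA := aA) (βA := bA) ha hb.1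
    ⟨HVt.a0'.2.2.1, HVt.a0'.2.2.2.trans (by norm_num)⟩ HVt.b0'.2.2.1 (hs1.trans hs12)
    (fun b hb' _ => by
      rw [hhJ b hb']
      exact hrow _ (hn0 b) (hn1 b))
    (fun b _ hbey => by
      refine (hrow _ (hn0 b) (hn1 b)).trans ?_
      rw [P.fc_zero (HB.supp _ hbey)]
      refine exC_nonpos hsn (hn1 b) (HB.p0 _).1 ?_
      rcases HB.hiS with h | h
      · exact Or.inl ⟨by linarith, (HB.r0 _).1⟩
      · exact Or.inr (h _))
    (fun b hb' _ => by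
      rw [hhJ b hb']
      exact HVt.mass _ (hn0 b) (hn1 b))
    (fun b _ hbey => by
      refine (HVt.mass _ (hn0 b) (hn1 b)).trans ?_
      rw [P.fc_zero (HB.supp _ hbey)])
    (L := Ld η sl E (X.tot - 1) X.s) (E := Ed s0 s1 a0 b0 a1 b1 be um ε E (X.tot - 1) X.s)
    (lc := lc) (A0 := Ad aA bA ε (X.tot - 1) X.s) HF.lc0.1
    (HF.L1 _ _ hq0 hq1 hs0 hs1) (HF.E0 _ _ hq0 hq1 hs0 hs1) (HF.A0 _ _ hq0 hq1 hs0 hs1)
    (by unfold Ed; linarith) (by unfold Ad; linarith)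
    (HF.F1 _ _ hq0 hq1 hs0 hs1) (HF.F2 _ _ hq0 hq1 hs0 hs1)
  refine ⟨lam, l0, l1, ?_⟩
  have h1 : EH.valH X (X.wT (24 / 25)) (fun b => P.fc f cut (nb X.F X.mu b))
        (fun b => p (nb X.F X.mu b)) (fun b => r (nb X.F X.mu b)) E d um lam
        (X.s + 25 * e) (1 - X.s + eT ε) = EH.valH X (X.wT (24 / 25)) (P.hJ X B f cut)
        (fun b => p (nb X.F X.mu b)) (fun b => r (nb X.F X.mu b)) E d um lam
        (X.s + 25 * e) (1 - X.s + eT ε) := by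
    refine valH_congr X (fun b hb' => ?_) E d um lam _ _
    exact (hhJ b ((hmB b).2 (X.of_wT_pos hb').1)).symm
  rw [h1]
  exact l2.trans (valC_le_valH X (fun b => (HB.p0 _).1) (fun b => (HB.r0 _).1) hn1 hd um lam
    (by linarith) hτ)

/-- The rows of the degrees without giants. -/
def Rows0 (η ε q0 q1 s0 s1 : ℝ) (dmin dmax : ℕ) (f p r : ℝ → ℝ) (f0 sl : ℝ) : Prop :=
  ∀ d : ℕ, dmin ≤ d → d < dmax → ∃ (cut c1 be um a0 b0 a1 b1 aA bA lc : ℝ),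
    P.VtxOKJ s0 s1 f p r d cut c1 be um a0 b0 a1 b1 aA bA ∧
    FinOK q0 q1 s0 s1 η sl ε lc f0 d c1 be um a0 b0 a1 b1 aA bA

/-- The rows of the hubs. -/
def RowsH (η ε q0 q1 s0 s1 : ℝ) (dmin dmax : ℕ) (f p r : ℝ → ℝ) (f0 sl : ℝ) : Prop :=
  ∀ d : ℕ, 1 ≤ d → H.dL dmin d < dmax → ∃ (cut c1 be um a0 b0 a1 b1 aA bA lc : ℝ),
    P.VtxOKJ s0 s1 f p r d cut c1 be um a0 b0 a1 b1 aA bA ∧
    FinOK q0 q1 s0 s1 (η - sl * ((H.dL dmin d : ℝ) - d)) sl ε lc f0 d c1 be um a0 b0 a1 b1 aA bA ∧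
    ∀ x : ℝ, 0 ≤ x → x ≤ 1 → 2 * (lc * P.fc f cut x) ≤ (1 - ε) * (1 - x)

theorem fc_le_self {f : ℝ → ℝ} (hf : ∀ x, 0 ≤ f x) (cut x : ℝ) : P.fc f cut x ≤ f x := by
  unfold P.fc
  split_ifs
  · exact le_rfl
  · exact hf x

theorem Ld_anti {η sl q s : ℝ} (hsl : 0 ≤ sl) {a b : ℕ} (h : a ≤ b) :
    Ld η sl b q s ≤ Ld η sl a q s := by
  unfold Ld
  have h1 : (a : ℝ) ≤ b := by exact_mod_cast h
  have h2 : sl * ((a : ℝ) - 2 * q) ≤ sl * ((b : ℝ) - 2 * q) :=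
    mul_le_mul_of_nonneg_left (by linarith) hsl
  linarith

/-- The value with `lam = 0`. -/
theorem valH_zero {ι : Type} [Fintype ι] (X : World ι) (w h p r : ι → ℝ) (e d : ℕ)
    (um σ τ' : ℝ) : EH.valH X w h p r e d um 0 σ τ' = 0 := by
  unfold EH.valH
  simp

/-- One vertex `v` with `d` killers, `j` giants: profile, rate factor, `um`. -/
theorem vtx_one {ι : Type} [Fintype ι] (X : World ι) (hA : 0 < X.sA) (hT : X.tot ≤ 4)
    {ε η e : ℝ} (hε : 0 < ε) (he : 0 ≤ e) (hee : e ≤ eT ε)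
    {q0 q1 s0 s1 sl f0 : ℝ} {dmin dmax : ℕ} {f p r : ℝ → ℝ}
    (hq0 : q0 ≤ X.tot - 1) (hq1 : X.tot - 1 ≤ q1) (hs0 : s0 ≤ X.s) (hs1 : X.s ≤ s1)
    (hmax : dmax ≤ 20) (hsl : 0 ≤ sl) (HB : FunOK s0 s1 f p r f0)
    (hL : Ld η sl dmax (X.tot - 1) X.s ≤ 0)
    (H0 : Rows0 η ε q0 q1 s0 s1 dmin dmax f p r f0 sl)
    (HH : RowsH η ε q0 q1 s0 s1 dmin dmax f p r f0 sl)
    (hτ : 0 ≤ 1 - X.s + eT ε) (d j : ℕ) (hdj : dmin ≤ d + j) :
    ∃ (h : ι → ℝ) (lam um : ℝ), (∀ b, 0 ≤ h b) ∧ (∀ b, h b ≤ f (nb X.F X.mu b)) ∧ 0 ≤ lam ∧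
      0 < um ∧ um ≤ 1 ∧
      (∀ b, 2 * (lam * h b) ≤ (1 - e) * (1 - nb X.F X.mu b) ^ (if j ≠ 0 then 1 else 0)) ∧
      Ld η sl (d + 2 * j) (X.tot - 1) X.s ≤
        EH.valH X (X.wT (24 / 25)) h (fun b => p (nb X.F X.mu b)) (fun b => r (nb X.F X.mu b))
          (d + if j ≠ 0 then 1 else 0) d um lam (X.s + 25 * e) (1 - X.s + eT ε) := by
  have hn0 : ∀ b, 0 ≤ nb X.F X.mu b := fun b => nb_nonneg X.mu_nonneg b
  have hn1 : ∀ b, nb X.F X.mu b ≤ 1 := fun b => nb_le_one X.mu_nonneg (X.mu_sum hA) b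
  have heε : e ≤ ε := hee.trans (eT_le hε.le)
  have he8 : e ≤ 1 / 8 := hee.trans (min_le_right _ _)
  have hf0 : ∀ x, 0 ≤ f x := fun x => (HB.f0 x).1
  have triv : Ld η sl (d + 2 * j) (X.tot - 1) X.s ≤ 0 → ∃ (h : ι → ℝ) (lam um : ℝ),
      (∀ b, 0 ≤ h b) ∧ (∀ b, h b ≤ f (nb X.F X.mu b)) ∧ 0 ≤ lam ∧
      0 < um ∧ um ≤ 1 ∧
      (∀ b, 2 * (lam * h b) ≤ (1 - e) * (1 - nb X.F X.mu b) ^ (if j ≠ 0 then 1 else 0)) ∧
      Ld η sl (d + 2 * j) (X.tot - 1) X.s ≤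
        EH.valH X (X.wT (24 / 25)) h (fun b => p (nb X.F X.mu b)) (fun b => r (nb X.F X.mu b))
          (d + if j ≠ 0 then 1 else 0) d um lam (X.s + 25 * e) (1 - X.s + eT ε) := by
    intro h1
    refine ⟨fun _ => 0, 0, 1, fun _ => le_rfl, fun b => hf0 _, le_rfl, one_pos, le_rfl, ?_, ?_⟩
    · intro b
      have : 0 ≤ (1 - nb X.F X.mu b) ^ (if j ≠ 0 then 1 else 0 : ℕ) :=
        pow_nonneg (by linarith [hn1 b]) _
      rw [mul_zero, mul_zero]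
      exact mul_nonneg (by linarith) this
    · rw [valH_zero]
      exact h1
  rcases Nat.eq_zero_or_pos j with hj | hj
  · subst hj
    rcases lt_or_ge d dmax with hd | hd
    · obtain ⟨cut, c1, be, um, a0, b0, a1, b1, aA, bA, lc, HV, HF⟩ :=
        H0 d (by simpa using hdj) hd
      obtain ⟨lam, l0, l1, l2⟩ := vtxH X hA hT hε he hee hq0 hq1 hs0 hs1 (by omega) (le_refl d) HB
        HV HF hτ
      refine ⟨fun b => P.fc f cut (nb X.F X.mu b), lam, um, fun b => P.fc_nonneg hf0 cut _,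
        fun b => ?_, l0, HV.um0.1, HV.um0.2, fun b => ?_, ?_⟩
      · exact fc_le_self hf0 cut _
      · have h1 : P.fc f cut (nb X.F X.mu b) ≤ f0 := (fc_le_self hf0 cut _).trans (HB.f0 _).2
        have h2 := P.fc_nonneg hf0 cut (nb X.F X.mu b)
        have h3 := HF.load
        have h4 : lam * P.fc f cut (nb X.F X.mu b) ≤ lc * f0 := mul_le_mul l1 h1 h2 HF.lc0.1.le
        simp only [ne_eq, not_true_eq_false, if_false, pow_zero, mul_one]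
        linarith
      · simpa using l2
    · refine triv ((Ld_anti hsl ?_).trans hL)
      omega
  · have hj' : j ≠ 0 := hj.ne'
    rcases lt_or_ge (H.dL dmin (d + 1)) dmax with hd | hd
    · obtain ⟨cut, c1, be, um, a0, b0, a1, b1, aA, bA, lc, HV, HF, HLd⟩ :=
        HH (d + 1) (by omega) hd
      have hE20 : d + 1 ≤ 20 := by
        have : d + 1 + 1 ≤ H.dL dmin (d + 1) := le_max_left _ _
        omega
      obtain ⟨lam, l0, l1, l2⟩ := vtxH X hA hT hε he hee hq0 hq1 hs0 hs1 hE20 (Nat.le_succ d) HB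
        HV HF hτ
      refine ⟨fun b => P.fc f cut (nb X.F X.mu b), lam, um, fun b => P.fc_nonneg hf0 cut _,
        fun b => ?_, l0, HV.um0.1, HV.um0.2, fun b => ?_, ?_⟩
      · exact fc_le_self hf0 cut _
      · have h2 := P.fc_nonneg hf0 cut (nb X.F X.mu b)
        have h3 := HLd _ (hn0 b) (hn1 b)
        have h4 : lam * P.fc f cut (nb X.F X.mu b) ≤ lc * P.fc f cut (nb X.F X.mu b) :=
          mul_le_mul_of_nonneg_right l1 h2
        have h5 : (1 - ε) * (1 - nb X.F X.mu b) ≤ (1 - e) * (1 - nb X.F X.mu b) :=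
          mul_le_mul_of_nonneg_right (by linarith) (by linarith [hn1 b])
        rw [if_pos hj', pow_one]
        linarith
      · rw [if_pos hj']
        rw [H.Ld_shift] at l2
        exact le_trans (Ld_anti hsl (H.dL_le hj hdj)) l2
    · exact triv ((Ld_anti hsl (hd.trans (H.dL_le hj hdj))).trans hL)

/-- **The data of all vertices for `EH.asmH`**: `Z` = vertices where nothing is required. -/
theorem vtx_data {V ι : Type} [Fintype ι] (X : World ι) (hA : 0 < X.sA) (hT : X.tot ≤ 4)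
    {ε η e : ℝ} (hε : 0 < ε) (he : 0 ≤ e) (hee : e ≤ eT ε)
    {q0 q1 s0 s1 sl f0 : ℝ} {dmin dmax : ℕ} {f p r : ℝ → ℝ}
    (hq0 : q0 ≤ X.tot - 1) (hq1 : X.tot - 1 ≤ q1) (hs0 : s0 ≤ X.s) (hs1 : X.s ≤ s1)
    (hmax : dmax ≤ 20) (hsl : 0 ≤ sl) (HB : FunOK s0 s1 f p r f0)
    (hL : Ld η sl dmax (X.tot - 1) X.s ≤ 0)
    (H0 : Rows0 η ε q0 q1 s0 s1 dmin dmax f p r f0 sl)
    (HH : RowsH η ε q0 q1 s0 s1 dmin dmax f p r f0 sl)
    (hτ : 0 ≤ 1 - X.s + eT ε) (dd jj : V → ℕ) (Z : Finset V)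
    (hZ : ∀ v, v ∉ Z → dmin ≤ dd v + jj v) :
    ∃ (hh : V → ι → ℝ) (lam um : V → ℝ), (∀ v b, 0 ≤ hh v b) ∧
      (∀ v b, hh v b ≤ f (nb X.F X.mu b)) ∧ (∀ v, 0 ≤ lam v) ∧ (∀ v ∈ Z, lam v = 0) ∧
      (∀ v, 0 < um v) ∧ (∀ v, um v ≤ 1) ∧
      (∀ v b, 2 * (lam v * hh v b) ≤
        (1 - e) * (1 - nb X.F X.mu b) ^ (if jj v ≠ 0 then 1 else 0)) ∧
      ∀ v, (if v ∈ Z then 0 else 1 - X.s + η - sl * ((dd v : ℝ) + 2 * jj v
          - 2 * (X.tot - 1))) ≤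
        EH.valH X (X.wT (24 / 25)) (hh v) (fun b => p (nb X.F X.mu b))
          (fun b => r (nb X.F X.mu b)) (dd v + if jj v ≠ 0 then 1 else 0) (dd v) (um v) (lam v)
          (X.s + 25 * e) (1 - X.s + eT ε) := by
  have hn1 : ∀ b, nb X.F X.mu b ≤ 1 := fun b => nb_le_one X.mu_nonneg (X.mu_sum hA) b
  have he8 : e ≤ 1 / 8 := hee.trans (min_le_right _ _)
  have key : ∀ v, ∃ (h : ι → ℝ) (lam um : ℝ), (∀ b, 0 ≤ h b) ∧
      (∀ b, h b ≤ f (nb X.F X.mu b)) ∧ 0 ≤ lam ∧ (v ∈ Z → lam = 0) ∧ 0 < um ∧ um ≤ 1 ∧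
      (∀ b, 2 * (lam * h b) ≤ (1 - e) * (1 - nb X.F X.mu b) ^ (if jj v ≠ 0 then 1 else 0)) ∧
      (if v ∈ Z then 0 else 1 - X.s + η - sl * ((dd v : ℝ) + 2 * jj v - 2 * (X.tot - 1))) ≤
        EH.valH X (X.wT (24 / 25)) h (fun b => p (nb X.F X.mu b)) (fun b => r (nb X.F X.mu b))
          (dd v + if jj v ≠ 0 then 1 else 0) (dd v) um lam (X.s + 25 * e) (1 - X.s + eT ε) := by
    intro v
    by_cases hv : v ∈ Z
    · refine ⟨fun _ => 0, 0, 1, fun _ => le_rfl, fun b => (HB.f0 _).1, le_rfl, fun _ => rfl,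
        one_pos, le_rfl, ?_, ?_⟩
      · intro b
        have : 0 ≤ (1 - nb X.F X.mu b) ^ (if jj v ≠ 0 then 1 else 0 : ℕ) :=
          pow_nonneg (by linarith [hn1 b]) _
        rw [mul_zero, mul_zero]
        exact mul_nonneg (by linarith) this
      · rw [if_pos hv, valH_zero]
    · obtain ⟨h, lam, um, k1, k2, k3, k4, k5, k6, k7⟩ := vtx_one X hA hT hε he hee hq0 hq1 hs0 hs1
        hmax hsl HB hL H0 HH hτ (dd v) (jj v) (hZ v hv)
      refine ⟨h, lam, um, k1, k2, k3, fun h => absurd h hv, k4, k5, k6, ?_⟩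
      rw [if_neg hv]
      refine le_trans (le_of_eq ?_) k7
      unfold Ld
      push_cast
      ring
  choose hh lam um k1 k2 k3 k4 k5 k6 k7 k8 using key
  exact ⟨hh, lam, um, k1, k2, k3, k4, k5, k6, k7, k8⟩

end P4

end

end Pool.Agent.T6J
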