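import Pool.Agent.T6J.VtxCore

/-!
# One vertex with a smaller list, in terms of clusters (MP_c6effb_co)

As `vtx_core`, but the list `B` of the vertex may miss the weight `m0 + e` outside `A` (hub vertices:
`m0 = s`), and the two dual functions cost at most `Mo` at the missing clusters.
-/

set_option autoImplicit false

open Finset

namespace Pool.Agent.T6J

open Pool.Agent.T6A

noncomputable section

open Classical

variable {ι : Type} [Fintype ι]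

/-- The arithmetic of the small terms, missing weight `m0`. -/
theorem small_terms_hub {A U R P Q s ss c1 be a β W E e e₀ ε m0 Mo : ℝ} {d : ℝ} (he : 0 ≤ e)
    (he0 : e ≤ e₀) (hε : CV * e₀ ≤ ε) (hss : 0 ≤ ss) (ha : 0 ≤ a ∧ a ≤ 1000)
    (hMo : 0 ≤ Mo ∧ Mo ≤ 1000)
    (hR : R ≤ 100 * (25 ^ 20 + 20) * 4) (hP : d * P ≤ 800) (hQ : d * Q ≤ 800)
    (hrow : a * (W - (m0 + e)) - β * s - Mo * (m0 + e) ≤
      c1 * A + 2 * be * ss * U - s * (R + d * P) - (1 - s) * (d * Q))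
    (hE : E + ss * be ^ 2 + ε ≤ a * (W - m0) - β * s - Mo * m0) :
    A ^ 2 - ss * U ^ 2 + (s + 25 * e) * R + d * ((s + 25 * e) * P + (1 - s + e₀) * Q)
      ≤ A ^ 2 + c1 * A - E := by
  have h1 : a * ((W - m0 - Mo * m0 * 0) - e) - β * s - 1000 * e ≤
      c1 * A + 2 * be * ss * U - s * (R + d * P) - (1 - s) * (d * Q) + Mo * m0 := by
    have h2 : Mo * e ≤ 1000 * e := mul_le_mul_of_nonneg_right hMo.2 he
    have e1 : a * (W - (m0 + e)) = a * ((W - m0 - Mo * m0 * 0) - e) := by ring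
    have e2 : Mo * (m0 + e) = Mo * m0 + Mo * e := by ring
    rw [e1, e2] at hrow
    linarith
  -- shift `E` by `Mo * m0`
  have h3 : A ^ 2 - ss * U ^ 2 + (s + 25 * e) * R + d * ((s + 25 * e) * P + (1 - s + e₀) * Q)
      ≤ A ^ 2 + (c1 * A + Mo * m0) - (E + Mo * m0) := by
    have he0' : 0 ≤ e₀ := he.trans he0
    have hU : ss * (2 * be * U - be ^ 2) ≤ ss * U ^ 2 :=
      mul_le_mul_of_nonneg_left (by nlinarith [sq_nonneg (U - be)]) hss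
    have j1 : e * R ≤ e₀ * (100 * (25 ^ 20 + 20) * 4) :=
      (mul_le_mul_of_nonneg_left hR he).trans (mul_le_mul_of_nonneg_right he0 (by norm_num))
    have j2 : e * (d * P) ≤ e₀ * 800 :=
      (mul_le_mul_of_nonneg_left hP he).trans (mul_le_mul_of_nonneg_right he0 (by norm_num))
    have j3 : e₀ * (d * Q) ≤ e₀ * 800 := mul_le_mul_of_nonneg_left hQ he0'
    have j4 : a * e ≤ 1000 * e₀ := mul_le_mul ha.2 he0 he (by norm_num)
    have e1 : ss * (2 * be * U - be ^ 2) = 2 * be * ss * U - ss * be ^ 2 := by ring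
    have e2 : (s + 25 * e) * R + d * ((s + 25 * e) * P + (1 - s + e₀) * Q)
        = (s * (R + d * P) + (1 - s) * (d * Q)) + 25 * (e * R) + 25 * (e * (d * P))
          + e₀ * (d * Q) := by ring
    have e3 : a * ((W - m0 - Mo * m0 * 0) - e) = a * (W - m0) - a * e := by ring
    have e4 : CV * e₀ = 25 * (e₀ * (100 * (25 ^ 20 + 20) * 4)) + 25 * (e₀ * 800) + e₀ * 800
        + 1000 * e₀ + 1000 * e₀ := by
      unfold CV
      ring
    rw [e1] at hU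
    rw [e3] at h1
    rw [e4] at hε
    have e5 : A ^ 2 - ss * U ^ 2 + (s + 25 * e) * R
        + d * ((s + 25 * e) * P + (1 - s + e₀) * Q)
        = A ^ 2 - ss * U ^ 2 + ((s + 25 * e) * R + d * ((s + 25 * e) * P + (1 - s + e₀) * Q)) := by
      ring
    rw [e5, e2]
    linarith
  linarith

/-- **One vertex**, missing weight `m0`. -/
theorem vtx_core_hub (hV : VFin) (X : World ι) (hA : 0 < X.sA) (hT : X.tot ≤ 4) {B : Finset ι}
    (hB : Disjoint B X.A) {e e₀ ε : ℝ} (he : 0 ≤ e) (he0 : e ≤ e₀) (hε : CV * e₀ ≤ ε)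
    {m0 Mo : ℝ}
    (hBw : ∑ i ∈ univ.filter (fun i => i ∉ X.A ∧ i ∉ B), X.w i ≤ m0 + e)
    (hMo : 0 ≤ Mo ∧ Mo ≤ 1000) {h p r : ι → ℝ}
    (hh : ∀ b, 0 ≤ h b ∧ h b ≤ 10) (hp : ∀ b, 0 ≤ p b ∧ p b ≤ 10) (hr : ∀ b, 0 ≤ r b ∧ r b ≤ 10)
    (hhB : ∀ b, b ∉ B → h b = 0) {d : ℕ} (hd : d ≤ 20) {c1 be um : ℝ} (hc : 0 ≤ c1)
    (hu : 0 < um) (hu1 : um ≤ 1) {a β aA βA : ℝ} (ha : 0 ≤ a ∧ a ≤ 1000)
    (hβ : 0 ≤ β) (haA : 0 ≤ aA ∧ aA ≤ 1000) (hβA : 0 ≤ βA)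
    (hout : ∀ b, b ∉ X.A → b ∉ B → -Mo ≤ exC X.s c1 be d um (nb X.F X.mu b) 0 (p b) (r b))
    (hrow : ∀ b ∈ B, nb X.F X.mu b ≤ 24 / 25 →
      a - β * nb X.F X.mu b ≤ exC X.s c1 be d um (nb X.F X.mu b) (h b) (p b) (r b))
    (hbey : ∀ b ∈ B, 24 / 25 < nb X.F X.mu b → a - β * nb X.F X.mu b ≤ 0)
    (hmass : ∀ b ∈ B, nb X.F X.mu b ≤ 24 / 25 → aA - βA * nb X.F X.mu b ≤ h b)
    (hmbey : ∀ b ∈ B, 24 / 25 < nb X.F X.mu b → aA - βA * nb X.F X.mu b ≤ 0)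
    {L E lc A0 : ℝ} (hlc : 0 < lc) (hL : L < 1) (hE0 : 0 ≤ E) (hA0 : 0 ≤ A0)
    (hE : E + KZero.ss d um * be ^ 2 + ε ≤ a * (X.tot - X.s - m0) - β * X.s - Mo * m0)
    (hA00 : A0 + ε ≤ aA * (X.tot - X.s - m0) - βA * X.s)
    (hF1 : c1 ^ 2 * L ≤ 4 * E * (1 - L))
    (hF2 : L ≤ 2 * lc * A0 - lc ^ 2 * (A0 ^ 2 + c1 * A0 - E)) :
    ∃ lam : ℝ, 0 ≤ lam ∧ lam ≤ lc ∧ L ≤ valC X h p r d um (X.s + 25 * e) (1 - X.s + e₀) lam := by
  have he0' : 0 ≤ e₀ := he.trans he0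
  have hd20 : (d : ℝ) ≤ 20 := by exact_mod_cast hd
  have hd0 : (0 : ℝ) ≤ d := Nat.cast_nonneg d
  have hrowsum := row_sum X hA hB hBw (x := fun b =>
    exC X.s c1 be d um (nb X.F X.mu b) (h b) (p b) (r b)) (a := a) (β := β) (M := Mo)
    ha.1 hβ hMo.1 hrow hbey (fun b hbA hbB => by
      show -Mo ≤ exC X.s c1 be d um (nb X.F X.mu b) (h b) (p b) (r b)
      rw [hhB b hbB]
      exact hout b hbA hbB)
  rw [sum_exC] at hrowsum
  have hmasssum := row_sum X hA hB hBw (x := h) (a := aA) (β := βA) (M := 0)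
    haA.1 hβA le_rfl hmass hmbey (fun b _ hbB => by rw [hhB b hbB, neg_zero])
  have hP0 : (d : ℝ) * sP X p ≤ 800 := by
    have h1 := sP_le X hT hp
    nlinarith
  have hQ1 : sA X r ≤ 10 * 4 := wT_sum_le X (by norm_num) hT fun b _ => (hr b).2
  have hQ0 : (d : ℝ) * sA X r ≤ 800 := by nlinarith
  have hcmp := small_terms_hub he he0 hε (KZero.ss_nonneg d hu hu1) ha hMo
    (sR_le X hT hh hd hu hu1)
    hP0 hQ0 hrowsum hE
  have hAge : A0 ≤ sA X h := by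
    have j4 : aA * e ≤ 1000 * e₀ := mul_le_mul haA.2 he0 he (by norm_num)
    have j5 : 1000 * e₀ ≤ CV * e₀ := mul_le_mul_of_nonneg_right (by unfold CV; norm_num) he0'
    have j6 : aA * (X.tot - X.s - (m0 + e)) - βA * X.s - 0 * (m0 + e) ≤ sA X h := hmasssum
    have e1 : aA * (X.tot - X.s - (m0 + e)) = aA * (X.tot - X.s - m0) - aA * e := by ring
    rw [e1] at j6
    linarith
  obtain ⟨lam, l0, l1, l2⟩ := hV L c1 E lc A0 (sA X h) hc hlc hL hE0 hA0 hAge hF1 hF2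
  refine ⟨lam, l0, l1, ?_⟩
  rw [valC_eq]
  have := mul_le_mul_of_nonneg_left hcmp (sq_nonneg lam)
  linarith

end

end Pool.Agent.T6J
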